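import Pool.Agent.Lib.MP_2619d0_ag.N.P0
import Pool.Agent.Lib.MP_2619d0_ag.T.Defs

/-!
Definitions for the assembly (section 7 of /team-store/2619NP_paper_helper9.md).
-/

set_option autoImplicit false

namespace MP2619.N

open scoped NNReal
open IntermediateField MP2619.R Pool.Agent.Lib.MP_2619d0_ag Pool.Agent.Lib.MP_2619d0_ag.T

/-- `ℚ(z)` inside `ℂ` -/
noncomputable abbrev Qz {J : Type} (z : J → ℂ) : IntermediateField ℚ ℂ := adjoin ℚ (Set.range z)

/-- the two-adic absolute value of `ℚ` -/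
structure IsTwo (v : Valuation ℚ ℝ≥0) : Prop where
  two : v 2 = 2⁻¹
  odd : ∀ p : ℤ, Odd p → v p = 1

/-- The cubic form, the transcendence basis `z` of `ℂ` adapted to its coefficients, the algebraically closed
field `A` and the indeterminates `u`, `l`. -/
structure Ctx {n : ℕ} (F : MvPolynomial (Fin n) ℂ) {J : Type} (z : Exp3 n ⊕ J → ℂ) {A : Type}
    [Field A] [Algebra ℂ A] (u l : Fin n → A) : Prop where
  hom : F.IsHomogeneous 3
  tb : IsTranscendenceBasis ℚ z
  cf : ∀ d : Exp3 n, MvPolynomial.coeff d.1 F =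
    (if ∃ i, d.1 = Finsupp.single i 3 then 1 else 0) + 2 * z (Sum.inl d)
  ind : AlgebraicIndependent ℂ (Sum.elim u l)
  alg : Algebra.IsAlgebraic (adjoin ℂ (Set.range (Sum.elim u l))) A
  closed : IsAlgClosed A

/-- all indeterminates: a transcendence basis of `A` over `ℚ` -/
noncomputable def zeta {I : Type} (z : I → ℂ) {A : Type} [Field A] [Algebra ℂ A] {n : ℕ}
    (u l : Fin n → A) : I ⊕ (Fin n ⊕ Fin n) → A :=
  Sum.elim (fun s => algebraMap ℂ A (z s)) (Sum.elim u l)

open Classical in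
/-- the weights: `r` for the index `i0`, one for the other ones -/
noncomputable def wts {I : Type} (i0 : I) (r : ℝ≥0) : I → ℝ≥0 := fun s => if s = i0 then r else 1

/-- the exponent of `X_a X_b X_c` -/
noncomputable def e3 {n : ℕ} (a b c : Fin n) : Fin n →₀ ℕ :=
  Finsupp.single a 1 + Finsupp.single b 1 + Finsupp.single c 1

/-- The data over a finite extension `k1` of `ℚ(z)`. -/
structure Dat {n : ℕ} (F : MvPolynomial (Fin n) ℂ) {I : Type} (z : I → ℂ)
    (k1 : IntermediateField (Qz z) ℂ) (w : k1) {M1 : Type} [Field M1] [Algebra k1 M1]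
    (x y : Fin n → M1) : Prop where
  fin : FiniteDimensional (Qz z) k1
  om : w ^ 2 + w + 1 = 0
  eqs : ∃ Fk : MvPolynomial (Fin n) k1, MvPolynomial.map (algebraMap k1 ℂ) Fk = F ∧
    MvPolynomial.aeval x Fk = 0 ∧ MvPolynomial.aeval y Fk = 0
  fg : ∃ z0 : Fin n → M1, AlgebraicIndependent k1 z0 ∧
    Module.finrank (adjoin k1 (Set.range z0)) M1 ≠ 0

/-- the vector `γ x + y`, `γ` a vector of cube roots of unity given by its exponents -/
noncomputable def zg {k1 M1 : Type} [Field k1] [Field M1] [Algebra k1 M1] (w : k1) {n : ℕ}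
    (x y : Fin n → M1) (γ : Fin n → ZMod 3) : Fin n → M1 :=
  fun i => algebraMap k1 M1 (w ^ (γ i).val) * x i + y i

/-- the embeddings `τ` with `τ (γ x + y) = u` -/
abbrev Tg {k1 M1 A : Type} [Field k1] [Field M1] [Field A] [Algebra k1 M1] [Algebra k1 A] (w : k1)
    {n : ℕ} (u : Fin n → A) (x y : Fin n → M1) (γ : Fin n → ZMod 3) : Type :=
  {τ : M1 →ₐ[k1] A // ∀ i, τ (zg w x y γ i) = u i}

/-- the number of good embeddings -/
noncomputable def gc {k1 M1 A : Type} [Field k1] [Field M1] [Field A] [Algebra k1 M1] [Algebra k1 A]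
    (V : Valuation A ℝ≥0) (w : k1) {n : ℕ} (u : Fin n → A) (x y : Fin n → M1)
    (γ : Fin n → ZMod 3) : ℕ :=
  Nat.card {τ : M1 →ₐ[k1] A // (∀ i, τ (zg w x y γ i) = u i) ∧ ∀ i, V (τ (x i)) ≤ 1}

end MP2619.N
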