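import Pool.Agent.Lib.MP_2619d0_ag.N.A0
import Pool.Agent.Lib.MP_2619d0_ag.K.K1

/-!
Row 2619n-A1: the context exists; the two-adic absolute value; the family `zeta` is a transcendence basis.
-/

set_option autoImplicit false

namespace MP2619.N

open scoped NNReal
open IntermediateField MP2619.R Pool.Agent.Lib.MP_2619d0_ag Pool.Agent.Lib.MP_2619d0_ag.T

/-- from `padicNorm 2` / `padicValRat 2` -/
theorem exists_two : ∃ v : Valuation ℚ ℝ≥0, IsTwo v := by
  refine ⟨(NormedField.valuation (K := ℚ_[2])).comap (algebraMap ℚ ℚ_[2]), ?_, ?_⟩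
  · rw [Valuation.comap_apply, NormedField.valuation_apply, map_ofNat]
    apply NNReal.coe_injective
    have h := Padic.norm_p (p := 2)
    rw [coe_nnnorm, NNReal.coe_inv]
    exact_mod_cast h
  · intro p hp
    rw [Valuation.comap_apply, NormedField.valuation_apply, map_intCast]
    apply NNReal.coe_injective
    rw [coe_nnnorm, NNReal.coe_one]
    refine le_antisymm (Padic.norm_int_le_one p) (not_lt.1 fun h => ?_)
    rw [Padic.norm_intCast_lt_one_iff] at h
    have h2 : (2 : ℤ) ∣ p := by exact_mod_cast h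
    exact (Int.not_even_iff_odd.2 hp) (even_iff_two_dvd.2 h2)

private theorem A1_indep {J : Type} (a : J → ℂ) (ha : AlgebraicIndependent ℚ a) (δ : J → ℚ) :
    AlgebraicIndependent ℚ (fun j => (a j - δ j) / 2) := by
  let s : MvPolynomial J ℚ →ₐ[ℚ] MvPolynomial J ℚ :=
    MvPolynomial.aeval fun j => MvPolynomial.C (1 / 2) * (MvPolynomial.X j - MvPolynomial.C (δ j))
  let s' : MvPolynomial J ℚ →ₐ[ℚ] MvPolynomial J ℚ :=
    MvPolynomial.aeval fun j => MvPolynomial.C 2 * MvPolynomial.X j + MvPolynomial.C (δ j)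
  have hss : s'.comp s = AlgHom.id ℚ _ := by
    apply MvPolynomial.algHom_ext
    intro j
    simp only [s, s', AlgHom.comp_apply, MvPolynomial.aeval_X, map_mul, map_sub,
      MvPolynomial.algHom_C, AlgHom.id_apply, MvPolynomial.algebraMap_eq]
    rw [add_sub_cancel_right, ← mul_assoc, ← MvPolynomial.C_mul]
    norm_num
  have hs : Function.Injective s := by
    intro p q hpq
    have h2 := congrArg s' hpq
    rw [← AlgHom.comp_apply, ← AlgHom.comp_apply, hss] at h2
    exact h2
  have h3 : (MvPolynomial.aeval (fun j => (a j - δ j) / 2) : MvPolynomial J ℚ →ₐ[ℚ] ℂ) =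
      (MvPolynomial.aeval a).comp s := by
    apply MvPolynomial.algHom_ext
    intro j
    simp only [s, AlgHom.comp_apply, MvPolynomial.aeval_X, map_mul, map_sub, MvPolynomial.algHom_C]
    simp
    ring
  unfold AlgebraicIndependent
  rw [h3]
  exact Function.Injective.comp (g := (MvPolynomial.aeval a : MvPolynomial J ℚ →ₐ[ℚ] ℂ)) ha hs

/-- an algebraically independent family is part of a transcendence basis -/
private theorem A1_ext {I : Type} (x : I → ℂ) (hx : AlgebraicIndependent ℚ x) :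
    ∃ (J : Type) (z : I ⊕ J → ℂ), IsTranscendenceBasis ℚ z ∧ ∀ i, z (Sum.inl i) = x i := by
  obtain ⟨t, ht1, ht2⟩ := exists_isTranscendenceBasis_superset hx.to_subtype_range
  have hinj : Function.Injective x := hx.injective
  let f : I ⊕ {c : t // (c : ℂ) ∉ Set.range x} → t :=
    Sum.elim (fun i => ⟨x i, ht1 ⟨i, rfl⟩⟩) (fun c => c.1)
  have hf : Function.Bijective f := by
    constructor
    · rintro (i | c) (j | d) h
      · have h1 : x i = x j := congrArg Subtype.val h
        rw [hinj h1]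
      · exfalso
        have h1 : x i = d.1 := congrArg Subtype.val h
        exact d.2 ⟨i, h1⟩
      · exfalso
        have h1 : (c.1 : ℂ) = x j := congrArg Subtype.val h
        exact c.2 ⟨j, h1.symm⟩
      · have h1 : c.1 = d.1 := h
        rw [Subtype.ext h1]
    · intro c
      by_cases hc : (c : ℂ) ∈ Set.range x
      · obtain ⟨i, hi⟩ := hc
        exact ⟨Sum.inl i, Subtype.ext hi⟩
      · exact ⟨Sum.inr ⟨c, hc⟩, rfl⟩
  refine ⟨_, (fun c : t => (c : ℂ)) ∘ Equiv.ofBijective f hf,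
    (isTranscendenceBasis_equiv (Equiv.ofBijective f hf)).2 ht2, fun i => rfl⟩

private theorem A1_field (σ : Type) : ∃ (A : Type) (_ : Field A) (_ : CharZero A) (_ : Algebra ℂ A)
    (x : σ → A), IsTranscendenceBasis ℂ x ∧ IsAlgClosed A := by
  have h1 : IsTranscendenceBasis ℂ (MvPolynomial.X (R := ℂ) (σ := σ)) :=
    IsTranscendenceBasis.mvPolynomial σ ℂ
  have hal : Algebra.IsAlgebraic (MvPolynomial σ ℂ) (FractionRing (MvPolynomial σ ℂ)) :=
    IsLocalization.isAlgebraic _ (nonZeroDivisors (MvPolynomial σ ℂ))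
  have h2 : IsTranscendenceBasis ℂ
      (algebraMap (MvPolynomial σ ℂ) (FractionRing (MvPolynomial σ ℂ)) ∘ MvPolynomial.X) :=
    h1.algebraMap_comp
  have h3 : IsTranscendenceBasis ℂ
      (algebraMap (FractionRing (MvPolynomial σ ℂ)) (AlgebraicClosure (FractionRing (MvPolynomial σ ℂ))) ∘
        (algebraMap (MvPolynomial σ ℂ) (FractionRing (MvPolynomial σ ℂ)) ∘ MvPolynomial.X)) :=
    h2.algebraMap_comp
  exact ⟨AlgebraicClosure (FractionRing (MvPolynomial σ ℂ)), inferInstance, inferInstance,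
    inferInstance, _, h3, inferInstance⟩

/-- `A` = algebraic closure of `FractionRing (MvPolynomial (Fin n ⊕ Fin n) ℂ)`. The `(coeff d F - δ_d) / 2` are
algebraically independent over `ℚ` (see `K1_indep` in K/K1.lean and its use in R/TF1.lean); extend them to
a transcendence basis of `ℂ` over `ℚ`. -/
theorem exists_ctx {n : ℕ} {F : MvPolynomial (Fin n) ℂ} (hF : VG F) :
    ∃ (J : Type) (z : Exp3 n ⊕ J → ℂ) (A : Type) (_ : Field A) (_ : CharZero A) (_ : Algebra ℂ A)
      (u l : Fin n → A), Ctx F z u l := by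
  obtain ⟨hom, ind⟩ := hF
  let δ : Exp3 n → ℚ := fun d => if ∃ i, d.1 = Finsupp.single i 3 then 1 else 0
  obtain ⟨J, z, hz, hz1⟩ := A1_ext _ (A1_indep _ ind δ)
  obtain ⟨A, iF, iC, iA, x, hx, hcl⟩ := A1_field (Fin n ⊕ Fin n)
  have hsum : Sum.elim (fun i => x (Sum.inl i)) (fun i => x (Sum.inr i)) = x := by
    ext (i | i) <;> rfl
  refine ⟨J, z, A, iF, iC, iA, fun i => x (Sum.inl i), fun i => x (Sum.inr i), ?_⟩
  refine ⟨hom, hz, ?_, ?_, ?_, hcl⟩
  · intro d
    rw [hz1]
    have hδ : ((δ d : ℚ) : ℂ) = if ∃ i, d.1 = Finsupp.single i 3 then 1 else 0 := by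
      simp only [δ]
      split_ifs <;> simp
    rw [← hδ]
    ring
  · rw [hsum]; exact hx.1
  · rw [hsum]; exact hx.isAlgebraic_field

private theorem A1_zeta {n : ℕ} {F : MvPolynomial (Fin n) ℂ} {J : Type} {z : Exp3 n ⊕ J → ℂ} {A : Type}
    [Field A] [CharZero A] [Algebra ℂ A] {u l : Fin n → A} (h : Ctx F z u l) :
    IsTranscendenceBasis ℚ (zeta z u l) := by
  have h1 : IsTranscendenceBasis ℂ (Sum.elim u l) := by
    rw [h.ind.isTranscendenceBasis_iff_isAlgebraic]
    have h2 := h.alg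
    open scoped IntermediateField.algebraAdjoinAdjoin in
    exact (IsFractionRing.comap_isAlgebraic_iff (A := Algebra.adjoin ℂ (Set.range (Sum.elim u l)))
      (K := adjoin ℂ (Set.range (Sum.elim u l))) (C := A)).2 h2
  have h3 := h.tb.sumElim_comp h1
  have h4 := (isTranscendenceBasis_equiv (Equiv.sumComm (Exp3 n ⊕ J) (Fin n ⊕ Fin n))).2 h3
  have h5 : Sum.elim (Sum.elim u l) (algebraMap ℂ A ∘ z) ∘
      (Equiv.sumComm (Exp3 n ⊕ J) (Fin n ⊕ Fin n)) = zeta z u l := by
    ext (s | s) <;> rfl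
  rw [h5] at h4
  exact h4

theorem zeta_ind {n : ℕ} {F : MvPolynomial (Fin n) ℂ} {J : Type} {z : Exp3 n ⊕ J → ℂ} {A : Type}
    [Field A] [CharZero A] [Algebra ℂ A] {u l : Fin n → A} (h : Ctx F z u l) :
    AlgebraicIndependent ℚ (zeta z u l) :=
  (A1_zeta h).1

theorem zeta_alg {n : ℕ} {F : MvPolynomial (Fin n) ℂ} {J : Type} {z : Exp3 n ⊕ J → ℂ} {A : Type}
    [Field A] [CharZero A] [Algebra ℂ A] {u l : Fin n → A} (h : Ctx F z u l) :
    Algebra.IsAlgebraic (adjoin ℚ (Set.range (zeta z u l))) A :=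
  (A1_zeta h).isAlgebraic_field

end MP2619.N
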