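import Pool.Agent.Lib.MP_2619d0_ag.N.A0

/-!
Row 2619n-A2: weighted Gauss valuations over `ℚ` and valuations over `ν_t`.

`B = ℚ(ζ_s : s ≠ i0)`, `V0` the Gauss valuation (weights one), `v` its restriction to `B`, `g = 2 ζ_{i0}`.
`V` is over `ν_t` for `B`, `g` iff `V` has weight `2 t` at `i0` and one elsewhere. (A polynomial in the `ζ`
with coefficients in `ℚ` is a polynomial in `ζ_{i0} = g / 2` with coefficients polynomials in the other `ζ`, whose
`V0`-value is the maximum of the values of the coefficients. For `→` every polynomial; for `←` first take `p` with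
coefficients polynomials in the `ζ_s`, then divide by a common denominator in `B`.)
-/

set_option autoImplicit false

namespace MP2619.N

open scoped NNReal
open IntermediateField

private theorem A2_wts_prod {I : Type} (i0 : I) (r : ℝ≥0) (m : I →₀ ℕ) :
    (m.prod fun j e => wts i0 r j ^ e) = r ^ m i0 := by
  classical
  rw [Finsupp.prod, Finset.prod_eq_single i0]
  · simp [wts]
  · intro b _ hb
    simp [wts, hb]
  · intro h
    rw [Finsupp.notMem_support_iff.mp h]
    simp

private theorem A2_one_prod {I : Type} (m : I →₀ ℕ) :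
    (m.prod fun (_ : I) (e : ℕ) => (1 : ℝ≥0) ^ e) = 1 := by
  simp [Finsupp.prod]

private theorem A2_wt_le {I A : Type} [Field A] [Algebra ℚ A] {v2 : Valuation ℚ ℝ≥0}
    {V : Valuation A ℝ≥0} {ζ : I → A} {i0 : I} {r : ℝ≥0} (hV : IsWt v2 V ζ (wts i0 r))
    (P : MvPolynomial I ℚ) (c : ℝ≥0) :
    V (MvPolynomial.aeval ζ P) ≤ c ↔ ∀ m, v2 (P.coeff m) * r ^ m i0 ≤ c := by
  rw [hV P]
  constructor
  · intro h m
    by_cases hm : m ∈ P.support
    · have := (Finset.le_sup (f := fun m => v2 (P.coeff m) * m.prod fun j e => wts i0 r j ^ e)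
        hm).trans h
      simpa only [A2_wts_prod] using this
    · rw [MvPolynomial.notMem_support_iff.mp hm]
      simp
  · intro h
    refine Finset.sup_le fun m _ => ?_
    rw [A2_wts_prod]
    exact h m

private theorem A2_gauss_le {I A : Type} [Field A] [Algebra ℚ A] {v2 : Valuation ℚ ℝ≥0}
    {V : Valuation A ℝ≥0} {ζ : I → A} (hV : IsWt v2 V ζ (fun _ => 1))
    (P : MvPolynomial I ℚ) (c : ℝ≥0) :
    V (MvPolynomial.aeval ζ P) ≤ c ↔ ∀ m, v2 (P.coeff m) ≤ c := by
  rw [hV P]
  constructor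
  · intro h m
    by_cases hm : m ∈ P.support
    · have := (Finset.le_sup (f := fun m => v2 (P.coeff m) *
        m.prod fun (_ : I) (e : ℕ) => (1 : ℝ≥0) ^ e) hm).trans h
      simpa only [A2_one_prod, mul_one] using this
    · rw [MvPolynomial.notMem_support_iff.mp hm]
      simp
  · intro h
    refine Finset.sup_le fun m _ => ?_
    rw [A2_one_prod, mul_one]
    exact h m

private theorem A2_poly_le {B : Type} [Field B] (v : Valuation B ℝ≥0) (t : ℝ≥0)
    (p : Polynomial B) (c : ℝ≥0) :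
    (p.support.sup fun i => v (p.coeff i) * t ^ i) ≤ c ↔ ∀ i, v (p.coeff i) * t ^ i ≤ c := by
  constructor
  · intro h i
    by_cases hi : i ∈ p.support
    · exact (Finset.le_sup (f := fun i => v (p.coeff i) * t ^ i) hi).trans h
    · rw [Polynomial.notMem_support_iff.mp hi]
      simp
  · intro h
    exact Finset.sup_le fun i _ => h i

section
variable {A : Type} [Field A] [CharZero A] {I : Type}

open Classical in
private noncomputable def A2_psi (ζ : I → A) (i0 : I) : MvPolynomial I ℚ →ₐ[ℚ] Polynomial A :=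
  MvPolynomial.aeval fun s => if s = i0 then Polynomial.C (2⁻¹ : A) * Polynomial.X
    else Polynomial.C (ζ s)

open Classical in
private noncomputable def A2_part (i0 : I) (P : MvPolynomial I ℚ) (e : ℕ) : MvPolynomial I ℚ :=
  ∑ m ∈ P.support.filter (fun m => m i0 = e), MvPolynomial.monomial (m.erase i0) (P.coeff m)

private theorem A2_part_coeff_zero (i0 : I) (P : MvPolynomial I ℚ) (e : ℕ) {m' : I →₀ ℕ}
    (h : m' i0 ≠ 0) : (A2_part i0 P e).coeff m' = 0 := by
  classical
  unfold A2_part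
  rw [MvPolynomial.coeff_sum]
  refine Finset.sum_eq_zero fun m _ => ?_
  rw [MvPolynomial.coeff_monomial, if_neg]
  intro heq
  apply h
  rw [← heq]
  simp

private theorem A2_part_coeff (i0 : I) (P : MvPolynomial I ℚ) (m : I →₀ ℕ) :
    (A2_part i0 P (m i0)).coeff (m.erase i0) = P.coeff m := by
  classical
  unfold A2_part
  rw [MvPolynomial.coeff_sum]
  have key : ∀ n : I →₀ ℕ, n i0 = m i0 → n.erase i0 = m.erase i0 → n = m := by
    intro n h1 h2
    rw [← Finsupp.single_add_erase i0 n, ← Finsupp.single_add_erase i0 m, h1, h2]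
  by_cases hm : m ∈ P.support
  · rw [Finset.sum_eq_single m]
    · simp [MvPolynomial.coeff_monomial]
    · intro n hn hnm
      rw [MvPolynomial.coeff_monomial, if_neg]
      intro heq
      exact hnm (key n (Finset.mem_filter.mp hn).2 heq)
    · intro h
      have h' : m ∈ P.support.filter (fun n : I →₀ ℕ => n i0 = m i0) :=
        Finset.mem_filter.mpr ⟨hm, rfl⟩
      exact absurd h' h
  · rw [MvPolynomial.notMem_support_iff.mp hm]
    refine Finset.sum_eq_zero fun n hn => ?_
    rw [MvPolynomial.coeff_monomial, if_neg]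
    intro heq
    have := key n (Finset.mem_filter.mp hn).2 heq
    rw [this] at hn
    exact hm (Finset.mem_filter.mp hn).1

private theorem A2_psi_mono (ζ : I → A) (i0 : I) {m : I →₀ ℕ} (hm : m i0 = 0) (c : ℚ) :
    A2_psi ζ i0 (MvPolynomial.monomial m c) =
      Polynomial.C (MvPolynomial.aeval ζ (MvPolynomial.monomial m c)) := by
  classical
  unfold A2_psi
  rw [MvPolynomial.aeval_monomial, MvPolynomial.aeval_monomial, map_mul]
  congr 1
  rw [Finsupp.prod, Finsupp.prod, map_prod]
  refine Finset.prod_congr rfl fun s hs => ?_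
  have hs' : s ≠ i0 := by
    rintro rfl
    exact (Finsupp.mem_support_iff.mp hs) hm
  rw [if_neg hs', map_pow]

private theorem A2_psi_mono' (ζ : I → A) (i0 : I) (m : I →₀ ℕ) (c : ℚ) :
    A2_psi ζ i0 (MvPolynomial.monomial m c) =
      Polynomial.C (MvPolynomial.aeval ζ (MvPolynomial.monomial (m.erase i0) c) *
        (2⁻¹ : A) ^ m i0) * Polynomial.X ^ m i0 := by
  classical
  have h1 : MvPolynomial.monomial m c =
      MvPolynomial.monomial (m.erase i0) c * (MvPolynomial.X i0 : MvPolynomial I ℚ) ^ m i0 := by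
    rw [MvPolynomial.X_pow_eq_monomial, MvPolynomial.monomial_mul, mul_one, Finsupp.erase_add_single]
  have h2 : A2_psi ζ i0 (MvPolynomial.X i0) = Polynomial.C (2⁻¹ : A) * Polynomial.X := by
    unfold A2_psi
    rw [MvPolynomial.aeval_X, if_pos rfl]
  conv_lhs => rw [h1]
  rw [map_mul, map_pow, h2, A2_psi_mono ζ i0 (by simp)]
  simp only [map_mul, map_pow, mul_pow]
  ring

private theorem A2_psi_coeff (ζ : I → A) (i0 : I) (P : MvPolynomial I ℚ) (e : ℕ) :
    (A2_psi ζ i0 P).coeff e = (2⁻¹ : A) ^ e * MvPolynomial.aeval ζ (A2_part i0 P e) := by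
  classical
  conv_lhs => rw [P.as_sum]
  rw [map_sum, Polynomial.finsetSum_coeff]
  unfold A2_part
  rw [map_sum, Finset.mul_sum, Finset.sum_filter]
  refine Finset.sum_congr rfl fun m _ => ?_
  rw [A2_psi_mono', Polynomial.coeff_C_mul, Polynomial.coeff_X_pow]
  by_cases h : m i0 = e
  · rw [if_pos h.symm, if_pos h, h]
    ring
  · rw [if_neg (Ne.symm h), if_neg h, mul_zero]

private theorem A2_psi_aeval (ζ : I → A) (i0 : I) (P : MvPolynomial I ℚ) :
    (A2_psi ζ i0 P).eval (2 * ζ i0) = MvPolynomial.aeval ζ P := by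
  classical
  have h : ((Polynomial.aeval (R := A) (2 * ζ i0)).restrictScalars ℚ).comp (A2_psi ζ i0) =
      MvPolynomial.aeval ζ := by
    apply MvPolynomial.algHom_ext
    intro s
    simp only [AlgHom.comp_apply, A2_psi, MvPolynomial.aeval_X, AlgHom.restrictScalars_apply]
    by_cases hs : s = i0
    · rw [if_pos hs, hs]
      simp
    · rw [if_neg hs]
      simp
  have h' := congrArg (fun f => f P) h
  simpa using h'

/-- the key computation -/
private theorem A2_key (ζ : I → A) (i0 : I) {v2 : Valuation ℚ ℝ≥0} (h2 : IsTwo v2)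
    {V0 : Valuation A ℝ≥0} (hV0 : IsWt v2 V0 ζ (fun _ => 1)) (t : ℝ≥0) (P : MvPolynomial I ℚ)
    (c : ℝ≥0) :
    (∀ e, V0 ((A2_psi ζ i0 P).coeff e) * t ^ e ≤ c) ↔
      ∀ m : I →₀ ℕ, v2 (P.coeff m) * (2 * t) ^ m i0 ≤ c := by
  have hV2 : V0 (2⁻¹ : A) = 2 := by
    have h3 := hV0 (MvPolynomial.C 2)
    have h4 : (MvPolynomial.aeval ζ (MvPolynomial.C 2 : MvPolynomial I ℚ)) = (2 : A) := by
      simp
    have h5 : V0 (2 : A) ≤ 2⁻¹ := by
      rw [← h4, A2_gauss_le hV0]
      intro m
      classical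
      rw [MvPolynomial.coeff_C]
      split_ifs
      · exact h2.two.le
      · simp
    have h6 : 2⁻¹ ≤ V0 (2 : A) := by
      classical
      have := (A2_gauss_le hV0 (MvPolynomial.C 2) (V0 (2 : A))).mp (by rw [h4]) 0
      rwa [MvPolynomial.coeff_C, if_pos rfl, h2.two] at this
    rw [map_inv₀, le_antisymm h5 h6, inv_inv]
  have hco : ∀ e, V0 ((A2_psi ζ i0 P).coeff e) * t ^ e =
      (2 * t) ^ e * V0 (MvPolynomial.aeval ζ (A2_part i0 P e)) := by
    intro e
    rw [A2_psi_coeff, map_mul, map_pow, hV2]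
    ring
  have hmul : ∀ (e : ℕ) (x : A), (2 * t) ^ e * V0 x ≤ c ↔ (2 * t) ^ e = 0 ∨ V0 x ≤ c / (2 * t) ^ e := by
    intro e x
    by_cases h0 : (2 * t) ^ e = 0
    · simp [h0]
    · rw [le_div_iff₀ (pos_iff_ne_zero.mpr h0), mul_comm]
      simp [h0]
  constructor
  · intro h m
    have h1 := h (m i0)
    rw [hco, hmul] at h1
    rcases h1 with h1 | h1
    · rw [h1, mul_zero]
      exact bot_le
    · rw [A2_gauss_le hV0] at h1
      have h3 := h1 (m.erase i0)
      rw [A2_part_coeff] at h3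
      by_cases h0 : (2 * t) ^ m i0 = 0
      · rw [h0, mul_zero]
        exact bot_le
      · exact (le_div_iff₀ (pos_iff_ne_zero.mpr h0)).mp h3
  · intro h e
    rw [hco, hmul]
    by_cases h0 : (2 * t) ^ e = 0
    · exact Or.inl h0
    · right
      rw [A2_gauss_le hV0]
      intro m'
      by_cases hm : m' i0 = 0
      · have h3 := h (m' + Finsupp.single i0 e)
        have h4 := A2_part_coeff i0 P (m' + Finsupp.single i0 e)
        have h5 : (m' + Finsupp.single i0 e) i0 = e := by simp [hm]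
        have h6 : (m' + Finsupp.single i0 e).erase i0 = m' := by
          classical
          ext s
          by_cases hs : s = i0
          · rw [hs, Finsupp.erase_same, hm]
          · rw [Finsupp.erase_ne hs, Finsupp.add_apply, Finsupp.single_apply, if_neg (Ne.symm hs),
              add_zero]
        rw [h5, h6] at h4
        rw [h4, le_div_iff₀ (pos_iff_ne_zero.mpr h0)]
        rwa [h5] at h3
      · rw [A2_part_coeff_zero i0 P e hm]
        simp

private theorem A2_adj (ζ : I → A) (i0 : I) {x : A}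
    (hx : x ∈ Algebra.adjoin ℚ (ζ '' {s | s ≠ i0})) :
    ∃ R : MvPolynomial I ℚ, A2_psi ζ i0 R = Polynomial.C x := by
  classical
  induction hx using Algebra.adjoin_induction with
  | mem x hx =>
    obtain ⟨s, hs, rfl⟩ := hx
    refine ⟨MvPolynomial.X s, ?_⟩
    unfold A2_psi
    rw [MvPolynomial.aeval_X, if_neg hs]
  | algebraMap r =>
    refine ⟨MvPolynomial.C r, ?_⟩
    unfold A2_psi
    rw [MvPolynomial.aeval_C]
    rfl
  | add x y _ _ hx hy =>
    obtain ⟨R, hR⟩ := hx
    obtain ⟨S, hS⟩ := hy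
    exact ⟨R + S, by rw [map_add, map_add, hR, hS]⟩
  | mul x y _ _ hx hy =>
    obtain ⟨R, hR⟩ := hx
    obtain ⟨S, hS⟩ := hy
    exact ⟨R * S, by rw [map_mul, map_mul, hR, hS]⟩

private theorem A2_den (ζ : I → A) (i0 : I) (p : Polynomial (adjoin ℚ (ζ '' {s | s ≠ i0}))) :
    ∃ (d : A) (D Q : MvPolynomial I ℚ), d ≠ 0 ∧ A2_psi ζ i0 D = Polynomial.C d ∧
      A2_psi ζ i0 Q = Polynomial.C d *
        p.map (algebraMap (adjoin ℚ (ζ '' {s | s ≠ i0})) A) := by
  classical
  induction p using Polynomial.induction_on' with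
  | add p q hp hq =>
    obtain ⟨d1, D1, Q1, h1, h2, h3⟩ := hp
    obtain ⟨d2, D2, Q2, g1, g2, g3⟩ := hq
    refine ⟨d1 * d2, D1 * D2, D2 * Q1 + D1 * Q2, mul_ne_zero h1 g1, ?_, ?_⟩
    · rw [map_mul, map_mul, h2, g2]
    · rw [map_add, map_mul, map_mul, h2, g2, h3, g3, Polynomial.map_add, map_mul]
      ring
  | monomial n b =>
    obtain ⟨r, hr, s, hs, hb⟩ := IntermediateField.mem_adjoin_iff_div.mp b.2
    by_cases hs0 : s = 0
    · refine ⟨1, 1, 0, one_ne_zero, by simp, ?_⟩
      have hb0 : b = 0 := by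
        apply Subtype.ext
        rw [hb, hs0, div_zero]
        rfl
      rw [hb0]
      simp
    · obtain ⟨R, hR⟩ := A2_adj ζ i0 hr
      obtain ⟨S, hS⟩ := A2_adj ζ i0 hs
      refine ⟨s, S, R * (MvPolynomial.C 2 * MvPolynomial.X i0) ^ n, hs0, hS, ?_⟩
      have hX : A2_psi ζ i0 (MvPolynomial.C 2 * MvPolynomial.X i0) = Polynomial.X := by
        unfold A2_psi
        rw [map_mul, MvPolynomial.aeval_X, if_pos rfl, MvPolynomial.aeval_C, ← mul_assoc]
        have : (algebraMap ℚ (Polynomial A)) 2 * Polynomial.C (2⁻¹ : A) = 1 := by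
          rw [map_ofNat, ← Polynomial.C_ofNat, ← Polynomial.C_mul, mul_inv_cancel₀ two_ne_zero,
            Polynomial.C_1]
        rw [this, one_mul]
      rw [map_mul, map_pow, hX, hR, Polynomial.map_monomial, ← Polynomial.C_mul_X_pow_eq_monomial,
        ← mul_assoc, ← Polynomial.C_mul]
      congr 2
      have : algebraMap (adjoin ℚ (ζ '' {s | s ≠ i0})) A b = r / s := hb
      rw [this, mul_div_cancel₀ _ hs0]

end

theorem ov_iff {A : Type} [Field A] [CharZero A] {I : Type} (ζ : I → A)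
    (hζ : AlgebraicIndependent ℚ ζ) (i0 : I) (v2 : Valuation ℚ ℝ≥0) (h2 : IsTwo v2)
    (V0 : Valuation A ℝ≥0) (hV0 : IsWt v2 V0 ζ (fun _ => 1)) (V : Valuation A ℝ≥0) (t : ℝ≥0)
    (ht : 0 < t) :
    Ov (V0.comap (algebraMap (adjoin ℚ (ζ '' {s | s ≠ i0})) A)) (2 * ζ i0) t V ↔
      IsWt v2 V ζ (wts i0 (2 * t)) := by
  classical
  have hev : ∀ p : Polynomial (adjoin ℚ (ζ '' {s | s ≠ i0})), Polynomial.aeval (2 * ζ i0) p =
      (p.map (algebraMap (adjoin ℚ (ζ '' {s | s ≠ i0})) A)).eval (2 * ζ i0) := by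
    intro p
    rw [Polynomial.aeval_def, Polynomial.eval₂_eq_eval_map]
  constructor
  · intro hO P
    obtain ⟨p, hp⟩ : ∃ p : Polynomial (adjoin ℚ (ζ '' {s | s ≠ i0})),
        p.map (algebraMap (adjoin ℚ (ζ '' {s | s ≠ i0})) A) = A2_psi ζ i0 P := by
      refine ⟨MvPolynomial.aeval (fun s => if h : s = i0 then Polynomial.C 2⁻¹ * Polynomial.X
        else Polynomial.C ⟨ζ s, subset_adjoin _ _ ⟨s, h, rfl⟩⟩) P, ?_⟩
      have h : ((Polynomial.mapAlgHom (Algebra.ofId (adjoin ℚ (ζ '' {s | s ≠ i0})) A)).restrictScalars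
          ℚ).comp (MvPolynomial.aeval (fun s => if h : s = i0 then Polynomial.C 2⁻¹ * Polynomial.X
        else Polynomial.C ⟨ζ s, subset_adjoin _ _ ⟨s, h, rfl⟩⟩)) = A2_psi ζ i0 := by
        apply MvPolynomial.algHom_ext
        intro s
        simp only [AlgHom.comp_apply, A2_psi, MvPolynomial.aeval_X, AlgHom.restrictScalars_apply]
        by_cases hs : s = i0
        · rw [dif_pos hs, if_pos hs]
          simp
          rfl
        · rw [dif_neg hs, if_neg hs]
          simp
      exact congrArg (fun f => f P) h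
    have h1 : MvPolynomial.aeval ζ P = Polynomial.aeval (2 * ζ i0) p := by
      rw [hev, hp, A2_psi_aeval]
    rw [h1, hO p]
    refine eq_of_forall_ge_iff fun c => ?_
    rw [A2_poly_le]
    have h3 : (P.support.sup fun m => v2 (P.coeff m) * m.prod fun j e => wts i0 (2 * t) j ^ e) ≤ c ↔
        ∀ m, v2 (P.coeff m) * (2 * t) ^ m i0 ≤ c := by
      simp only [A2_wts_prod]
      constructor
      · intro h m
        by_cases hm : m ∈ P.support
        · exact (Finset.le_sup (f := fun m : I →₀ ℕ => v2 (P.coeff m) * (2 * t) ^ m i0) hm).trans h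
        · rw [MvPolynomial.notMem_support_iff.mp hm]
          simp
      · intro h
        exact Finset.sup_le fun m _ => h m
    rw [h3, ← A2_key ζ i0 h2 hV0 t P c, ← hp]
    refine forall_congr' fun e => ?_
    rw [Polynomial.coeff_map, Valuation.comap_apply]
  · intro hW p
    obtain ⟨d, D, Q, hd, hD, hQ⟩ := A2_den ζ i0 p
    have hVQ : ∀ c, V (MvPolynomial.aeval ζ Q) ≤ c ↔
        ∀ e, V0 d * (V0 (algebraMap _ A (p.coeff e)) * t ^ e) ≤ c := by
      intro c
      rw [A2_wt_le hW, ← A2_key ζ i0 h2 hV0 t Q c, hQ]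
      refine forall_congr' fun e => ?_
      rw [Polynomial.coeff_C_mul, Polynomial.coeff_map, map_mul, mul_assoc]
    have hVd : V d = V0 d := by
      have h1 : MvPolynomial.aeval ζ D = d := by
        rw [← A2_psi_aeval ζ i0 D, hD, Polynomial.eval_C]
      refine eq_of_forall_ge_iff fun c => ?_
      conv_lhs => rw [← h1]
      rw [A2_wt_le hW, ← A2_key ζ i0 h2 hV0 t D c, hD]
      constructor
      · intro h
        have := h 0
        simpa using this
      · intro h e
        rw [Polynomial.coeff_C]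
        split_ifs with he
        · rw [he, pow_zero, mul_one]
          exact h
        · simp
    have hV1 : V (MvPolynomial.aeval ζ Q) = V0 d * V (Polynomial.aeval (2 * ζ i0) p) := by
      rw [← A2_psi_aeval ζ i0 Q, hQ, Polynomial.eval_mul, Polynomial.eval_C, map_mul, hVd, hev]
    have hd0 : V0 d ≠ 0 := (V0.ne_zero_iff).mpr hd
    refine eq_of_forall_ge_iff fun c => ?_
    rw [A2_poly_le]
    have h5 := hVQ (V0 d * c)
    rw [hV1, mul_le_mul_iff_right₀ (pos_iff_ne_zero.mpr hd0)] at h5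
    rw [h5]
    refine forall_congr' fun e => ?_
    rw [mul_le_mul_iff_right₀ (pos_iff_ne_zero.mpr hd0), Valuation.comap_apply]

/-- `g = 2 ζ_{i0}` is transcendental over `B`, and `A` is algebraic over `B(g)`. -/
theorem ov_trans {A : Type} [Field A] [CharZero A] {I : Type} (ζ : I → A)
    (hζ : AlgebraicIndependent ℚ ζ) (i0 : I)
    (halg : Algebra.IsAlgebraic (adjoin ℚ (Set.range ζ)) A) :
    Transcendental (adjoin ℚ (ζ '' {s | s ≠ i0})) (2 * ζ i0) ∧
      Algebra.IsAlgebraic (adjoin (adjoin ℚ (ζ '' {s | s ≠ i0})) {2 * ζ i0}) A := by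
  have hne : (2 : A) ≠ 0 := two_ne_zero
  constructor
  · rw [IntermediateField.transcendental_adjoin_iff]
    have h := hζ.transcendental_adjoin (s := {s | s ≠ i0}) (i := i0) (by simp)
    intro h'
    apply h
    have h3 : IsAlgebraic (Algebra.adjoin ℚ (ζ '' {s | s ≠ i0})) ((2 : A)⁻¹) := by
      have h4 := isAlgebraic_algebraMap (R := Algebra.adjoin ℚ (ζ '' {s | s ≠ i0})) (A := A)
        (algebraMap ℚ (Algebra.adjoin ℚ (ζ '' {s | s ≠ i0})) 2⁻¹)
      have e : algebraMap (Algebra.adjoin ℚ (ζ '' {s | s ≠ i0})) A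
          (algebraMap ℚ (Algebra.adjoin ℚ (ζ '' {s | s ≠ i0})) 2⁻¹) = (2 : A)⁻¹ := by
        rw [← IsScalarTower.algebraMap_apply]
        simp
      rwa [e] at h4
    have h5 := h3.mul h'
    rwa [← mul_assoc, inv_mul_cancel₀ hne, one_mul] at h5
  · set B := adjoin ℚ (ζ '' {s | s ≠ i0})
    have hle : adjoin ℚ (Set.range ζ) ≤ (adjoin B {2 * ζ i0}).restrictScalars ℚ := by
      rw [adjoin_le_iff]
      rintro _ ⟨s, rfl⟩
      change ζ s ∈ adjoin B {2 * ζ i0}
      by_cases hs : s = i0
      · rw [hs]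
        have h1 : 2 * ζ i0 ∈ adjoin B {2 * ζ i0} := subset_adjoin _ _ rfl
        have h2 : (2 : A)⁻¹ ∈ adjoin B {2 * ζ i0} := inv_mem (ofNat_mem _ 2)
        have h3 := mul_mem h2 h1
        rwa [← mul_assoc, inv_mul_cancel₀ hne, one_mul] at h3
      · have h1 : ζ s ∈ B := subset_adjoin _ _ ⟨s, hs, rfl⟩
        exact IntermediateField.algebraMap_mem (adjoin B {2 * ζ i0}) (⟨ζ s, h1⟩ : B)
    letI : Algebra (adjoin ℚ (Set.range ζ)) (adjoin B {2 * ζ i0}) :=
      (inclusion hle).toRingHom.toAlgebra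
    haveI : IsScalarTower (adjoin ℚ (Set.range ζ)) (adjoin B {2 * ζ i0}) A :=
      IsScalarTower.of_algebraMap_eq fun x => rfl
    exact Algebra.IsAlgebraic.tower_top (K := adjoin ℚ (Set.range ζ)) (adjoin B {2 * ζ i0})

end MP2619.N
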