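import Pool.Agent.Lib.MP_2619d0_ag.N.A0

/-!
Row 2619n-A5: the embeddings `τ : M1 → A` over `k1` with `τ (γ x + y) = u`.
-/

set_option autoImplicit false

namespace MP2619.N

open scoped NNReal
open IntermediateField MP2619.R

variable {k1 M1 A : Type} [Field k1] [CharZero k1] [Field M1] [Field A] [Algebra k1 M1] [Algebra k1 A]
  [IsAlgClosed A]

omit [CharZero k1] [IsAlgClosed A] in
private theorem A5_iso {n : ℕ} (u : Fin n → A) (hu : AlgebraicIndependent k1 u) (z : Fin n → M1)
    (hz : AlgebraicIndependent k1 z) : ∃ j : adjoin k1 (Set.range z) →ₐ[k1] A,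
      ∀ i, j ⟨z i, subset_adjoin _ _ ⟨i, rfl⟩⟩ = u i := by
  refine ⟨(adjoin k1 (Set.range u)).val.comp
    (hz.aevalEquivField.symm.trans hu.aevalEquivField).toAlgHom, fun i => ?_⟩
  have h1 : hz.aevalEquivField (algebraMap (MvPolynomial (Fin n) k1)
      (FractionRing (MvPolynomial (Fin n) k1)) (MvPolynomial.X i)) =
      ⟨z i, subset_adjoin _ _ ⟨i, rfl⟩⟩ := by
    apply Subtype.ext
    rw [hz.aevalEquivField_algebraMap_apply_coe, MvPolynomial.aeval_X]
  have h2 : hz.aevalEquivField.symm ⟨z i, subset_adjoin _ _ ⟨i, rfl⟩⟩ =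
      algebraMap (MvPolynomial (Fin n) k1)
        (FractionRing (MvPolynomial (Fin n) k1)) (MvPolynomial.X i) := by
    rw [← h1, AlgEquiv.symm_apply_apply]
  change ((hu.aevalEquivField (hz.aevalEquivField.symm
    ⟨z i, subset_adjoin _ _ ⟨i, rfl⟩⟩) : adjoin k1 (Set.range u)) : A) = u i
  rw [h2, hu.aevalEquivField_algebraMap_apply_coe, MvPolynomial.aeval_X]

/-- There are `[M1 : k1(z)]` embeddings `τ` with `τ z = u` if `z` is algebraically independent; none otherwise. -/
theorem card_emb {n : ℕ} (u : Fin n → A) (hu : AlgebraicIndependent k1 u) (z : Fin n → M1)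
    (hz : AlgebraicIndependent k1 z) (hfin : Module.finrank (adjoin k1 (Set.range z)) M1 ≠ 0) :
    Nat.card {τ : M1 →ₐ[k1] A // ∀ i, τ (z i) = u i} =
      Module.finrank (adjoin k1 (Set.range z)) M1 := by
  classical
  obtain ⟨j, hj⟩ := A5_iso u hu z hz
  have hfd : FiniteDimensional (adjoin k1 (Set.range z)) M1 :=
    Module.finite_of_finrank_pos (Nat.pos_of_ne_zero hfin)
  let _ : Algebra (adjoin k1 (Set.range z)) A := j.toRingHom.toAlgebra
  have : IsScalarTower k1 (adjoin k1 (Set.range z)) A :=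
    IsScalarTower.of_algebraMap_eq fun x => (j.commutes x).symm
  have hcard : Nat.card (M1 →ₐ[adjoin k1 (Set.range z)] A) =
      Module.finrank (adjoin k1 (Set.range z)) M1 :=
    AlgHom.natCard_of_splits _ M1 A (fun _ => IsAlgClosed.splits _)
  have hcomm : ∀ τ : {τ : M1 →ₐ[k1] A // ∀ i, τ (z i) = u i}, ∀ a : adjoin k1 (Set.range z),
      τ.1 (algebraMap (adjoin k1 (Set.range z)) M1 a) = algebraMap (adjoin k1 (Set.range z)) A a := by
    intro τ a
    have h : τ.1.comp (adjoin k1 (Set.range z)).val = j := by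
      refine algHom_ext_of_eq_adjoin k1 rfl ?_
      rintro _ ⟨i, rfl⟩
      rw [hj i]
      exact τ.2 i
    exact DFunLike.congr_fun h a
  rw [← hcard]
  refine Nat.card_congr
    ⟨fun τ => { τ.1.toRingHom with commutes' := fun a => hcomm τ a },
      fun σ => ⟨σ.restrictScalars k1, fun i => ?_⟩, fun τ => ?_, fun σ => ?_⟩
  · have h1 := σ.commutes (⟨z i, subset_adjoin _ _ ⟨i, rfl⟩⟩ : adjoin k1 (Set.range z))
    change σ (z i) = j _ at h1
    rw [hj i] at h1
    exact h1
  · apply Subtype.ext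
    ext a
    rfl
  · ext a
    rfl

theorem finite_emb {n : ℕ} (u : Fin n → A) (hu : AlgebraicIndependent k1 u)
    (hfg : ∃ z0 : Fin n → M1, AlgebraicIndependent k1 z0 ∧
      Module.finrank (adjoin k1 (Set.range z0)) M1 ≠ 0) (z : Fin n → M1) :
    Finite {τ : M1 →ₐ[k1] A // ∀ i, τ (z i) = u i} := by
  by_cases hne : Nonempty {τ : M1 →ₐ[k1] A // ∀ i, τ (z i) = u i}
  · obtain ⟨τ⟩ := hne
    have hz : AlgebraicIndependent k1 z := by
      refine AlgebraicIndependent.of_comp τ.1 ?_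
      have h1 : τ.1 ∘ z = u := funext τ.2
      rw [h1]
      exact hu
    obtain ⟨z0, hz0, hf0⟩ := hfg
    have hf := (fin_iff_ind z0 z hz0 hf0).1 hz
    have hc := card_emb u hu z hz hf
    exact Nat.finite_of_card_ne_zero (by rw [hc]; exact hf)
  · have := not_nonempty_iff.1 hne
    infer_instance

/-- The images are algebraic over `k1(u)`. -/
theorem alg_emb {n : ℕ} (u : Fin n → A) (hu : AlgebraicIndependent k1 u)
    (hfg : ∃ z0 : Fin n → M1, AlgebraicIndependent k1 z0 ∧
      Module.finrank (adjoin k1 (Set.range z0)) M1 ≠ 0) (z : Fin n → M1)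
    (τ : M1 →ₐ[k1] A) (hτ : ∀ i, τ (z i) = u i) (a : M1) :
    IsAlgebraic (adjoin k1 (Set.range u)) (τ a) := by
  have hz : AlgebraicIndependent k1 z := by
    refine AlgebraicIndependent.of_comp τ ?_
    have h1 : τ ∘ z = u := funext hτ
    rw [h1]
    exact hu
  obtain ⟨z0, hz0, hf0⟩ := hfg
  have hf := (fin_iff_ind z0 z hz0 hf0).1 hz
  have hfd : FiniteDimensional (adjoin k1 (Set.range z)) M1 :=
    Module.finite_of_finrank_pos (Nat.pos_of_ne_zero hf)
  have ha : IsAlgebraic (adjoin k1 (Set.range z)) a := Algebra.IsAlgebraic.isAlgebraic a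
  have hmap : ∀ b : adjoin k1 (Set.range z), τ b ∈ adjoin k1 (Set.range u) := by
    intro b
    have h1 : τ b ∈ (adjoin k1 (Set.range z)).map τ := ⟨b, b.2, rfl⟩
    rw [adjoin_map, ← Set.range_comp] at h1
    have h2 : τ ∘ z = u := funext hτ
    rw [h2] at h1
    exact h1
  exact ha.ringHom_of_comp_eq (S := adjoin k1 (Set.range u)) (B := A)
    (((τ.comp (adjoin k1 (Set.range z)).val).codRestrict (adjoin k1 (Set.range u)).toSubalgebra
      hmap).toRingHom : adjoin k1 (Set.range z) →+* adjoin k1 (Set.range u))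
    (τ : M1 →+* A) (RingHom.injective _) (by ext b; rfl)

/-- `∏_τ (Z - ∑ l_i τ(x_i))` has coefficients in `k1(u, l)`: it is the image under `z ↦ u` of the norm of
`Z - ∑ l_i x_i` from `M1(l)[Z]` to `k1(z)(l)[Z]`; or: it is invariant under the automorphisms of `A` over
`k1(u, l)`, `A` algebraically closed of characteristic zero, and its coefficients are algebraic over `k1(u, l)`. -/
theorem chi_emb {n : ℕ} (u l : Fin n → A) (hu : AlgebraicIndependent k1 u)
    (hfg : ∃ z0 : Fin n → M1, AlgebraicIndependent k1 z0 ∧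
      Module.finrank (adjoin k1 (Set.range z0)) M1 ≠ 0) (z x : Fin n → M1)
    [Fintype {τ : M1 →ₐ[k1] A // ∀ i, τ (z i) = u i}] :
    (∏ τ : {τ : M1 →ₐ[k1] A // ∀ i, τ (z i) = u i},
      (Polynomial.X - Polynomial.C (∑ i, l i * τ.1 (x i)))) ∈
      Polynomial.lifts (algebraMap (adjoin k1 (Set.range u ∪ Set.range l)) A) := by
  classical
  set K := adjoin k1 (Set.range u ∪ Set.range l) with hK
  set W : IntermediateField K A := algebraicClosure K A with hW
  have hcz : CharZero K := inferInstance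
  have : IsAlgClosure K W := algebraicClosure.isAlgClosure K A
  have : IsGalois K W := inferInstance
  have huK : adjoin k1 (Set.range u) ≤ K := adjoin.mono _ _ _ Set.subset_union_left
  have hmem : ∀ (τ : {τ : M1 →ₐ[k1] A // ∀ i, τ (z i) = u i}) (a : M1), τ.1 a ∈ W := by
    intro τ a
    rw [hW, mem_algebraicClosure_iff]
    have h1 := alg_emb u hu hfg z τ.1 τ.2 a
    exact h1.ringHom_of_comp_eq (S := K) (B := A) (inclusion huK).toRingHom (RingHom.id A)
      (RingHom.injective _) (by ext b; rfl)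
  have huW : ∀ i, u i ∈ K := fun i => subset_adjoin _ _ (Or.inl ⟨i, rfl⟩)
  have hlW : ∀ i, l i ∈ K := fun i => subset_adjoin _ _ (Or.inr ⟨i, rfl⟩)
  -- twist by an automorphism
  let tw : (W ≃ₐ[K] W) → {τ : M1 →ₐ[k1] A // ∀ i, τ (z i) = u i} →
      {τ : M1 →ₐ[k1] A // ∀ i, τ (z i) = u i} := fun σ τ =>
    ⟨{ toFun := fun a => (σ ⟨τ.1 a, hmem τ a⟩ : A)
       map_one' := by
        have h : (⟨τ.1 1, hmem τ 1⟩ : W) = 1 := Subtype.ext (map_one τ.1)
        rw [h, map_one]
        rfl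
       map_mul' := fun a b => by
        have h : (⟨τ.1 (a * b), hmem τ (a * b)⟩ : W) = ⟨τ.1 a, hmem τ a⟩ * ⟨τ.1 b, hmem τ b⟩ :=
          Subtype.ext (map_mul τ.1 a b)
        rw [h, map_mul]
        rfl
       map_zero' := by
        have h : (⟨τ.1 0, hmem τ 0⟩ : W) = 0 := Subtype.ext (map_zero τ.1)
        rw [h, map_zero]
        rfl
       map_add' := fun a b => by
        have h : (⟨τ.1 (a + b), hmem τ (a + b)⟩ : W) = ⟨τ.1 a, hmem τ a⟩ + ⟨τ.1 b, hmem τ b⟩ :=
          Subtype.ext (map_add τ.1 a b)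
        rw [h, map_add]
        rfl
       commutes' := fun r => by
        have h : (⟨τ.1 (algebraMap k1 M1 r), hmem τ _⟩ : W) =
            algebraMap K W (algebraMap k1 K r) := Subtype.ext (τ.1.commutes r)
        rw [h, σ.commutes]
        rfl }, fun i => by
        have h : (⟨τ.1 (z i), hmem τ _⟩ : W) = algebraMap K W ⟨u i, huW i⟩ :=
          Subtype.ext (τ.2 i)
        change (σ ⟨τ.1 (z i), hmem τ _⟩ : A) = u i
        rw [h, σ.commutes]
        rfl⟩
  have htw : ∀ σ, Function.Bijective (tw σ) := by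
    intro σ
    refine Finite.injective_iff_bijective.1 fun τ τ' h => ?_
    apply Subtype.ext
    ext a
    have h1 : (σ ⟨τ.1 a, hmem τ a⟩ : A) = (σ ⟨τ'.1 a, hmem τ' a⟩ : A) :=
      DFunLike.congr_fun (congrArg Subtype.val h) a
    exact congrArg Subtype.val (σ.injective (Subtype.ext h1))
  have hξ : ∀ τ : {τ : M1 →ₐ[k1] A // ∀ i, τ (z i) = u i}, (∑ i, l i * τ.1 (x i)) ∈ W := fun τ =>
    sum_mem fun i _ => mul_mem (W.algebraMap_mem ⟨l i, hlW i⟩) (hmem τ (x i))
  set chi : Polynomial W := ∏ τ : {τ : M1 →ₐ[k1] A // ∀ i, τ (z i) = u i},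
    (Polynomial.X - Polynomial.C (⟨_, hξ τ⟩ : W)) with hchi
  have hmap : chi.map (algebraMap W A) = ∏ τ : {τ : M1 →ₐ[k1] A // ∀ i, τ (z i) = u i},
      (Polynomial.X - Polynomial.C (∑ i, l i * τ.1 (x i))) := by
    rw [hchi, Polynomial.map_prod]
    refine Finset.prod_congr rfl fun τ _ => ?_
    rw [Polynomial.map_sub, Polynomial.map_X, Polynomial.map_C]
    rfl
  have hinv : ∀ σ : W ≃ₐ[K] W, chi.map (σ : W →+* W) = chi := by
    intro σ
    rw [hchi, Polynomial.map_prod]
    rw [← (htw σ).prod_comp (fun τ => (Polynomial.X - Polynomial.C (⟨_, hξ τ⟩ : W)))]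
    refine Finset.prod_congr rfl fun τ _ => ?_
    rw [Polynomial.map_sub, Polynomial.map_X, Polynomial.map_C]
    congr 2
    apply Subtype.ext
    change ((σ ⟨∑ i, l i * τ.1 (x i), hξ τ⟩ : W) : A) = ∑ i, l i * (σ ⟨τ.1 (x i), hmem τ (x i)⟩ : A)
    have h : (⟨∑ i, l i * τ.1 (x i), hξ τ⟩ : W) =
        ∑ i, algebraMap K W ⟨l i, hlW i⟩ * ⟨τ.1 (x i), hmem τ (x i)⟩ := by
      apply Subtype.ext
      rw [AddSubmonoidClass.coe_finsetSum]
      rfl
    rw [h, map_sum, AddSubmonoidClass.coe_finsetSum]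
    refine Finset.sum_congr rfl fun i _ => ?_
    rw [map_mul, σ.commutes]
    rfl
  rw [Polynomial.lifts_iff_coeff_lifts]
  intro m
  have h1 : chi.coeff m ∈ Set.range (algebraMap K W) := by
    rw [InfiniteGalois.mem_range_algebraMap_iff_fixed]
    intro σ
    have h2 := congrArg (fun p => Polynomial.coeff p m) (hinv σ)
    simp only [Polynomial.coeff_map] at h2
    exact h2
  obtain ⟨y, hy⟩ := h1
  refine ⟨y, ?_⟩
  rw [← hmap, Polynomial.coeff_map, ← hy]
  rfl

end MP2619.N
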