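import Pool.Agent.Lib.MP_2619d0_ag.N.A0

/-!
Row 2619n-A7: the estimate of section 2 (a), (b) of /team-store/2619NP_paper_helper9.md.
-/

set_option autoImplicit false

namespace MP2619.N

open scoped NNReal
open IntermediateField

section A7

variable {A : Type} [Field A]

private theorem A7_pred {n k : ℕ} (d : Fin n →₀ ℕ) (hd : d.degree = k + 1) :
    ∃ (i : Fin n) (d' : Fin n →₀ ℕ), d'.degree = k ∧ d = Finsupp.single i 1 + d' := by
  have hne : d ≠ 0 := by
    rintro rfl
    simp at hd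
  obtain ⟨i, hi⟩ := Finsupp.ne_iff.1 hne
  have hi1 : 1 ≤ d i := Nat.one_le_iff_ne_zero.2 hi
  have hle : Finsupp.single i 1 ≤ d := by
    rw [Finsupp.single_le_iff]
    exact hi1
  refine ⟨i, d - Finsupp.single i 1, ?_, (add_tsub_cancel_of_le hle).symm⟩
  have h1 : (Finsupp.single i 1 + (d - Finsupp.single i 1)).degree = d.degree := by
    rw [add_tsub_cancel_of_le hle]
  rw [map_add, Finsupp.degree_single, hd] at h1
  omega

private theorem A7_prod_add {n : ℕ} (z : Fin n → A) (i : Fin n) (d : Fin n →₀ ℕ) :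
    ∏ j, z j ^ ((Finsupp.single i 1 + d : Fin n →₀ ℕ) j) = z i * ∏ j, z j ^ (d j) := by
  classical
  have h : ∀ j, z j ^ ((Finsupp.single i 1 + d : Fin n →₀ ℕ) j) =
      (z j ^ ((Finsupp.single i 1 : Fin n →₀ ℕ) j)) * z j ^ (d j) := by
    intro j
    rw [Finsupp.add_apply, pow_add]
  rw [Finset.prod_congr rfl (fun j _ => h j), Finset.prod_mul_distrib]
  congr 1
  rw [Finset.prod_eq_single i]
  · simp
  · intro j _ hj
    rw [Finsupp.single_apply, if_neg (Ne.symm hj), pow_zero]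
  · intro h
    exact absurd (Finset.mem_univ i) h

private theorem A7_mono (V : Valuation A ℝ≥0) {n : ℕ} (z : Fin n → A) (ρ : ℝ≥0)
    (hz : ∀ i, V (z i) ≤ ρ) (k : ℕ) (d : Fin n →₀ ℕ) (hd : d.degree = k) :
    V (∏ i, z i ^ d i) ≤ ρ ^ k := by
  induction k generalizing d with
  | zero =>
    rw [Finsupp.degree_eq_zero_iff] at hd
    subst hd
    simp
  | succ k ih =>
    obtain ⟨i, d', hd', rfl⟩ := A7_pred d hd
    rw [A7_prod_add z, map_mul, pow_succ']
    exact mul_le_mul' (hz i) (ih d' hd')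

private theorem A7_diff (V : Valuation A ℝ≥0) {n : ℕ} (u x : Fin n → A) (R : ℝ≥0) (hR : 1 ≤ R)
    (hu : ∀ i, V (u i) ≤ 1) (hx : ∀ i, V (x i) ≤ R) (k : ℕ) (d : Fin n →₀ ℕ)
    (hd : d.degree = k) :
    V (∏ i, (u i - x i) ^ d i - (-1) ^ k * ∏ i, x i ^ d i) ≤ R ^ (k - 1) := by
  have hy : ∀ i, V (u i - x i) ≤ R := fun i =>
    (V.map_sub _ _).trans (max_le ((hu i).trans hR) (hx i))
  induction k generalizing d with
  | zero =>
    rw [Finsupp.degree_eq_zero_iff] at hd
    subst hd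
    simp
  | succ k ih =>
    obtain ⟨i, d', hd', rfl⟩ := A7_pred d hd
    rw [A7_prod_add (fun j => u j - x j), A7_prod_add x]
    have e : (u i - x i) * ∏ j, (u j - x j) ^ d' j - (-1) ^ (k + 1) * (x i * ∏ j, x j ^ d' j) =
        u i * ∏ j, (u j - x j) ^ d' j -
          x i * (∏ j, (u j - x j) ^ d' j - (-1) ^ k * ∏ j, x j ^ d' j) := by
      ring
    rw [e]
    refine (V.map_sub _ _).trans (max_le ?_ ?_)
    · rw [map_mul]
      calc V (u i) * V (∏ j, (u j - x j) ^ d' j) ≤ 1 * R ^ k :=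
            mul_le_mul' (hu i) (A7_mono V _ R hy k d' hd')
        _ = R ^ (k + 1 - 1) := by simp
    · rw [map_mul]
      rcases Nat.eq_zero_or_pos k with hk | hk
      · subst hk
        rw [Finsupp.degree_eq_zero_iff] at hd'
        subst hd'
        simp
      · calc V (x i) * V (∏ j, (u j - x j) ^ d' j - (-1) ^ k * ∏ j, x j ^ d' j) ≤
              R * R ^ (k - 1) := mul_le_mul' (hx i) (ih d' hd')
          _ = R ^ (k + 1 - 1) := by
              rw [← pow_succ']
              congr 1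
              omega

variable [Algebra ℂ A]

private theorem A7_aeval {n : ℕ} (P : MvPolynomial (Fin n) ℂ) (z : Fin n → A) :
    MvPolynomial.aeval z P =
      ∑ d ∈ P.support, algebraMap ℂ A (MvPolynomial.coeff d P) * ∏ i, z i ^ d i := by
  rw [MvPolynomial.aeval_def, MvPolynomial.eval₂_eq']

private theorem A7_deg {n : ℕ} (P : MvPolynomial (Fin n) ℂ)
    (hP : P.IsHomogeneous 3) (d : Fin n →₀ ℕ) (hd : d ∈ P.support) : d.degree = 3 := by
  by_contra h
  exact (MvPolynomial.mem_support_iff.1 hd) (hP.coeff_eq_zero h)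

private theorem A7_bound (V : Valuation A ℝ≥0) {n : ℕ} (P : MvPolynomial (Fin n) ℂ)
    (hP : P.IsHomogeneous 3) (c : ℝ≥0)
    (hc : ∀ d ∈ P.support, V (algebraMap ℂ A (MvPolynomial.coeff d P)) ≤ c)
    (z : Fin n → A) (ρ : ℝ≥0) (hz : ∀ i, V (z i) ≤ ρ) :
    V (MvPolynomial.aeval z P) ≤ c * ρ ^ 3 := by
  rw [A7_aeval]
  refine V.map_sum_le fun d hd => ?_
  rw [map_mul]
  exact mul_le_mul' (hc d hd) (A7_mono V z ρ hz 3 d (A7_deg P hP d hd))

private theorem A7_bound2 (V : Valuation A ℝ≥0) {n : ℕ} (P : MvPolynomial (Fin n) ℂ)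
    (hP : P.IsHomogeneous 3) (c : ℝ≥0)
    (hc : ∀ d ∈ P.support, V (algebraMap ℂ A (MvPolynomial.coeff d P)) ≤ c)
    (u x : Fin n → A) (R : ℝ≥0) (hR : 1 ≤ R)
    (hu : ∀ i, V (u i) ≤ 1) (hx : ∀ i, V (x i) ≤ R) :
    V (MvPolynomial.aeval (fun i => u i - x i) P + MvPolynomial.aeval x P) ≤ c * R ^ 2 := by
  rw [A7_aeval, A7_aeval, ← Finset.sum_add_distrib]
  refine V.map_sum_le fun d hd => ?_
  have hdeg : d.degree = 3 := A7_deg P hP d hd
  have e : algebraMap ℂ A (MvPolynomial.coeff d P) * ∏ i, (u i - x i) ^ d i +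
      algebraMap ℂ A (MvPolynomial.coeff d P) * ∏ i, x i ^ d i =
      algebraMap ℂ A (MvPolynomial.coeff d P) *
        (∏ i, (u i - x i) ^ d i - (-1) ^ 3 * ∏ i, x i ^ d i) := by
    ring
  rw [e, map_mul]
  exact mul_le_mul' (hc d hd) (A7_diff V u x R hR hu hx 3 d hdeg)

private theorem A7_single {n : ℕ} (d : Fin n →₀ ℕ) :
    MvPolynomial.coeff d (∑ i : Fin n, MvPolynomial.monomial (Finsupp.single i 3) (1 : ℂ)) =
      if ∃ i, d = Finsupp.single i 3 then 1 else 0 := by
  classical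
  rw [MvPolynomial.coeff_sum]
  simp only [MvPolynomial.coeff_monomial]
  split_ifs with h
  · obtain ⟨i, rfl⟩ := h
    rw [Finset.sum_eq_single i]
    · simp
    · intro j _ hj
      rw [if_neg]
      intro h
      exact hj ((Finsupp.single_left_inj (by norm_num : (3 : ℕ) ≠ 0)).1 h)
    · intro h
      exact absurd (Finset.mem_univ i) h
  · apply Finset.sum_eq_zero
    intro i _
    rw [if_neg]
    intro h'
    exact h ⟨i, h'.symm⟩

private theorem A7_aeval_cubes {n : ℕ} (z : Fin n → A) :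
    MvPolynomial.aeval z (∑ i : Fin n, MvPolynomial.monomial (Finsupp.single i 3) (1 : ℂ)) =
      ∑ i, z i ^ 3 := by
  rw [map_sum]
  refine Finset.sum_congr rfl fun i _ => ?_
  rw [MvPolynomial.aeval_monomial, Finsupp.prod_single_index (by exact pow_zero _), map_one,
    one_mul]

private theorem A7_aeval_e3 {n : ℕ} (a b c : Fin n) (g : ℂ) (z : Fin n → A) :
    MvPolynomial.aeval z (MvPolynomial.monomial (e3 a b c) g) =
      algebraMap ℂ A g * (z a * z b * z c) := by
  rw [MvPolynomial.aeval_monomial, e3, Finsupp.prod_add_index', Finsupp.prod_add_index',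
    Finsupp.prod_single_index (by exact pow_zero _),
    Finsupp.prod_single_index (by exact pow_zero _),
    Finsupp.prod_single_index (by exact pow_zero _)]
  · simp only [pow_one]
  · intro; exact pow_zero _
  · intro _ _ _; exact pow_add _ _ _
  · intro; exact pow_zero _
  · intro _ _ _; exact pow_add _ _ _

private theorem A7_e3_ne {n : ℕ} (a b c : Fin n) (hab : a ≠ b) (hac : a ≠ c) :
    ¬ ∃ i, e3 a b c = Finsupp.single i 3 := by
  rintro ⟨i, hi⟩
  have h := DFunLike.congr_fun hi a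
  rw [e3, Finsupp.add_apply, Finsupp.add_apply, Finsupp.single_eq_same,
    Finsupp.single_eq_of_ne hab, Finsupp.single_eq_of_ne hac] at h
  rw [Finsupp.single_apply] at h
  split_ifs at h
  omega

private theorem A7_deg_e3 {n : ℕ} (a b c : Fin n) : (e3 a b c).degree = 3 := by
  rw [e3, map_add, map_add, Finsupp.degree_single, Finsupp.degree_single, Finsupp.degree_single]

private theorem A7_hom_cubes {n : ℕ} :
    (∑ i : Fin n, MvPolynomial.monomial (Finsupp.single i 3) (1 : ℂ)).IsHomogeneous 3 :=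
  MvPolynomial.IsHomogeneous.sum _ _ _ fun i _ =>
    MvPolynomial.isHomogeneous_monomial _ (Finsupp.degree_single i 3)

omit [Algebra ℂ A] in
private theorem A7_three (V : Valuation A ℝ≥0) (h2 : V 2 < 1) : V 3 = 1 := by
  have e : (3 : A) = 1 + 2 := by norm_num
  rw [e, V.map_add_eq_of_lt_left (by rw [map_one]; exact h2), map_one]

omit [Algebra ℂ A] in
private theorem A7_nm (V : Valuation A ℝ≥0) {n : ℕ} (x : Fin n → A) (i : Fin n) :
    V (x i) ≤ nm V x :=
  Finset.le_sup (f := fun i => V (x i)) (Finset.mem_univ i)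

end A7

/-- (a) With `X = e x` (`e_i³ = 1`, `e` constant on `{a, b, c}`), `y = u - X`, `Φ0 = ∑ x_i³ + g x_a x_b x_c`,
`F = Φ0 + E`, coefficients of `E` of norm `≤ |2|`: `Φ0(X) = Φ0(x) = - E(x)` and `Φ0(y) = - E(y)` have norm
`≤ |2| R³`; `Φ0(u - X) = Φ0(u) - (linear in X) + 3 ∑ u_i X_i² + g(u_a X_b X_c + ..) - Φ0(X)`; and
`1, R, |2| R³, |g| R²` are `< R²`; `|3| = 1`. -/
theorem quad_small {n : ℕ} {F : MvPolynomial (Fin n) ℂ} (hF : F.IsHomogeneous 3) {A : Type}
    [Field A] [Algebra ℂ A] (V : Valuation A ℝ≥0) (h2 : V 2 < 1) (a b c : Fin n) (hab : a ≠ b)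
    (hac : a ≠ c) (hbc : b ≠ c)
    (hco : ∀ d : Fin n →₀ ℕ, d.degree = 3 → d ≠ e3 a b c →
      V (algebraMap ℂ A (MvPolynomial.coeff d F - if ∃ i, d = Finsupp.single i 3 then 1 else 0)) ≤ V 2)
    (hg : V (algebraMap ℂ A (MvPolynomial.coeff (e3 a b c) F)) < 1)
    (u x y e : Fin n → A) (he : ∀ i, e i ^ 3 = 1) (heab : e a = e b) (heac : e a = e c)
    (hu : ∀ i, V (u i) ≤ 1) (hxy : ∀ i, e i * x i + y i = u i)
    (hx : MvPolynomial.aeval x F = 0) (hy : MvPolynomial.aeval y F = 0)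
    (R : ℝ≥0) (hR : 1 < R) (h2R : V 2 * R < 1) (hnm : nm V (fun i => e i * x i) = R) :
    V (∑ i, u i * (e i * x i) ^ 2) < R ^ 2 := by
  classical
  set g0 := MvPolynomial.coeff (e3 a b c) F with hg0
  set g := algebraMap ℂ A g0 with hgdef
  have hve : ∀ i, V (e i) = 1 := by
    intro i
    have h := congrArg V (he i)
    rw [map_pow, map_one] at h
    exact (pow_eq_one_iff_of_nonneg zero_le (by norm_num)).1 h
  have hX : ∀ i, V (e i * x i) ≤ R := fun i => by
    rw [← hnm]
    exact A7_nm V (fun i => e i * x i) i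
  have hxR : ∀ i, V (x i) ≤ R := fun i => by
    have h := hX i
    rwa [map_mul, hve, one_mul] at h
  have hyX : ∀ i, y i = u i - e i * x i := fun i => by
    rw [← hxy i]
    ring
  have hyR : ∀ i, V (y i) ≤ R := fun i => by
    rw [hyX i]
    exact (V.map_sub _ _).trans (max_le ((hu i).trans hR.le) (hX i))
  -- the polynomial E
  set P : MvPolynomial (Fin n) ℂ := F - ∑ i : Fin n, MvPolynomial.monomial (Finsupp.single i 3) 1 -
    MvPolynomial.monomial (e3 a b c) g0 with hPdef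
  have hPh : P.IsHomogeneous 3 := by
    rw [hPdef]
    exact (hF.sub A7_hom_cubes).sub (MvPolynomial.isHomogeneous_monomial _ (A7_deg_e3 a b c))
  have hPc : ∀ d ∈ P.support, V (algebraMap ℂ A (MvPolynomial.coeff d P)) ≤ V 2 := by
    intro d hd
    have hdeg := A7_deg P hPh d hd
    have hcf : MvPolynomial.coeff d P = MvPolynomial.coeff d F -
        (if ∃ i, d = Finsupp.single i 3 then 1 else 0) - (if e3 a b c = d then g0 else 0) := by
      rw [hPdef, MvPolynomial.coeff_sub, MvPolynomial.coeff_sub, A7_single,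
        MvPolynomial.coeff_monomial]
    by_cases h : d = e3 a b c
    · subst h
      rw [hcf, if_neg (A7_e3_ne a b c hab hac), if_pos rfl, sub_zero, ← hg0, sub_self, map_zero,
        map_zero]
      exact zero_le
    · have h' : ¬ (e3 a b c = d) := fun h' => h h'.symm
      rw [hcf, if_neg h', sub_zero]
      exact hco d hdeg h
  have hev : ∀ z : Fin n → A, MvPolynomial.aeval z P =
      MvPolynomial.aeval z F - ∑ i, z i ^ 3 - g * (z a * z b * z c) := by
    intro z
    rw [hPdef, map_sub, map_sub, A7_aeval_cubes, A7_aeval_e3]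
  have hR0 : 0 < R := lt_trans zero_lt_one hR
  have h2R3 : V 2 * R ^ 3 < R ^ 2 := by
    calc V 2 * R ^ 3 = (V 2 * R) * R ^ 2 := by ring
      _ < 1 * R ^ 2 := mul_lt_mul_of_pos_right h2R (pow_pos hR0 2)
      _ = R ^ 2 := one_mul _
  have hRR : R < R ^ 2 := by
    calc R = 1 * R := (one_mul _).symm
      _ < R * R := mul_lt_mul_of_pos_right hR hR0
      _ = R ^ 2 := (pow_two R).symm
  have h1R : (1 : ℝ≥0) < R ^ 2 := hR.trans hRR
  have hb1 : V (MvPolynomial.aeval x P) < R ^ 2 :=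
    (A7_bound V P hPh (V 2) hPc x R hxR).trans_lt h2R3
  have hb2 : V (MvPolynomial.aeval y P) < R ^ 2 :=
    (A7_bound V P hPh (V 2) hPc y R hyR).trans_lt h2R3
  have h3 : V 3 = 1 := A7_three V h2
  have hkey : 3 * ∑ i, u i * (e i * x i) ^ 2 =
      - MvPolynomial.aeval y P - MvPolynomial.aeval x P - ∑ i, u i ^ 3 +
        3 * ∑ i, u i ^ 2 * (e i * x i) - g * (u a * u b * u c) +
        g * ((e a * x a) * u b * u c + u a * (e b * x b) * u c + u a * u b * (e c * x c)) -
        g * (u a * (e b * x b) * (e c * x c) + (e a * x a) * u b * (e c * x c) +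
          (e a * x a) * (e b * x b) * u c) := by
    rw [hev y, hev x, hx, hy]
    have hs : ∑ i, y i ^ 3 = ∑ i, u i ^ 3 - 3 * ∑ i, u i ^ 2 * (e i * x i) +
        3 * ∑ i, u i * (e i * x i) ^ 2 - ∑ i, x i ^ 3 := by
      rw [Finset.mul_sum, Finset.mul_sum, ← Finset.sum_sub_distrib, ← Finset.sum_add_distrib,
        ← Finset.sum_sub_distrib]
      refine Finset.sum_congr rfl fun i _ => ?_
      rw [hyX i]
      linear_combination (- x i ^ 3) * he i
    rw [hs, hyX a, hyX b, hyX c]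
    have hea : e a * e b * e c = 1 := by
      rw [← heab, ← heac]
      linear_combination he a
    linear_combination (g * (x a * x b * x c)) * hea
  have hV : V (3 * ∑ i, u i * (e i * x i) ^ 2) < R ^ 2 := by
    rw [hkey]
    have t1 : V (- MvPolynomial.aeval y P) < R ^ 2 := by rwa [V.map_neg]
    have t3 : V (∑ i, u i ^ 3) < R ^ 2 := by
      refine lt_of_le_of_lt (V.map_sum_le fun i _ => ?_) h1R
      rw [map_pow]
      exact pow_le_one₀ zero_le (hu i)
    have t4 : V (3 * ∑ i, u i ^ 2 * (e i * x i)) < R ^ 2 := by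
      rw [map_mul, h3, one_mul]
      refine lt_of_le_of_lt (V.map_sum_le fun i _ => ?_) hRR
      rw [map_mul, map_pow]
      calc V (u i) ^ 2 * V (e i * x i) ≤ 1 * R :=
            mul_le_mul' (pow_le_one₀ zero_le (hu i)) (hX i)
        _ = R := one_mul R
    have m3 : ∀ (p q r : A) (P1 Q1 R1 : ℝ≥0), V p ≤ P1 → V q ≤ Q1 → V r ≤ R1 →
        V (p * q * r) ≤ P1 * Q1 * R1 := by
      intro p q r P1 Q1 R1 hp hq hr
      rw [map_mul, map_mul]
      exact mul_le_mul' (mul_le_mul' hp hq) hr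
    have t5 : V (g * (u a * u b * u c)) < R ^ 2 := by
      rw [map_mul]
      refine lt_of_le_of_lt (mul_le_mul' hg.le (m3 _ _ _ 1 1 1 (hu a) (hu b) (hu c))) ?_
      simpa using h1R
    have t6 : V (g * ((e a * x a) * u b * u c + u a * (e b * x b) * u c +
        u a * u b * (e c * x c))) < R ^ 2 := by
      rw [map_mul]
      refine lt_of_le_of_lt (mul_le_mul' hg.le (?_ : _ ≤ R)) (by simpa using hRR)
      refine (V.map_add _ _).trans (max_le ((V.map_add _ _).trans (max_le ?_ ?_)) ?_)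
      · simpa using m3 _ _ _ R 1 1 (hX a) (hu b) (hu c)
      · simpa using m3 _ _ _ 1 R 1 (hu a) (hX b) (hu c)
      · simpa using m3 _ _ _ 1 1 R (hu a) (hu b) (hX c)
    have t7 : V (g * (u a * (e b * x b) * (e c * x c) + (e a * x a) * u b * (e c * x c) +
          (e a * x a) * (e b * x b) * u c)) < R ^ 2 := by
      rw [map_mul]
      have hq : V (u a * (e b * x b) * (e c * x c) + (e a * x a) * u b * (e c * x c) +
          (e a * x a) * (e b * x b) * u c) ≤ R ^ 2 := by
        refine (V.map_add _ _).trans (max_le ((V.map_add _ _).trans (max_le ?_ ?_)) ?_)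
        · simpa [pow_two] using m3 _ _ _ 1 R R (hu a) (hX b) (hX c)
        · simpa [pow_two] using m3 _ _ _ R 1 R (hX a) (hu b) (hX c)
        · simpa [pow_two] using m3 _ _ _ R R 1 (hX a) (hX b) (hu c)
      calc V g * V _ ≤ V g * R ^ 2 := mul_le_mul_right hq _
        _ < 1 * R ^ 2 := mul_lt_mul_of_pos_right hg (pow_pos hR0 2)
        _ = R ^ 2 := one_mul _
    have sub_lt : ∀ p q : A, V p < R ^ 2 → V q < R ^ 2 → V (p - q) < R ^ 2 := fun p q hp hq =>
      lt_of_le_of_lt (V.map_sub _ _) (max_lt hp hq)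
    have add_lt : ∀ p q : A, V p < R ^ 2 → V q < R ^ 2 → V (p + q) < R ^ 2 := fun p q hp hq =>
      lt_of_le_of_lt (V.map_add _ _) (max_lt hp hq)
    exact sub_lt _ _ (add_lt _ _ (sub_lt _ _ (add_lt _ _ (sub_lt _ _ (sub_lt _ _ t1 hb1) t3) t4)
      t5) t6) t7
  rwa [map_mul, h3, one_mul] at hV

/-- (b) the same for `e = 1` and every `R > 1`: then `F(X) = 0 = F(u - X)` exactly; all coefficients of `F` are
within `|2|` of those of `∑ x_i³`. -/
theorem quad_small_one {n : ℕ} {F : MvPolynomial (Fin n) ℂ} (hF : F.IsHomogeneous 3) {A : Type}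
    [Field A] [Algebra ℂ A] (V : Valuation A ℝ≥0) (h2 : V 2 < 1)
    (hco : ∀ d : Fin n →₀ ℕ, d.degree = 3 →
      V (algebraMap ℂ A (MvPolynomial.coeff d F - if ∃ i, d = Finsupp.single i 3 then 1 else 0)) ≤ V 2)
    (u x y : Fin n → A) (hu : ∀ i, V (u i) ≤ 1) (hxy : ∀ i, x i + y i = u i)
    (hx : MvPolynomial.aeval x F = 0) (hy : MvPolynomial.aeval y F = 0)
    (R : ℝ≥0) (hR : 1 < R) (hnm : nm V x = R) :
    V (∑ i, u i * x i ^ 2) < R ^ 2 := by
  classical
  have hX : ∀ i, V (x i) ≤ R := fun i => by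
    rw [← hnm]
    exact A7_nm V x i
  have hyX : ∀ i, y i = u i - x i := fun i => by
    rw [← hxy i]
    ring
  have hyf : y = fun i => u i - x i := funext hyX
  set P : MvPolynomial (Fin n) ℂ :=
    F - ∑ i : Fin n, MvPolynomial.monomial (Finsupp.single i 3) 1 with hPdef
  have hPh : P.IsHomogeneous 3 := by
    rw [hPdef]
    exact hF.sub A7_hom_cubes
  have hPc : ∀ d ∈ P.support, V (algebraMap ℂ A (MvPolynomial.coeff d P)) ≤ V 2 := by
    intro d hd
    have hdeg := A7_deg P hPh d hd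
    have hcf : MvPolynomial.coeff d P = MvPolynomial.coeff d F -
        (if ∃ i, d = Finsupp.single i 3 then 1 else 0) := by
      rw [hPdef, MvPolynomial.coeff_sub, A7_single]
    rw [hcf]
    exact hco d hdeg
  have hev : ∀ z : Fin n → A, MvPolynomial.aeval z P =
      MvPolynomial.aeval z F - ∑ i, z i ^ 3 := by
    intro z
    rw [hPdef, map_sub, A7_aeval_cubes]
  have hR0 : 0 < R := lt_trans zero_lt_one hR
  have hRR : R < R ^ 2 := by
    calc R = 1 * R := (one_mul _).symm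
      _ < R * R := mul_lt_mul_of_pos_right hR hR0
      _ = R ^ 2 := (pow_two R).symm
  have h1R : (1 : ℝ≥0) < R ^ 2 := hR.trans hRR
  have hb : V (MvPolynomial.aeval (fun i => u i - x i) P + MvPolynomial.aeval x P) < R ^ 2 := by
    refine lt_of_le_of_lt (A7_bound2 V P hPh (V 2) hPc u x R hR.le hu hX) ?_
    calc V 2 * R ^ 2 < 1 * R ^ 2 := mul_lt_mul_of_pos_right h2 (pow_pos hR0 2)
      _ = R ^ 2 := one_mul _
  have h3 : V 3 = 1 := A7_three V h2
  have hkey : 3 * ∑ i, u i * x i ^ 2 =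
      - (MvPolynomial.aeval (fun i => u i - x i) P + MvPolynomial.aeval x P) - ∑ i, u i ^ 3 +
        3 * ∑ i, u i ^ 2 * x i := by
    rw [← hyf, hev y, hev x, hx, hy]
    have hs : ∑ i, y i ^ 3 = ∑ i, u i ^ 3 - 3 * ∑ i, u i ^ 2 * x i +
        3 * ∑ i, u i * x i ^ 2 - ∑ i, x i ^ 3 := by
      rw [Finset.mul_sum, Finset.mul_sum, ← Finset.sum_sub_distrib, ← Finset.sum_add_distrib,
        ← Finset.sum_sub_distrib]
      refine Finset.sum_congr rfl fun i _ => ?_
      rw [hyX i]
      ring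
    rw [hs]
    ring
  have hV : V (3 * ∑ i, u i * x i ^ 2) < R ^ 2 := by
    rw [hkey]
    have t1 : V (- (MvPolynomial.aeval (fun i => u i - x i) P + MvPolynomial.aeval x P)) <
        R ^ 2 := by rwa [V.map_neg]
    have t3 : V (∑ i, u i ^ 3) < R ^ 2 := by
      refine lt_of_le_of_lt (V.map_sum_le fun i _ => ?_) h1R
      rw [map_pow]
      exact pow_le_one₀ zero_le (hu i)
    have t4 : V (3 * ∑ i, u i ^ 2 * x i) < R ^ 2 := by
      rw [map_mul, h3, one_mul]
      refine lt_of_le_of_lt (V.map_sum_le fun i _ => ?_) hRR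
      rw [map_mul, map_pow]
      calc V (u i) ^ 2 * V (x i) ≤ 1 * R :=
            mul_le_mul' (pow_le_one₀ zero_le (hu i)) (hX i)
        _ = R := one_mul R
    exact lt_of_le_of_lt (V.map_add _ _) (max_lt (lt_of_le_of_lt (V.map_sub _ _)
      (max_lt t1 t3)) t4)
  rwa [map_mul, h3, one_mul] at hV

end MP2619.N
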