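import Pool.Agent.Lib.MP_2619d0_ag.R.A4

/-!
Row 2619n-G2: the lambda lemma and anisotropy (residue fields; no valuations here).
-/

set_option autoImplicit false

namespace MP2619.N

open IntermediateField

open scoped IntermediateField.algebraAdjoinAdjoin in
private theorem G2_exists_poly {F E : Type*} [Field F] [Field E] [Algebra F E] {n : ℕ}
    (l : Fin n → E) (hl : AlgebraicIndependent F l) (ξ : E)
    (hsep : (minpoly (adjoin F (Set.range l)) ξ).Separable) :
    ∃ M : Polynomial (MvPolynomial (Fin n) F),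
      M.eval₂ (MvPolynomial.aeval l : MvPolynomial (Fin n) F →ₐ[F] E).toRingHom ξ = 0 ∧
      M.derivative.eval₂ (MvPolynomial.aeval l : MvPolynomial (Fin n) F →ₐ[F] E).toRingHom ξ ≠ 0 := by
  classical
  obtain ⟨m, hm⟩ : ∃ m, m = minpoly (adjoin F (Set.range l)) ξ := ⟨_, rfl⟩
  obtain ⟨b, hb, hM0⟩ := IsLocalization.integerNormalization_spec
    (nonZeroDivisors (Algebra.adjoin F (Set.range l))) m
  obtain ⟨M0, hM0d⟩ : ∃ M0, M0 = IsLocalization.integerNormalization
    (nonZeroDivisors (Algebra.adjoin F (Set.range l))) m := ⟨_, rfl⟩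
  rw [← hM0d] at hM0
  have hb0 : b ≠ 0 := nonZeroDivisors.ne_zero hb
  have hbE : (b : E) ≠ 0 := by
    intro h; exact hb0 (Subtype.ext h)
  -- evaluation of M0
  have hev : ∀ P : Polynomial (Algebra.adjoin F (Set.range l)),
      P.eval₂ (algebraMap (Algebra.adjoin F (Set.range l)) E) ξ =
      (P.map (algebraMap (Algebra.adjoin F (Set.range l)) (adjoin F (Set.range l)))).eval₂
        (algebraMap (adjoin F (Set.range l)) E) ξ := by
    intro P
    rw [Polynomial.eval₂_map]
    rfl
  have hbm : ∀ P : Polynomial (adjoin F (Set.range l)),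
      (b • P).eval₂ (algebraMap (adjoin F (Set.range l)) E) ξ =
        (b : E) * P.eval₂ (algebraMap (adjoin F (Set.range l)) E) ξ := by
    intro P
    rw [← IsScalarTower.algebraMap_smul (adjoin F (Set.range l)) b P, Polynomial.eval₂_smul]
    rfl
  refine ⟨M0.map (hl.aevalEquiv.symm.toAlgHom.toRingHom), ?_, ?_⟩
  · rw [Polynomial.eval₂_map]
    have h1 : ((MvPolynomial.aeval l : MvPolynomial (Fin n) F →ₐ[F] E).toRingHom.comp
        (hl.aevalEquiv.symm.toAlgHom.toRingHom)) =
        algebraMap (Algebra.adjoin F (Set.range l)) E := by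
      ext z
      have h1 := hl.algebraMap_aevalEquiv (hl.aevalEquiv.symm z)
      rw [hl.aevalEquiv.apply_symm_apply] at h1
      exact h1.symm
    rw [h1, hev, hM0, hbm, hm]
    have := minpoly.aeval (adjoin F (Set.range l)) ξ
    rw [Polynomial.aeval_def] at this
    rw [this, mul_zero]
  · rw [Polynomial.derivative_map, Polynomial.eval₂_map]
    have h1 : ((MvPolynomial.aeval l : MvPolynomial (Fin n) F →ₐ[F] E).toRingHom.comp
        (hl.aevalEquiv.symm.toAlgHom.toRingHom)) =
        algebraMap (Algebra.adjoin F (Set.range l)) E := by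
      ext z
      have h1 := hl.algebraMap_aevalEquiv (hl.aevalEquiv.symm z)
      rw [hl.aevalEquiv.apply_symm_apply] at h1
      exact h1.symm
    rw [h1, hev, ← Polynomial.derivative_map, hM0, Polynomial.derivative_smul, hbm]
    refine mul_ne_zero hbE ?_
    rw [hm]
    have := hsep.aeval_derivative_ne_zero (minpoly.aeval (adjoin F (Set.range l)) ξ)
    rwa [Polynomial.aeval_def] at this

private theorem G2_deriv {F Fa : Type*} [Field F] [Field Fa] [Algebra F Fa] {n : ℕ}
    (i : Fin n) (Ξ : MvPolynomial (Fin n) Fa) (M : Polynomial (MvPolynomial (Fin n) F)) :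
    ∃ M1 : Polynomial (MvPolynomial (Fin n) F),
      MvPolynomial.pderiv i (M.eval₂ (MvPolynomial.map (algebraMap F Fa)) Ξ) =
        M1.eval₂ (MvPolynomial.map (algebraMap F Fa)) Ξ +
        M.derivative.eval₂ (MvPolynomial.map (algebraMap F Fa)) Ξ * MvPolynomial.pderiv i Ξ := by
  induction M using Polynomial.induction_on' with
  | add P Q hP hQ =>
    obtain ⟨P1, hP⟩ := hP
    obtain ⟨Q1, hQ⟩ := hQ
    refine ⟨P1 + Q1, ?_⟩
    rw [Polynomial.eval₂_add, map_add, hP, hQ, Polynomial.derivative_add, Polynomial.eval₂_add,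
      Polynomial.eval₂_add]
    ring
  | monomial k a =>
    refine ⟨Polynomial.monomial k (MvPolynomial.pderiv i a), ?_⟩
    rw [Polynomial.eval₂_monomial, Polynomial.eval₂_monomial, Polynomial.derivative_monomial,
      Polynomial.eval₂_monomial, Derivation.leibniz, Derivation.leibniz_pow, MvPolynomial.pderiv_map]
    simp only [smul_eq_mul, nsmul_eq_mul, map_mul, map_natCast]
    ring

/-- Let `l` be algebraically independent over `F`, `p_i` algebraic over `F` and `ξ = ∑ l_i p_i` of odd degree over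
`F(l)`. Then `p_i ∈ F(l)(ξ)`. Proof: `T = F(l)(ξ)` is separable over `F(l)`. Let `Fa` be the algebraic closure
of `F` in `E`; `l` is algebraically independent over `Fa`, and `∂_i` is a derivation of `Fa(l)` which is zero on
`Fa`, with `∂_i l_j = δ_ij`; it maps `F(l)` to itself, hence `T` to `T` (separable), and `∂_i ξ = p_i`.
(Or: a separable polynomial `m` in `F[l][Z]` with `m(ξ) = 0`; differentiate the identity `m(l; ∑ l_i p_i) = 0` of polynomials
over `Fa` with respect to `l_i`: `p_i = - (∂_i m)(ξ) / m'(ξ)`.) -/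
theorem lambda_mem {F E : Type*} [Field F] [Field E] [Algebra F E] (h2 : (2 : F) = 0) {n : ℕ}
    (l p : Fin n → E) (hl : AlgebraicIndependent F l) (hp : ∀ i, IsAlgebraic F (p i))
    (hodd : Odd (Module.finrank (adjoin F (Set.range l))
      (adjoin (adjoin F (Set.range l)) {∑ i, l i * p i}))) (i : Fin n) :
    p i ∈ adjoin (adjoin F (Set.range l)) {∑ i, l i * p i} := by
  classical
  obtain ⟨ξ, hξ⟩ : ∃ ξ : E, ξ = ∑ i, l i * p i := ⟨_, rfl⟩
  rw [← hξ] at hodd ⊢
  have h2L : (2 : adjoin F (Set.range l)) = 0 := by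
    have h := congrArg (algebraMap F (adjoin F (Set.range l))) h2
    rwa [map_ofNat, map_zero] at h
  have hsepT : Algebra.IsSeparable (adjoin F (Set.range l))
      (adjoin (adjoin F (Set.range l)) ({ξ} : Set E)) := MP2619.K.K2_sep h2L hodd
  have hsep : (minpoly (adjoin F (Set.range l)) ξ).Separable := by
    have h := Algebra.IsSeparable.isSeparable (adjoin F (Set.range l))
      (AdjoinSimple.gen (adjoin F (Set.range l)) ξ)
    rwa [IsSeparable, minpoly_gen] at h
  obtain ⟨M, hM0, hM1⟩ := G2_exists_poly l hl ξ hsep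
  -- the algebraic closure
  have hla : AlgebraicIndependent (algebraicClosure F E) l := hl.algebraicClosure
  obtain ⟨pp, hpp⟩ : ∃ pp : Fin n → algebraicClosure F E, ∀ j, ((pp j : algebraicClosure F E) : E) = p j :=
    ⟨fun j => ⟨p j, (mem_algebraicClosure_iff).2 (hp j)⟩, fun j => rfl⟩
  obtain ⟨Ξ, hΞ⟩ : ∃ Ξ : MvPolynomial (Fin n) (algebraicClosure F E),
      Ξ = ∑ j, MvPolynomial.X j * MvPolynomial.C (pp j) := ⟨_, rfl⟩
  have hcomp : ((MvPolynomial.aeval l : MvPolynomial (Fin n) (algebraicClosure F E) →ₐ[_] E).toRingHom.comp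
      (MvPolynomial.map (algebraMap F (algebraicClosure F E)))) =
      (MvPolynomial.aeval l : MvPolynomial (Fin n) F →ₐ[F] E).toRingHom := by
    apply MvPolynomial.ringHom_ext
    · intro a
      simp
    · intro j
      simp
  have hΞl : (MvPolynomial.aeval l : MvPolynomial (Fin n) (algebraicClosure F E) →ₐ[_] E) Ξ = ξ := by
    rw [hΞ, hξ, map_sum]
    refine Finset.sum_congr rfl (fun j _ => ?_)
    rw [map_mul, MvPolynomial.aeval_X, MvPolynomial.aeval_C]
    congr 1
    exact hpp j
  have hevl : ∀ P : Polynomial (MvPolynomial (Fin n) F),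
      (MvPolynomial.aeval l : MvPolynomial (Fin n) (algebraicClosure F E) →ₐ[_] E)
        (P.eval₂ (MvPolynomial.map (algebraMap F (algebraicClosure F E))) Ξ) =
      P.eval₂ (MvPolynomial.aeval l : MvPolynomial (Fin n) F →ₐ[F] E).toRingHom ξ := by
    intro P
    have h := Polynomial.hom_eval₂ P (MvPolynomial.map (algebraMap F (algebraicClosure F E)))
      (MvPolynomial.aeval l : MvPolynomial (Fin n) (algebraicClosure F E) →ₐ[_] E).toRingHom Ξ
    rw [hcomp] at h
    rw [← hΞl]
    exact h
  have hN : M.eval₂ (MvPolynomial.map (algebraMap F (algebraicClosure F E))) Ξ = 0 := by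
    apply (algebraicIndependent_iff_injective_aeval.1 hla)
    rw [hevl, hM0, map_zero]
  obtain ⟨M1, hD⟩ := G2_deriv i Ξ M
  rw [hN, map_zero] at hD
  have hDΞ : MvPolynomial.pderiv i Ξ = MvPolynomial.C (pp i) := by
    rw [hΞ, map_sum, Finset.sum_eq_single i]
    · rw [Derivation.leibniz, MvPolynomial.pderiv_C, MvPolynomial.pderiv_X_self]
      simp
    · intro j _ hj
      rw [Derivation.leibniz, MvPolynomial.pderiv_C, MvPolynomial.pderiv_X_of_ne hj]
      simp
    · intro h
      exact absurd (Finset.mem_univ i) h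
  have hkey := congrArg (MvPolynomial.aeval l : MvPolynomial (Fin n) (algebraicClosure F E) →ₐ[_] E) hD
  rw [map_zero, map_add, map_mul, hevl, hevl, hDΞ, MvPolynomial.aeval_C] at hkey
  have hpi : (algebraMap (algebraicClosure F E) E) (pp i) = p i := hpp i
  rw [hpi] at hkey
  have hmem : ∀ P : Polynomial (MvPolynomial (Fin n) F),
      P.eval₂ (MvPolynomial.aeval l : MvPolynomial (Fin n) F →ₐ[F] E).toRingHom ξ ∈
        adjoin (adjoin F (Set.range l)) ({ξ} : Set E) := by
    intro P
    rw [Polynomial.eval₂_eq_sum_range]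
    refine sum_mem (fun k _ => mul_mem ?_ (pow_mem (mem_adjoin_simple_self _ ξ) k))
    have h1 : (MvPolynomial.aeval l : MvPolynomial (Fin n) F →ₐ[F] E) (P.coeff k) ∈
        adjoin F (Set.range l) := by
      apply algebra_adjoin_le_adjoin
      rw [Algebra.adjoin_range_eq_range_aeval]
      exact ⟨_, rfl⟩
    exact IntermediateField.algebraMap_mem (adjoin (adjoin F (Set.range l)) ({ξ} : Set E))
      (⟨_, h1⟩ : adjoin F (Set.range l))
  have hfin : p i = - M1.eval₂ (MvPolynomial.aeval l : MvPolynomial (Fin n) F →ₐ[F] E).toRingHom ξ /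
      M.derivative.eval₂ (MvPolynomial.aeval l : MvPolynomial (Fin n) F →ₐ[F] E).toRingHom ξ := by
    rw [eq_div_iff hM1]
    linear_combination - hkey
  rw [hfin]
  exact div_mem (neg_mem (hmem M1)) (hmem M.derivative)

private theorem G2_an {κ E L : Type*} [Field κ] [Field E] [Field L] [Algebra κ E] [Algebra L E]
    {n : ℕ} (u l : Fin n → E) (hul : AlgebraicIndependent κ (Sum.elim u l))
    (hL : ∀ z : L, algebraMap L E z ∈ adjoin κ (Set.range u ∪ Set.range l))
    (w : Fin n → L) (hw : ∀ i, algebraMap L E (w i) = u i) : MP2619.R.An w := by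
  classical
  have hv : AlgebraicIndependent κ (fun j : Fin (n + n) => Sum.elim u l (finSumFinEquiv.symm j)) :=
    hul.comp finSumFinEquiv.symm finSumFinEquiv.symm.injective
  have hrange : Set.range (fun j : Fin (n + n) => Sum.elim u l (finSumFinEquiv.symm j)) =
      Set.range u ∪ Set.range l := by
    have : (fun j : Fin (n + n) => Sum.elim u l (finSumFinEquiv.symm j)) =
        Sum.elim u l ∘ finSumFinEquiv.symm := rfl
    rw [this, Set.range_comp, Equiv.range_eq_univ, Set.image_univ, Set.Sum.elim_range]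
  intro c hc
  obtain ⟨v, hvd⟩ : ∃ v : Fin (n + n) → E,
    v = fun j : Fin (n + n) => Sum.elim u l (finSumFinEquiv.symm j) := ⟨_, rfl⟩
  rw [← hvd] at hv hrange
  have hvj : ∀ j, v j ∈ adjoin κ (Set.range v) := fun j => subset_adjoin κ _ ⟨j, rfl⟩
  have hCj : ∀ j : Fin (n + n), Sum.elim (fun i => algebraMap L E (c i)) (fun _ : Fin n => (0 : E))
      (finSumFinEquiv.symm j) ∈ adjoin κ (Set.range v) := by
    intro j
    cases finSumFinEquiv.symm j with
    | inl i => rw [hrange]; exact hL (c i)
    | inr i => exact zero_mem _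
  have h0 := MP2619.R.an_adjoin v hv (fun j => ⟨v j, hvj j⟩) (fun j => rfl)
    (fun j => ⟨_, hCj j⟩) (by
      apply Subtype.ext
      have hc' := congrArg (algebraMap L E) hc
      rw [map_sum, map_zero] at hc'
      have e1 : ((∑ j : Fin (n + n), (⟨v j, hvj j⟩ : adjoin κ (Set.range v)) *
          (⟨_, hCj j⟩ : adjoin κ (Set.range v)) ^ 2 : adjoin κ (Set.range v)) : E) =
          ∑ j : Fin (n + n), v j * (Sum.elim (fun i => algebraMap L E (c i)) (fun _ : Fin n => (0 : E))
      (finSumFinEquiv.symm j)) ^ 2 := by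
        rw [AddSubmonoidClass.coe_finsetSum]
        rfl
      rw [e1, ← Equiv.sum_comp finSumFinEquiv, Fintype.sum_sum_type]
      simp only [Equiv.symm_apply_apply, Sum.elim_inl, Sum.elim_inr]
      rw [Finset.sum_eq_zero (s := Finset.univ) (f := fun i : Fin n => v (finSumFinEquiv (Sum.inr i)) *
        (0 : E) ^ 2) (by intro i _; simp), add_zero]
      rw [ZeroMemClass.coe_zero, ← hc']
      refine Finset.sum_congr rfl (fun i _ => ?_)
      rw [map_mul, map_pow, hw, hvd]
      simp only [Equiv.symm_apply_apply, Sum.elim_inl])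
  funext i
  have h1 := congrFun h0 (finSumFinEquiv (Sum.inl i))
  have h2' := congrArg Subtype.val h1
  simp only [Equiv.symm_apply_apply, Sum.elim_inl] at h2'
  have h3 : algebraMap L E (c i) = 0 := h2'
  exact (map_eq_zero _).1 h3

private theorem G2_final {L T E : Type*} [Field L] [Field T] [Field E] [Algebra L T] [Algebra T E]
    [Algebra L E] [IsScalarTower L T E] (h2 : (2 : L) = 0) (hodd : Odd (Module.finrank L T)) {n : ℕ}
    (w : Fin n → L) (hAn : MP2619.R.An w) (u p : Fin n → E) (c : Fin n → T)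
    (hc : ∀ i, algebraMap T E (c i) = p i) (hw : ∀ i, algebraMap L E (w i) = u i)
    (hq : ∑ i, u i * p i ^ 2 = 0) : p = 0 := by
  have h := MP2619.R.an_ext h2 hodd w hAn c (by
    apply (algebraMap T E).injective
    rw [map_sum, map_zero, ← hq]
    refine Finset.sum_congr rfl (fun i _ => ?_)
    rw [map_mul, map_pow, hc, ← IsScalarTower.algebraMap_apply, hw])
  funext i
  rw [← hc i, h]
  exact map_zero _

/-- The conclusion: `κ` a field of characteristic two, `(u, l)` algebraically independent over `κ`, `p_i`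
algebraic over `κ(u)`, `∑ l_i p_i` of odd degree over `κ(u)(l)`, `∑ u_i p_i² = 0`: then `p = 0`. By `lambda_mem`
with `F = κ(u)`, `an_adjoin` for the family `(u, l)` and `an_ext`. -/
theorem lambda_zero {κ E : Type*} [Field κ] [Field E] [Algebra κ E] (h2 : (2 : κ) = 0) {n : ℕ}
    (u l p : Fin n → E) (hul : AlgebraicIndependent κ (Sum.elim u l))
    (hp : ∀ i, IsAlgebraic (adjoin κ (Set.range u)) (p i))
    (hodd : Odd (Module.finrank (adjoin (adjoin κ (Set.range u)) (Set.range l))
      (adjoin (adjoin (adjoin κ (Set.range u)) (Set.range l)) {∑ i, l i * p i})))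
    (hq : ∑ i, u i * p i ^ 2 = 0) : p = 0 := by
  classical
  have h2F : (2 : adjoin κ (Set.range u)) = 0 := by
    have h := congrArg (algebraMap κ (adjoin κ (Set.range u))) h2
    rwa [map_ofNat, map_zero] at h
  have h2L : (2 : adjoin (adjoin κ (Set.range u)) (Set.range l)) = 0 := by
    have h := congrArg (algebraMap (adjoin κ (Set.range u))
      (adjoin (adjoin κ (Set.range u)) (Set.range l))) h2F
    rwa [map_ofNat, map_zero] at h
  -- `l` over `κ(u)`
  have hlu : AlgebraicIndependent κ (Sum.elim l u) := by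
    have h := hul.comp (Sum.swap : Fin n ⊕ Fin n → Fin n ⊕ Fin n)
      (Equiv.sumComm (Fin n) (Fin n)).injective
    have h' : Sum.elim u l ∘ (Sum.swap : Fin n ⊕ Fin n → Fin n ⊕ Fin n) = Sum.elim l u := by
      funext z
      cases z <;> rfl
    rwa [h'] at h
  have hl : AlgebraicIndependent (adjoin κ (Set.range u)) l :=
    algebraicIndependent_adjoin_iff.2 (AlgebraicIndependent.sumElim_iff.1 hlu).2
  have hmem := lambda_mem h2F l p hl hp hodd
  -- anisotropy over `κ(u)(l)`
  have hLeq : (adjoin (adjoin κ (Set.range u)) (Set.range l)).restrictScalars κ =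
      adjoin κ (Set.range u ∪ Set.range l) := adjoin_adjoin_left κ _ _
  have hLmem : ∀ z : E, z ∈ adjoin (adjoin κ (Set.range u)) (Set.range l) ↔
      z ∈ adjoin κ (Set.range u ∪ Set.range l) := by
    intro z
    rw [← hLeq, mem_restrictScalars]
  have hu : ∀ i, u i ∈ adjoin (adjoin κ (Set.range u)) (Set.range l) := by
    intro i
    rw [hLmem]
    exact subset_adjoin κ _ (Or.inl ⟨i, rfl⟩)
  exact G2_final h2L hodd (fun i => ⟨u i, hu i⟩)
    (G2_an u l hul (fun z => (hLmem _).1 z.2) _ (fun i => rfl)) u p (fun i => ⟨p i, hmem i⟩)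
    (fun i => rfl) (fun i => rfl) hq

end MP2619.N
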