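import Pool.Agent.Lib.MP_2619d0_ag.N.G1
import Pool.Agent.Lib.MP_2619d0_ag.N.G2

/-!
Row 2619n-G3: the GAP LEMMA (section 2 of /team-store/2619NP_paper_helper9.md).

Residue fields: `κ(V)` is the residue field of `V.valuationSubring`; the residue field of `Ω` is the subfield
of the residues of the elements of `Ω` of norm `≤ 1` (as `Ω` is algebraically closed, it is algebraically
closed, but this is not needed). Let `c` be as in `val_closed`, `V c = R`. Reduce
`∏_τ (c Z - ξ_τ)`, `ξ_τ = ∑ l_i X_i^τ`, divided by its coefficient of maximal norm, which is in `Ω(u, l)`.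
-/

set_option autoImplicit false

namespace MP2619.N

open scoped NNReal
open IntermediateField

section G3aux

variable {A : Type*} [Field A] (V : Valuation A ℝ≥0)

/-- The residue map, extended by zero to the elements of norm `> 1`. -/
private noncomputable def G3_r (x : A) : IsLocalRing.ResidueField V.valuationSubring := by
  classical
  exact if h : x ∈ V.valuationSubring then IsLocalRing.residue V.valuationSubring ⟨x, h⟩ else 0

private theorem G3_mem {x : A} (h : V x ≤ 1) : x ∈ V.valuationSubring :=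
  (V.mem_valuationSubring_iff x).2 h

private theorem G3_r_mk {x : A} (h : V x ≤ 1) :
    G3_r V x = IsLocalRing.residue V.valuationSubring ⟨x, G3_mem V h⟩ := by
  unfold G3_r
  rw [dif_pos (G3_mem V h)]

private theorem G3_r_coe (x : V.valuationSubring) :
    G3_r V (x : A) = IsLocalRing.residue V.valuationSubring x := by
  rw [G3_r_mk V ((V.mem_valuationSubring_iff (x : A)).1 x.2)]

private theorem G3_add {x y : A} (hx : V x ≤ 1) (hy : V y ≤ 1) :
    G3_r V (x + y) = G3_r V x + G3_r V y := by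
  have hxy : V (x + y) ≤ 1 := (V.map_add x y).trans (max_le hx hy)
  rw [G3_r_mk V hx, G3_r_mk V hy, G3_r_mk V hxy, ← map_add]
  rfl

private theorem G3_mul {x y : A} (hx : V x ≤ 1) (hy : V y ≤ 1) :
    G3_r V (x * y) = G3_r V x * G3_r V y := by
  have hxy : V (x * y) ≤ 1 := by
    rw [map_mul]
    exact mul_le_one' hx hy
  rw [G3_r_mk V hx, G3_r_mk V hy, G3_r_mk V hxy, ← map_mul]
  rfl

private theorem G3_one : G3_r V 1 = 1 := by
  have := G3_r_coe V 1
  rw [map_one] at this
  exact this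

private theorem G3_zero : G3_r V 0 = 0 := by
  have := G3_r_coe V 0
  rw [map_zero] at this
  exact this

private theorem G3_eq_zero {x : A} (hx : V x ≤ 1) : G3_r V x = 0 ↔ V x < 1 := by
  rw [G3_r_mk V hx, IsLocalRing.residue_eq_zero_iff]
  constructor
  · intro h
    by_contra h1
    have h2 : V x = 1 := le_antisymm hx (not_lt.1 h1)
    have hx0 : x ≠ 0 := by
      intro h0
      rw [h0, map_zero] at h2
      exact zero_ne_one h2
    apply (IsLocalRing.mem_maximalIdeal _).1 h
    refine IsUnit.of_mul_eq_one ⟨x⁻¹, G3_mem V (by rw [map_inv₀, h2, inv_one])⟩ ?_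
    exact Subtype.ext (mul_inv_cancel₀ hx0)
  · intro h
    refine (IsLocalRing.mem_maximalIdeal _).2 fun hu => ?_
    obtain ⟨y, hy⟩ := isUnit_iff_exists_inv.1 hu
    have h1 : x * (y : A) = 1 := congrArg Subtype.val hy
    have h2 := congrArg V h1
    rw [map_mul, map_one] at h2
    have h3 : V (y : A) ≤ 1 := (V.mem_valuationSubring_iff (y : A)).1 y.2
    have h4 : V x * V (y : A) < 1 := mul_lt_one_of_lt_of_le h h3
    exact absurd h2 h4.ne

private theorem G3_pow {x : A} (hx : V x ≤ 1) (n : ℕ) : G3_r V (x ^ n) = G3_r V x ^ n := by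
  rw [G3_r_mk V hx, ← map_pow, ← G3_r_coe]
  rfl

private theorem G3_inv {x : A} (hx : V x = 1) : G3_r V x⁻¹ = (G3_r V x)⁻¹ := by
  have hx0 : x ≠ 0 := by
    intro h0
    rw [h0, map_zero] at hx
    exact zero_ne_one hx
  have h1 : V x⁻¹ = 1 := by rw [map_inv₀, hx, inv_one]
  have h2 := G3_mul V hx.le h1.le
  rw [mul_inv_cancel₀ hx0, G3_one] at h2
  exact eq_inv_of_mul_eq_one_right h2.symm

private theorem G3_sum {ι : Type*} (s : Finset ι) (f : ι → A) (hf : ∀ i ∈ s, V (f i) ≤ 1) :
    G3_r V (∑ i ∈ s, f i) = ∑ i ∈ s, G3_r V (f i) := by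
  classical
  induction s using Finset.induction_on with
  | empty => simpa using G3_zero V
  | insert a s ha ih =>
    have h1 : ∀ i ∈ s, V (f i) ≤ 1 := fun i hi => hf i (Finset.mem_insert_of_mem hi)
    rw [Finset.sum_insert ha, Finset.sum_insert ha, G3_add V (hf a (Finset.mem_insert_self a s)) ?_,
      ih h1]
    exact V.map_sum_le h1

private theorem G3_prod {ι : Type*} (s : Finset ι) (f : ι → A) (hf : ∀ i ∈ s, V (f i) ≤ 1) :
    G3_r V (∏ i ∈ s, f i) = ∏ i ∈ s, G3_r V (f i) := by
  classical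
  induction s using Finset.induction_on with
  | empty => simpa using G3_one V
  | insert a s ha ih =>
    have h1 : ∀ i ∈ s, V (f i) ≤ 1 := fun i hi => hf i (Finset.mem_insert_of_mem hi)
    rw [Finset.prod_insert ha, Finset.prod_insert ha,
      G3_mul V (hf a (Finset.mem_insert_self a s)) ?_, ih h1]
    rw [map_prod]
    exact Finset.prod_le_one' h1

variable (Ω : Type*) [Field Ω] [Algebra Ω A]

/-- The residue field of `Ω` in the residue field of `V`. -/
private noncomputable def G3_kap : Subfield (IsLocalRing.ResidueField V.valuationSubring) where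
  carrier := {r | ∃ a : Ω, V (algebraMap Ω A a) ≤ 1 ∧ G3_r V (algebraMap Ω A a) = r}
  mul_mem' := by
    rintro _ _ ⟨a, ha, rfl⟩ ⟨b, hb, rfl⟩
    refine ⟨a * b, ?_, ?_⟩
    · rw [map_mul, map_mul]
      exact mul_le_one' ha hb
    · rw [map_mul, G3_mul V ha hb]
  one_mem' := ⟨1, by rw [map_one, map_one], by rw [map_one, G3_one]⟩
  add_mem' := by
    rintro _ _ ⟨a, ha, rfl⟩ ⟨b, hb, rfl⟩
    refine ⟨a + b, ?_, ?_⟩
    · rw [map_add]
      exact (V.map_add _ _).trans (max_le ha hb)
    · rw [map_add, G3_add V ha hb]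
  zero_mem' := ⟨0, by rw [map_zero, map_zero]; exact zero_le_one, by rw [map_zero, G3_zero]⟩
  neg_mem' := by
    rintro _ ⟨a, ha, rfl⟩
    have hn : V (algebraMap Ω A (-a)) ≤ 1 := by
      rw [map_neg, Valuation.map_neg]
      exact ha
    refine ⟨-a, hn, ?_⟩
    have h := G3_add V ha hn
    rw [← map_add, add_neg_cancel, map_zero, G3_zero] at h
    exact (neg_eq_of_add_eq_zero_right h.symm).symm
  inv_mem' := by
    rintro _ ⟨a, ha, rfl⟩
    by_cases h1 : V (algebraMap Ω A a) < 1
    · rw [(G3_eq_zero V ha).2 h1, inv_zero]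
      exact ⟨0, by rw [map_zero, map_zero]; exact zero_le_one, by rw [map_zero, G3_zero]⟩
    · have h2 : V (algebraMap Ω A a) = 1 := le_antisymm ha (not_lt.1 h1)
      refine ⟨a⁻¹, ?_, ?_⟩
      · rw [map_inv₀, map_inv₀, h2, inv_one]
      · rw [map_inv₀, G3_inv V h2]

private theorem G3_kap_mem (a : Ω) (ha : V (algebraMap Ω A a) ≤ 1) :
    G3_r V (algebraMap Ω A a) ∈ G3_kap V Ω := ⟨a, ha, rfl⟩

variable {Ω}

private theorem G3_norm {J : Type*} {z : J → A} (h : IsGauss Ω V z) (j : J) : V (z j) = 1 := by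
  classical
  have h1 := h (MvPolynomial.X j)
  rw [MvPolynomial.aeval_X, MvPolynomial.support_X, Finset.sup_singleton, MvPolynomial.coeff_X,
    if_pos rfl, map_one, map_one] at h1
  exact h1

private theorem G3_mono {J : Type*} {z : J → A} (h : IsGauss Ω V z) (d : J →₀ ℕ) :
    V (∏ i ∈ d.support, z i ^ d i) = 1 := by
  rw [map_prod]
  refine Finset.prod_eq_one fun i _ => ?_
  rw [map_pow, G3_norm V h, one_pow]

private theorem G3_mono_r {J : Type*} {z : J → A} (h : IsGauss Ω V z) (d : J →₀ ℕ) :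
    G3_r V (∏ i ∈ d.support, z i ^ d i) = ∏ i ∈ d.support, G3_r V (z i) ^ d i := by
  rw [G3_prod V]
  · exact Finset.prod_congr rfl fun i _ => G3_pow V (G3_norm V h i).le _
  · intro i _
    rw [map_pow, G3_norm V h, one_pow]

private theorem G3_aeval (J : Type*) {z : J → A} (h : IsGauss Ω V z) (P : MvPolynomial J Ω)
    (hP : ∀ d, V (algebraMap Ω A (P.coeff d)) ≤ 1) :
    G3_r V (MvPolynomial.aeval z P) = ∑ d ∈ P.support, G3_r V (algebraMap Ω A (P.coeff d)) *
      ∏ i ∈ d.support, G3_r V (z i) ^ d i := by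
  rw [MvPolynomial.aeval_def, MvPolynomial.eval₂_eq, G3_sum V]
  · refine Finset.sum_congr rfl fun d _ => ?_
    rw [G3_mul V (hP d) (G3_mono V h d).le, G3_mono_r V h]
  · intro d _
    rw [map_mul, G3_mono V h, mul_one]
    exact hP d

private theorem G3_coeff_le {J : Type*} {z : J → A} (h : IsGauss Ω V z) (P : MvPolynomial J Ω)
    (d : J →₀ ℕ) : V (algebraMap Ω A (P.coeff d)) ≤ V (MvPolynomial.aeval z P) := by
  classical
  rw [h P]
  by_cases hd : d ∈ P.support
  · exact Finset.le_sup (f := fun m => V (algebraMap Ω A (P.coeff m))) hd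
  · rw [MvPolynomial.notMem_support_iff.1 hd, map_zero, map_zero]
    exact zero_le

/-- Claim B0. -/
private theorem G3_B0 {J : Type*} {z : J → A} (h : IsGauss Ω V z) (P : MvPolynomial J Ω)
    (hP : V (MvPolynomial.aeval z P) ≤ 1) :
    G3_r V (MvPolynomial.aeval z P) ∈ adjoin (G3_kap V Ω) (Set.range fun j => G3_r V (z j)) := by
  have h1 : ∀ d, V (algebraMap Ω A (P.coeff d)) ≤ 1 := fun d => (G3_coeff_le V h P d).trans hP
  rw [G3_aeval V J h P h1]
  refine sum_mem fun d _ => mul_mem ?_ (prod_mem fun i _ => pow_mem ?_ _)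
  · exact (adjoin (G3_kap V Ω) _).algebraMap_mem ⟨_, G3_kap_mem V Ω _ (h1 d)⟩
  · exact subset_adjoin _ _ ⟨i, rfl⟩

/-- Claim B. -/
private theorem G3_B {J : Type*} {z : J → A} (h : IsGauss Ω V z) (y : A)
    (hy : y ∈ adjoin Ω (Set.range z)) (hy1 : V y ≤ 1) :
    G3_r V y ∈ adjoin (G3_kap V Ω) (Set.range fun j => G3_r V (z j)) := by
  classical
  obtain ⟨P, Q, rfl⟩ := (mem_adjoin_range_iff Ω z y).1 hy
  by_cases hQ : MvPolynomial.aeval z Q = 0
  · rw [hQ, div_zero, G3_zero]
    exact zero_mem _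
  have hQ0 : Q ≠ 0 := by
    rintro rfl
    exact hQ (map_zero _)
  have hne : Q.support.Nonempty := MvPolynomial.support_nonempty.2 hQ0
  obtain ⟨m, hm, hmax⟩ := Finset.exists_mem_eq_sup Q.support hne
    fun d => V (algebraMap Ω A (Q.coeff d))
  have hc0 : Q.coeff m ≠ 0 := MvPolynomial.mem_support_iff.1 hm
  set c := Q.coeff m with hc
  have hVc : V (MvPolynomial.aeval z Q) = V (algebraMap Ω A c) := by
    rw [h Q]
    exact hmax
  have hcA : algebraMap Ω A c ≠ 0 := (map_ne_zero _).2 hc0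
  have e1 : ∀ S : MvPolynomial J Ω, MvPolynomial.aeval z (MvPolynomial.C c⁻¹ * S) =
      (algebraMap Ω A c)⁻¹ * MvPolynomial.aeval z S := by
    intro S
    rw [map_mul, MvPolynomial.aeval_C, map_inv₀]
  have hVQ : V (MvPolynomial.aeval z (MvPolynomial.C c⁻¹ * Q)) = 1 := by
    rw [e1, map_mul, hVc, map_inv₀]
    exact inv_mul_cancel₀ ((Valuation.ne_zero_iff V).2 hcA)
  have hdiv : MvPolynomial.aeval z P / MvPolynomial.aeval z Q =
      MvPolynomial.aeval z (MvPolynomial.C c⁻¹ * P) *
        (MvPolynomial.aeval z (MvPolynomial.C c⁻¹ * Q))⁻¹ := by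
    rw [e1, e1]
    field_simp
  have hVP : V (MvPolynomial.aeval z (MvPolynomial.C c⁻¹ * P)) ≤ 1 := by
    rw [hdiv, V.map_mul, map_inv₀ V, hVQ, inv_one, mul_one] at hy1
    exact hy1
  rw [hdiv, G3_mul V hVP (by rw [map_inv₀, hVQ, inv_one]), G3_inv V hVQ]
  exact mul_mem (G3_B0 V h _ hVP) (inv_mem (G3_B0 V h _ hVQ.le))

/-- Claim A: the residues are algebraically independent. -/
private theorem G3_A {J : Type*} {z : J → A} (h : IsGauss Ω V z) :
    AlgebraicIndependent (G3_kap V Ω) (fun j => G3_r V (z j)) := by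
  classical
  rw [algebraicIndependent_iff]
  intro P hP
  by_contra hP0
  have hL : ∀ r : G3_kap V Ω, ∃ a : Ω, V (algebraMap Ω A a) ≤ 1 ∧
      G3_r V (algebraMap Ω A a) = r := fun r => r.2
  choose L hL1 hL2 using hL
  set Q : MvPolynomial J Ω := ∑ d ∈ P.support, MvPolynomial.monomial d (L (P.coeff d)) with hQ
  have hcoeff : ∀ d, Q.coeff d = if d ∈ P.support then L (P.coeff d) else 0 := by
    intro d
    rw [hQ, MvPolynomial.coeff_sum]
    simp only [MvPolynomial.coeff_monomial]
    rw [Finset.sum_ite_eq']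
  have hle : ∀ d, V (algebraMap Ω A (Q.coeff d)) ≤ 1 := by
    intro d
    rw [hcoeff]
    split_ifs
    · exact hL1 _
    · rw [map_zero, map_zero]
      exact zero_le_one
  obtain ⟨m, hm⟩ := MvPolynomial.support_nonempty.2 hP0
  have hm1 : V (algebraMap Ω A (Q.coeff m)) = 1 := by
    rw [hcoeff, if_pos hm]
    refine le_antisymm (hL1 _) (not_lt.1 fun hlt => ?_)
    have h1 := (G3_eq_zero V (hL1 (P.coeff m))).2 hlt
    rw [hL2] at h1
    exact MvPolynomial.mem_support_iff.1 hm (Subtype.ext h1)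
  have hVQ : V (MvPolynomial.aeval z Q) ≤ 1 := by
    rw [h Q]
    exact Finset.sup_le fun d _ => hle d
  have hres : G3_r V (MvPolynomial.aeval z Q) = 0 := by
    rw [hQ, map_sum, G3_sum V, ← hP, MvPolynomial.aeval_def, MvPolynomial.eval₂_eq]
    · refine Finset.sum_congr rfl fun d _ => ?_
      rw [MvPolynomial.aeval_monomial, Finsupp.prod, G3_mul V (hL1 _) (G3_mono V h d).le, hL2,
        G3_mono_r V h]
      rfl
    · intro d _
      rw [MvPolynomial.aeval_monomial, Finsupp.prod, map_mul, G3_mono V h, mul_one]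
      exact hL1 _
  have hlt := (G3_eq_zero V hVQ).1 hres
  have := (G3_coeff_le V h Q m).trans_lt hlt
  rw [hm1] at this
  exact lt_irrefl _ this

/-- Claim C. -/
private theorem G3_C {J : Type*} {z : J → A} (h : IsGauss Ω V z) (x : A)
    (hx : IsAlgebraic (adjoin Ω (Set.range z)) x) (hx1 : V x ≤ 1) :
    IsAlgebraic (adjoin (G3_kap V Ω) (Set.range fun j => G3_r V (z j))) (G3_r V x) := by
  classical
  obtain ⟨q, hq0, hq⟩ := hx
  have hne : q.support.Nonempty := Polynomial.support_nonempty.2 hq0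
  obtain ⟨m, hm, hmax⟩ := Finset.exists_max_image q.support
    (fun i => V (q.coeff i : A)) hne
  have hc0 : (q.coeff m : A) ≠ 0 := by
    intro h0
    exact Polynomial.mem_support_iff.1 hm (Subtype.ext h0)
  have hVc : V (q.coeff m : A) ≠ 0 := (Valuation.ne_zero_iff V).2 hc0
  have hy1 : ∀ i, V ((q.coeff i : A) / (q.coeff m : A)) ≤ 1 := by
    intro i
    rw [map_div₀]
    refine div_le_one_of_le₀ ?_ zero_le
    by_cases hi : i ∈ q.support
    · exact hmax i hi
    · rw [Polynomial.notMem_support_iff.1 hi]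
      simp
  have hmem : ∀ i, G3_r V ((q.coeff i : A) / (q.coeff m : A)) ∈
      adjoin (G3_kap V Ω) (Set.range fun j => G3_r V (z j)) := fun i =>
    G3_B V h _ (div_mem (q.coeff i).2 (q.coeff m).2) (hy1 i)
  set Q : Polynomial (adjoin (G3_kap V Ω) (Set.range fun j => G3_r V (z j))) :=
    ∑ i ∈ q.support, Polynomial.monomial i ⟨_, hmem i⟩ with hQ
  refine ⟨Q, ?_, ?_⟩
  · intro h0
    have h1 : Q.coeff m = 0 := by rw [h0, Polynomial.coeff_zero]
    rw [hQ, Polynomial.finsetSum_coeff] at h1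
    simp only [Polynomial.coeff_monomial] at h1
    rw [Finset.sum_ite_eq' , if_pos hm] at h1
    have h2 := congrArg Subtype.val h1
    simp only [ZeroMemClass.coe_zero] at h2
    rw [div_self hc0, G3_one] at h2
    exact one_ne_zero h2
  · rw [hQ, map_sum]
    have h1 : ∀ i, Polynomial.aeval (G3_r V x) (Polynomial.monomial i
        (⟨_, hmem i⟩ : adjoin (G3_kap V Ω) (Set.range fun j => G3_r V (z j)))) =
        G3_r V ((q.coeff i : A) / (q.coeff m : A) * x ^ i) := by
      intro i
      rw [Polynomial.aeval_monomial, G3_mul V (hy1 i) (by rw [map_pow]; exact pow_le_one' hx1 i),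
        G3_pow V hx1]
      rfl
    simp only [h1]
    rw [← G3_sum V]
    · have h2 : ∑ i ∈ q.support, (q.coeff i : A) / (q.coeff m : A) * x ^ i =
          (Polynomial.aeval x q) / (q.coeff m : A) := by
        rw [Polynomial.aeval_def, Polynomial.eval₂_eq_sum, Polynomial.sum_def, Finset.sum_div]
        refine Finset.sum_congr rfl fun i _ => ?_
        rw [div_mul_eq_mul_div]
        rfl
      rw [h2, hq, zero_div, G3_zero]
    · intro i _
      rw [map_mul, map_pow]
      exact mul_le_one' (hy1 i) (pow_le_one' hx1 i)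

end G3aux

theorem gap {Ω A : Type*} [Field Ω] [IsAlgClosed Ω] [Field A] [IsAlgClosed A] [Algebra Ω A]
    (V : Valuation A ℝ≥0) (h2 : V 2 < 1) {n : ℕ} (u l : Fin n → A)
    (hG : IsGauss Ω V (Sum.elim u l)) {ι : Type*} [Fintype ι] (X : ι → Fin n → A)
    (halg : ∀ τ i, IsAlgebraic (adjoin Ω (Set.range u)) (X τ i))
    (hchi : (∏ τ, (Polynomial.X - Polynomial.C (∑ i, l i * X τ i))) ∈
      Polynomial.lifts (algebraMap (adjoin Ω (Set.range u ∪ Set.range l)) A))
    (R : ℝ≥0) (hR : 0 < R)
    (hQ : ∀ τ, nm V (X τ) = R → V (∑ i, u i * X τ i ^ 2) < R ^ 2) :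
    Even (Finset.univ.filter fun τ => nm V (X τ) = R).card := by
  classical
  rw [← Nat.not_odd_iff_even]
  intro hodd
  have hGu : IsGauss Ω V u := gauss_left V u l hG
  have hξ : ∀ τ, V (∑ i, l i * X τ i) = nm V (X τ) := fun τ => nm_comb V u l hG (X τ) (halg τ)
  -- the sup is attained
  have hatt : ∀ τ, nm V (X τ) = R → ∃ i, V (X τ i) = R := by
    intro τ hτ
    have hne : (Finset.univ : Finset (Fin n)).Nonempty := by
      rw [Finset.nonempty_iff_ne_empty]
      intro h0
      rw [nm, h0, Finset.sup_empty] at hτ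
      exact hR.ne hτ
    obtain ⟨i, -, hi⟩ := Finset.exists_mem_eq_sup Finset.univ hne fun i => V (X τ i)
    exact ⟨i, by rw [← hi]; exact hτ⟩
  obtain ⟨τ₀, hτ₀⟩ := Finset.card_pos.1 hodd.pos
  have hτ₀R : nm V (X τ₀) = R := (Finset.mem_filter.1 hτ₀).2
  obtain ⟨i₀, hi₀⟩ := hatt τ₀ hτ₀R
  obtain ⟨c, hc0, hc⟩ := val_closed V u hGu (X τ₀ i₀)
    (by intro h0; rw [h0, map_zero] at hi₀; exact hR.ne hi₀) (halg τ₀ i₀)
  rw [hi₀] at hc
  set a : A := algebraMap Ω A c with ha
  have ha0 : a ≠ 0 := (map_ne_zero _).2 hc0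
  have hVa : V a = R := hc
  -- the residues
  set k := IsLocalRing.ResidueField V.valuationSubring with hk
  set κ := G3_kap V Ω with hκ
  set ub : Fin n → k := fun i => G3_r V (u i) with hub
  set lb : Fin n → k := fun i => G3_r V (l i) with hlb
  set ξ : ι → A := fun τ => ∑ i, l i * X τ i with hξd
  have hξ' : ∀ τ, V (ξ τ) = nm V (X τ) := hξ
  set r : ι → k := fun τ => G3_r V (ξ τ / a) with hr
  have hzb : (fun j => G3_r V (Sum.elim u l j)) = Sum.elim ub lb := by
    funext j
    rcases j with j | j <;> rfl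
  have hul : AlgebraicIndependent κ (Sum.elim ub lb) := by
    rw [← hzb]
    exact G3_A V hG
  have hlu : V (1 : A) = 1 := map_one V
  -- coefficients
  have hB : ∀ y ∈ adjoin Ω (Set.range u ∪ Set.range l), V y ≤ 1 →
      G3_r V y ∈ adjoin (adjoin κ (Set.range ub)) (Set.range lb) := by
    intro y hy hy1
    have h1 := G3_B V hG y (by rw [Set.Sum.elim_range]; exact hy) hy1
    rw [hzb, Set.Sum.elim_range, ← adjoin_adjoin_left] at h1
    exact h1
  set K₁ := adjoin Ω (Set.range u ∪ Set.range l) with hK₁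
  have haK : a ∈ K₁ := K₁.algebraMap_mem c
  -- the polynomial chi(a Z)
  set chi : Polynomial A := ∏ τ, (Polynomial.X - Polynomial.C (ξ τ)) with hchid
  have hchi1 : ∀ m, (chi.comp (Polynomial.C a * Polynomial.X)).coeff m ∈ K₁ := by
    intro m
    rw [Polynomial.comp_C_mul_X_coeff]
    obtain ⟨y, hy⟩ := (Polynomial.lifts_iff_coeff_lifts _).1 hchi m
    refine mul_mem ?_ (pow_mem haK m)
    have : (algebraMap K₁ A) y ∈ K₁ := y.2
    rw [hy] at this
    exact this
  -- integral factors
  have hcases : ∀ τ, V (ξ τ) ≤ R ∨ R < V (ξ τ) := fun τ => le_or_gt _ _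
  have hη : ∀ τ, V (ξ τ) ≤ R → V (ξ τ / a) ≤ 1 := by
    intro τ h
    rw [map_div₀, hVa]
    exact div_le_one_of_le₀ h zero_le
  have hθ : ∀ τ, R < V (ξ τ) → V (a / ξ τ) < 1 := by
    intro τ h
    rw [map_div₀, hVa]
    exact (div_lt_one₀ (hR.trans h)).2 h
  have hfac : ∀ τ, ∃ (f : Polynomial V.valuationSubring) (d : A), d ≠ 0 ∧
      Polynomial.C a * Polynomial.X - Polynomial.C (ξ τ) =
        Polynomial.C d * f.map (algebraMap V.valuationSubring A) ∧
      f.map (IsLocalRing.residue V.valuationSubring) =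
        (if V (ξ τ) < R then Polynomial.X else 1) *
        (if V (ξ τ) = R then Polynomial.X - Polynomial.C (r τ) else 1) := by
    intro τ
    rcases hcases τ with h | h
    · refine ⟨Polynomial.X - Polynomial.C ⟨ξ τ / a, G3_mem V (hη τ h)⟩, a, ha0, ?_, ?_⟩
      · rw [Polynomial.map_sub, Polynomial.map_X, Polynomial.map_C, mul_sub, ← Polynomial.C_mul]
        congr 2
        change ξ τ = a * (ξ τ / a)
        field_simp
      · rw [Polynomial.map_sub, Polynomial.map_X, Polynomial.map_C]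
        have h1 : IsLocalRing.residue V.valuationSubring ⟨ξ τ / a, G3_mem V (hη τ h)⟩ = r τ :=
          (G3_r_mk V (hη τ h)).symm
        rw [h1]
        by_cases hlt : V (ξ τ) < R
        · have h2 : r τ = 0 := by
            refine (G3_eq_zero V (hη τ h)).2 ?_
            rw [map_div₀, hVa]
            exact (div_lt_one₀ hR).2 hlt
          rw [if_pos hlt, if_neg hlt.ne, h2, Polynomial.C_0, sub_zero, mul_one]
        · have h2 : V (ξ τ) = R := le_antisymm h (not_lt.1 hlt)
          rw [if_neg hlt, if_pos h2, one_mul]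
    · have hξ0 : ξ τ ≠ 0 := by
        intro h0
        rw [h0, map_zero] at h
        exact not_lt_bot h
      refine ⟨1 - Polynomial.C ⟨a / ξ τ, G3_mem V (hθ τ h).le⟩ * Polynomial.X, - ξ τ,
        neg_ne_zero.2 hξ0, ?_, ?_⟩
      · rw [Polynomial.map_sub, Polynomial.map_one, Polynomial.map_mul, Polynomial.map_X,
          Polynomial.map_C]
        change _ = Polynomial.C (- ξ τ) * (1 - Polynomial.C (a / ξ τ) * Polynomial.X)
        have h1 : a = ξ τ * (a / ξ τ) := by field_simp
        conv_lhs => rw [h1]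
        rw [Polynomial.C_mul, Polynomial.C_neg]
        ring
      · rw [Polynomial.map_sub, Polynomial.map_one, Polynomial.map_mul, Polynomial.map_X,
          Polynomial.map_C]
        have h1 : IsLocalRing.residue V.valuationSubring ⟨a / ξ τ, G3_mem V (hθ τ h).le⟩ = 0 := by
          rw [← G3_r_mk V (hθ τ h).le]
          exact (G3_eq_zero V (hθ τ h).le).2 (hθ τ h)
        rw [h1, if_neg (not_lt.2 h.le), if_neg h.ne', Polynomial.C_0]
        ring
  choose f d hd0 hfd hfr using hfac
  set G : Polynomial V.valuationSubring := ∏ τ, f τ with hGd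
  set D : A := ∏ τ, d τ with hD
  have hD0 : D ≠ 0 := Finset.prod_ne_zero_iff.2 fun τ _ => hd0 τ
  have hcomp : chi.comp (Polynomial.C a * Polynomial.X) =
      Polynomial.C D * G.map (algebraMap V.valuationSubring A) := by
    have hCD : (Polynomial.C D : Polynomial A) = ∏ τ, Polynomial.C (d τ) := by
      rw [hD]
      exact map_prod Polynomial.C d _
    rw [hchid, Polynomial.prod_comp, hCD, hGd, Polynomial.map_prod, ← Finset.prod_mul_distrib]
    refine Finset.prod_congr rfl fun τ _ => ?_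
    rw [Polynomial.sub_comp, Polynomial.X_comp, Polynomial.C_comp, hfd τ]
  set S : Finset ι := Finset.univ.filter fun τ => nm V (X τ) = R with hS
  set h : Polynomial k := ∏ τ ∈ S, (Polynomial.X - Polynomial.C (r τ)) with hh
  set N₀ : ℕ := (Finset.univ.filter fun τ => V (ξ τ) < R).card with hN₀
  have hGr : G.map (IsLocalRing.residue V.valuationSubring) = Polynomial.X ^ N₀ * h := by
    rw [hGd, Polynomial.map_prod, Finset.prod_congr rfl fun τ _ => hfr τ,
      Finset.prod_mul_distrib, ← Finset.prod_filter, ← Finset.prod_filter, Finset.prod_const, hh, hS,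
      hN₀]
    simp only [hξ']
  have hmon : h.Monic := Polynomial.monic_prod_X_sub_C r S
  have hdeg : h.natDegree = S.card := Polynomial.natDegree_finsetProd_X_sub_C_eq_card S r
  set N : ℕ := S.card + N₀ with hN
  have hcoefN : IsLocalRing.residue V.valuationSubring (G.coeff N) = 1 := by
    rw [← Polynomial.coeff_map, hGr, hN, mul_comm, Polynomial.coeff_mul_X_pow, ← hdeg]
    exact hmon
  have hcoefr : ∀ m, IsLocalRing.residue V.valuationSubring (G.coeff (m + N₀)) = h.coeff m := by
    intro m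
    rw [← Polynomial.coeff_map, hGr, mul_comm, Polynomial.coeff_mul_X_pow]
  have hVβ : V (G.coeff N : A) = 1 := by
    refine le_antisymm ((V.mem_valuationSubring_iff _).1 (G.coeff N).2) (not_lt.1 fun hlt => ?_)
    have h1 := (G3_eq_zero V hlt.le).2 hlt
    rw [G3_r_coe, hcoefN] at h1
    exact one_ne_zero h1
  have hβ0 : (G.coeff N : A) ≠ 0 := by
    intro h0
    rw [h0, map_zero] at hVβ
    exact zero_ne_one hVβ
  have hcc : ∀ m, (chi.comp (Polynomial.C a * Polynomial.X)).coeff m = D * (G.coeff m : A) := by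
    intro m
    rw [hcomp, Polynomial.coeff_C_mul, Polynomial.coeff_map]
    rfl
  have hhK : ∀ m, h.coeff m ∈ adjoin (adjoin κ (Set.range ub)) (Set.range lb) := by
    intro m
    have h1 : (G.coeff (m + N₀) : A) / (G.coeff N : A) ∈ K₁ := by
      have h3 := div_mem (hchi1 (m + N₀)) (hchi1 N)
      rw [hcc, hcc, mul_div_mul_left _ _ hD0] at h3
      exact h3
    have h4 : V (G.coeff (m + N₀) : A) ≤ 1 :=
      (V.mem_valuationSubring_iff _).1 (G.coeff (m + N₀)).2
    have h5 : V ((G.coeff N : A)⁻¹) = 1 := by rw [map_inv₀, hVβ, inv_one]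
    have h6 := hB _ h1 (by rw [map_div₀, hVβ, div_one]; exact h4)
    rw [div_eq_mul_inv, G3_mul V h4 h5.le, G3_inv V hVβ, G3_r_coe, G3_r_coe, hcoefN, inv_one,
      mul_one, hcoefr] at h6
    exact h6
  -- lift h
  set κ₀ := adjoin (adjoin κ (Set.range ub)) (Set.range lb) with hκ₀
  have hlift : h ∈ Polynomial.lifts (algebraMap κ₀ k) :=
    (Polynomial.lifts_iff_coeff_lifts _).2 fun m => ⟨⟨h.coeff m, hhK m⟩, rfl⟩
  obtain ⟨H, hH⟩ := (Polynomial.mem_lifts _).1 hlift
  have hHdeg : H.natDegree = S.card := by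
    rw [← hdeg, ← hH, Polynomial.natDegree_map]
  obtain ⟨g, hgirr, hgodd, hgdvd⟩ :=
    Pool.Agent.Lib.MP_2619d0_ag.exists_odd_irreducible_factor S.card H hHdeg hodd
  -- a root of g
  obtain ⟨s, hs⟩ := IsAlgClosed.exists_root ((g.map (algebraMap κ₀ k)).map
    (algebraMap k (AlgebraicClosure k))) (by
      rw [Polynomial.degree_map, Polynomial.degree_map]
      exact (Polynomial.degree_pos_of_irreducible hgirr).ne')
  have hsr : ∃ τ ∈ S, s = algebraMap k (AlgebraicClosure k) (r τ) := by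
    have h1 : (h.map (algebraMap k (AlgebraicClosure k))).IsRoot s := by
      rw [← hH]
      exact hs.dvd (Polynomial.map_dvd _ (Polynomial.map_dvd _ hgdvd))
    rw [hh, Polynomial.map_prod, Polynomial.IsRoot.def, Polynomial.eval_prod,
      Finset.prod_eq_zero_iff] at h1
    obtain ⟨τ, hτ, h3⟩ := h1
    rw [Polynomial.map_sub, Polynomial.map_X, Polynomial.map_C, Polynomial.eval_sub,
      Polynomial.eval_X, Polynomial.eval_C, sub_eq_zero] at h3
    exact ⟨τ, hτ, h3⟩
  obtain ⟨τ, hτS, rfl⟩ := hsr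
  have hgr : Polynomial.aeval (r τ) g = 0 := by
    have h1 := hs
    rw [Polynomial.IsRoot.def, Polynomial.eval_map_algebraMap, Polynomial.aeval_algebraMap_apply,
      map_eq_zero_iff _ (algebraMap k (AlgebraicClosure k)).injective,
      Polynomial.aeval_map_algebraMap] at h1
    exact h1
  have hrint : IsIntegral κ₀ (r τ) := (isAlgebraic_iff_isIntegral).1 ⟨g, hgirr.ne_zero, hgr⟩
  have hmin : (minpoly κ₀ (r τ)).natDegree = g.natDegree := by
    rw [← minpoly.eq_of_irreducible hgirr hgr]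
    exact Polynomial.natDegree_mul_C (inv_ne_zero (Polynomial.leadingCoeff_ne_zero.2 hgirr.ne_zero))
  have hτR : nm V (X τ) = R := (Finset.mem_filter.1 hτS).2
  -- the residue vector
  have hle : ∀ i, V (X τ i) ≤ R := by
    intro i
    rw [← hτR]
    exact Finset.le_sup (f := fun i => V (X τ i)) (Finset.mem_univ i)
  have hle1 : ∀ i, V (X τ i / a) ≤ 1 := by
    intro i
    rw [map_div₀, hVa]
    exact div_le_one_of_le₀ (hle i) zero_le
  set p : Fin n → k := fun i => G3_r V (X τ i / a) with hp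
  have hVl : ∀ i, V (l i) = 1 := fun i => G3_norm V hG (Sum.inr i)
  have hVu : ∀ i, V (u i) = 1 := fun i => G3_norm V hG (Sum.inl i)
  have hrp : r τ = ∑ i, lb i * p i := by
    have h1 : ξ τ / a = ∑ i, l i * (X τ i / a) := by
      rw [hξd, Finset.sum_div]
      exact Finset.sum_congr rfl fun i _ => mul_div_assoc _ _ _
    rw [hr]
    change G3_r V (ξ τ / a) = _
    rw [h1, G3_sum V]
    · exact Finset.sum_congr rfl fun i _ => G3_mul V (hVl i).le (hle1 i)
    · intro i _
      rw [map_mul, hVl i, one_mul]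
      exact hle1 i
  have hpalg : ∀ i, IsAlgebraic (adjoin κ (Set.range ub)) (p i) := by
    intro i
    refine G3_C V hGu _ ?_ (hle1 i)
    rw [div_eq_mul_inv]
    refine (halg τ i).mul ?_
    rw [ha, ← map_inv₀]
    exact (isAlgebraic_algebraMap
      (⟨algebraMap Ω A c⁻¹, (adjoin Ω (Set.range u)).algebraMap_mem c⁻¹⟩ :
        adjoin Ω (Set.range u)))
  have hq0 : ∑ i, ub i * p i ^ 2 = 0 := by
    have h1 : ∑ i, u i * (X τ i / a) ^ 2 = (∑ i, u i * X τ i ^ 2) / a ^ 2 := by
      rw [Finset.sum_div]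
      refine Finset.sum_congr rfl fun i _ => ?_
      rw [div_pow, mul_div_assoc]
    have hlt : V (∑ i, u i * (X τ i / a) ^ 2) < 1 := by
      rw [h1, map_div₀, map_pow, hVa]
      exact (div_lt_one₀ (pow_pos hR 2)).2 (hQ τ hτR)
    have h3 := (G3_eq_zero V hlt.le).2 hlt
    rw [G3_sum V] at h3
    · rw [← h3]
      refine Finset.sum_congr rfl fun i _ => ?_
      rw [G3_mul V (hVu i).le (by rw [map_pow]; exact pow_le_one' (hle1 i) 2), G3_pow V (hle1 i)]
    · intro i _
      rw [map_mul, map_pow, hVu i, one_mul]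
      exact pow_le_one' (hle1 i) 2
  have hk2 : (2 : κ) = 0 := by
    apply Subtype.ext
    have h1 := (G3_eq_zero V h2.le).2 h2
    rw [← one_add_one_eq_two, G3_add V hlu.le hlu.le, G3_one, one_add_one_eq_two] at h1
    exact h1
  have hoddfin : Odd (Module.finrank κ₀ (adjoin κ₀ {∑ i, lb i * p i})) := by
    rw [← hrp, adjoin.finrank hrint, hmin]
    exact hgodd
  have hp0 := lambda_zero hk2 ub lb p hul hpalg hoddfin hq0
  obtain ⟨i₁, hi₁⟩ := hatt τ hτR
  have h1 : V (X τ i₁ / a) = 1 := by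
    rw [map_div₀, hVa, hi₁]
    exact div_self hR.ne'
  have h3 : p i₁ = 0 := congrFun hp0 i₁
  have h4 := (G3_eq_zero V (hle1 i₁)).1 h3
  rw [h1] at h4
  exact lt_irrefl _ h4

end MP2619.N
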