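import Pool.Agent.Lib.MP_2619d0_ag.N.A3
import Pool.Agent.Lib.MP_2619d0_ag.N.A5
import Pool.Agent.Lib.MP_2619d0_ag.N.A7
import Pool.Agent.Lib.MP_2619d0_ag.N.G3

/-!
Row 2619n-A8: the gap lemma applied to the embeddings (all other files are black boxes: `gap`, `quad_small`,
`norm_coeff`, `gauss_C`, `gauss_restrict`, `chi_emb`, `finite_emb`, `alg_emb`). `Ω = ℂ` in `gap`; polynomials with coefficients in
`k1(u, l)` have coefficients in `ℂ(u, l)`; elements algebraic over `k1(u)` are algebraic over `ℂ(u)`.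
-/

set_option autoImplicit false

namespace MP2619.N

open scoped NNReal
open IntermediateField MP2619.R Pool.Agent.Lib.MP_2619d0_ag Pool.Agent.Lib.MP_2619d0_ag.T

variable {n : ℕ} {F : MvPolynomial (Fin n) ℂ} {J : Type} {z : Exp3 n ⊕ J → ℂ} {A : Type}
  [Field A] [CharZero A] [Algebra ℂ A] {u l : Fin n → A}

private theorem A8_le {k1 : IntermediateField (Qz z) ℂ} (S : Set A) {a : A}
    (ha : a ∈ adjoin k1 S) : a ∈ adjoin ℂ S := by
  have h1 : adjoin k1 S ≤ (adjoin ℂ S).restrictScalars k1 := by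
    rw [adjoin_le_iff]
    intro s hs
    exact subset_adjoin ℂ S hs
  exact h1 ha

private theorem A8_alg {k1 : IntermediateField (Qz z) ℂ} (S : Set A) {a : A}
    (ha : IsAlgebraic (adjoin k1 S) a) : IsAlgebraic (adjoin ℂ S) a := by
  obtain ⟨p, hp0, hp⟩ := ha
  let f : adjoin k1 S →+* adjoin ℂ S :=
    (algebraMap (adjoin k1 S) A).codRestrict (adjoin ℂ S).toSubring fun b => A8_le S b.2
  have hf : (algebraMap (adjoin ℂ S) A).comp f = algebraMap (adjoin k1 S) A := by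
    ext b
    rfl
  refine ⟨p.map f, ?_, ?_⟩
  · rw [Ne, Polynomial.map_eq_zero_iff f.injective]
    exact hp0
  · rw [Polynomial.aeval_def, Polynomial.eval₂_map, hf]
    exact hp

private theorem A8_root {k1 : IntermediateField (Qz z) ℂ} {w : k1} (hw : w ^ 2 + w + 1 = 0)
    (m : ℕ) : (algebraMap k1 A (w ^ m)) ^ 3 = 1 := by
  have h1 : w ^ 3 = 1 := by linear_combination (w - 1) * hw
  rw [← map_pow, ← pow_mul, mul_comm, pow_mul, h1, one_pow, map_one]

private theorem A8_V (V : Valuation A ℝ≥0) {a : A} (ha : a ^ 3 = 1) : V a = 1 := by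
  have h1 : V a ^ 3 = 1 := by rw [← map_pow, ha, map_one]
  exact (pow_eq_one_iff_of_nonneg (zero_le) (by norm_num)).1 h1

private theorem A8_main (h : Ctx F z u l) (V : Valuation A ℝ≥0) (hV2 : V 2 < 1)
    (hG : IsGauss ℂ V (Sum.elim u l)) (k1 : IntermediateField (Qz z) ℂ) (w : k1) {M1 : Type}
    [Field M1] [Algebra k1 M1] (x y : Fin n → M1) (hD : Dat F z k1 w x y) (γ : Fin n → ZMod 3)
    (R : ℝ≥0) (hR0 : 0 < R)
    (hQ : ∀ τ : Tg (A := A) w u x y γ,
      nm V (fun i => algebraMap k1 A (w ^ (γ i).val) * τ.1 (x i)) = R →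
        V (∑ i, u i * (algebraMap k1 A (w ^ (γ i).val) * τ.1 (x i)) ^ 2) < R ^ 2) :
    Even (Nat.card {τ : Tg (A := A) w u x y γ // nm V (fun i => τ.1 (x i)) = R}) := by
  classical
  have hcl : IsAlgClosed A := h.closed
  have hu : AlgebraicIndependent k1 u := by
    have h1 : AlgebraicIndependent ℂ u := by
      have h2 := h.ind.comp Sum.inl Sum.inl_injective
      exact h2
    exact h1.restrictScalars (algebraMap k1 ℂ).injective
  have hfin := finite_emb u hu hD.fg (zg w x y γ)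
  have hft : Fintype (Tg (A := A) w u x y γ) := @Fintype.ofFinite _ hfin
  obtain ⟨x', hx'⟩ : ∃ x' : Fin n → M1, x' = fun i => algebraMap k1 M1 (w ^ (γ i).val) * x i :=
    ⟨_, rfl⟩
  obtain ⟨X, hX⟩ : ∃ X : Tg (A := A) w u x y γ → Fin n → A,
    X = fun τ i => algebraMap k1 A (w ^ (γ i).val) * τ.1 (x i) := ⟨_, rfl⟩
  have hXx : ∀ (τ : Tg (A := A) w u x y γ) i, X τ i = τ.1 (x' i) := by
    intro τ i
    rw [hX, hx']
    change _ = τ.1 (algebraMap k1 M1 (w ^ (γ i).val) * x i)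
    rw [map_mul, AlgHom.commutes]
  have hchi := chi_emb u l hu hD.fg (zg w x y γ) x'
  have hchi' : (∏ τ : Tg (A := A) w u x y γ,
      (Polynomial.X - Polynomial.C (∑ i, l i * X τ i))) ∈
      Polynomial.lifts (algebraMap (adjoin ℂ (Set.range u ∪ Set.range l)) A) := by
    rw [Polynomial.lifts_iff_coeff_lifts] at hchi ⊢
    intro m
    obtain ⟨b, hb⟩ := hchi m
    have h1 : (∏ τ : Tg (A := A) w u x y γ,
        (Polynomial.X - Polynomial.C (∑ i, l i * X τ i))) =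
        ∏ τ : Tg (A := A) w u x y γ,
        (Polynomial.X - Polynomial.C (∑ i, l i * τ.1 (x' i))) := by
      refine Finset.prod_congr rfl fun τ _ => ?_
      congr 2
      exact Finset.sum_congr rfl fun i _ => by rw [hXx]
    rw [h1]
    exact ⟨⟨b.1, A8_le _ b.2⟩, hb⟩
  have hgap := gap V hV2 u l hG X (fun τ i => by
    rw [hXx]
    exact A8_alg _ (alg_emb u hu hD.fg (zg w x y γ) τ.1 τ.2 (x' i))) hchi' R hR0 (by
      intro τ hτ
      rw [hX] at hτ ⊢
      exact hQ τ hτ)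
  have hnm : ∀ τ : Tg (A := A) w u x y γ, nm V (X τ) = nm V (fun i => τ.1 (x i)) := by
    intro τ
    unfold nm
    refine Finset.sup_congr rfl fun i _ => ?_
    rw [hX]
    change V (algebraMap k1 A (w ^ (γ i).val) * τ.1 (x i)) = _
    rw [map_mul, A8_V V (A8_root hD.om _), one_mul]
  rw [Nat.card_eq_fintype_card, Fintype.card_subtype]
  have h2 : (Finset.univ.filter fun τ : Tg (A := A) w u x y γ => nm V (fun i => τ.1 (x i)) = R) =
      Finset.univ.filter fun τ => nm V (X τ) = R := by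
    refine Finset.filter_congr fun τ _ => ?_
    rw [hnm]
  rw [h2]
  exact hgap

private theorem A8_eq {k1 : IntermediateField (Qz z) ℂ} {M1 : Type} [Field M1] [Algebra k1 M1]
    {x : Fin n → M1} {Fk : MvPolynomial (Fin n) k1}
    (h1 : MvPolynomial.map (algebraMap k1 ℂ) Fk = F) (h2 : MvPolynomial.aeval x Fk = 0)
    (τ : M1 →ₐ[k1] A) : MvPolynomial.aeval (fun i => τ (x i)) F = 0 := by
  rw [← h1, MvPolynomial.aeval_map_algebraMap]
  have h3 := MvPolynomial.comp_aeval_apply (R := k1) x τ Fk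
  rw [h2, map_zero] at h3
  exact h3.symm

private theorem A8_e3 {a b c : Fin n} (hab : a ≠ b) (hac : a ≠ c) (hbc : b ≠ c) :
    ¬ ∃ i, e3 a b c = Finsupp.single i 3 := by
  rintro ⟨i, hi⟩
  have h1 := DFunLike.congr_fun hi a
  unfold e3 at h1
  simp only [Finsupp.add_apply, Finsupp.single_apply, if_pos rfl, if_neg hab.symm,
    if_neg hac.symm] at h1
  split_ifs at h1 <;> omega

/-- (G): weight `2 t` at the coefficient of `X_a X_b X_c`, `1/2 ≤ t < 1`; `γ` constant on `{a, b, c}`. The norm of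
`γ x` is that of `x`. -/
theorem gap_star (h : Ctx F z u l) (v2 : Valuation ℚ ℝ≥0) (h2 : IsTwo v2) (V : Valuation A ℝ≥0)
    (a b c : Fin n) (hab : a ≠ b) (hac : a ≠ c) (hbc : b ≠ c) (d0 : Exp3 n) (hd0 : d0.1 = e3 a b c)
    (t : ℝ≥0) (ht0 : 0 < t) (ht1 : t < 1)
    (hV : IsWt v2 V (zeta z u l) (wts (Sum.inl (Sum.inl d0)) (2 * t)))
    (k1 : IntermediateField (Qz z) ℂ) (w : k1) {M1 : Type} [Field M1] [Algebra k1 M1]
    (x y : Fin n → M1) (hD : Dat F z k1 w x y) (γ : Fin n → ZMod 3) (hγ1 : γ a = γ b)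
    (hγ2 : γ a = γ c) (R : ℝ≥0) (hR : 1 < R) (hR2 : R < 2) :
    Even (Nat.card {τ : Tg (A := A) w u x y γ // nm V (fun i => τ.1 (x i)) = R}) := by
  classical
  obtain ⟨n1, n2, n3, n4⟩ := norm_coeff h v2 h2 V d0 t ht0 hV
  have hV2 : V 2 < 1 := by
    rw [n1]
    exact inv_lt_one_of_one_lt₀ one_lt_two
  have hG := gauss_C h v2 V (Sum.inl d0) (2 * t) (by positivity) hV
  obtain ⟨Fk, f1, f2, f3⟩ := hD.eqs
  refine A8_main h V hV2 hG k1 w x y hD γ R (by positivity) ?_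
  intro τ hτ
  refine quad_small h.hom V hV2 a b c hab hac hbc ?_ ?_ u (fun i => τ.1 (x i)) (fun i => τ.1 (y i))
    (fun i => algebraMap k1 A (w ^ (γ i).val)) (fun i => A8_root hD.om _) (by rw [hγ1])
    (by rw [hγ2]) (fun i => (n2 i).le) (fun i => ?_) (A8_eq f1 f2 τ.1) (A8_eq f1 f3 τ.1) R hR ?_ hτ
  · intro d hd hdne
    have h4 := n3 ⟨d, hd⟩ (by
      intro h5
      apply hdne
      rw [← hd0, ← h5])
    rw [n1]
    exact h4.le
  · rw [hd0, if_neg (A8_e3 hab hac hbc), sub_zero] at n4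
    rw [n4]
    exact ht1
  · have h4 := τ.2 i
    unfold zg at h4
    rw [map_add, map_mul, AlgHom.commutes] at h4
    exact h4
  · rw [n1, inv_mul_lt_iff₀ (by norm_num), mul_one]
    exact hR2

/-- The case `γ = 0`, weights one, every `R > 1`. -/
theorem gap_one (hn : 3 ≤ n) (h : Ctx F z u l) (v2 : Valuation ℚ ℝ≥0) (h2 : IsTwo v2)
    (V : Valuation A ℝ≥0) (hV : IsWt v2 V (zeta z u l) (fun _ => 1))
    (k1 : IntermediateField (Qz z) ℂ) (w : k1) {M1 : Type} [Field M1] [Algebra k1 M1]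
    (x y : Fin n → M1) (hD : Dat F z k1 w x y) (R : ℝ≥0) (hR : 1 < R) :
    Even (Nat.card {τ : Tg (A := A) w u x y 0 // nm V (fun i => τ.1 (x i)) = R}) := by
  classical
  obtain ⟨d0, hd0⟩ : ∃ d0 : Exp3 n, d0.1 = e3 ⟨0, by omega⟩ ⟨1, by omega⟩ ⟨2, by omega⟩ :=
    ⟨⟨e3 ⟨0, by omega⟩ ⟨1, by omega⟩ ⟨2, by omega⟩, by unfold e3; simp⟩, rfl⟩
  have hwt : (fun _ => 1 : (Exp3 n ⊕ J) ⊕ (Fin n ⊕ Fin n) → ℝ≥0) =
      wts (Sum.inl (Sum.inl d0)) (2 * 2⁻¹) := by
    funext s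
    unfold wts
    rw [mul_inv_cancel₀ (by norm_num), ite_self]
  rw [hwt] at hV
  obtain ⟨n1, n2, n3, n4⟩ := norm_coeff h v2 h2 V d0 2⁻¹ (by positivity) hV
  have hV2 : V 2 < 1 := by
    rw [n1]
    exact inv_lt_one_of_one_lt₀ one_lt_two
  have hG := gauss_C h v2 V (Sum.inl d0) (2 * 2⁻¹) (by positivity) hV
  obtain ⟨Fk, f1, f2, f3⟩ := hD.eqs
  refine A8_main h V hV2 hG k1 w x y hD 0 R (by positivity) ?_
  intro τ hτ
  have he : ∀ i : Fin n, algebraMap k1 A (w ^ ((0 : Fin n → ZMod 3) i).val) * τ.1 (x i) =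
      τ.1 (x i) := by
    intro i
    rw [Pi.zero_apply, ZMod.val_zero, pow_zero, map_one, one_mul]
  simp only [he] at hτ ⊢
  refine quad_small_one h.hom V hV2 ?_ u (fun i => τ.1 (x i)) (fun i => τ.1 (y i))
    (fun i => (n2 i).le) (fun i => ?_) (A8_eq f1 f2 τ.1) (A8_eq f1 f3 τ.1) R hR hτ
  · intro d hd
    rw [n1]
    by_cases hdd : (⟨d, hd⟩ : Exp3 n) = d0
    · rw [← hdd] at n4
      exact n4.le
    · exact (n3 ⟨d, hd⟩ hdd).le
  · have h4 := τ.2 i
    unfold zg at h4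
    rw [map_add, map_mul, AlgHom.commutes, he] at h4
    exact h4

end MP2619.N
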