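import Pool.Agent.Lib.MP_2619d0_ag.N.A0
import Pool.Agent.Lib.MP_2619d0_ag.R.A1

/-!
Row 2619n-A6: the valuation ring of `V` on a finite extension `k1` of `ℚ(z)`.

On `ℚ(z)` (where `z' = z` except `z'_{i0} = g = 2 z_{i0}` if the weight of `z_{i0}` is two) it is the
Gauss valuation ring in the variables `z'` over the two-adic one: discrete, uniformizer `2`, residue field
`𝔽₂(residues of z')`, the residues being algebraically independent. `k1` is finite over `ℚ(z)`.
-/

set_option autoImplicit false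

namespace MP2619.N

open scoped NNReal
open IntermediateField MP2619.R

/-! ### general lemmas -/

private theorem A6_eqv {K A : Type*} [Field K] [Field A] [Algebra K A] (V : Valuation A ℝ≥0) :
    (V.comap (algebraMap K A)).IsEquiv (O1 K V).valuation :=
  Valuation.isEquiv_valuation_valuationSubring _

private theorem A6_one {K A : Type*} [Field K] [Field A] [Algebra K A] (V : Valuation A ℝ≥0) (a : K) :
    (O1 K V).valuation a = 1 ↔ V (algebraMap K A a) = 1 :=
  (A6_eqv V).eq_one_iff_eq_one.symm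

private theorem A6_lt {K A : Type*} [Field K] [Field A] [Algebra K A] (V : Valuation A ℝ≥0) (a : K) :
    (O1 K V).valuation a < 1 ↔ V (algebraMap K A a) < 1 :=
  (A6_eqv V).lt_one_iff_lt_one.symm

/-- discreteness from the value group -/
private theorem A6_dv {K A : Type*} [Field K] [Field A] [Algebra K A] (V : Valuation A ℝ≥0) (N : ℕ)
    (hN : N ≠ 0) (h : ∀ a : K, a ≠ 0 → ∃ n : ℤ, V (algebraMap K A a) ^ N = (2 : ℝ≥0) ^ n)
    (h2 : ∃ a : K, a ≠ 0 ∧ V (algebraMap K A a) < 1) : DV (O1 K V) := by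
  classical
  have two0 : (2 : ℝ≥0) ≠ 0 := two_ne_zero
  have inj : ∀ {m n : ℤ}, (2 : ℝ≥0) ^ m = (2 : ℝ≥0) ^ n → m = n := fun {m n} hmn =>
    zpow_right_injective₀ (by norm_num) (by norm_num) hmn
  -- positive exponents
  have hex : ∃ n : ℕ, 0 < n ∧ ∃ a : K, a ≠ 0 ∧ V (algebraMap K A a) ^ N = (2 : ℝ≥0) ^ (-(n : ℤ)) := by
    obtain ⟨a, ha, hlt⟩ := h2
    obtain ⟨n, hn⟩ := h a ha
    have h1 : V (algebraMap K A a) ^ N < 1 := pow_lt_one₀ zero_le hlt hN
    have h3 : n < 0 := by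
      by_contra hc
      push Not at hc
      rw [hn] at h1
      have : (1 : ℝ≥0) ≤ 2 ^ n := one_le_zpow₀ (by norm_num) hc
      exact absurd h1 (not_lt.mpr this)
    refine ⟨(-n).toNat, by omega, a, ha, ?_⟩
    rw [hn]
    congr 1
    omega
  obtain ⟨hn0, ϖ, hϖ, hϖN⟩ := Nat.find_spec hex
  have hmin := fun m (hm : m < Nat.find hex) => Nat.find_min hex hm
  set n := Nat.find hex with hn
  have hV0 : ∀ a : K, a ≠ 0 → V (algebraMap K A a) ≠ 0 := fun a ha => by
    rw [Valuation.ne_zero_iff]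
    simpa using ha
  refine ⟨ϖ, hϖ, ?_, ?_⟩
  · rw [A6_lt]
    by_contra hc
    push Not at hc
    have h1 : 1 ≤ V (algebraMap K A ϖ) ^ N := one_le_pow₀ hc
    rw [hϖN] at h1
    have h3 : (2 : ℝ≥0) ^ (-(n : ℤ)) < 1 := by
      rw [zpow_neg]
      exact inv_lt_one_of_one_lt₀ (one_lt_zpow₀ (by norm_num) (by exact_mod_cast hn0))
    exact absurd h3 (not_lt.mpr h1)
  · intro a ha
    obtain ⟨k, hk⟩ := h a ha
    have hn0' : (0 : ℤ) < n := by exact_mod_cast hn0
    have hmod := Int.emod_add_mul_ediv k n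
    have hr0 := Int.emod_nonneg k (show (n : ℤ) ≠ 0 by omega)
    have hr1 := Int.emod_lt_of_pos k hn0'
    set q := k / n with hq
    set r := k % n with hr
    -- b = a * ϖ ^ q
    have hb : V (algebraMap K A (a * ϖ ^ q)) ^ N = (2 : ℝ≥0) ^ r := by
      rw [map_mul, map_mul, mul_pow, hk, map_zpow₀, map_zpow₀, ← zpow_natCast (V (algebraMap K A ϖ) ^ q),
        ← zpow_mul, mul_comm q, zpow_mul, zpow_natCast, hϖN, ← zpow_mul, ← zpow_add₀ two0]
      congr 1
      linarith
    have hb0 : a * ϖ ^ q ≠ 0 := mul_ne_zero ha (zpow_ne_zero _ hϖ)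
    have hr : r = 0 := by
      by_contra hc
      have hrpos : 0 < r := by omega
      refine hmin r.toNat (by omega) ⟨by omega, (a * ϖ ^ q)⁻¹, inv_ne_zero hb0, ?_⟩
      rw [map_inv₀, map_inv₀, inv_pow, hb, ← zpow_neg]
      congr 1
      omega
    have hb1 : V (algebraMap K A (a * ϖ ^ q)) = 1 := by
      rw [hr, zpow_zero] at hb
      exact (pow_eq_one_iff_of_nonneg zero_le hN).mp hb
    refine ⟨-q, a * ϖ ^ q, (A6_one V _).mpr hb1, ?_⟩
    rw [mul_assoc, ← zpow_add₀ hϖ]
    simp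

/-- the value group of a finite extension -/
private theorem A6_pow {k K A : Type*} [Field k] [Field K] [Field A] [Algebra k K] [Algebra K A]
    [FiniteDimensional k K] (V : Valuation A ℝ≥0)
    (h : ∀ c : k, c ≠ 0 → ∃ n : ℤ, V (algebraMap K A (algebraMap k K c)) = (2 : ℝ≥0) ^ n) :
    ∃ N : ℕ, N ≠ 0 ∧ ∀ a : K, a ≠ 0 → ∃ n : ℤ, V (algebraMap K A a) ^ N = (2 : ℝ≥0) ^ n := by
  classical
  refine ⟨(Module.finrank k K).factorial, Nat.factorial_ne_zero _, fun a ha => ?_⟩
  have hVa : V (algebraMap K A a) ≠ 0 := by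
    rw [Valuation.ne_zero_iff]
    simpa using ha
  set p := minpoly k a with hp
  have hint : IsIntegral k a := Algebra.IsIntegral.isIntegral a
  have hp0 : p ≠ 0 := minpoly.ne_zero hint
  have hdeg : p.natDegree ≤ Module.finrank k K := minpoly.natDegree_le a
  -- terms
  set T : ℕ → A := fun i => algebraMap K A (algebraMap k K (p.coeff i)) * (algebraMap K A a) ^ i with hT
  have hsum : ∑ i ∈ p.support, T i = 0 := by
    have h1 : Polynomial.aeval a p = 0 := minpoly.aeval k a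
    rw [Polynomial.aeval_eq_sum_range' (Nat.lt_succ_self _)] at h1
    have h2 := congrArg (algebraMap K A) h1
    rw [map_sum, map_zero] at h2
    rw [← h2]
    have hsub : p.support ⊆ Finset.range p.natDegree.succ := by
      intro i hi
      rw [Finset.mem_range]
      exact Nat.lt_succ_of_le (Polynomial.le_natDegree_of_mem_supp i hi)
    refine Finset.sum_subset_zero_on_sdiff hsub ?_ ?_
    · intro i hi
      rw [Finset.mem_sdiff, Polynomial.notMem_support_iff] at hi
      rw [hi.2]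
      simp
    · intro i _
      simp only [hT, Algebra.smul_def, map_mul, map_pow]
  have hT0 : ∀ i ∈ p.support, T i ≠ 0 := by
    intro i hi
    rw [Polynomial.mem_support_iff] at hi
    simp only [hT]
    refine mul_ne_zero ?_ (pow_ne_zero _ ?_)
    · simpa using hi
    · simpa using ha
  obtain ⟨i, hi, hmax⟩ := Finset.exists_max_image p.support (fun i => V (T i))
    (Polynomial.support_nonempty.mpr hp0)
  have hj : ∃ j ∈ p.support, j ≠ i ∧ V (T j) = V (T i) := by
    by_contra hc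
    push Not at hc
    have h1 : V (∑ j ∈ p.support.erase i, T j) < V (T i) := by
      refine Valuation.map_sum_lt _ ?_ ?_
      · rw [Valuation.ne_zero_iff]
        exact hT0 i hi
      · intro j hj
        rw [Finset.mem_erase] at hj
        exact lt_of_le_of_ne (hmax j hj.2) (hc j hj.2 hj.1)
    have h2 : T i = - ∑ j ∈ p.support.erase i, T j := by
      rw [← Finset.add_sum_erase _ _ hi] at hsum
      exact eq_neg_of_add_eq_zero_left hsum
    rw [← Valuation.map_neg, ← h2] at h1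
    exact lt_irrefl _ h1
  obtain ⟨j, hj, hji, hVj⟩ := hj
  -- general step
  have key : ∀ i j : ℕ, i ∈ p.support → j ∈ p.support → i < j → V (T j) = V (T i) →
      ∃ n : ℤ, V (algebraMap K A a) ^ (Module.finrank k K).factorial = (2 : ℝ≥0) ^ n := by
    intro i j hi hj hij hV
    obtain ⟨m, hm⟩ := h _ (Polynomial.mem_support_iff.mp hi)
    obtain ⟨m', hm'⟩ := h _ (Polynomial.mem_support_iff.mp hj)
    simp only [hT, map_mul, map_pow] at hV
    rw [hm, hm'] at hV
    have h1 : V (algebraMap K A a) ^ (j - i) = (2 : ℝ≥0) ^ (m - m') := by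
      rw [zpow_sub₀ two_ne_zero, eq_div_iff (zpow_ne_zero _ two_ne_zero)]
      have h3 : V (algebraMap K A a) ^ j = V (algebraMap K A a) ^ (j - i) * V (algebraMap K A a) ^ i := by
        rw [← pow_add]
        congr 1
        omega
      rw [h3, ← mul_assoc] at hV
      have := mul_right_cancel₀ (pow_ne_zero _ hVa) hV
      rw [mul_comm] at this
      exact this
    have h2 : j - i ∣ (Module.finrank k K).factorial := by
      refine Nat.dvd_factorial (by omega) ?_
      have := Polynomial.le_natDegree_of_mem_supp j hj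
      omega
    obtain ⟨e, he⟩ := h2
    refine ⟨(m - m') * e, ?_⟩
    rw [he, pow_mul, h1, zpow_mul, zpow_natCast]
  rcases lt_or_gt_of_ne hji with h1 | h1
  · exact key j i hj hi h1 hVj.symm
  · exact key i j hi hj h1 hVj

/-- the residue field of a finite extension -/
private theorem A6_fin {k K A : Type*} [Field k] [Field K] [Field A] [Algebra k K] [Algebra K A]
    [FiniteDimensional k K] (V : Valuation A ℝ≥0) {L : Type*} [Field L]
    [Algebra L (IsLocalRing.ResidueField (O1 K V))]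
    (h : ∀ (c : k) (hc : algebraMap k K c ∈ O1 K V),
      IsLocalRing.residue (O1 K V) ⟨algebraMap k K c, hc⟩ ∈
        Set.range (algebraMap L (IsLocalRing.ResidueField (O1 K V)))) :
    FiniteDimensional L (IsLocalRing.ResidueField (O1 K V)) := by
  classical
  rw [FiniteDimensional, ← Module.rank_lt_aleph0_iff]
  refine lt_of_le_of_lt (rank_le (n := Module.finrank k K) ?_) (Cardinal.natCast_lt_aleph0)
  intro s hs
  choose lift hlift using fun x : IsLocalRing.ResidueField (O1 K V) =>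
    IsLocalRing.residue_surjective (R := O1 K V) x
  have hli : LinearIndependent k (fun i : s => ((lift i : O1 K V) : K)) := by
    by_contra hc
    rw [Fintype.not_linearIndependent_iff] at hc
    obtain ⟨c, hc0, i, hi⟩ := hc
    obtain ⟨j, -, hmax⟩ := Finset.exists_max_image (Finset.univ : Finset s)
      (fun i => V (algebraMap K A (algebraMap k K (c i)))) ⟨i, Finset.mem_univ _⟩
    have hcj : c j ≠ 0 := by
      intro h0
      have h1 := hmax i (Finset.mem_univ _)
      rw [h0, map_zero, map_zero, map_zero] at h1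
      have h2 : V (algebraMap K A (algebraMap k K (c i))) = 0 := le_antisymm h1 zero_le
      rw [Valuation.zero_iff] at h2
      apply hi
      simpa using h2
    have hVj : V (algebraMap K A (algebraMap k K (c j))) ≠ 0 := by
      rw [Valuation.ne_zero_iff]
      simpa using hcj
    have hmem : ∀ i : s, algebraMap k K (c i / c j) ∈ O1 K V := by
      intro i
      rw [mem_O1, map_div₀, map_div₀, map_div₀]
      exact div_le_one_of_le₀ (hmax i (Finset.mem_univ _)) zero_le
    have hsum : ∑ i : s, (⟨algebraMap k K (c i / c j), hmem i⟩ : O1 K V) * lift i = 0 := by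
      apply Subtype.ext
      rw [AddSubmonoidClass.coe_finsetSum]
      have h1 : ∑ i : s, algebraMap k K (c i / c j) * ((lift i : O1 K V) : K) = 0 := by
        have h2 : ∑ i : s, (c j)⁻¹ • (c i • ((lift i : O1 K V) : K)) = 0 := by
          rw [← Finset.smul_sum, hc0, smul_zero]
        rw [← h2]
        refine Finset.sum_congr rfl fun i _ => ?_
        rw [Algebra.smul_def, Algebra.smul_def, ← mul_assoc, ← map_mul, div_eq_inv_mul]
      simpa using h1
    have hres := congrArg (IsLocalRing.residue (O1 K V)) hsum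
    rw [map_sum, map_zero] at hres
    choose d hd using fun i : s => h (c i / c j) (hmem i)
    have hres2 : ∑ i : s, d i • ((i : IsLocalRing.ResidueField (O1 K V))) = 0 := by
      rw [← hres]
      refine Finset.sum_congr rfl fun i _ => ?_
      rw [map_mul, hlift, Algebra.smul_def, hd]
    have hdj := (Fintype.linearIndependent_iff.mp hs) d hres2 j
    have h1 := hd j
    rw [hdj, map_zero] at h1
    have h2 : (⟨algebraMap k K (c j / c j), hmem j⟩ : O1 K V) = 1 := by
      apply Subtype.ext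
      simp [div_self hcj]
    rw [h2, map_one] at h1
    exact zero_ne_one h1
  have := hli.fintype_card_le_finrank
  simpa using this

/-! ### the two-adic absolute value and the weights -/

open Classical in
private theorem A6_prod {I M : Type*} [CommMonoid M] (i0 : I) (r : M) (m : I →₀ ℕ) :
    (m.prod fun s e => (if s = i0 then r else 1) ^ e) = r ^ (m i0) := by
  rw [Finsupp.prod]
  by_cases h : i0 ∈ m.support
  · rw [Finset.prod_eq_single i0]
    · rw [if_pos rfl]
    · intro s _ hs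
      rw [if_neg hs, one_pow]
    · intro h'
      exact absurd h h'
  · rw [Finsupp.notMem_support_iff.mp h, pow_zero]
    refine Finset.prod_eq_one fun s hs => ?_
    have hne : s ≠ i0 := by
      intro h'
      rw [h'] at hs
      exact h hs
    rw [if_neg hne, one_pow]

private theorem A6_int_le (v2 : Valuation ℚ ℝ≥0) (n : ℤ) : v2 (n : ℚ) ≤ 1 :=
  intCast_mem v2.integer n

private theorem A6_nat (v2 : Valuation ℚ ℝ≥0) (h2 : IsTwo v2) (n : ℕ) (hn : n ≠ 0) :
    ∃ k : ℤ, v2 (n : ℚ) = (2 : ℝ≥0) ^ k := by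
  obtain ⟨k, m, hm, hk⟩ := Nat.exists_eq_two_pow_mul_odd hn
  refine ⟨-(k : ℤ), ?_⟩
  have h1 : v2 ((m : ℕ) : ℚ) = 1 := by
    have := h2.odd (m : ℤ) (by exact_mod_cast hm)
    exact_mod_cast this
  rw [hk]
  push_cast
  rw [map_mul, map_pow, h2.two, h1, mul_one, zpow_neg, zpow_natCast, inv_pow]

private theorem A6_rat (v2 : Valuation ℚ ℝ≥0) (h2 : IsTwo v2) (q : ℚ) (hq : q ≠ 0) :
    ∃ k : ℤ, v2 q = (2 : ℝ≥0) ^ k := by
  obtain ⟨a, ha⟩ := A6_nat v2 h2 q.num.natAbs (by simpa using hq)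
  obtain ⟨b, hb⟩ := A6_nat v2 h2 q.den q.den_ne_zero
  refine ⟨a - b, ?_⟩
  have h1 : v2 (q.num : ℚ) = (2 : ℝ≥0) ^ a := by
    rw [← ha]
    rcases Int.natAbs_eq q.num with h | h
    · conv_lhs => rw [h]
      simp
    · conv_lhs => rw [h]
      rw [Int.cast_neg, Valuation.map_neg]
      simp
  conv_lhs => rw [← Rat.num_div_den q]
  rw [map_div₀, h1, hb, zpow_sub₀ two_ne_zero]

private theorem A6_den (v2 : Valuation ℚ ℝ≥0) (h2 : IsTwo v2) (q : ℚ) (hq : v2 q ≤ 1) : Odd q.den := by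
  by_contra hc
  rw [Nat.not_odd_iff_even] at hc
  have hnum : Odd q.num := by
    rw [← Int.not_even_iff_odd]
    intro h
    have h1 : 2 ∣ q.num.natAbs := Int.natAbs_dvd_natAbs.mpr h.two_dvd
    have h3 : 2 ∣ Nat.gcd q.num.natAbs q.den := Nat.dvd_gcd h1 hc.two_dvd
    rw [q.reduced] at h3
    omega
  obtain ⟨k, hk⟩ := hc
  have hden : v2 (q.den : ℚ) < 1 := by
    rw [hk]
    push_cast
    rw [← two_mul, map_mul, h2.two]
    have h1 : v2 ((k : ℕ) : ℚ) ≤ 1 := by
      have := A6_int_le v2 (k : ℤ)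
      exact_mod_cast this
    calc (2⁻¹ : ℝ≥0) * v2 ((k : ℕ) : ℚ) ≤ 2⁻¹ * 1 := by gcongr
      _ < 1 := by
        rw [mul_one]
        exact inv_lt_one_of_one_lt₀ (by norm_num)
  have h1 : v2 (q.num : ℚ) = v2 q * v2 (q.den : ℚ) := by
    rw [← map_mul]
    congr 1
    exact (Rat.mul_den_eq_num q).symm
  rw [h2.odd _ hnum] at h1
  have h3 : v2 q * v2 (q.den : ℚ) < 1 :=
    lt_of_le_of_lt (mul_le_mul_of_nonneg_right hq zero_le) (by rwa [one_mul])
  rw [← h1] at h3
  exact lt_irrefl _ h3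

/-! ### values on `ℚ(z)` -/

section

variable {I : Type} {z : I → ℂ} {A : Type} [Field A] [CharZero A]
    [Algebra ℂ A] {v2 : Valuation ℚ ℝ≥0} {V : Valuation A ℝ≥0} {i0 : I} {r : ℝ≥0}

private theorem A6_VP (hV : IsWt v2 V (fun s => algebraMap ℂ A (z s)) (wts i0 r))
    (P : MvPolynomial I ℚ) : V (algebraMap ℂ A (MvPolynomial.aeval z P)) =
      P.support.sup fun m => v2 (P.coeff m) * r ^ (m i0) := by
  have h1 := hV P
  have h2 : MvPolynomial.aeval (fun s => algebraMap ℂ A (z s)) P =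
      algebraMap ℂ A (MvPolynomial.aeval z P) := MvPolynomial.aeval_algebraMap_apply ..
  rw [h2] at h1
  rw [h1]
  refine Finset.sup_congr rfl fun m _ => ?_
  congr 1
  unfold wts
  exact A6_prod i0 r m

private theorem A6_Vq (hV : IsWt v2 V (fun s => algebraMap ℂ A (z s)) (wts i0 r)) (q : ℚ) :
    V (algebraMap ℂ A (q : ℂ)) = v2 q := by
  have h1 := A6_VP hV (MvPolynomial.C q)
  rw [MvPolynomial.aeval_C] at h1
  have h2 : (algebraMap ℚ ℂ) q = (q : ℂ) := rfl
  rw [h2] at h1
  rw [h1]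
  by_cases hq : q = 0
  · rw [hq]; simp
  · rw [MvPolynomial.support_C, if_neg hq, Finset.sup_singleton]
    simp

private theorem A6_Vpow (h2 : IsTwo v2) (hr : r = 1 ∨ r = 2)
    (hV : IsWt v2 V (fun s => algebraMap ℂ A (z s)) (wts i0 r))
    (P : MvPolynomial I ℚ) (hP : MvPolynomial.aeval z P ≠ 0) :
    ∃ n : ℤ, V (algebraMap ℂ A (MvPolynomial.aeval z P)) = (2 : ℝ≥0) ^ n := by
  have hP0 : P ≠ 0 := by
    rintro rfl
    exact hP (map_zero _)
  obtain ⟨m, hm, hsup⟩ := Finset.exists_mem_eq_sup P.support (MvPolynomial.support_nonempty.mpr hP0)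
    (fun m => v2 (P.coeff m) * r ^ (m i0))
  rw [A6_VP hV, hsup]
  obtain ⟨k, hk⟩ := A6_rat v2 h2 (P.coeff m) (MvPolynomial.mem_support_iff.mp hm)
  rw [hk]
  rcases hr with rfl | rfl
  · exact ⟨k, by simp⟩
  · exact ⟨k + m i0, by rw [zpow_add₀ two_ne_zero, zpow_natCast]⟩

private theorem A6_Qz (h2 : IsTwo v2) (hr : r = 1 ∨ r = 2)
    (hV : IsWt v2 V (fun s => algebraMap ℂ A (z s)) (wts i0 r)) (c : Qz z) (hc : c ≠ 0) :
    ∃ n : ℤ, V (algebraMap ℂ A (c : ℂ)) = (2 : ℝ≥0) ^ n := by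
  obtain ⟨P, Q, hPQ⟩ := (mem_adjoin_range_iff ℚ z (c : ℂ)).mp c.2
  have hc' : (c : ℂ) ≠ 0 := by simpa using hc
  have hP : MvPolynomial.aeval z P ≠ 0 := by
    intro h
    rw [h, zero_div] at hPQ
    exact hc' hPQ
  have hQ : MvPolynomial.aeval z Q ≠ 0 := by
    intro h
    rw [h, div_zero] at hPQ
    exact hc' hPQ
  obtain ⟨a, ha⟩ := A6_Vpow h2 hr hV P hP
  obtain ⟨b, hb⟩ := A6_Vpow h2 hr hV Q hQ
  refine ⟨a - b, ?_⟩
  rw [hPQ, map_div₀, map_div₀, ha, hb, zpow_sub₀ two_ne_zero]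

end

/-- Discreteness, for the weights `r = 1` and `r = 2` at `i0`. -/
theorem dv_k1 {I : Type} (z : I → ℂ) (hz : AlgebraicIndependent ℚ z) {A : Type} [Field A] [CharZero A]
    [Algebra ℂ A] (v2 : Valuation ℚ ℝ≥0) (h2 : IsTwo v2) (V : Valuation A ℝ≥0) (i0 : I) (r : ℝ≥0)
    (hr : r = 1 ∨ r = 2)
    (hV : IsWt v2 V (fun s => algebraMap ℂ A (z s)) (wts i0 r))
    (k1 : IntermediateField (Qz z) ℂ) (hfin : FiniteDimensional (Qz z) k1) : DV (O1 k1 V) := by
  obtain ⟨N, hN, h⟩ := A6_pow (k := Qz z) (K := k1) V (fun c hc => A6_Qz h2 hr hV c hc)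
  refine A6_dv V N hN h ⟨2, two_ne_zero, ?_⟩
  have h0 : algebraMap k1 A 2 = algebraMap ℂ A ((2 : k1) : ℂ) := rfl
  have h1 : ((2 : k1) : ℂ) = ((2 : ℚ) : ℂ) := by push_cast; rfl
  rw [h0, h1, A6_Vq hV, h2.two]
  exact inv_lt_one_of_one_lt₀ (by norm_num)

section

variable {I : Type} {z : I → ℂ} {A : Type} [Field A] [CharZero A]
    [Algebra ℂ A] {v2 : Valuation ℚ ℝ≥0} {V : Valuation A ℝ≥0} {i0 : I}

open Classical in
/-- the variables of norm one -/
private noncomputable def A6_z' (z : I → ℂ) (i0 : I) (s : I) : ℂ := (if s = i0 then 2 else 1) * z s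

private theorem A6_mon (z : I → ℂ) (i0 : I) (m : I →₀ ℕ) :
    (m.prod fun s e => A6_z' z i0 s ^ e) = 2 ^ (m i0) * m.prod fun s e => z s ^ e := by
  unfold A6_z'
  simp_rw [mul_pow]
  rw [Finsupp.prod_mul, A6_prod]

/-- the polynomial in `z` which is the given polynomial in `z'` -/
private noncomputable def A6_sub (i0 : I) (P : MvPolynomial I ℚ) : MvPolynomial I ℚ :=
  ∑ m ∈ P.support, MvPolynomial.monomial m (P.coeff m * 2 ^ (m i0))

private theorem A6_sub_coeff (i0 : I) (P : MvPolynomial I ℚ) (m : I →₀ ℕ) :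
    (A6_sub i0 P).coeff m = P.coeff m * 2 ^ (m i0) := by
  classical
  unfold A6_sub
  rw [MvPolynomial.coeff_sum]
  simp_rw [MvPolynomial.coeff_monomial]
  rw [Finset.sum_ite_eq']
  split_ifs with h
  · rfl
  · rw [MvPolynomial.notMem_support_iff.mp h, zero_mul]

private theorem A6_sub_supp (i0 : I) (P : MvPolynomial I ℚ) : (A6_sub i0 P).support = P.support := by
  ext m
  rw [MvPolynomial.mem_support_iff, MvPolynomial.mem_support_iff, A6_sub_coeff]
  simp

private theorem A6_sub_aeval (z : I → ℂ) (i0 : I) (P : MvPolynomial I ℚ) :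
    MvPolynomial.aeval z (A6_sub i0 P) = MvPolynomial.aeval (A6_z' z i0) P := by
  unfold A6_sub
  rw [map_sum]
  conv_rhs => rw [MvPolynomial.as_sum P, map_sum]
  refine Finset.sum_congr rfl fun m _ => ?_
  rw [MvPolynomial.aeval_monomial, MvPolynomial.aeval_monomial, A6_mon, map_mul, mul_assoc]
  congr 2
  simp

private theorem A6_VP' (h2 : IsTwo v2) (hV : IsWt v2 V (fun s => algebraMap ℂ A (z s)) (wts i0 2))
    (P : MvPolynomial I ℚ) : V (algebraMap ℂ A (MvPolynomial.aeval (A6_z' z i0) P)) =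
      P.support.sup fun m => v2 (P.coeff m) := by
  rw [← A6_sub_aeval, A6_VP hV, A6_sub_supp]
  refine Finset.sup_congr rfl fun m _ => ?_
  rw [A6_sub_coeff, map_mul, map_pow, h2.two, mul_assoc, ← mul_pow]
  simp

private theorem A6_z'_one (h2 : IsTwo v2) (hV : IsWt v2 V (fun s => algebraMap ℂ A (z s)) (wts i0 2))
    (s : I) : V (algebraMap ℂ A (A6_z' z i0 s)) = 1 := by
  classical
  have h1 := A6_VP' h2 hV (MvPolynomial.X s)
  rw [MvPolynomial.aeval_X, MvPolynomial.support_X, Finset.sup_singleton, MvPolynomial.coeff_X] at h1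
  rw [h1]
  simp

/-- terms -/
private theorem A6_term (h2 : IsTwo v2) (hV : IsWt v2 V (fun s => algebraMap ℂ A (z s)) (wts i0 2))
    (P : MvPolynomial I ℚ) (hP : V (algebraMap ℂ A (MvPolynomial.aeval z P)) ≤ 1) (m : I →₀ ℕ) :
    v2 (P.coeff m / 2 ^ (m i0)) ≤ 1 := by
  rw [A6_VP hV] at hP
  by_cases hm : m ∈ P.support
  · have h1 := Finset.le_sup (f := fun m => v2 (P.coeff m) * (2 : ℝ≥0) ^ (m i0)) hm
    have h3 := h1.trans hP
    rw [map_div₀, map_pow, h2.two, inv_pow, div_inv_eq_mul]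
    exact h3
  · rw [MvPolynomial.notMem_support_iff.mp hm]
    simp

end

section

variable {I : Type} {z : I → ℂ} {A : Type} [Field A] [CharZero A]
    [Algebra ℂ A] {v2 : Valuation ℚ ℝ≥0} {V : Valuation A ℝ≥0} {i0 : I}
    (k1 : IntermediateField (Qz z) ℂ)

/-- `z_s` in `k1` -/
private noncomputable def A6_zk (s : I) : k1 :=
  algebraMap (Qz z) k1 ⟨z s, subset_adjoin _ _ ⟨s, rfl⟩⟩

private theorem A6_zk_coe (s : I) : ((A6_zk k1 s : k1) : ℂ) = z s := rfl

open Classical in
/-- `z'_s` in the valuation ring -/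
private noncomputable def A6_zO (h2 : IsTwo v2)
    (hV : IsWt v2 V (fun s => algebraMap ℂ A (z s)) (wts i0 2)) (s : I) : O1 k1 V :=
  ⟨(if s = i0 then 2 else 1) * A6_zk k1 s, by
    rw [mem_O1]
    have h0 : algebraMap k1 A ((if s = i0 then 2 else 1) * A6_zk k1 s) =
      algebraMap ℂ A (A6_z' z i0 s) := by
      have h1 : (((if s = i0 then 2 else 1) * A6_zk k1 s : k1) : ℂ) = A6_z' z i0 s := by
        unfold A6_z'
        rw [← A6_zk_coe k1 s]
        split_ifs <;> push_cast <;> rfl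
      rw [← h1]
      rfl
    rw [h0, A6_z'_one h2 hV]⟩

private theorem A6_zO_coe (h2 : IsTwo v2)
    (hV : IsWt v2 V (fun s => algebraMap ℂ A (z s)) (wts i0 2)) (s : I) :
    (((A6_zO k1 h2 hV s : O1 k1 V) : k1) : ℂ) = A6_z' z i0 s := by
  classical
  unfold A6_z' A6_zO
  rw [← A6_zk_coe k1 s]
  split_ifs <;> push_cast <;> rfl

end


section

variable {I : Type} {z : I → ℂ} {A : Type} [Field A] [CharZero A]
    [Algebra ℂ A] {v2 : Valuation ℚ ℝ≥0} {V : Valuation A ℝ≥0} {i0 : I}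
    (k1 : IntermediateField (Qz z) ℂ)

private theorem A6_algk (a : k1) : algebraMap k1 A a = algebraMap ℂ A (a : ℂ) := rfl

private theorem A6_two_mem (h2 : IsTwo v2)
    (hV : IsWt v2 V (fun s => algebraMap ℂ A (z s)) (wts i0 2)) :
    (2 : IsLocalRing.ResidueField (O1 k1 V)) = 0 := by
  have h1 : (O1 k1 V).valuation ((2 : O1 k1 V) : k1) < 1 := by
    rw [A6_lt, A6_algk]
    have h3 : ((((2 : O1 k1 V) : k1)) : ℂ) = ((2 : ℚ) : ℂ) := by push_cast; rfl
    rw [h3, A6_Vq hV, h2.two]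
    exact inv_lt_one_of_one_lt₀ (by norm_num)
  have h3 := (ValuationSubring.valuation_lt_one_iff (O1 k1 V) 2).mpr h1
  have h4 := (IsLocalRing.residue_eq_zero_iff _).mpr h3
  rwa [map_ofNat] at h4

/-- integral polynomials in `z'` -/
private noncomputable def A6_ev (h2 : IsTwo v2)
    (hV : IsWt v2 V (fun s => algebraMap ℂ A (z s)) (wts i0 2)) : MvPolynomial I ℤ →+* O1 k1 V :=
  MvPolynomial.eval₂Hom (Int.castRingHom _) (A6_zO k1 h2 hV)

private theorem A6_ev_coe (h2 : IsTwo v2)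
    (hV : IsWt v2 V (fun s => algebraMap ℂ A (z s)) (wts i0 2)) (P : MvPolynomial I ℤ) :
    (((A6_ev k1 h2 hV P : O1 k1 V) : k1) : ℂ) =
      MvPolynomial.aeval (A6_z' z i0) (MvPolynomial.map (Int.castRingHom ℚ) P) := by
  let φ : O1 k1 V →+* ℂ := (algebraMap k1 ℂ).comp (O1 k1 V).subtype
  have h : φ.comp (A6_ev k1 h2 hV) =
      ((MvPolynomial.aeval (A6_z' z i0) : MvPolynomial I ℚ →ₐ[ℚ] ℂ) : MvPolynomial I ℚ →+* ℂ).comp
        (MvPolynomial.map (Int.castRingHom ℚ)) := by
    apply MvPolynomial.ringHom_ext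
    · intro n
      simp
    · intro s
      have h1 : φ (A6_zO k1 h2 hV s) = A6_z' z i0 s := A6_zO_coe k1 h2 hV s
      simp only [RingHom.comp_apply]
      rw [MvPolynomial.map_X]
      unfold A6_ev
      rw [MvPolynomial.eval₂Hom_X', h1]
      simp
  exact congrArg (fun f => f P) h

private theorem A6_indep (h2 : IsTwo v2)
    (hV : IsWt v2 V (fun s => algebraMap ℂ A (z s)) (wts i0 2))
    [Algebra (ZMod 2) (IsLocalRing.ResidueField (O1 k1 V))] :
    AlgebraicIndependent (ZMod 2) (fun s => IsLocalRing.residue (O1 k1 V) (A6_zO k1 h2 hV s)) := by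
  rw [algebraicIndependent_iff]
  intro p hp
  obtain ⟨P, rfl⟩ := MvPolynomial.map_surjective (Int.castRingHom (ZMod 2)) ZMod.intCast_surjective p
  have h1 : IsLocalRing.residue (O1 k1 V) (A6_ev k1 h2 hV P) = 0 := by
    rw [← hp]
    have h : (IsLocalRing.residue (O1 k1 V)).comp (A6_ev k1 h2 hV) =
        ((MvPolynomial.aeval (fun s => IsLocalRing.residue (O1 k1 V) (A6_zO k1 h2 hV s)) :
          MvPolynomial I (ZMod 2) →ₐ[ZMod 2] _) : MvPolynomial I (ZMod 2) →+* _).comp
          (MvPolynomial.map (Int.castRingHom (ZMod 2))) := by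
      apply MvPolynomial.ringHom_ext
      · intro n
        simp
      · intro s
        simp only [RingHom.comp_apply]
        rw [MvPolynomial.map_X]
        unfold A6_ev
        rw [MvPolynomial.eval₂Hom_X']
        simp
    exact congrArg (fun f => f P) h
  rw [IsLocalRing.residue_eq_zero_iff, ValuationSubring.valuation_lt_one_iff, A6_lt, A6_algk, A6_ev_coe,
    A6_VP' h2 hV] at h1
  ext m
  rw [MvPolynomial.coeff_map, MvPolynomial.coeff_zero]
  have h3 : v2 ((P.coeff m : ℤ) : ℚ) < 1 := by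
    by_cases hm : m ∈ (MvPolynomial.map (Int.castRingHom ℚ) P).support
    · have h4 := Finset.le_sup (f := fun m => v2 ((MvPolynomial.map (Int.castRingHom ℚ) P).coeff m)) hm
      rw [MvPolynomial.coeff_map] at h4
      exact lt_of_le_of_lt h4 h1
    · rw [MvPolynomial.notMem_support_iff, MvPolynomial.coeff_map] at hm
      have h5 : ((P.coeff m : ℤ) : ℚ) = 0 := hm
      rw [h5, map_zero]
      exact zero_lt_one
  have h4 : ¬ Odd (P.coeff m) := by
    intro h
    rw [h2.odd _ h] at h3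
    exact lt_irrefl _ h3
  rw [Int.not_odd_iff_even] at h4
  obtain ⟨j, hj⟩ := h4
  rw [hj]
  simp only [eq_intCast]
  push_cast
  rw [← two_mul]
  have : (2 : ZMod 2) = 0 := rfl
  rw [this, zero_mul]

private theorem A6_coeP (P : MvPolynomial I ℚ) :
    ((MvPolynomial.aeval (A6_zk k1) P : k1) : ℂ) = MvPolynomial.aeval z P := by
  have h : ((algebraMap k1 ℂ).comp ((MvPolynomial.aeval (A6_zk k1) : MvPolynomial I ℚ →ₐ[ℚ] k1) :
      MvPolynomial I ℚ →+* k1)) = ((MvPolynomial.aeval z : MvPolynomial I ℚ →ₐ[ℚ] ℂ) :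
      MvPolynomial I ℚ →+* ℂ) := by
    apply MvPolynomial.ringHom_ext
    · intro n
      simp
    · intro s
      have h1 : algebraMap k1 ℂ (A6_zk k1 s) = z s := rfl
      simp only [RingHom.comp_apply]
      simp [h1]
  exact congrArg (fun f => f P) h

/-- residues of elements of `ℚ(z)` -/
private theorem A6_mem (h2 : IsTwo v2)
    (hV : IsWt v2 V (fun s => algebraMap ℂ A (z s)) (wts i0 2))
    (L : Subfield (IsLocalRing.ResidueField (O1 k1 V)))
    (hL : ∀ s, IsLocalRing.residue (O1 k1 V) (A6_zO k1 h2 hV s) ∈ L)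
    (c : Qz z) (hc : algebraMap (Qz z) k1 c ∈ O1 k1 V) :
    IsLocalRing.residue (O1 k1 V) ⟨algebraMap (Qz z) k1 c, hc⟩ ∈ L := by
  classical
  let T : Subring k1 := (L.toSubring.comap (IsLocalRing.residue (O1 k1 V))).map (O1 k1 V).subtype
  have hT : ∀ (a : k1) (ha : a ∈ O1 k1 V), a ∈ T ↔ IsLocalRing.residue (O1 k1 V) ⟨a, ha⟩ ∈ L := by
    intro a ha
    constructor
    · rintro ⟨o, ho, hoa⟩
      have : o = ⟨a, ha⟩ := Subtype.ext hoa
      rw [← this]
      exact ho
    · intro h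
      exact ⟨⟨a, ha⟩, h, rfl⟩
  have hTO : ∀ a : k1, a ∈ T → a ∈ O1 k1 V := by
    rintro a ⟨o, -, rfl⟩
    exact o.2
  have hinv : ∀ a : k1, a ∈ T → V (algebraMap k1 A a) = 1 → a⁻¹ ∈ T := by
    intro a ha hVa
    have ha0 : a ≠ 0 := by
      rintro rfl
      rw [map_zero, map_zero] at hVa
      exact zero_ne_one hVa
    have haO := hTO a ha
    have hiO : a⁻¹ ∈ O1 k1 V := by
      rw [mem_O1, map_inv₀, map_inv₀, hVa, inv_one]
    rw [hT a haO] at ha
    rw [hT a⁻¹ hiO]
    have h1 : (⟨a, haO⟩ : O1 k1 V) * ⟨a⁻¹, hiO⟩ = 1 := Subtype.ext (mul_inv_cancel₀ ha0)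
    have h3 := congrArg (IsLocalRing.residue (O1 k1 V)) h1
    rw [map_mul, map_one] at h3
    rw [eq_inv_of_mul_eq_one_right h3]
    exact L.inv_mem ha
  have hrat : ∀ q : ℚ, v2 q ≤ 1 → (q : k1) ∈ T := by
    intro q hq
    have hd := A6_den v2 h2 q hq
    have h1 : ((q.den : ℤ) : k1) ∈ T := intCast_mem T _
    have h3 : V (algebraMap k1 A ((q.den : ℤ) : k1)) = 1 := by
      rw [A6_algk]
      have h4 : ((((q.den : ℤ) : k1)) : ℂ) = (((q.den : ℤ) : ℚ) : ℂ) := by push_cast; rfl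
      rw [h4, A6_Vq hV]
      exact h2.odd _ (by exact_mod_cast hd)
    have h5 := T.mul_mem (intCast_mem T q.num) (hinv _ h1 h3)
    have h6 : (q : k1) = ((q.num : ℤ) : k1) * (((q.den : ℤ) : k1))⁻¹ := by
      conv_lhs => rw [← Rat.num_div_den q]
      push_cast
      rw [div_eq_mul_inv]
    rw [h6]
    exact h5
  have hzO : ∀ s, ((A6_zO k1 h2 hV s : O1 k1 V) : k1) ∈ T := fun s => (hT _ (A6_zO k1 h2 hV s).2).mpr (hL s)
  have hpol : ∀ P : MvPolynomial I ℚ, V (algebraMap ℂ A (MvPolynomial.aeval z P)) ≤ 1 →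
      MvPolynomial.aeval (A6_zk k1) P ∈ T := by
    intro P hP
    rw [MvPolynomial.as_sum P, map_sum]
    refine T.sum_mem fun m _ => ?_
    have h1 : MvPolynomial.aeval (A6_zk k1) (MvPolynomial.monomial m (P.coeff m)) =
        ((P.coeff m / 2 ^ (m i0) : ℚ) : k1) *
          m.prod fun s e => ((A6_zO k1 h2 hV s : O1 k1 V) : k1) ^ e := by
      rw [MvPolynomial.aeval_monomial]
      have h3 : (m.prod fun s e => ((A6_zO k1 h2 hV s : O1 k1 V) : k1) ^ e) =
          2 ^ (m i0) * m.prod fun s e => A6_zk k1 s ^ e := by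
        have h4 : ∀ s, ((A6_zO k1 h2 hV s : O1 k1 V) : k1) = (if s = i0 then 2 else 1) * A6_zk k1 s :=
          fun s => rfl
        simp_rw [h4, mul_pow]
        rw [Finsupp.prod_mul, A6_prod]
      rw [h3, ← mul_assoc]
      congr 1
      push_cast
      rw [div_mul_cancel₀ _ (pow_ne_zero _ two_ne_zero)]
      rfl
    rw [h1]
    refine T.mul_mem (hrat _ (A6_term h2 hV P hP m)) ?_
    rw [Finsupp.prod]
    exact T.prod_mem fun s _ => T.pow_mem (hzO s) _
  rw [← hT]
  obtain ⟨P, Q, hPQ⟩ := (mem_adjoin_range_iff ℚ z (c : ℂ)).mp c.2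
  by_cases hc0 : c = 0
  · rw [hc0, map_zero]
    exact T.zero_mem
  have hc' : (c : ℂ) ≠ 0 := by simpa using hc0
  have hQ : MvPolynomial.aeval z Q ≠ 0 := by
    intro h
    rw [h, div_zero] at hPQ
    exact hc' hPQ
  obtain ⟨n, hn⟩ := A6_Vpow h2 (Or.inr rfl) hV Q hQ
  set q : ℚ := (2 : ℚ) ^ n with hq
  have hq0 : q ≠ 0 := zpow_ne_zero _ two_ne_zero
  have hvq : v2 q = (2 : ℝ≥0) ^ (-n) := by
    rw [hq, map_zpow₀, h2.two, inv_zpow, zpow_neg]
  have hVQ : V (algebraMap ℂ A (MvPolynomial.aeval z (MvPolynomial.C q * Q))) = 1 := by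
    rw [map_mul, MvPolynomial.aeval_C, map_mul, map_mul, hn]
    have h3 : (algebraMap ℚ ℂ) q = (q : ℂ) := rfl
    rw [h3, A6_Vq hV, hvq, ← zpow_add₀ two_ne_zero]
    simp
  have hVc : V (algebraMap ℂ A (c : ℂ)) ≤ 1 := hc
  have hVP : V (algebraMap ℂ A (MvPolynomial.aeval z (MvPolynomial.C q * P))) ≤ 1 := by
    have h3 : MvPolynomial.aeval z (MvPolynomial.C q * P) =
        (c : ℂ) * MvPolynomial.aeval z (MvPolynomial.C q * Q) := by
      rw [map_mul, map_mul, hPQ]
      field_simp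
    rw [h3, map_mul, map_mul, hVQ, mul_one]
    exact hVc
  have h3 := hpol _ hVP
  have h4 := hpol _ hVQ.le
  have h5 : V (algebraMap k1 A (MvPolynomial.aeval (A6_zk k1) (MvPolynomial.C q * Q))) = 1 := by
    rw [A6_algk, A6_coeP, hVQ]
  have h6 := T.mul_mem h3 (hinv _ h4 h5)
  have h7 : algebraMap (Qz z) k1 c = MvPolynomial.aeval (A6_zk k1) (MvPolynomial.C q * P) *
      (MvPolynomial.aeval (A6_zk k1) (MvPolynomial.C q * Q))⁻¹ := by
    apply Subtype.ext
    have h8 : ((algebraMap (Qz z) k1 c : k1) : ℂ) = (c : ℂ) := rfl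
    rw [h8, hPQ]
    push_cast
    rw [A6_coeP, A6_coeP, map_mul, map_mul]
    have h9 : MvPolynomial.aeval z (MvPolynomial.C q : MvPolynomial I ℚ) ≠ 0 := by
      rw [MvPolynomial.aeval_C]
      simpa using hq0
    field_simp
  rw [h7]
  exact h6

end

/-- The residue field in the case of weight two at `i0` (the element `g = 2 z_{i0}` of norm one): it is finite
over `k0(ḡ)`, `k0` = the subfield generated by the residues of the `z_s`, `s ≠ i0`, and `ḡ` is transcendental
over `k0`. -/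
theorem res_k1 {I : Type} (z : I → ℂ) (hz : AlgebraicIndependent ℚ z) {A : Type} [Field A] [CharZero A]
    [Algebra ℂ A] (v2 : Valuation ℚ ℝ≥0) (h2 : IsTwo v2) (V : Valuation A ℝ≥0) (i0 : I)
    (hV : IsWt v2 V (fun s => algebraMap ℂ A (z s)) (wts i0 2))
    (k1 : IntermediateField (Qz z) ℂ) (hfin : FiniteDimensional (Qz z) k1)
    (g : O1 k1 V) (hg : ((g : k1) : ℂ) = 2 * z i0) :
    ∃ k0 : Subfield (IsLocalRing.ResidueField (O1 k1 V)),
      Transcendental k0 (IsLocalRing.residue (O1 k1 V) g) ∧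
      FiniteDimensional (adjoin k0 {IsLocalRing.residue (O1 k1 V) g})
        (IsLocalRing.ResidueField (O1 k1 V)) := by
  classical
  have hgO : g = A6_zO k1 h2 hV i0 := by
    apply Subtype.ext
    apply Subtype.ext
    rw [hg, A6_zO_coe]
    unfold A6_z'
    rw [if_pos rfl]
  set κ := IsLocalRing.ResidueField (O1 k1 V) with hκ
  haveI : CharP κ 2 := CharTwo.of_one_ne_zero_of_two_eq_zero one_ne_zero (A6_two_mem k1 h2 hV)
  letI : Algebra (ZMod 2) κ := ZMod.algebra κ 2
  have hind := A6_indep k1 h2 hV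
  set xb : I → κ := fun s => IsLocalRing.residue (O1 k1 V) (A6_zO k1 h2 hV s) with hxb
  have htr := hind.transcendental_adjoin (s := {i0}ᶜ) (i := i0) (by simp)
  rw [← IntermediateField.transcendental_adjoin_iff] at htr
  refine ⟨(adjoin (ZMod 2) (xb '' {i0}ᶜ)).toSubfield, ?_, ?_⟩
  · rw [hgO]
    exact htr
  · set k0 := (adjoin (ZMod 2) (xb '' {i0}ᶜ)).toSubfield with hk0
    refine A6_fin (k := Qz z) (K := k1) V fun c hc => ?_
    have hL : ∀ s, xb s ∈ (adjoin k0 {IsLocalRing.residue (O1 k1 V) g}).toSubfield := by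
      intro s
      by_cases hs : s = i0
      · rw [hs]
        have : xb i0 = IsLocalRing.residue (O1 k1 V) g := by rw [hgO]
        rw [this]
        exact mem_adjoin_simple_self _ _
      · have h1 : xb s ∈ k0 := subset_adjoin _ _ ⟨s, hs, rfl⟩
        exact (adjoin k0 {IsLocalRing.residue (O1 k1 V) g}).algebraMap_mem ⟨xb s, h1⟩
    exact ⟨⟨_, A6_mem k1 h2 hV _ hL c hc⟩, rfl⟩

end MP2619.N
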