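import Pool.Agent.Lib.MP_2619d0_ag.N.P0

/-!
Row 2619n-P2: places over Gauss valuation rings (section 3 of /team-store/2619NP_paper_helper9.md).

`V` is a real valuation of `A`, `u` a family with `IsGauss k V u`, `z : Fin n → M` an algebraically independent
family, `K = k(z)`, which becomes a subfield of `A` by `z i ↦ u i`.
-/

set_option autoImplicit false

namespace MP2619.N

open scoped NNReal
open IntermediateField MP2619.R

variable {k M A : Type*} [Field k] [Field M] [Field A] [Algebra k M] [Algebra k A]

private def P2_Prim (k : Type*) {A : Type*} [Field k] [Field A] [Algebra k A]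
    (V : Valuation A ℝ≥0) {n : ℕ} (p : MvPolynomial (Fin n) k) : Prop :=
  (∀ m, V (algebraMap k A (p.coeff m)) ≤ 1) ∧ ∃ m, V (algebraMap k A (p.coeff m)) = 1

private theorem P2_norm (V : Valuation A ℝ≥0) {n : ℕ} (p : MvPolynomial (Fin n) k) (hp : p ≠ 0) :
    ∃ (c : k) (p0 : MvPolynomial (Fin n) k), c ≠ 0 ∧ p = MvPolynomial.C c * p0 ∧ P2_Prim k V p0 := by
  classical
  have hne : p.support.Nonempty := by
    rw [Finset.nonempty_iff_ne_empty]
    intro h
    exact hp (MvPolynomial.support_eq_empty.mp h)
  obtain ⟨m0, hm0, hmax⟩ := Finset.exists_max_image p.support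
    (fun m => V (algebraMap k A (p.coeff m))) hne
  have hc : p.coeff m0 ≠ 0 := MvPolynomial.mem_support_iff.mp hm0
  have hVc : V (algebraMap k A (p.coeff m0)) ≠ 0 := by
    rw [Valuation.ne_zero_iff]
    exact (map_ne_zero _).mpr hc
  refine ⟨p.coeff m0, MvPolynomial.C (p.coeff m0)⁻¹ * p, hc, ?_, ?_, ⟨m0, ?_⟩⟩
  · rw [← mul_assoc, ← MvPolynomial.C_mul, mul_inv_cancel₀ hc, MvPolynomial.C_1, one_mul]
  · intro m
    rw [MvPolynomial.coeff_C_mul, map_mul, map_inv₀, map_mul, map_inv₀]
    by_cases hm : m ∈ p.support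
    · rw [inv_mul_le_iff₀ (pos_iff_ne_zero.mpr hVc), mul_one]
      exact hmax m hm
    · rw [MvPolynomial.notMem_support_iff.mp hm, map_zero, map_zero, mul_zero]
      exact zero_le_one
  · rw [MvPolynomial.coeff_C_mul, inv_mul_cancel₀ hc, map_one, map_one]

private theorem P2_one (V : Valuation A ℝ≥0) {n : ℕ} (u : Fin n → A) (hu : IsGauss k V u)
    (p : MvPolynomial (Fin n) k) (hp : P2_Prim k V p) : V (MvPolynomial.aeval u p) = 1 := by
  classical
  rw [hu p]
  obtain ⟨h1, m, hm⟩ := hp
  apply le_antisymm
  · exact Finset.sup_le fun m _ => h1 m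
  · rw [← hm]
    have hmem : m ∈ p.support := by
      rw [MvPolynomial.mem_support_iff]
      intro h0
      rw [h0, map_zero, map_zero] at hm
      exact zero_ne_one hm
    exact Finset.le_sup (f := fun m => V (algebraMap k A (p.coeff m))) hmem

section
variable {K : Type*} [Field K] [Algebra k K] [Algebra K A] [IsScalarTower k K A]

private theorem P2_aeval {n : ℕ} (u : Fin n → A)
    (z : Fin n → K) (hz : ∀ i, algebraMap K A (z i) = u i) (p : MvPolynomial (Fin n) k) :
    algebraMap K A (MvPolynomial.aeval z p) = MvPolynomial.aeval u p := by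
  have h : u = fun i => algebraMap K A (z i) := funext fun i => (hz i).symm
  rw [h]
  exact (MvPolynomial.aeval_algebraMap_apply A z p).symm

omit [Algebra K A] [IsScalarTower k K A] in
private theorem P2_repr (V : Valuation A ℝ≥0) {n : ℕ}
    (z : Fin n → K) (hK : adjoin k (Set.range z) = ⊤) (a : K) (ha : a ≠ 0) :
    ∃ (c : k) (p q : MvPolynomial (Fin n) k), c ≠ 0 ∧ P2_Prim k V p ∧ P2_Prim k V q ∧
      a = algebraMap k K c * (MvPolynomial.aeval z p / MvPolynomial.aeval z q) := by
  have hmem : a ∈ adjoin k (Set.range z) := by rw [hK]; exact IntermediateField.mem_top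
  obtain ⟨r, s, hrs⟩ := (IntermediateField.mem_adjoin_range_iff k z a).mp hmem
  have hr : r ≠ 0 := by
    rintro rfl
    rw [map_zero, zero_div] at hrs
    exact ha hrs
  have hs : s ≠ 0 := by
    rintro rfl
    rw [map_zero, div_zero] at hrs
    exact ha hrs
  obtain ⟨c, p, hc, hrp, hp⟩ := P2_norm V r hr
  obtain ⟨d, q, hd, hsq, hq⟩ := P2_norm V s hs
  refine ⟨c / d, p, q, div_ne_zero hc hd, hp, hq, ?_⟩
  rw [hrs, hrp, hsq, map_mul, map_mul, map_div₀, MvPolynomial.aeval_C, MvPolynomial.aeval_C,
    mul_div_mul_comm]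

private theorem P2_val (V : Valuation A ℝ≥0) (a : K) :
    ((O1 K V).valuation a = 1 ↔ V (algebraMap K A a) = 1) ∧
    ((O1 K V).valuation a < 1 ↔ V (algebraMap K A a) < 1) := by
  have h := Valuation.isEquiv_valuation_valuationSubring (V.comap (algebraMap K A))
  exact ⟨(h.eq_one_iff_eq_one).symm, (h.lt_one_iff_lt_one).symm⟩

end

/-- Uniformizers of `k` are uniformizers of the Gauss valuation ring of `k(z)`. (Here `K` is any field with
`k → K → A`, generated by a family mapping to `u`.) -/
theorem gauss_uf {K : Type*} [Field K] [Algebra k K] [Algebra K A] [IsScalarTower k K A]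
    (V : Valuation A ℝ≥0) {n : ℕ} (u : Fin n → A) (hu : IsGauss k V u)
    (z : Fin n → K) (hz : ∀ i, algebraMap K A (z i) = u i) (hK : adjoin k (Set.range z) = ⊤)
    (ϖ : k) (hϖ : IsUf (O1 k V) ϖ) : IsUf (O1 K V) (algebraMap k K ϖ) := by
  obtain ⟨h0, h1, h2⟩ := hϖ
  refine ⟨(map_ne_zero _).mpr h0, ?_, ?_⟩
  · rw [(P2_val V _).2, ← IsScalarTower.algebraMap_apply]
    exact (P2_val V ϖ).2.mp h1
  · intro a ha
    obtain ⟨c, p, q, hc, hp, hq, hacpq⟩ := P2_repr V z hK a ha
    obtain ⟨e, η, hη, hce⟩ := h2 c hc
    refine ⟨e, algebraMap k K η * (MvPolynomial.aeval z p / MvPolynomial.aeval z q), ?_, ?_⟩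
    · rw [(P2_val V _).1, map_mul, map_mul, map_div₀, map_div₀, P2_aeval u z hz, P2_aeval u z hz,
        P2_one V u hu p hp, P2_one V u hu q hq, div_one, mul_one, ← IsScalarTower.algebraMap_apply]
      exact (P2_val V η).1.mp hη
    · rw [hacpq, hce, map_mul, map_zpow₀]
      ring

/-- lifting of a polynomial with integral coefficients -/
private theorem P2_lift (O : ValuationSubring k) {n : ℕ} (p : MvPolynomial (Fin n) k)
    (hp : ∀ m, p.coeff m ∈ O) :
    ∃ p1 : MvPolynomial (Fin n) O, MvPolynomial.map O.subtype p1 = p := by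
  classical
  refine ⟨∑ m ∈ p.support, MvPolynomial.monomial m ⟨p.coeff m, hp m⟩, ?_⟩
  rw [map_sum]
  conv_rhs => rw [p.as_sum]
  refine Finset.sum_congr rfl fun m _ => ?_
  rw [MvPolynomial.map_monomial]
  rfl

section
variable {K : Type*} [Field K] [Algebra k K] [Algebra K A] [IsScalarTower k K A]
    [Algebra K M] [IsScalarTower k K M]

omit [Algebra K A] [IsScalarTower k K A] in
/-- the residue of the value of an integral polynomial -/
private theorem P2_red (V : Valuation A ℝ≥0) {n : ℕ} (z : Fin n → K) (P : ValuationSubring M)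
    (j : IsLocalRing.ResidueField (O1 k V) →+* IsLocalRing.ResidueField P) (hj : Lies V P j)
    (h : ∀ i, algebraMap K M (z i) ∈ P) (p1 : MvPolynomial (Fin n) (O1 k V)) :
    ∃ hm : algebraMap K M (MvPolynomial.aeval z (MvPolynomial.map (O1 k V).subtype p1)) ∈ P,
      IsLocalRing.residue P ⟨_, hm⟩ =
        MvPolynomial.eval₂ j (fun i => IsLocalRing.residue P ⟨algebraMap K M (z i), h i⟩)
          (MvPolynomial.map (IsLocalRing.residue (O1 k V)) p1) := by
  have hιmem : ∀ a : O1 k V, algebraMap k M a ∈ P := fun a => (hj.mem a).2 a.2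
  let ι : O1 k V →+* P := ((algebraMap k M).comp (O1 k V).subtype).codRestrict P.toSubring hιmem
  have key : P.subtype (MvPolynomial.eval₂ ι (fun i => (⟨algebraMap K M (z i), h i⟩ : P)) p1) =
      algebraMap K M (MvPolynomial.aeval z (MvPolynomial.map (O1 k V).subtype p1)) := by
    rw [MvPolynomial.aeval_def, MvPolynomial.eval₂_map, ← MvPolynomial.coe_eval₂Hom,
      ← MvPolynomial.coe_eval₂Hom, ← RingHom.comp_apply, ← RingHom.comp_apply,
      MvPolynomial.comp_eval₂Hom, MvPolynomial.comp_eval₂Hom]
    congr 2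
    · ext a
      simp only [RingHom.comp_apply]
      rw [← IsScalarTower.algebraMap_apply]
      rfl
  have hm : algebraMap K M (MvPolynomial.aeval z (MvPolynomial.map (O1 k V).subtype p1)) ∈ P := by
    rw [← key]
    exact Subtype.property _
  refine ⟨hm, ?_⟩
  have h1 : (⟨_, hm⟩ : P) =
      MvPolynomial.eval₂ ι (fun i => (⟨algebraMap K M (z i), h i⟩ : P)) p1 :=
    Subtype.ext key.symm
  rw [h1, MvPolynomial.eval₂_map, ← MvPolynomial.coe_eval₂Hom,
    ← MvPolynomial.coe_eval₂Hom, ← RingHom.comp_apply,
    MvPolynomial.comp_eval₂Hom]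
  congr 2
  ext a
  simp only [RingHom.comp_apply]
  rw [hj.res a]
  rfl

private theorem P2_unit (P : ValuationSubring M) (x : M) (hx : x ∈ P)
    (hr : IsLocalRing.residue P ⟨x, hx⟩ ≠ 0) : x ≠ 0 ∧ x⁻¹ ∈ P := by
  have hu : IsUnit (⟨x, hx⟩ : P) := by
    by_contra hcon
    exact hr ((IsLocalRing.residue_eq_zero_iff _).mpr ((IsLocalRing.mem_maximalIdeal _).mpr hcon))
  have h1 : P.valuation x = 1 := (P.valuation_eq_one_iff ⟨x, hx⟩).mp hu
  refine ⟨?_, ?_⟩
  · rintro rfl
    rw [map_zero] at h1
    exact zero_ne_one h1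
  · rw [← P.valuation_le_one_iff, map_inv₀, h1, inv_one]

private theorem P2_unit' (P : ValuationSubring M) (x : M) (hx : x ∈ P) (h0 : x ≠ 0)
    (hi : x⁻¹ ∈ P) : IsLocalRing.residue P ⟨x, hx⟩ ≠ 0 := by
  intro hr
  have h1 : (⟨x, hx⟩ : P) ∈ IsLocalRing.maximalIdeal P := (IsLocalRing.residue_eq_zero_iff _).mp hr
  apply (IsLocalRing.mem_maximalIdeal _).mp h1
  refine IsUnit.of_mul_eq_one ⟨x⁻¹, hi⟩ ?_
  exact Subtype.ext (mul_inv_cancel₀ h0)

/-- primitive polynomials have a nonzero reduction -/
private theorem P2_redne (V : Valuation A ℝ≥0) {n : ℕ} (p1 : MvPolynomial (Fin n) (O1 k V)) :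
    MvPolynomial.map (IsLocalRing.residue (O1 k V)) p1 ≠ 0 ↔
      P2_Prim k V (MvPolynomial.map (O1 k V).subtype p1) := by
  constructor
  · intro h
    refine ⟨fun m => ?_, ?_⟩
    · rw [MvPolynomial.coeff_map]
      exact (mem_O1 V _).mp (p1.coeff m).2
    · rw [MvPolynomial.ne_zero_iff] at h
      obtain ⟨m, hm⟩ := h
      rw [MvPolynomial.coeff_map] at hm
      refine ⟨m, ?_⟩
      rw [MvPolynomial.coeff_map]
      have hu : IsUnit (p1.coeff m) := by
        by_contra hcon
        exact hm ((IsLocalRing.residue_eq_zero_iff _).mpr ((IsLocalRing.mem_maximalIdeal _).mpr hcon))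
      exact (P2_val V _).1.mp (((O1 k V).valuation_eq_one_iff _).mp hu)
  · rintro ⟨_, m, hm⟩ h0
    rw [MvPolynomial.coeff_map] at hm
    have hu : IsUnit (p1.coeff m) := ((O1 k V).valuation_eq_one_iff _).mpr ((P2_val V _).1.mpr hm)
    have h1 : IsLocalRing.residue (O1 k V) (p1.coeff m) = 0 := by
      rw [← MvPolynomial.coeff_map, h0, MvPolynomial.coeff_zero]
    exact (IsLocalRing.mem_maximalIdeal _).mp ((IsLocalRing.residue_eq_zero_iff _).mp h1) hu

end

/-- `P` lies over the Gauss valuation ring of `K = k(z)` iff `z` is integral at `P` and the residues are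
algebraically independent over the residue field of `k`. -/
theorem gauss_lies {K : Type*} [Field K] [Algebra k K] [Algebra K A] [IsScalarTower k K A]
    [Algebra K M] [IsScalarTower k K M]
    (V : Valuation A ℝ≥0) {n : ℕ} (u : Fin n → A) (hu : IsGauss k V u)
    (z : Fin n → K) (hz : ∀ i, algebraMap K A (z i) = u i) (hK : adjoin k (Set.range z) = ⊤)
    (P : ValuationSubring M)
    (j : IsLocalRing.ResidueField (O1 k V) →+* IsLocalRing.ResidueField P) (hj : Lies V P j) :
    (∀ a : K, algebraMap K M a ∈ P ↔ a ∈ O1 K V) ↔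
      ∃ h : ∀ i, algebraMap K M (z i) ∈ P,
        @AlgebraicIndependent (Fin n) (IsLocalRing.ResidueField (O1 k V)) (IsLocalRing.ResidueField P)
          (fun i => IsLocalRing.residue P ⟨algebraMap K M (z i), h i⟩) _ _ j.toAlgebra := by
  constructor
  · intro H
    have h : ∀ i, algebraMap K M (z i) ∈ P := by
      intro i
      rw [H, mem_O1, hz]
      have hp : P2_Prim k V (MvPolynomial.X i : MvPolynomial (Fin n) k) := by
        classical
        refine ⟨fun m => ?_, ⟨Finsupp.single i 1, ?_⟩⟩
        · rw [MvPolynomial.coeff_X]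
          split_ifs
          · rw [map_one, map_one]
          · rw [map_zero, map_zero]; exact zero_le_one
        · rw [MvPolynomial.coeff_X, if_pos rfl, map_one, map_one]
      have := P2_one V u hu _ hp
      rw [MvPolynomial.aeval_X] at this
      exact this.le
    refine ⟨h, ?_⟩
    let _ := j.toAlgebra
    rw [algebraicIndependent_iff]
    intro p hp
    by_contra hne
    obtain ⟨p1, rfl⟩ := MvPolynomial.map_surjective (σ := Fin n)
      (IsLocalRing.residue (O1 k V)) IsLocalRing.residue_surjective p
    have hprim := (P2_redne V p1).mp hne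
    obtain ⟨hm, hres⟩ := P2_red V z P j hj h p1
    have hV1 := P2_one V u hu _ hprim
    rw [← P2_aeval u z hz] at hV1
    set x : K := MvPolynomial.aeval z (MvPolynomial.map (O1 k V).subtype p1) with hx
    have hx0 : x ≠ 0 := by
      intro h0
      rw [h0, map_zero, map_zero] at hV1
      exact zero_ne_one hV1
    have hxi : algebraMap K M x⁻¹ ∈ P := by
      rw [H, mem_O1, map_inv₀, map_inv₀, hV1, inv_one]
    have hne' := P2_unit' P (algebraMap K M x) hm ((map_ne_zero _).mpr hx0)
      (by rw [← map_inv₀]; exact hxi)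
    apply hne'
    rw [hres]
    exact hp
  · rintro ⟨h, hind⟩ a
    by_cases ha : a = 0
    · subst ha
      rw [map_zero]
      exact ⟨fun _ => zero_mem _, fun _ => zero_mem _⟩
    let _ := j.toAlgebra
    rw [algebraicIndependent_iff] at hind
    have hunit : ∀ p : MvPolynomial (Fin n) k, P2_Prim k V p →
        algebraMap K M (MvPolynomial.aeval z p) ∈ P ∧ algebraMap K M (MvPolynomial.aeval z p) ≠ 0 ∧
          (algebraMap K M (MvPolynomial.aeval z p))⁻¹ ∈ P := by
      intro p hp
      obtain ⟨p1, rfl⟩ := P2_lift (O1 k V) p hp.1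
      obtain ⟨hm, hres⟩ := P2_red V z P j hj h p1
      have hne := (P2_redne V p1).mpr hp
      have hne2 : IsLocalRing.residue P ⟨_, hm⟩ ≠ 0 := by
        rw [hres]
        intro h0
        exact hne (hind _ h0)
      exact ⟨hm, P2_unit P _ hm hne2⟩
    obtain ⟨c, p, q, hc, hp, hq, hacpq⟩ := P2_repr V z hK a ha
    obtain ⟨hp1, hp2, hp3⟩ := hunit p hp
    obtain ⟨hq1, hq2, hq3⟩ := hunit q hq
    have hVa : V (algebraMap K A a) = V (algebraMap k A c) := by
      rw [hacpq, map_mul, map_mul, map_div₀, map_div₀, P2_aeval u z hz, P2_aeval u z hz,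
        P2_one V u hu p hp, P2_one V u hu q hq, div_one, mul_one, ← IsScalarTower.algebraMap_apply]
    rw [mem_O1, hVa, ← mem_O1, ← hj.mem]
    have hMa : algebraMap K M a = algebraMap k M c *
        (algebraMap K M (MvPolynomial.aeval z p) / algebraMap K M (MvPolynomial.aeval z q)) := by
      rw [hacpq, map_mul, map_div₀, ← IsScalarTower.algebraMap_apply]
    constructor
    · intro h1
      have h2 : algebraMap k M c = algebraMap K M a *
          (algebraMap K M (MvPolynomial.aeval z q) * (algebraMap K M (MvPolynomial.aeval z p))⁻¹) := by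
        rw [hMa]
        field_simp
      rw [h2]
      exact mul_mem h1 (mul_mem hq1 hp3)
    · intro h1
      rw [hMa, div_eq_mul_inv]
      exact mul_mem h1 (mul_mem hp1 hq3)

/-- The residue field of the Gauss valuation ring of `k(z)` is generated by the residue field of `k` and the
residues of `z`: the subfield of the residue field of `P`. -/
theorem gauss_res {K : Type*} [Field K] [Algebra k K] [Algebra K A] [IsScalarTower k K A]
    [Algebra K M] [IsScalarTower k K M]
    (V : Valuation A ℝ≥0) {n : ℕ} (u : Fin n → A) (hu : IsGauss k V u)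
    (z : Fin n → K) (hz : ∀ i, algebraMap K A (z i) = u i) (hK : adjoin k (Set.range z) = ⊤)
    (P : ValuationSubring M)
    (j : IsLocalRing.ResidueField (O1 k V) →+* IsLocalRing.ResidueField P) (hj : Lies V P j)
    (jK : IsLocalRing.ResidueField (O1 K V) →+* IsLocalRing.ResidueField P) (hjK : Lies V P jK)
    (h : ∀ i, algebraMap K M (z i) ∈ P) :
    Module.finrank jK.fieldRange (IsLocalRing.ResidueField P) =
      @Module.finrank (@IntermediateField.adjoin (IsLocalRing.ResidueField (O1 k V)) _
          (IsLocalRing.ResidueField P) _ j.toAlgebra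
          (Set.range fun i => IsLocalRing.residue P ⟨algebraMap K M (z i), h i⟩))
        (IsLocalRing.ResidueField P) _ _ _ := by
  let _ := j.toAlgebra
  have key : jK.fieldRange = (IntermediateField.adjoin (IsLocalRing.ResidueField (O1 k V))
      (Set.range fun i => IsLocalRing.residue P ⟨algebraMap K M (z i), h i⟩)).toSubfield := by
    apply le_antisymm
    · rintro _ ⟨y, rfl⟩
      obtain ⟨a, rfl⟩ := IsLocalRing.residue_surjective y
      by_cases ha : (a : K) = 0
      · have : a = 0 := Subtype.ext ha
        rw [this, map_zero, map_zero]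
        exact zero_mem _
      rw [hjK.res a]
      obtain ⟨c, p, q, hc, hp, hq, hacpq⟩ := P2_repr V z hK (a : K) ha
      have hVa : V (algebraMap K A a) = V (algebraMap k A c) := by
        rw [hacpq, map_mul, map_mul, map_div₀, map_div₀, P2_aeval u z hz, P2_aeval u z hz,
          P2_one V u hu p hp, P2_one V u hu q hq, div_one, mul_one, ← IsScalarTower.algebraMap_apply]
      have hcO : c ∈ O1 k V := by
        rw [mem_O1, ← hVa]
        exact (mem_O1 V _).mp a.2
      obtain ⟨p1, hp1⟩ := P2_lift (O1 k V) p hp.1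
      obtain ⟨q1, hq1⟩ := P2_lift (O1 k V) q hq.1
      obtain ⟨hpm, hpres⟩ := P2_red V z P j hj h p1
      obtain ⟨hqm, hqres⟩ := P2_red V z P j hj h q1
      have hVq : V (algebraMap K A (MvPolynomial.aeval z q)) = 1 := by
        rw [P2_aeval u z hz]; exact P2_one V u hu q hq
      have hq0 : MvPolynomial.aeval z q ≠ 0 := by
        intro h0
        rw [h0, map_zero, map_zero] at hVq
        exact zero_ne_one hVq
      have hq0M : algebraMap K M (MvPolynomial.aeval z q) ≠ 0 := (map_ne_zero _).mpr hq0
      have hqi : (algebraMap K M (MvPolynomial.aeval z q))⁻¹ ∈ P := by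
        rw [← map_inv₀, hjK.mem, mem_O1, map_inv₀, map_inv₀, hVq, inv_one]
      rw [← hp1, ← hq1] at hacpq
      rw [← hq1] at hq0 hq0M hqi
      have hqne := P2_unit' P _ hqm hq0M hqi
      have hcP : algebraMap k M c ∈ P := (hj.mem c).2 hcO
      have haP : algebraMap K M (a : K) ∈ P := (hjK.mem a).2 a.2
      have hrel : (⟨algebraMap K M (a : K), haP⟩ : P) * ⟨_, hqm⟩ = ⟨algebraMap k M c, hcP⟩ * ⟨_, hpm⟩ := by
        apply Subtype.ext
        show algebraMap K M (a : K) * algebraMap K M _ = algebraMap k M c * algebraMap K M _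
        rw [IsScalarTower.algebraMap_apply k K M c, ← map_mul, ← map_mul]
        congr 1
        rw [hacpq]
        field_simp
      have hrel2 := congrArg (IsLocalRing.residue P) hrel
      rw [map_mul, map_mul] at hrel2
      have hval : IsLocalRing.residue P ⟨algebraMap K M (a : K), haP⟩ =
          j (IsLocalRing.residue (O1 k V) ⟨c, hcO⟩) *
            (MvPolynomial.aeval (fun i => IsLocalRing.residue P ⟨algebraMap K M (z i), h i⟩)
              (MvPolynomial.map (IsLocalRing.residue (O1 k V)) p1)) /
            (MvPolynomial.aeval (fun i => IsLocalRing.residue P ⟨algebraMap K M (z i), h i⟩)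
              (MvPolynomial.map (IsLocalRing.residue (O1 k V)) q1)) := by
        rw [eq_div_iff]
        · have e1 := hpres
          have e2 := hqres
          rw [hj.res ⟨c, hcO⟩]
          rw [e1, e2] at hrel2
          exact hrel2
        · intro h0
          apply hqne
          rw [hqres]
          exact h0
      rw [hval]
      have haev : ∀ r : MvPolynomial (Fin n) (IsLocalRing.ResidueField (O1 k V)),
          MvPolynomial.aeval (fun i => IsLocalRing.residue P ⟨algebraMap K M (z i), h i⟩) r ∈
            (IntermediateField.adjoin (IsLocalRing.ResidueField (O1 k V))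
              (Set.range fun i => IsLocalRing.residue P ⟨algebraMap K M (z i), h i⟩)).toSubfield := by
        intro r
        have h1 : MvPolynomial.aeval (fun i => IsLocalRing.residue P ⟨algebraMap K M (z i), h i⟩) r ∈
            Algebra.adjoin (IsLocalRing.ResidueField (O1 k V))
              (Set.range fun i => IsLocalRing.residue P ⟨algebraMap K M (z i), h i⟩) := by
          rw [Algebra.adjoin_range_eq_range_aeval]
          exact ⟨r, rfl⟩
        exact IntermediateField.algebra_adjoin_le_adjoin _ _ h1
      refine div_mem (mul_mem ?_ (haev _)) (haev _)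
      exact IntermediateField.algebraMap_mem _ (IsLocalRing.residue (O1 k V) ⟨c, hcO⟩)
    · have hle : Subfield.closure (Set.range (algebraMap (IsLocalRing.ResidueField (O1 k V))
          (IsLocalRing.ResidueField P)) ∪
          (Set.range fun i => IsLocalRing.residue P ⟨algebraMap K M (z i), h i⟩)) ≤ jK.fieldRange := by
        rw [Subfield.closure_le]
        rintro x (⟨y, rfl⟩ | ⟨i, rfl⟩)
        · obtain ⟨a, rfl⟩ := IsLocalRing.residue_surjective y
          have haK : algebraMap k K (a : k) ∈ O1 K V := by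
            rw [mem_O1, ← IsScalarTower.algebraMap_apply]
            exact (mem_O1 V _).mp a.2
          refine ⟨IsLocalRing.residue (O1 K V) ⟨algebraMap k K a, haK⟩, ?_⟩
          rw [hjK.res]
          show _ = j (IsLocalRing.residue (O1 k V) a)
          rw [hj.res]
          congr 1
          apply Subtype.ext
          exact (IsScalarTower.algebraMap_apply k K M (a : k)).symm
        · have hiK : z i ∈ O1 K V := (hjK.mem _).mp (h i)
          exact ⟨IsLocalRing.residue (O1 K V) ⟨z i, hiK⟩, hjK.res _⟩
      exact hle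
  rw [key]
  rfl

end MP2619.N
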