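import Pool.Agent.Lib.MP_2619d0_ag.N.P1
import Pool.Agent.Lib.MP_2619d0_ag.N.P2

/-!
Row 2619n-P3: THE END FORMULA (Theorem E of section 3 of /team-store/2619NP_paper_helper9.md), from P1 and P2.

For every `s` with `z_s = c_s x + y` algebraically independent over `k1` make `A` and `M1` algebras over
`K_s = FractionRing (MvPolynomial (Fin n) k1)` or `adjoin k1 (range z_s)`, by `z_s i ↦ u i`; `M1` is finite over `K_s`
(`fin_iff_ind` in R/A8), separable (characteristic zero). The embeddings `τ` with `τ z_s = u` are the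
`K_s`-embeddings. A good one (`V (τ x i) ≤ 1`) induces the valuation subring `P = τ⁻¹ V` of `M1`, which lies over `V` on
`k1` and on `K_s` and contains all `x i`, `y i`. The number of `τ` with the same `P` is
`e_P f_{P,s}` with `e_P = ord P (uniformizer of k1)` independent of `s`; it is zero (no such embedding) if the
residues of `z_s` are dependent. If `z_s` is algebraically dependent there is no embedding, and then the
residues are dependent at every `P`. So modulo two the sum is `∑_P e_P #{s : PrH}`.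
-/

set_option autoImplicit false

namespace MP2619.N

open scoped NNReal
open IntermediateField MP2619.R

section P3aux

/-- `P` over the valuation ring of `K` gives the embedding of residue fields -/
private theorem P3_lies {K M A : Type*} [Field K] [Field M] [Field A] [Algebra K M] [Algebra K A]
    (V : Valuation A ℝ≥0) (P : ValuationSubring M)
    (h : ∀ a : K, algebraMap K M a ∈ P ↔ a ∈ O1 K V) :
    ∃ j : IsLocalRing.ResidueField (O1 K V) →+* IsLocalRing.ResidueField P, Lies V P j := by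
  let φ : O1 K V →+* P :=
    { toFun := fun a => ⟨algebraMap K M a, (h a).2 a.2⟩
      map_one' := Subtype.ext (by simp)
      map_mul' := fun a b => Subtype.ext (by simp)
      map_zero' := Subtype.ext (by simp)
      map_add' := fun a b => Subtype.ext (by simp) }
  have hφ : IsLocalHom φ := by
    refine ⟨fun a ha => ?_⟩
    obtain ⟨b, hb⟩ := ha.exists_right_inv
    have h1 : algebraMap K M (a : K) * (b : M) = 1 := congrArg Subtype.val hb
    have ha0 : (a : K) ≠ 0 := by
      intro h0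
      rw [h0, map_zero, zero_mul] at h1
      exact zero_ne_one h1
    have h2 : (b : M) = algebraMap K M (a : K)⁻¹ := by
      rw [map_inv₀]
      exact eq_inv_of_mul_eq_one_right h1
    have h3 : (a : K)⁻¹ ∈ O1 K V := by
      rw [← h, ← h2]
      exact b.2
    refine IsUnit.of_mul_eq_one ⟨(a : K)⁻¹, h3⟩ ?_
    exact Subtype.ext (mul_inv_cancel₀ ha0)
  refine ⟨IsLocalRing.ResidueField.map φ, h, fun a => ?_⟩
  rfl

/-- independent residues lift to independent elements -/
private theorem P3_ind {k M A : Type*} [Field k] [Field M] [Field A] [Algebra k M] [Algebra k A]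
    (V : Valuation A ℝ≥0) (P : ValuationSubring M)
    (j : IsLocalRing.ResidueField (O1 k V) →+* IsLocalRing.ResidueField P) (hj : Lies V P j)
    {n : ℕ} (z : Fin n → M) (hz : ∀ i, z i ∈ P)
    (h : @AlgebraicIndependent (Fin n) (IsLocalRing.ResidueField (O1 k V))
      (IsLocalRing.ResidueField P) (fun i => IsLocalRing.residue P ⟨z i, hz i⟩) _ _ j.toAlgebra) :
    AlgebraicIndependent k z := by
  classical
  let _ := j.toAlgebra
  rw [algebraicIndependent_iff] at h ⊢
  intro p hp
  by_contra hp0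
  obtain ⟨m0, hm0, hmax⟩ := Finset.exists_max_image p.support
    (fun m => V (algebraMap k A (p.coeff m))) (MvPolynomial.support_nonempty.2 hp0)
  have hc0 : p.coeff m0 ≠ 0 := MvPolynomial.mem_support_iff.1 hm0
  have hV0 : V (algebraMap k A (p.coeff m0)) ≠ 0 := by
    rw [Valuation.ne_zero_iff]
    exact (map_ne_zero _).2 hc0
  have hmem : ∀ m, (p.coeff m0)⁻¹ * p.coeff m ∈ O1 k V := by
    intro m
    rw [mem_O1, map_mul, map_inv₀, map_mul, map_inv₀]
    by_cases hm : m ∈ p.support
    · have h1 := hmax m hm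
      have h2 : 0 < V (algebraMap k A (p.coeff m0)) := pos_iff_ne_zero.2 hV0
      rw [inv_mul_le_iff₀ h2, mul_one]
      exact h1
    · rw [MvPolynomial.notMem_support_iff.1 hm, map_zero, map_zero, mul_zero]
      exact zero_le_one
  let q : MvPolynomial (Fin n) (O1 k V) :=
    ∑ m ∈ p.support, MvPolynomial.monomial m ⟨(p.coeff m0)⁻¹ * p.coeff m, hmem m⟩
  have hq : MvPolynomial.map (O1 k V).subtype q = MvPolynomial.C (p.coeff m0)⁻¹ * p := by
    conv_rhs =>
      arg 2
      rw [MvPolynomial.as_sum p]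
    rw [Finset.mul_sum]
    rw [map_sum]
    refine Finset.sum_congr rfl fun m _ => ?_
    rw [MvPolynomial.map_monomial, MvPolynomial.C_mul_monomial]
    rfl
  let φ : O1 k V →+* P :=
    { toFun := fun a => ⟨algebraMap k M a, (hj.mem a).2 a.2⟩
      map_one' := Subtype.ext (by simp)
      map_mul' := fun a b => Subtype.ext (by simp)
      map_zero' := Subtype.ext (by simp)
      map_add' := fun a b => Subtype.ext (by simp) }
  have h1 : MvPolynomial.eval₂ φ (fun i => (⟨z i, hz i⟩ : P)) q = 0 := by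
    apply Subtype.ext
    have h2 : ((MvPolynomial.eval₂ φ (fun i => (⟨z i, hz i⟩ : P)) q : P) : M) =
        MvPolynomial.eval₂ (P.subtype.comp φ) z q := by
      have := MvPolynomial.hom_eval₂ q φ P.subtype (fun i => (⟨z i, hz i⟩ : P))
      exact this
    have h3 : MvPolynomial.eval₂ (P.subtype.comp φ) z q =
        MvPolynomial.aeval z (MvPolynomial.map (O1 k V).subtype q) := by
      rw [MvPolynomial.aeval_def, MvPolynomial.eval₂_map]
      rfl
    rw [h2, h3, hq, map_mul, hp, mul_zero]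
    rfl
  have h4 : MvPolynomial.aeval (fun i => IsLocalRing.residue P ⟨z i, hz i⟩)
      (MvPolynomial.map (IsLocalRing.residue (O1 k V)) q) = 0 := by
    have h5 := MvPolynomial.hom_eval₂ q φ (IsLocalRing.residue P) (fun i => (⟨z i, hz i⟩ : P))
    rw [h1, map_zero] at h5
    rw [MvPolynomial.aeval_def, MvPolynomial.eval₂_map]
    have h6 : (algebraMap (IsLocalRing.ResidueField (O1 k V)) (IsLocalRing.ResidueField P)).comp
        (IsLocalRing.residue (O1 k V)) = (IsLocalRing.residue P).comp φ := by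
      ext a
      exact hj.res a
    rw [h6]
    exact h5.symm
  have h5 := h _ h4
  have h6 : (MvPolynomial.map (IsLocalRing.residue (O1 k V)) q).coeff m0 = 1 := by
    rw [MvPolynomial.coeff_map]
    have h7 : q.coeff m0 = 1 := by
      rw [MvPolynomial.coeff_sum, Finset.sum_eq_single m0]
      · rw [MvPolynomial.coeff_monomial, if_pos rfl]
        exact Subtype.ext (inv_mul_cancel₀ hc0)
      · intro m _ hm
        rw [MvPolynomial.coeff_monomial, if_neg hm]
      · intro hm
        exact absurd hm0 hm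
    rw [h7, map_one]
  rw [h5, MvPolynomial.coeff_zero] at h6
  exact zero_ne_one h6

/-- a Gauss family is algebraically independent -/
private theorem P3_u {k A : Type*} [Field k] [Field A] [Algebra k A] (V : Valuation A ℝ≥0)
    {n : ℕ} (u : Fin n → A) (hu : IsGauss k V u) : AlgebraicIndependent k u := by
  rw [algebraicIndependent_iff]
  intro p hp
  by_contra hp0
  obtain ⟨m0, hm0⟩ := MvPolynomial.support_nonempty.2 hp0
  have h1 := hu p
  rw [hp, map_zero] at h1
  have h2 : V (algebraMap k A (p.coeff m0)) ≤ 0 := by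
    rw [h1]
    exact Finset.le_sup (f := fun m => V (algebraMap k A (p.coeff m))) hm0
  have h3 : V (algebraMap k A (p.coeff m0)) = 0 := nonpos_iff_eq_zero.1 h2
  rw [Valuation.zero_iff, map_eq_zero] at h3
  exact MvPolynomial.mem_support_iff.1 hm0 h3

private theorem P3_u_le {k A : Type*} [Field k] [Field A] [Algebra k A] (V : Valuation A ℝ≥0)
    {n : ℕ} (u : Fin n → A) (hu : IsGauss k V u) (i : Fin n) : V (u i) ≤ 1 := by
  have h1 := hu (MvPolynomial.X i)
  rw [MvPolynomial.aeval_X] at h1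
  rw [h1]
  refine Finset.sup_le fun m _ => ?_
  rw [MvPolynomial.coeff_X]
  split_ifs
  · simp
  · simp

variable {k1 M1 A : Type*} [Field k1] [Field M1] [Field A] [Algebra k1 M1] [Algebra k1 A]

/-- the embedding of `k1(z)` -/
private theorem P3_emb {n : ℕ} (z : Fin n → M1) (u : Fin n → A) (hz : AlgebraicIndependent k1 z)
    (hu : AlgebraicIndependent k1 u) :
    ∃ ι : adjoin k1 (Set.range z) →ₐ[k1] A,
      ∀ i, ι ⟨z i, subset_adjoin _ _ ⟨i, rfl⟩⟩ = u i := by
  refine ⟨(adjoin k1 (Set.range u)).val.comp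
    (hu.aevalEquivField.toAlgHom.comp hz.aevalEquivField.symm.toAlgHom), fun i => ?_⟩
  have h1 : hz.aevalEquivField (algebraMap (MvPolynomial (Fin n) k1)
      (FractionRing (MvPolynomial (Fin n) k1)) (MvPolynomial.X i)) =
      ⟨z i, subset_adjoin _ _ ⟨i, rfl⟩⟩ := by
    apply Subtype.ext
    rw [hz.aevalEquivField_algebraMap_apply_coe, MvPolynomial.aeval_X]
  have h2 : hz.aevalEquivField.symm ⟨z i, subset_adjoin _ _ ⟨i, rfl⟩⟩ =
      algebraMap (MvPolynomial (Fin n) k1)
        (FractionRing (MvPolynomial (Fin n) k1)) (MvPolynomial.X i) := by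
    rw [← h1, AlgEquiv.symm_apply_apply]
  show ((hu.aevalEquivField (hz.aevalEquivField.symm ⟨z i, subset_adjoin _ _ ⟨i, rfl⟩⟩) :
    adjoin k1 (Set.range u)) : A) = u i
  rw [h2, hu.aevalEquivField_algebraMap_apply_coe, MvPolynomial.aeval_X]

/-- extensions of the embedding of `k1(z)` -/
private theorem P3_ext {n : ℕ} (z : Fin n → M1) (u : Fin n → A)
    (ι : adjoin k1 (Set.range z) →ₐ[k1] A)
    (hι : ∀ i, ι ⟨z i, subset_adjoin _ _ ⟨i, rfl⟩⟩ = u i) (τ : M1 →ₐ[k1] A)
    (hτ : ∀ i, τ (z i) = u i) (a : adjoin k1 (Set.range z)) : τ a = ι a := by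
  have h : τ.comp (adjoin k1 (Set.range z)).val = ι := by
    refine adjoin_algHom_ext k1 ?_
    rintro _ ⟨i, rfl⟩
    rw [hι i]
    exact hτ i
  exact DFunLike.congr_fun h a

/-- the set of embeddings is finite -/
private theorem P3_fin {n : ℕ} (z : Fin n → M1) (u : Fin n → A) (hu : AlgebraicIndependent k1 u)
    (hfg : ∃ z0 : Fin n → M1, AlgebraicIndependent k1 z0 ∧
      Module.finrank (adjoin k1 (Set.range z0)) M1 ≠ 0) :
    Finite {τ : M1 →ₐ[k1] A // ∀ i, τ (z i) = u i} := by
  by_cases hz : AlgebraicIndependent k1 z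
  · obtain ⟨z0, hz0, hf⟩ := hfg
    have hf1 := (fin_iff_ind z0 z hz0 hf).1 hz
    have hfd : FiniteDimensional (adjoin k1 (Set.range z)) M1 :=
      Module.finite_of_finrank_pos (Nat.pos_of_ne_zero hf1)
    obtain ⟨ι, hι⟩ := P3_emb z u hz hu
    letI : Algebra (adjoin k1 (Set.range z)) A := ι.toRingHom.toAlgebra
    let f : {τ : M1 →ₐ[k1] A // ∀ i, τ (z i) = u i} → (M1 →ₐ[adjoin k1 (Set.range z)] A) :=
      fun τ => { τ.1.toRingHom with commutes' := fun a => P3_ext z u ι hι τ.1 τ.2 a }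
    refine Finite.of_injective f fun τ τ' h => ?_
    apply Subtype.ext
    ext m
    exact DFunLike.congr_fun h m
  · have : IsEmpty {τ : M1 →ₐ[k1] A // ∀ i, τ (z i) = u i} := by
      refine ⟨fun τ => hz ?_⟩
      have h1 : AlgebraicIndependent k1 (τ.1 ∘ z) := by
        have : τ.1 ∘ z = u := funext τ.2
        rw [this]
        exact hu
      exact h1.of_comp τ.1
    infer_instance

/-- the number of embeddings with a given valuation ring -/
private theorem P3_case [CharZero k1] [IsAlgClosed A] (V : Valuation A ℝ≥0) {n : ℕ} (u : Fin n → A)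
    (hu : IsGauss k1 V u) (ϖ : k1) (hϖ : IsUf (O1 k1 V) ϖ)
    (hfg : ∃ z0 : Fin n → M1, AlgebraicIndependent k1 z0 ∧
      Module.finrank (adjoin k1 (Set.range z0)) M1 ≠ 0)
    (z : Fin n → M1) (P : ValuationSubring M1)
    (j : IsLocalRing.ResidueField (O1 k1 V) →+* IsLocalRing.ResidueField P) (hj : Lies V P j)
    (hz : ∀ i, z i ∈ P) :
    (¬ PrH j (fun i => IsLocalRing.residue P ⟨z i, hz i⟩) →
      Even (Nat.card {τ : M1 →ₐ[k1] A // (∀ i, τ (z i) = u i) ∧ ∀ m, V (τ m) ≤ 1 ↔ m ∈ P})) ∧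
    (PrH j (fun i => IsLocalRing.residue P ⟨z i, hz i⟩) →
      (Even (Nat.card {τ : M1 →ₐ[k1] A // (∀ i, τ (z i) = u i) ∧ ∀ m, V (τ m) ≤ 1 ↔ m ∈ P}) ↔
        Even (ord P (algebraMap k1 M1 ϖ)).toNat)) := by
  have huI := P3_u V u hu
  by_cases hres : @AlgebraicIndependent (Fin n) (IsLocalRing.ResidueField (O1 k1 V))
      (IsLocalRing.ResidueField P) (fun i => IsLocalRing.residue P ⟨z i, hz i⟩) _ _ j.toAlgebra
  · have hind := P3_ind V P j hj z hz hres
    obtain ⟨z0, hz0, hf⟩ := hfg
    have hf1 := (fin_iff_ind z0 z hz0 hf).1 hind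
    have hfd : FiniteDimensional (adjoin k1 (Set.range z)) M1 :=
      Module.finite_of_finrank_pos (Nat.pos_of_ne_zero hf1)
    obtain ⟨ι, hι⟩ := P3_emb z u hind huI
    letI : Algebra (adjoin k1 (Set.range z)) A := ι.toRingHom.toAlgebra
    haveI : IsScalarTower k1 (adjoin k1 (Set.range z)) A :=
      IsScalarTower.of_algebraMap_eq fun a => (ι.commutes a).symm
    haveI : CharZero (adjoin k1 (Set.range z)) := charZero_of_injective_algebraMap
      (algebraMap k1 (adjoin k1 (Set.range z))).injective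
    set z' : Fin n → adjoin k1 (Set.range z) := fun i => ⟨z i, subset_adjoin _ _ ⟨i, rfl⟩⟩ with hz'
    have hK : adjoin k1 (Set.range z') = ⊤ := by
      apply lift_injective (adjoin k1 (Set.range z))
      rw [lift_adjoin, lift_top, ← Set.range_comp]
      rfl
    have hmem := (gauss_lies V u hu z' hι hK P j hj).2 ⟨hz, hres⟩
    obtain ⟨jK, hjK⟩ := P3_lies V P hmem
    have huf := gauss_uf V u hu z' hι hK ϖ hϖ
    have hcount := (place_count (M := M1) V _ huf P jK hjK).2
    have hfr := gauss_res V u hu z' hι hK P j hj jK hjK hz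
    have hcard : Nat.card {τ : M1 →ₐ[k1] A // (∀ i, τ (z i) = u i) ∧ ∀ m, V (τ m) ≤ 1 ↔ m ∈ P} =
        Nat.card {τ : M1 →ₐ[adjoin k1 (Set.range z)] A // ∀ m : M1, V (τ m) ≤ 1 ↔ m ∈ P} := by
      refine Nat.card_congr
        { toFun := fun τ => ⟨{ τ.1.toRingHom with
            commutes' := fun a => P3_ext z u ι hι τ.1 τ.2.1 a }, τ.2.2⟩
          invFun := fun τ => ⟨τ.1.restrictScalars k1, fun i => ?_, τ.2⟩
          left_inv := fun τ => ?_
          right_inv := fun τ => ?_ }
      · have h1 := τ.1.commutes (z' i)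
        have h2 : algebraMap (adjoin k1 (Set.range z)) A (z' i) = u i := hι i
        rw [h2] at h1
        exact h1
      · apply Subtype.ext
        ext m
        rfl
      · apply Subtype.ext
        ext m
        rfl
    have hmap : algebraMap (adjoin k1 (Set.range z)) M1 (algebraMap k1 (adjoin k1 (Set.range z)) ϖ) =
        algebraMap k1 M1 ϖ := rfl
    rw [hcard, hcount, hfr, hmap]
    constructor
    · intro hPr
      rw [Nat.even_mul]
      right
      by_contra hodd
      rw [Nat.not_even_iff_odd] at hodd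
      exact hPr ⟨hres, hodd⟩
    · intro hPr
      rw [Nat.even_mul]
      have hodd : Odd _ := hPr.2
      rw [← Nat.not_even_iff_odd] at hodd
      constructor
      · rintro (h | h)
        · exact h
        · exact absurd h hodd
      · intro h
        exact Or.inl h
  · have hempty : IsEmpty {τ : M1 →ₐ[k1] A // (∀ i, τ (z i) = u i) ∧ ∀ m, V (τ m) ≤ 1 ↔ m ∈ P} := by
      refine ⟨fun τ => hres ?_⟩
      obtain ⟨τ, hτ, hτP⟩ := τ
      have hind : AlgebraicIndependent k1 z := by
        have h1 : AlgebraicIndependent k1 (τ ∘ z) := by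
          have : τ ∘ z = u := funext hτ
          rw [this]
          exact huI
        exact h1.of_comp τ
      obtain ⟨ι, hι⟩ := P3_emb z u hind huI
      letI : Algebra (adjoin k1 (Set.range z)) A := ι.toRingHom.toAlgebra
      haveI : IsScalarTower k1 (adjoin k1 (Set.range z)) A :=
        IsScalarTower.of_algebraMap_eq fun a => (ι.commutes a).symm
      set z' : Fin n → adjoin k1 (Set.range z) := fun i => ⟨z i, subset_adjoin _ _ ⟨i, rfl⟩⟩ with hz'
      have hK : adjoin k1 (Set.range z') = ⊤ := by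
        apply lift_injective (adjoin k1 (Set.range z))
        rw [lift_adjoin, lift_top, ← Set.range_comp]
        rfl
      have hmem : ∀ a : adjoin k1 (Set.range z),
          algebraMap (adjoin k1 (Set.range z)) M1 a ∈ P ↔ a ∈ O1 (adjoin k1 (Set.range z)) V := by
        intro a
        rw [← hτP, mem_O1]
        have h1 : τ (algebraMap (adjoin k1 (Set.range z)) M1 a) = ι a := P3_ext z u ι hι τ hτ a
        rw [h1]
        exact Iff.rfl
      obtain ⟨_, h2⟩ := (gauss_lies V u hu z' hι hK P j hj).1 hmem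
      exact h2
    constructor
    · intro _
      rw [Nat.card_of_isEmpty]
      exact Even.zero
    · intro hPr
      exact absurd hPr.1 hres

end P3aux

theorem end_formula {k1 M1 A : Type*} [Field k1] [Field M1] [Field A] [CharZero k1] [Algebra k1 M1]
    [Algebra k1 A] [IsAlgClosed A] (V : Valuation A ℝ≥0) {n : ℕ} (u : Fin n → A)
    (hu : IsGauss k1 V u) (hdv : DV (O1 k1 V))
    (hfg : ∃ z0 : Fin n → M1, AlgebraicIndependent k1 z0 ∧
      Module.finrank (adjoin k1 (Set.range z0)) M1 ≠ 0)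
    {ι : Type*} [Fintype ι] (c : ι → Fin n → k1) (hc : ∀ s i, c s i ∈ O1 k1 V)
    (x y : Fin n → M1)
    (hpar : ∀ (P : ValuationSubring M1)
      (j : IsLocalRing.ResidueField (O1 k1 V) →+* IsLocalRing.ResidueField P), Lies V P j →
      ∀ (hx : ∀ i, x i ∈ P) (hy : ∀ i, y i ∈ P),
      Even (Nat.card {s : ι // PrH j (fun i => j (IsLocalRing.residue (O1 k1 V) ⟨c s i, hc s i⟩) *
        IsLocalRing.residue P ⟨x i, hx i⟩ + IsLocalRing.residue P ⟨y i, hy i⟩)})) :
    Even (∑ s, Nat.card {τ : M1 →ₐ[k1] A //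
      (∀ i, τ (algebraMap k1 M1 (c s i) * x i + y i) = u i) ∧ ∀ i, V (τ (x i)) ≤ 1}) := by
  classical
  obtain ⟨ϖ, hϖ⟩ := hdv
  have huI := P3_u V u hu
  set z : ι → Fin n → M1 := fun s i => algebraMap k1 M1 (c s i) * x i + y i with hz
  have hfin : ∀ s, Finite {τ : M1 →ₐ[k1] A // (∀ i, τ (z s i) = u i) ∧ ∀ i, V (τ (x i)) ≤ 1} := by
    intro s
    have := P3_fin (z s) u huI hfg
    exact Finite.of_injective
      (fun τ : {τ : M1 →ₐ[k1] A // (∀ i, τ (z s i) = u i) ∧ ∀ i, V (τ (x i)) ≤ 1} =>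
        (⟨τ.1, τ.2.1⟩ : {τ : M1 →ₐ[k1] A // ∀ i, τ (z s i) = u i}))
      fun τ τ' h => Subtype.ext (by
        have h1 := congrArg Subtype.val h
        exact h1)
  -- the valuation rings
  let R : (M1 →ₐ[k1] A) → ValuationSubring M1 := fun τ => (V.comap τ.toRingHom).valuationSubring
  have hR : ∀ (τ : M1 →ₐ[k1] A) (m : M1), m ∈ R τ ↔ V (τ m) ≤ 1 := fun τ m => Iff.rfl
  have hRP : ∀ (τ : M1 →ₐ[k1] A) (P : ValuationSubring M1),
      R τ = P ↔ ∀ m, V (τ m) ≤ 1 ↔ m ∈ P := by
    intro τ P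
    constructor
    · rintro rfl m
      exact (hR τ m).symm
    · intro h
      ext m
      rw [hR]
      exact h m
  let S : Set (ValuationSubring M1) := {P | ∃ s, ∃ τ : M1 →ₐ[k1] A,
    (∀ i, τ (z s i) = u i) ∧ (∀ i, V (τ (x i)) ≤ 1) ∧ R τ = P}
  have hSfin : S.Finite := by
    have h1 : S = ⋃ s, Set.range fun τ : {τ : M1 →ₐ[k1] A // (∀ i, τ (z s i) = u i) ∧
        ∀ i, V (τ (x i)) ≤ 1} => R τ.1 := by
      ext P
      simp only [S, Set.mem_ofPred_eq, Set.mem_iUnion, Set.mem_range, Subtype.exists, exists_prop,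
        and_assoc]
    rw [h1]
    exact Set.finite_iUnion fun s => Set.finite_range _
  have hSx : ∀ P ∈ S, (∀ i, x i ∈ P) ∧ (∀ i, y i ∈ P) ∧
      ∀ a : k1, algebraMap k1 M1 a ∈ P ↔ a ∈ O1 k1 V := by
    rintro P ⟨s, τ, h1, h2, rfl⟩
    have hk : ∀ a : k1, algebraMap k1 M1 a ∈ R τ ↔ a ∈ O1 k1 V := by
      intro a
      rw [hR, AlgHom.commutes, mem_O1]
    have hx : ∀ i, x i ∈ R τ := fun i => (hR τ _).2 (h2 i)
    refine ⟨hx, fun i => ?_, hk⟩
    have h3 : z s i ∈ R τ := by
      rw [hR, h1 i]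
      exact P3_u_le V u hu i
    have h4 : algebraMap k1 M1 (c s i) ∈ R τ := (hk _).2 (hc s i)
    have h5 : y i = z s i - algebraMap k1 M1 (c s i) * x i := by
      rw [hz]
      ring
    rw [h5]
    exact sub_mem h3 (mul_mem h4 (hx i))
  have hsum : ∀ s, Nat.card {τ : M1 →ₐ[k1] A // (∀ i, τ (z s i) = u i) ∧ ∀ i, V (τ (x i)) ≤ 1} =
      ∑ P ∈ hSfin.toFinset, Nat.card {τ : M1 →ₐ[k1] A // (∀ i, τ (z s i) = u i) ∧
        ∀ m, V (τ m) ≤ 1 ↔ m ∈ P} := by
    intro s
    have hf := hfin s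
    let g : {τ : M1 →ₐ[k1] A // (∀ i, τ (z s i) = u i) ∧ ∀ i, V (τ (x i)) ≤ 1} →
        {P // P ∈ hSfin.toFinset} := fun τ =>
      ⟨R τ.1, hSfin.mem_toFinset.2 ⟨s, τ.1, τ.2.1, τ.2.2, rfl⟩⟩
    have h1 : Nat.card {τ : M1 →ₐ[k1] A // (∀ i, τ (z s i) = u i) ∧ ∀ i, V (τ (x i)) ≤ 1} =
        ∑ P : {P // P ∈ hSfin.toFinset}, Nat.card {τ // g τ = P} := by
      rw [← Nat.card_congr (Equiv.sigmaFiberEquiv g), Nat.card_sigma]
    rw [h1, ← Finset.sum_coe_sort hSfin.toFinset (fun P => Nat.card {τ : M1 →ₐ[k1] A //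
      (∀ i, τ (z s i) = u i) ∧ ∀ m, V (τ m) ≤ 1 ↔ m ∈ P})]
    refine Finset.sum_congr rfl fun P _ => ?_
    have hP := hSx P.1 (hSfin.mem_toFinset.1 P.2)
    refine Nat.card_congr
      { toFun := fun τ => ⟨τ.1.1, τ.1.2.1, (hRP τ.1.1 P.1).1 (congrArg Subtype.val τ.2)⟩
        invFun := fun τ => ⟨⟨τ.1, τ.2.1, fun i => (τ.2.2 (x i)).2 (hP.1 i)⟩,
          Subtype.ext ((hRP τ.1 P.1).2 τ.2.2)⟩
        left_inv := fun τ => rfl
        right_inv := fun τ => rfl }
  have hgoal : (∑ s, Nat.card {τ : M1 →ₐ[k1] A //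
      (∀ i, τ (algebraMap k1 M1 (c s i) * x i + y i) = u i) ∧ ∀ i, V (τ (x i)) ≤ 1}) =
      ∑ P ∈ hSfin.toFinset, ∑ s, Nat.card {τ : M1 →ₐ[k1] A // (∀ i, τ (z s i) = u i) ∧
        ∀ m, V (τ m) ≤ 1 ↔ m ∈ P} := by
    rw [Finset.sum_comm]
    exact Finset.sum_congr rfl fun s _ => hsum s
  rw [hgoal]
  refine Finset.even_sum _ fun P hP => ?_
  obtain ⟨hx, hy, hk⟩ := hSx P (hSfin.mem_toFinset.1 hP)
  obtain ⟨j, hj⟩ := P3_lies V P hk
  have hzP : ∀ s i, z s i ∈ P := fun s i =>
    add_mem (mul_mem ((hk _).2 (hc s i)) (hx i)) (hy i)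
  have hres : ∀ s, (fun i => IsLocalRing.residue P ⟨z s i, hzP s i⟩) =
      fun i => j (IsLocalRing.residue (O1 k1 V) ⟨c s i, hc s i⟩) *
        IsLocalRing.residue P ⟨x i, hx i⟩ + IsLocalRing.residue P ⟨y i, hy i⟩ := by
    intro s
    funext i
    rw [hj.res, ← map_mul, ← map_add]
    rfl
  have hev := hpar P j hj hx hy
  have hcase := fun s => P3_case V u hu ϖ hϖ hfg (z s) P j hj (hzP s)
  set T : Finset ι := Finset.univ.filter fun s =>
    PrH j (fun i => IsLocalRing.residue P ⟨z s i, hzP s i⟩) with hT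
  have hTcard : Even T.card := by
    have h1 : Nat.card {s : ι // PrH j (fun i => j (IsLocalRing.residue (O1 k1 V) ⟨c s i, hc s i⟩) *
        IsLocalRing.residue P ⟨x i, hx i⟩ + IsLocalRing.residue P ⟨y i, hy i⟩)} = T.card := by
      rw [Nat.card_eq_fintype_card, Fintype.card_subtype, hT]
      congr 1
      ext s
      simp only [Finset.mem_filter, hres s]
    rw [← h1]
    exact hev
  rw [← Finset.sum_filter_add_sum_filter_not Finset.univ
    (fun s => PrH j (fun i => IsLocalRing.residue P ⟨z s i, hzP s i⟩))]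
  refine Even.add ?_ ?_
  · by_cases he : Even (ord P (algebraMap k1 M1 ϖ)).toNat
    · refine Finset.even_sum _ fun s hs => ?_
      exact ((hcase s).2 (Finset.mem_filter.1 hs).2).2 he
    · have hodd : ∀ s ∈ T, Odd (Nat.card {τ : M1 →ₐ[k1] A // (∀ i, τ (z s i) = u i) ∧
          ∀ m, V (τ m) ≤ 1 ↔ m ∈ P}) := by
        intro s hs
        rw [← Nat.not_even_iff_odd]
        intro h
        exact he (((hcase s).2 (Finset.mem_filter.1 hs).2).1 h)
      rw [← hT]
      rw [← Nat.not_odd_iff_even, Finset.odd_sum_iff_odd_card_odd, Nat.not_odd_iff_even]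
      rw [Finset.filter_true_of_mem hodd]
      exact hTcard
  · refine Finset.even_sum _ fun s hs => ?_
    exact (hcase s).1 (Finset.mem_filter.1 hs).2

end MP2619.N
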