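import Pool.Agent.Lib.MP_2619d0_ag.N.A3
import Pool.Agent.Lib.MP_2619d0_ag.N.A6
import Pool.Agent.Lib.MP_2619d0_ag.N.P3
/-!
Row 2619n-A9: the relations at the two ends, from `end_formula` and the theorems in characteristic two, which are
hypotheses here (`hstar`, `hr1`, `hsc`: the theorems `starc`, `r1c`, `scc` of helper12).

The residues of `x`, `y` at a place `P` of `M1` satisfy `∑ x_i³ (+ ḡ x_a x_b x_c) = 0`: reduce the equations `Fk(x) = 0`.
The coefficients of `Fk` are `δ_d + 2 z_d`; the residues are `δ_d`, except for `d0` with weight two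
(`norm_coeff`).
-/

set_option autoImplicit false

namespace MP2619.N

open scoped NNReal
open IntermediateField MP2619.R Pool.Agent.Lib.MP_2619d0_ag Pool.Agent.Lib.MP_2619d0_ag.T

section A9aux

variable {k M A : Type*} [Field k] [Field M] [Field A] [Algebra k M] [Algebra k A]
  (V : Valuation A ℝ≥0) (P : ValuationSubring M)
  (j : IsLocalRing.ResidueField (O1 k V) →+* IsLocalRing.ResidueField P)

private theorem A9_lt (hj : Lies V P j) (a : k) (ha : V (algebraMap k A a) < 1) :
    P.valuation (algebraMap k M a) < 1 := by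
  have h1 : algebraMap k M a ∈ P := (hj.mem a).2 ((mem_O1 V a).2 ha.le)
  have h2 := (P.valuation_le_one_iff _).2 h1
  refine lt_of_le_of_ne h2 fun h3 => ?_
  have ha0 : a ≠ 0 := by
    rintro rfl
    rw [map_zero, map_zero] at h3
    exact zero_ne_one h3
  have h4 : algebraMap k M a⁻¹ ∈ P := by
    rw [← P.valuation_le_one_iff, map_inv₀, map_inv₀, h3, inv_one]
  have h5 := (mem_O1 V _).1 ((hj.mem a⁻¹).1 h4)
  rw [map_inv₀, map_inv₀] at h5
  have h6 : 0 < V (algebraMap k A a) := by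
    rw [pos_iff_ne_zero, Valuation.ne_zero_iff]
    exact (map_ne_zero _).2 ha0
  have h7 := (inv_le_one₀ h6).1 h5
  exact absurd ha (not_lt.2 h7)

private theorem A9_sum (hj : Lies V P j) {n : ℕ} (x : Fin n → M) (hx : ∀ i, x i ∈ P)
    (H : MvPolynomial (Fin n) k) (hH : ∀ d, V (algebraMap k A (H.coeff d)) < 1) :
    P.valuation (MvPolynomial.aeval x H) < 1 := by
  rw [MvPolynomial.aeval_def, MvPolynomial.eval₂_eq]
  refine Valuation.map_sum_lt _ one_ne_zero fun d _ => ?_
  have h1 : (∏ i ∈ d.support, x i ^ d i) ∈ P := prod_mem fun i _ => pow_mem (hx i) _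
  rw [map_mul]
  calc P.valuation (algebraMap k M (H.coeff d)) * P.valuation (∏ i ∈ d.support, x i ^ d i)
      ≤ P.valuation (algebraMap k M (H.coeff d)) * 1 :=
        mul_le_mul_right ((P.valuation_le_one_iff _).2 h1) _
    _ < 1 := by
        rw [mul_one]
        exact A9_lt V P j hj _ (hH d)

/-- reduction of an equation -/
private theorem A9_red (hj : Lies V P j) {n : ℕ} (x : Fin n → M) (hx : ∀ i, x i ∈ P)
    (Fk : MvPolynomial (Fin n) k) (hF : MvPolynomial.aeval x Fk = 0) (g : O1 k V)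
    (a b c : Fin n)
    (hH : ∀ d, V (algebraMap k A ((Fk - (∑ i, MvPolynomial.X i ^ 3 + MvPolynomial.C (g : k) *
      (MvPolynomial.X a * MvPolynomial.X b * MvPolynomial.X c))).coeff d)) < 1) :
    ∑ i, IsLocalRing.residue P ⟨x i, hx i⟩ ^ 3 + j (IsLocalRing.residue (O1 k V) g) *
      (IsLocalRing.residue P ⟨x a, hx a⟩ * IsLocalRing.residue P ⟨x b, hx b⟩ *
        IsLocalRing.residue P ⟨x c, hx c⟩) = 0 := by
  have h1 := A9_sum V P j hj x hx _ hH
  rw [map_sub, hF, zero_sub, Valuation.map_neg] at h1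
  rw [hj.res g]
  have h2 : ∑ i, IsLocalRing.residue P ⟨x i, hx i⟩ ^ 3 + IsLocalRing.residue P
      ⟨algebraMap k M g, (hj.mem g).2 g.2⟩ *
      (IsLocalRing.residue P ⟨x a, hx a⟩ * IsLocalRing.residue P ⟨x b, hx b⟩ *
        IsLocalRing.residue P ⟨x c, hx c⟩) =
      IsLocalRing.residue P (∑ i, (⟨x i, hx i⟩ : P) ^ 3 +
        (⟨algebraMap k M g, (hj.mem g).2 g.2⟩ : P) *
        ((⟨x a, hx a⟩ : P) * (⟨x b, hx b⟩ : P) * (⟨x c, hx c⟩ : P))) := by
    simp only [map_add, map_sum, map_mul, map_pow]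
  rw [h2, IsLocalRing.residue_eq_zero_iff, ValuationSubring.valuation_lt_one_iff]
  have h3 : ((∑ i, (⟨x i, hx i⟩ : P) ^ 3 + (⟨algebraMap k M g, (hj.mem g).2 g.2⟩ : P) *
        ((⟨x a, hx a⟩ : P) * (⟨x b, hx b⟩ : P) * (⟨x c, hx c⟩ : P)) : P) : M) =
      MvPolynomial.aeval x (∑ i, MvPolynomial.X i ^ 3 + MvPolynomial.C (g : k) *
      (MvPolynomial.X a * MvPolynomial.X b * MvPolynomial.X c)) := by
    simp [MvPolynomial.aeval_def]
  rw [h3]
  exact h1

/-- reduction of an equation, without the term of weight two -/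
private theorem A9_red0 (hj : Lies V P j) {n : ℕ} (x : Fin n → M) (hx : ∀ i, x i ∈ P)
    (Fk : MvPolynomial (Fin n) k) (hF : MvPolynomial.aeval x Fk = 0)
    (hH : ∀ d, V (algebraMap k A ((Fk - ∑ i, MvPolynomial.X i ^ 3).coeff d)) < 1) :
    ∑ i, IsLocalRing.residue P ⟨x i, hx i⟩ ^ 3 = 0 := by
  have h1 := A9_sum V P j hj x hx _ hH
  rw [map_sub, hF, zero_sub, Valuation.map_neg] at h1
  have h2 : ∑ i, IsLocalRing.residue P ⟨x i, hx i⟩ ^ 3 =
      IsLocalRing.residue P (∑ i, (⟨x i, hx i⟩ : P) ^ 3) := by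
    simp only [map_sum, map_pow]
  rw [h2, IsLocalRing.residue_eq_zero_iff, ValuationSubring.valuation_lt_one_iff]
  have h3 : ((∑ i, (⟨x i, hx i⟩ : P) ^ 3 : P) : M) =
      MvPolynomial.aeval x (∑ i, MvPolynomial.X i ^ 3 : MvPolynomial (Fin n) k) := by
    simp [MvPolynomial.aeval_def]
  rw [h3]
  exact h1


private theorem A9_cubes {n : ℕ} (d : Fin n →₀ ℕ) :
    (∑ i, MvPolynomial.X i ^ 3 : MvPolynomial (Fin n) k).coeff d =
      if ∃ i, d = Finsupp.single i 3 then 1 else 0 := by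
  rw [MvPolynomial.coeff_sum]
  split_ifs with h
  · obtain ⟨i, rfl⟩ := h
    rw [Finset.sum_eq_single i]
    · rw [MvPolynomial.coeff_X_pow, if_pos rfl]
    · intro l _ hl
      rw [MvPolynomial.coeff_X_pow, if_neg]
      intro h1
      exact hl ((Finsupp.single_left_inj (by norm_num)).1 h1)
    · intro hi
      exact absurd (Finset.mem_univ i) hi
  · refine Finset.sum_eq_zero fun i _ => ?_
    rw [MvPolynomial.coeff_X_pow, if_neg]
    intro h1
    exact h ⟨i, h1.symm⟩

private theorem A9_abc {n : ℕ} (a b c : Fin n) (d : Fin n →₀ ℕ) (g : k) :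
    (MvPolynomial.C g * (MvPolynomial.X a * MvPolynomial.X b * MvPolynomial.X c) :
      MvPolynomial (Fin n) k).coeff d = if e3 a b c = d then g else 0 := by
  have h1 : (MvPolynomial.X a * MvPolynomial.X b * MvPolynomial.X c : MvPolynomial (Fin n) k) =
      MvPolynomial.monomial (e3 a b c) 1 := by
    unfold e3 MvPolynomial.X
    rw [MvPolynomial.monomial_mul, MvPolynomial.monomial_mul, one_mul, one_mul]
  rw [h1, MvPolynomial.C_mul_monomial, mul_one, MvPolynomial.coeff_monomial]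

private theorem A9_w3 {k : Type*} [Field k] {w : k} (hw : w ^ 2 + w + 1 = 0) : w ^ 3 = 1 := by
  linear_combination (w - 1) * hw

private theorem A9_wO (w : k) (hw : w ^ 2 + w + 1 = 0) : w ∈ O1 k V := by
  rw [mem_O1]
  have h1 : V (algebraMap k A w) ^ 3 = 1 := by
    rw [← map_pow, ← map_pow, A9_w3 hw, map_one, map_one]
  exact ((pow_eq_one_iff_of_nonneg zero_le (by norm_num)).1 h1).le


private theorem A9_res0 (a : O1 k V) (ha : V (algebraMap k A (a : k)) < 1) :
    IsLocalRing.residue (O1 k V) a = 0 := by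
  rw [IsLocalRing.residue_eq_zero_iff, IsLocalRing.mem_maximalIdeal, mem_nonunits_iff]
  intro hu
  obtain ⟨b, hb⟩ := hu.exists_right_inv
  have h1 : (a : k) * (b : k) = 1 := congrArg Subtype.val hb
  have h2 : V (algebraMap k A (a : k)) * V (algebraMap k A (b : k)) = 1 := by
    rw [← map_mul, ← map_mul, h1, map_one, map_one]
  have h3 : V (algebraMap k A (b : k)) ≤ 1 := (mem_O1 V _).1 b.2
  have h4 : V (algebraMap k A (a : k)) * V (algebraMap k A (b : k)) < 1 := by
    calc V (algebraMap k A (a : k)) * V (algebraMap k A (b : k))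
        ≤ V (algebraMap k A (a : k)) * 1 := mul_le_mul_right h3 _
      _ < 1 := by rw [mul_one]; exact ha
  rw [h2] at h4
  exact lt_irrefl _ h4

private theorem A9_om (w : k) (hw : w ^ 2 + w + 1 = 0) :
    IsLocalRing.residue (O1 k V) ⟨w, A9_wO V w hw⟩ ^ 2 +
      IsLocalRing.residue (O1 k V) ⟨w, A9_wO V w hw⟩ + 1 = 0 := by
  have h1 : (⟨w, A9_wO V w hw⟩ : O1 k V) ^ 2 + ⟨w, A9_wO V w hw⟩ + 1 = 0 := Subtype.ext hw
  rw [← map_pow, ← map_add, ← map_one (IsLocalRing.residue (O1 k V)), ← map_add, h1, map_zero]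

private theorem A9_two (h2 : V 2 < 1) : (2 : IsLocalRing.ResidueField (O1 k V)) = 0 := by
  have h3 : (2 : k) ∈ O1 k V := by
    rw [mem_O1, map_ofNat]
    exact h2.le
  have h4 := A9_res0 V (⟨2, h3⟩ : O1 k V) (by
    show V (algebraMap k A 2) < 1
    rw [map_ofNat]
    exact h2)
  have h5 : (⟨2, h3⟩ : O1 k V) = 2 := rfl
  rw [h5, map_ofNat] at h4
  exact h4

private theorem A9_u {n m : ℕ} {u : Fin n → A} {l : Fin m → A}
    (h : IsGauss k V (Sum.elim u l)) : IsGauss k V u := by
  intro p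
  have h1 := h (MvPolynomial.rename Sum.inl p)
  rw [MvPolynomial.aeval_rename, Sum.elim_comp_inl,
    MvPolynomial.support_rename_of_injective Sum.inl_injective, Finset.sup_image] at h1
  rw [h1]
  refine Finset.sup_congr rfl fun m _ => ?_
  show V (algebraMap k A _) = V (algebraMap k A _)
  rw [MvPolynomial.coeff_rename_mapDomain _ Sum.inl_injective]

/-- packaging of the end formula -/
private theorem A9_end {n : ℕ} {u : Fin n → A} [CharZero k] [IsAlgClosed A]
    (hu : IsGauss k V u) (hdv : DV (O1 k V)) (w : k) (hw : w ^ 2 + w + 1 = 0)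
    (hfg : ∃ z0 : Fin n → M, AlgebraicIndependent k z0 ∧
      Module.finrank (adjoin k (Set.range z0)) M ≠ 0)
    (x y : Fin n → M) {ι : Type} [Fintype ι] (γ : ι → Fin n → ZMod 3)
    (hpar : ∀ (P : ValuationSubring M)
      (j : IsLocalRing.ResidueField (O1 k V) →+* IsLocalRing.ResidueField P), Lies V P j →
      ∀ (hx : ∀ i, x i ∈ P) (hy : ∀ i, y i ∈ P),
      Even (Nat.card {s : ι // PrH j (fun i =>
        j (IsLocalRing.residue (O1 k V) ⟨w, A9_wO V w hw⟩) ^ (γ s i).val *
        IsLocalRing.residue P ⟨x i, hx i⟩ + IsLocalRing.residue P ⟨y i, hy i⟩)})) :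
    Even (∑ s, Nat.card {τ : M →ₐ[k] A // (∀ i, τ (algebraMap k M (w ^ (γ s i).val) * x i + y i) = u i) ∧
      ∀ i, V (τ (x i)) ≤ 1}) := by
  refine end_formula V u hu hdv hfg (fun s i => w ^ (γ s i).val)
    (fun s i => pow_mem (A9_wO V w hw) _) x y fun P j hj hx hy => ?_
  have h := hpar P j hj hx hy
  have h1 : ∀ s : ι, (fun i => j (IsLocalRing.residue (O1 k V)
      ⟨w ^ (γ s i).val, pow_mem (A9_wO V w hw) _⟩) * IsLocalRing.residue P ⟨x i, hx i⟩ +
        IsLocalRing.residue P ⟨y i, hy i⟩) =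
      (fun i => j (IsLocalRing.residue (O1 k V) ⟨w, A9_wO V w hw⟩) ^ (γ s i).val *
        IsLocalRing.residue P ⟨x i, hx i⟩ + IsLocalRing.residue P ⟨y i, hy i⟩) := by
    intro s
    funext i
    rw [← map_pow, ← map_pow]
    rfl
  simpa only [h1] using h

end A9aux

private theorem A9_endg {k1 M1 A : Type} [Field k1] [Field M1] [Field A] [Algebra k1 M1] [Algebra k1 A]
    (V : Valuation A ℝ≥0) {n : ℕ} {u : Fin n → A} [CharZero k1] [IsAlgClosed A]
    (hu : IsGauss k1 V u) (hdv : DV (O1 k1 V)) (w : k1) (hw : w ^ 2 + w + 1 = 0)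
    (hfg : ∃ z0 : Fin n → M1, AlgebraicIndependent k1 z0 ∧
      Module.finrank (adjoin k1 (Set.range z0)) M1 ≠ 0)
    (x y : Fin n → M1) {ι : Type} [Fintype ι] (γ : ι → Fin n → ZMod 3)
    (hpar : ∀ (P : ValuationSubring M1)
      (j : IsLocalRing.ResidueField (O1 k1 V) →+* IsLocalRing.ResidueField P), Lies V P j →
      ∀ (hx : ∀ i, x i ∈ P) (hy : ∀ i, y i ∈ P),
      Even (Nat.card {s : ι // PrH j (fun i =>
        j (IsLocalRing.residue (O1 k1 V) ⟨w, A9_wO V w hw⟩) ^ (γ s i).val *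
        IsLocalRing.residue P ⟨x i, hx i⟩ + IsLocalRing.residue P ⟨y i, hy i⟩)})) :
    Even (∑ s, gc V w u x y (γ s)) :=
  A9_end V hu hdv w hw hfg x y γ hpar

/-- the star relation in characteristic two -/
def StarC (n : ℕ) : Prop := ∀ (k M : Type) [Field k] [Field M] [Algebra k M] (g w : k) (a b c : Fin n)
  (x y : Fin n → M), (2 : k) = 0 → w ^ 2 + w + 1 = 0 →
  (∃ k0 : Subfield k, Transcendental k0 g ∧ FiniteDimensional (adjoin k0 {g}) k) →
  a ≠ b → a ≠ c → b ≠ c →
  ∑ i, x i ^ 3 + algebraMap k M g * (x a * x b * x c) = 0 →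
  ∑ i, y i ^ 3 + algebraMap k M g * (y a * y b * y c) = 0 →
  Even (Nat.card {j : Fin 3 // Pr k (fun i => (if i = a ∨ i = b ∨ i = c then
    algebraMap k M w ^ j.val * x i else x i) + y i)})

/-- the three twists at one coordinate -/
def R1C (n : ℕ) : Prop := ∀ (k M : Type) [Field k] [Field M] [Algebra k M] (w : k) (a : Fin n)
  (x y : Fin n → M), (2 : k) = 0 → w ^ 2 + w + 1 = 0 → ∑ i, x i ^ 3 = 0 → ∑ i, y i ^ 3 = 0 →
  Even (Nat.card {j : Fin 3 // Pr k (fun i => (if i = a then
    algebraMap k M w ^ j.val * x i else x i) + y i)})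

/-- scalar twists -/
def ScC (n : ℕ) : Prop := ∀ (k M : Type) [Field k] [Field M] [Algebra k M] (w : k)
  (x y : Fin n → M), (2 : k) = 0 → w ^ 2 + w + 1 = 0 → ∑ i, x i ^ 3 = 0 → ∑ i, y i ^ 3 = 0 →
  (Pr k (fun i => algebraMap k M w * x i + y i) ↔ Pr k (fun i => x i + y i))

variable {n : ℕ} {F : MvPolynomial (Fin n) ℂ} {J : Type} {z : Exp3 n ⊕ J → ℂ} {A : Type}
  [Field A] [CharZero A] [Algebra ℂ A] {u l : Fin n → A}

private theorem A9_half : (2 : ℝ≥0)⁻¹ < 1 := inv_lt_one_of_one_lt₀ one_lt_two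

/-- (1): weight two at the coefficient of `X_a X_b X_c`. -/
theorem end_star (hstar : StarC n) (h : Ctx F z u l) (v2 : Valuation ℚ ℝ≥0) (h2 : IsTwo v2)
    (V : Valuation A ℝ≥0)
    (a b c : Fin n) (hab : a ≠ b) (hac : a ≠ c) (hbc : b ≠ c) (d0 : Exp3 n) (hd0 : d0.1 = e3 a b c)
    (hV : IsWt v2 V (zeta z u l) (wts (Sum.inl (Sum.inl d0)) 2))
    (k1 : IntermediateField (Qz z) ℂ) (w : k1) {M1 : Type} [Field M1] [Algebra k1 M1]
    (x y : Fin n → M1) (hD : Dat F z k1 w x y) (γ : Fin n → ZMod 3) (hγa : γ a = 0) (hγb : γ b = 0)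
    (hγc : γ c = 0) :
    Even (∑ j : ZMod 3, gc V w u x y (γ + Pi.single a j + Pi.single b j + Pi.single c j)) := by
  have hA : IsAlgClosed A := h.closed
  have hV' : IsWt v2 V (zeta z u l) (wts (Sum.inl (Sum.inl d0)) (2 * 1)) := by
    rw [mul_one]
    exact hV
  obtain ⟨hV2, _, hco, hco0⟩ := norm_coeff h v2 h2 V d0 1 one_pos hV'
  have hG := gauss_C h v2 V (Sum.inl d0) 2 (by norm_num) hV
  have hGk : IsGauss k1 V u := gauss_restrict V u (A9_u V hG)
  have hVz := wt_left z u l v2 V (Sum.inl d0) 2 hV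
  have hdv := dv_k1 z h.tb.1 v2 h2 V (Sum.inl d0) 2 (Or.inr rfl) hVz k1 hD.fin
  obtain ⟨Fk, hFk, hFx, hFy⟩ := hD.eqs
  have hcf : ∀ d, ((Fk.coeff d : k1) : ℂ) = F.coeff d := by
    intro d
    rw [← hFk, MvPolynomial.coeff_map]
    rfl
  have hkA : ∀ a : k1, algebraMap k1 A a = algebraMap ℂ A (a : ℂ) := fun a =>
    IsScalarTower.algebraMap_apply k1 ℂ A a
  set g : k1 := Fk.coeff d0.1 - if ∃ i, d0.1 = Finsupp.single i 3 then 1 else 0 with hg
  have hgc : (g : ℂ) = F.coeff d0.1 - if ∃ i, d0.1 = Finsupp.single i 3 then 1 else 0 := by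
    rw [hg, ← hcf]
    split_ifs
    · rfl
    · rfl
  have hgC : (g : ℂ) = 2 * z (Sum.inl d0) := by
    rw [hgc, h.cf d0]
    ring
  have hgO : g ∈ O1 k1 V := by
    rw [mem_O1, hkA, hgc, hco0]
  have hres := res_k1 z h.tb.1 v2 h2 V (Sum.inl d0) hVz k1 hD.fin ⟨g, hgO⟩ hgC
  have hH : ∀ d, V (algebraMap k1 A ((Fk - (∑ i, MvPolynomial.X i ^ 3 + MvPolynomial.C g *
      (MvPolynomial.X a * MvPolynomial.X b * MvPolynomial.X c))).coeff d)) < 1 := by
    intro d
    rw [MvPolynomial.coeff_sub, MvPolynomial.coeff_add, A9_cubes, A9_abc]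
    by_cases hdeg : d.degree = 3
    · by_cases hdd : (⟨d, hdeg⟩ : Exp3 n) = d0
      · have h3 : d = d0.1 := congrArg Subtype.val hdd
        have h4 : Fk.coeff d - ((if ∃ i, d = Finsupp.single i 3 then 1 else 0) +
            if e3 a b c = d then g else 0) = 0 := by
          rw [h3, if_pos hd0.symm, hg]
          ring
        rw [h4, map_zero, map_zero]
        exact one_pos
      · have h3 := hco ⟨d, hdeg⟩ hdd
        have h4 : ¬ e3 a b c = d := by
          rintro rfl
          exact hdd (Subtype.ext hd0.symm)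
        rw [if_neg h4, add_zero, hkA]
        have h5 : ((Fk.coeff d - if ∃ i, d = Finsupp.single i 3 then 1 else 0 : k1) : ℂ) =
            F.coeff d - if ∃ i, d = Finsupp.single i 3 then 1 else 0 := by
          rw [← hcf]
          split_ifs
          · rfl
          · rfl
        rw [h5]
        exact lt_of_eq_of_lt h3 A9_half
    · have h3 : Fk.coeff d = 0 := by
        apply Subtype.ext
        rw [hcf]
        exact h.hom.coeff_eq_zero hdeg
      have h4 : ¬ ∃ i, d = Finsupp.single i 3 := by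
        rintro ⟨i, rfl⟩
        exact hdeg (by simp)
      have h5 : ¬ e3 a b c = d := by
        rintro rfl
        exact hdeg (by rw [← hd0]; exact d0.2)
      rw [h3, if_neg h4, if_neg h5, add_zero, sub_zero, map_zero, map_zero]
      exact one_pos
  have k5 := @A9_endg k1 M1 A _ _ _ _ _ V n u _ _ hGk hdv w hD.om hD.fg x y (ZMod 3) _
    (fun s => γ + Pi.single a s + Pi.single b s + Pi.single c s)
  apply k5
  intro P j hj hx hy
  set wb := IsLocalRing.residue (O1 k1 V) ⟨w, A9_wO V w hD.om⟩ with hwb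
  have hom := A9_om V w hD.om
  have hj3 : j wb ^ 3 = 1 := by rw [← map_pow, A9_w3 hom, map_one]
  have hex := A9_red V P j hj x hx Fk hFx ⟨g, hgO⟩ a b c hH
  have hey := A9_red V P j hj y hy Fk hFy ⟨g, hgO⟩ a b c hH
  let _ := j.toAlgebra
  have hXY := hstar (IsLocalRing.ResidueField (O1 k1 V)) (IsLocalRing.ResidueField P)
    (IsLocalRing.residue (O1 k1 V) ⟨g, hgO⟩) wb a b c
    (fun i => j wb ^ (γ i).val * IsLocalRing.residue P ⟨x i, hx i⟩)
    (fun i => IsLocalRing.residue P ⟨y i, hy i⟩) (A9_two V (by rw [hV2]; exact A9_half)) hom hres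
    hab hac hbc ?_ hey
  · have h3 : ∀ s : ZMod 3, (fun i => j wb ^ ((γ + Pi.single a s + Pi.single b s + Pi.single c s : Fin n → ZMod 3) i).val *
        IsLocalRing.residue P ⟨x i, hx i⟩ + IsLocalRing.residue P ⟨y i, hy i⟩) =
        (fun i => (if i = a ∨ i = b ∨ i = c then
          j wb ^ s.val * (j wb ^ (γ i).val * IsLocalRing.residue P ⟨x i, hx i⟩) else
          j wb ^ (γ i).val * IsLocalRing.residue P ⟨x i, hx i⟩) +
          IsLocalRing.residue P ⟨y i, hy i⟩) := by
      intro s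
      funext i
      congr 1
      by_cases hia : i = a
      · subst hia
        rw [if_pos (Or.inl rfl)]
        simp [hγa, hab, hac]
      · by_cases hib : i = b
        · subst hib
          rw [if_pos (Or.inr (Or.inl rfl))]
          simp [hγb, hia, hbc]
        · by_cases hic : i = c
          · subst hic
            rw [if_pos (Or.inr (Or.inr rfl))]
            simp [hγc, hia, hib]
          · rw [if_neg (by tauto)]
            simp [hia, hib, hic]
    have h4 : Nat.card {s : ZMod 3 // PrH j (fun i =>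
        j wb ^ ((γ + Pi.single a s + Pi.single b s + Pi.single c s : Fin n → ZMod 3) i).val *
        IsLocalRing.residue P ⟨x i, hx i⟩ + IsLocalRing.residue P ⟨y i, hy i⟩)} =
        Nat.card {s : Fin 3 // Pr (IsLocalRing.ResidueField (O1 k1 V)) (fun i =>
          (if i = a ∨ i = b ∨ i = c then
            algebraMap (IsLocalRing.ResidueField (O1 k1 V)) (IsLocalRing.ResidueField P) wb ^ s.val *
              (j wb ^ (γ i).val * IsLocalRing.residue P ⟨x i, hx i⟩) else
            j wb ^ (γ i).val * IsLocalRing.residue P ⟨x i, hx i⟩) +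
          IsLocalRing.residue P ⟨y i, hy i⟩)} := by
      refine Nat.card_congr (Equiv.subtypeEquiv (Equiv.refl (Fin 3)) fun s => ?_)
      rw [h3 s]
      exact Iff.rfl
    rw [h4]
    exact hXY
  · have h3 : ∀ i, (j wb ^ (γ i).val * IsLocalRing.residue P ⟨x i, hx i⟩) ^ 3 =
        IsLocalRing.residue P ⟨x i, hx i⟩ ^ 3 := by
      intro i
      rw [mul_pow, ← pow_mul, mul_comm (γ i).val 3, pow_mul, hj3, one_pow, one_mul]
    simp only [h3, hγa, hγb, hγc, ZMod.val_zero, pow_zero, one_mul]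
    exact hex

/-- the data for weights one -/
private theorem A9_one (h : Ctx F z u l) (v2 : Valuation ℚ ℝ≥0) (h2 : IsTwo v2)
    (V : Valuation A ℝ≥0) (hV : IsWt v2 V (zeta z u l) (fun _ => 1)) (a : Fin n)
    (k1 : IntermediateField (Qz z) ℂ) (w : k1) {M1 : Type} [Field M1] [Algebra k1 M1]
    (x y : Fin n → M1) (hD : Dat F z k1 w x y) :
    V 2 < 1 ∧ IsGauss k1 V u ∧ DV (O1 k1 V) ∧
      ∀ (P : ValuationSubring M1)
        (j : IsLocalRing.ResidueField (O1 k1 V) →+* IsLocalRing.ResidueField P), Lies V P j →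
        ∀ (hx : ∀ i, x i ∈ P) (hy : ∀ i, y i ∈ P),
        ∑ i, IsLocalRing.residue P ⟨x i, hx i⟩ ^ 3 = 0 ∧
          ∑ i, IsLocalRing.residue P ⟨y i, hy i⟩ ^ 3 = 0 := by
  set d0 : Exp3 n := ⟨Finsupp.single a 3, by simp⟩ with hd0
  have hw1 : ∀ {I : Type} (i0 : I), wts i0 1 = fun _ => 1 := by
    intro I i0
    funext s
    unfold wts
    split_ifs <;> rfl
  have hV1 : IsWt v2 V (zeta z u l) (wts (Sum.inl (Sum.inl d0)) 1) := by
    rw [hw1]
    exact hV
  have h12 : (2 : ℝ≥0) * 2⁻¹ = 1 := mul_inv_cancel₀ two_ne_zero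
  obtain ⟨hV2, _, hco, hco0⟩ := norm_coeff h v2 h2 V d0 2⁻¹ (by positivity) (by rw [h12]; exact hV1)
  have hG := gauss_C h v2 V (Sum.inl d0) 1 one_pos hV1
  have hGk : IsGauss k1 V u := gauss_restrict V u (A9_u V hG)
  have hVz := wt_left z u l v2 V (Sum.inl d0) 1 hV1
  have hdv := dv_k1 z h.tb.1 v2 h2 V (Sum.inl d0) 1 (Or.inl rfl) hVz k1 hD.fin
  obtain ⟨Fk, hFk, hFx, hFy⟩ := hD.eqs
  have hcf : ∀ d, ((Fk.coeff d : k1) : ℂ) = F.coeff d := by
    intro d
    rw [← hFk, MvPolynomial.coeff_map]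
    rfl
  have hkA : ∀ a : k1, algebraMap k1 A a = algebraMap ℂ A (a : ℂ) := fun a =>
    IsScalarTower.algebraMap_apply k1 ℂ A a
  have hH : ∀ d, V (algebraMap k1 A ((Fk - ∑ i, MvPolynomial.X i ^ 3).coeff d)) < 1 := by
    intro d
    rw [MvPolynomial.coeff_sub, A9_cubes]
    by_cases hdeg : d.degree = 3
    · have h3 : V (algebraMap ℂ A (F.coeff d - if ∃ i, d = Finsupp.single i 3 then 1 else 0)) =
          2⁻¹ := by
        by_cases hdd : (⟨d, hdeg⟩ : Exp3 n) = d0
        · have h3 : d = d0.1 := congrArg Subtype.val hdd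
          rw [h3]
          exact hco0
        · exact hco ⟨d, hdeg⟩ hdd
      rw [hkA]
      have h5 : ((Fk.coeff d - if ∃ i, d = Finsupp.single i 3 then 1 else 0 : k1) : ℂ) =
          F.coeff d - if ∃ i, d = Finsupp.single i 3 then 1 else 0 := by
        rw [← hcf]
        split_ifs
        · rfl
        · rfl
      rw [h5]
      exact lt_of_eq_of_lt h3 A9_half
    · have h3 : Fk.coeff d = 0 := by
        apply Subtype.ext
        rw [hcf]
        exact h.hom.coeff_eq_zero hdeg
      have h4 : ¬ ∃ i, d = Finsupp.single i 3 := by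
        rintro ⟨i, rfl⟩
        exact hdeg (by simp)
      rw [h3, if_neg h4, sub_zero, map_zero, map_zero]
      exact one_pos
  refine ⟨by rw [hV2]; exact A9_half, hGk, hdv, fun P j hj hx hy => ⟨?_, ?_⟩⟩
  · exact A9_red0 V P j hj x hx Fk hFx hH
  · exact A9_red0 V P j hj y hy Fk hFy hH

/-- weights one: the three twists at one coordinate -/
theorem end_r1 (hr1 : R1C n) (h : Ctx F z u l) (v2 : Valuation ℚ ℝ≥0) (h2 : IsTwo v2)
    (V : Valuation A ℝ≥0) (hV : IsWt v2 V (zeta z u l) (fun _ => 1))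
    (k1 : IntermediateField (Qz z) ℂ) (w : k1) {M1 : Type} [Field M1] [Algebra k1 M1]
    (x y : Fin n → M1) (hD : Dat F z k1 w x y) (a : Fin n) (γ : Fin n → ZMod 3) :
    Even (gc V w u x y γ + gc V w u x y (γ + Pi.single a 1) + gc V w u x y (γ + Pi.single a 2)) := by
  have hA : IsAlgClosed A := h.closed
  obtain ⟨hV2, hGk, hdv, heq⟩ := A9_one h v2 h2 V hV a k1 w x y hD
  have k5 := @A9_endg k1 M1 A _ _ _ _ _ V n u _ _ hGk hdv w hD.om hD.fg x y (ZMod 3) _
    (fun s => γ + Pi.single a s)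
  have hmain : Even (∑ s : ZMod 3, gc V w u x y (γ + Pi.single a s)) := by
    apply k5
    intro P j hj hx hy
    obtain ⟨hex, hey⟩ := heq P j hj hx hy
    set wb := IsLocalRing.residue (O1 k1 V) ⟨w, A9_wO V w hD.om⟩ with hwb
    have hom := A9_om V w hD.om
    have hj3 : j wb ^ 3 = 1 := by rw [← map_pow, A9_w3 hom, map_one]
    let _ := j.toAlgebra
    have hXY := hr1 (IsLocalRing.ResidueField (O1 k1 V)) (IsLocalRing.ResidueField P) wb a
      (fun i => j wb ^ (γ i).val * IsLocalRing.residue P ⟨x i, hx i⟩)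
      (fun i => IsLocalRing.residue P ⟨y i, hy i⟩) (A9_two V hV2) hom ?_ hey
    · have h3 : ∀ s : ZMod 3, (fun i => j wb ^ ((γ + Pi.single a s : Fin n → ZMod 3) i).val *
          IsLocalRing.residue P ⟨x i, hx i⟩ + IsLocalRing.residue P ⟨y i, hy i⟩) =
          (fun i => (if i = a then
            j wb ^ s.val * (j wb ^ (γ i).val * IsLocalRing.residue P ⟨x i, hx i⟩) else
            j wb ^ (γ i).val * IsLocalRing.residue P ⟨x i, hx i⟩) +
            IsLocalRing.residue P ⟨y i, hy i⟩) := by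
        intro s
        funext i
        congr 1
        by_cases hia : i = a
        · subst hia
          rw [if_pos rfl, ← mul_assoc, ← pow_add, Pi.add_apply, Pi.single_eq_same, ZMod.val_add,
            ← pow_eq_pow_mod _ hj3, add_comm]
        · rw [if_neg hia]
          simp [hia]
      have h4 : Nat.card {s : ZMod 3 // PrH j (fun i =>
          j wb ^ ((γ + Pi.single a s : Fin n → ZMod 3) i).val *
          IsLocalRing.residue P ⟨x i, hx i⟩ + IsLocalRing.residue P ⟨y i, hy i⟩)} =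
          Nat.card {s : Fin 3 // Pr (IsLocalRing.ResidueField (O1 k1 V)) (fun i =>
            (if i = a then
              algebraMap (IsLocalRing.ResidueField (O1 k1 V)) (IsLocalRing.ResidueField P) wb ^ s.val *
                (j wb ^ (γ i).val * IsLocalRing.residue P ⟨x i, hx i⟩) else
              j wb ^ (γ i).val * IsLocalRing.residue P ⟨x i, hx i⟩) +
            IsLocalRing.residue P ⟨y i, hy i⟩)} := by
        refine Nat.card_congr (Equiv.subtypeEquiv (Equiv.refl (Fin 3)) fun s => ?_)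
        rw [h3 s]
        exact Iff.rfl
      rw [h4]
      exact hXY
    · have h3 : ∀ i, (j wb ^ (γ i).val * IsLocalRing.residue P ⟨x i, hx i⟩) ^ 3 =
          IsLocalRing.residue P ⟨x i, hx i⟩ ^ 3 := by
        intro i
        rw [mul_pow, ← pow_mul, mul_comm (γ i).val 3, pow_mul, hj3, one_pow, one_mul]
      simp only [h3]
      exact hex
  have h5 : (∑ s : ZMod 3, gc V w u x y (γ + Pi.single a s)) =
      gc V w u x y γ + gc V w u x y (γ + Pi.single a 1) + gc V w u x y (γ + Pi.single a 2) := by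
    have h6 : (∑ s : ZMod 3, gc V w u x y (γ + Pi.single a s)) =
        gc V w u x y (γ + Pi.single a 0) + gc V w u x y (γ + Pi.single a 1) +
          gc V w u x y (γ + Pi.single a 2) := Fin.sum_univ_three _
    rw [h6, Pi.single_zero, add_zero]
  rw [← h5]
  exact hmain

/-- weights one: scalar twists -/
theorem end_sc (hsc : ScC n) (h : Ctx F z u l) (v2 : Valuation ℚ ℝ≥0) (h2 : IsTwo v2)
    (V : Valuation A ℝ≥0) (hV : IsWt v2 V (zeta z u l) (fun _ => 1))
    (k1 : IntermediateField (Qz z) ℂ) (w : k1) {M1 : Type} [Field M1] [Algebra k1 M1]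
    (x y : Fin n → M1) (hD : Dat F z k1 w x y) (γ : Fin n → ZMod 3) :
    Even (gc V w u x y (fun i => γ i + 1) + gc V w u x y γ) := by
  rcases Nat.eq_zero_or_pos n with hn | hn
  · subst hn
    have h3 : (fun i => γ i + 1) = γ := funext fun i => i.elim0
    rw [h3]
    exact ⟨_, rfl⟩
  have hA : IsAlgClosed A := h.closed
  obtain ⟨hV2, hGk, hdv, heq⟩ := A9_one h v2 h2 V hV ⟨0, hn⟩ k1 w x y hD
  have hmain : Even (∑ s : Fin 2, gc V w u x y (fun i => γ i + if s = 0 then 1 else 0)) := by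
    refine A9_endg V hGk hdv w hD.om hD.fg x y
      (fun (s : Fin 2) i => γ i + if s = 0 then 1 else 0) fun P j hj hx hy => ?_
    obtain ⟨hex, hey⟩ := heq P j hj hx hy
    set wb := IsLocalRing.residue (O1 k1 V) ⟨w, A9_wO V w hD.om⟩ with hwb
    have hom := A9_om V w hD.om
    have hj3 : j wb ^ 3 = 1 := by rw [← map_pow, A9_w3 hom, map_one]
    let _ := j.toAlgebra
    have hXY := hsc (IsLocalRing.ResidueField (O1 k1 V)) (IsLocalRing.ResidueField P) wb
      (fun i => j wb ^ (γ i).val * IsLocalRing.residue P ⟨x i, hx i⟩)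
      (fun i => IsLocalRing.residue P ⟨y i, hy i⟩) (A9_two V hV2) hom ?_ hey
    · have h3 : ∀ s : Fin 2, (fun i => j wb ^ (γ i + if s = 0 then 1 else 0).val *
          IsLocalRing.residue P ⟨x i, hx i⟩ + IsLocalRing.residue P ⟨y i, hy i⟩) =
          (fun i => (if s = 0 then j wb else 1) * (j wb ^ (γ i).val *
            IsLocalRing.residue P ⟨x i, hx i⟩) + IsLocalRing.residue P ⟨y i, hy i⟩) := by
        intro s
        funext i
        congr 1
        by_cases hs : s = 0
        · rw [if_pos hs, if_pos hs, ← mul_assoc, ZMod.val_add, ← pow_eq_pow_mod _ hj3, pow_add]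
          have h4 : (1 : ZMod 3).val = 1 := rfl
          rw [h4, pow_one, mul_comm (j wb)]
        · rw [if_neg hs, if_neg hs, add_zero, one_mul]
      have h4 : ∀ s : Fin 2, PrH j (fun i => j wb ^ (γ i + if s = 0 then 1 else 0).val *
          IsLocalRing.residue P ⟨x i, hx i⟩ + IsLocalRing.residue P ⟨y i, hy i⟩) ↔
          Pr (IsLocalRing.ResidueField (O1 k1 V)) (fun i => j wb ^ (γ i).val *
            IsLocalRing.residue P ⟨x i, hx i⟩ + IsLocalRing.residue P ⟨y i, hy i⟩) := by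
        intro s
        rw [h3 s]
        by_cases hs : s = 0
        · rw [if_pos hs]
          exact hXY
        · rw [if_neg hs]
          simp only [one_mul]
          exact Iff.rfl
      by_cases hPr : Pr (IsLocalRing.ResidueField (O1 k1 V)) (fun i => j wb ^ (γ i).val *
            IsLocalRing.residue P ⟨x i, hx i⟩ + IsLocalRing.residue P ⟨y i, hy i⟩)
      · have h5 : Nat.card {s : Fin 2 // PrH j (fun i => j wb ^ (γ i + if s = 0 then 1 else 0).val *
            IsLocalRing.residue P ⟨x i, hx i⟩ + IsLocalRing.residue P ⟨y i, hy i⟩)} =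
            Nat.card (Fin 2) :=
          Nat.card_congr (Equiv.subtypeUnivEquiv fun s => (h4 s).2 hPr)
        rw [h5, Nat.card_eq_fintype_card, Fintype.card_fin]
        exact even_two
      · have h5 : IsEmpty {s : Fin 2 // PrH j (fun i => j wb ^ (γ i + if s = 0 then 1 else 0).val *
            IsLocalRing.residue P ⟨x i, hx i⟩ + IsLocalRing.residue P ⟨y i, hy i⟩)} :=
          ⟨fun s => hPr ((h4 s.1).1 s.2)⟩
        rw [Nat.card_of_isEmpty]
        exact Even.zero
    · have h3 : ∀ i, (j wb ^ (γ i).val * IsLocalRing.residue P ⟨x i, hx i⟩) ^ 3 =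
          IsLocalRing.residue P ⟨x i, hx i⟩ ^ 3 := by
        intro i
        rw [mul_pow, ← pow_mul, mul_comm (γ i).val 3, pow_mul, hj3, one_pow, one_mul]
      simp only [h3]
      exact hex
  rw [Fin.sum_univ_two] at hmain
  have h5 : (fun i => γ i + if (1 : Fin 2) = 0 then 1 else 0) = γ := by
    funext i
    rw [if_neg (by decide), add_zero]
  have h6 : (fun i => γ i + if (0 : Fin 2) = 0 then 1 else 0) = fun i => γ i + 1 := by
    funext i
    rw [if_pos rfl]
  rw [h5, h6] at hmain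
  exact hmain

end MP2619.N
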