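import Mathlib

/-!
Row 2619n-T1: extension of real valuations to algebraic extensions.

If `v` is trivial take the trivial valuation; otherwise make `K` a normed field
(`v` is a nonarchimedean absolute value), complete it, take the spectral norm on an algebraic closure of the
completion and embed `L`.
-/

set_option autoImplicit false

namespace MP2619.N

open scoped NNReal

private theorem T1_lift {K L Ω : Type*} [Field K] [Field L] [Algebra K L] [Algebra.IsAlgebraic K L]
    [Field Ω] [IsAlgClosed Ω] (f : K →+* Ω) :
    ∃ g : L →+* Ω, ∀ a, g (algebraMap K L a) = f a := by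
  let _ : Algebra K Ω := f.toAlgebra
  refine ⟨(IsAlgClosed.lift : L →ₐ[K] Ω).toRingHom, fun a => ?_⟩
  exact (IsAlgClosed.lift : L →ₐ[K] Ω).commutes a

/-- The absolute value attached to a real valuation. -/
private noncomputable def T1_abs {K : Type*} [Field K] (v : Valuation K ℝ≥0) : AbsoluteValue K ℝ where
  toFun a := (v a : ℝ)
  map_mul' x y := by simp
  nonneg' x := NNReal.coe_nonneg _
  eq_zero' x := by simp
  add_le' x y := by
    have h := v.map_add x y
    have h2 : v (x + y) ≤ v x + v y := h.trans (max_le le_self_add le_add_self)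
    exact_mod_cast h2

private theorem T1_complete {C : Type*} [NontriviallyNormedField C] [CompleteSpace C]
    [IsUltrametricDist C] {K L : Type*} [Field K] [Field L] [Algebra K L] [Algebra.IsAlgebraic K L]
    (v : Valuation K ℝ≥0) (i : K →+* C) (hi : ∀ a, ‖i a‖ = (v a : ℝ)) :
    ∃ V : Valuation L ℝ≥0, ∀ a, V (algebraMap K L a) = v a := by
  obtain ⟨g, hg⟩ := T1_lift (K := K) (L := L) ((algebraMap C (AlgebraicClosure C)).comp i)
  let N := spectralMulAlgNorm C (AlgebraicClosure C)
  have hN : ∀ x, ((Real.toNNReal (N (g x)) : ℝ≥0) : ℝ) = N (g x) :=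
    fun x => Real.coe_toNNReal _ (apply_nonneg N _)
  refine ⟨{ toFun := fun x => Real.toNNReal (N (g x))
            map_zero' := ?_
            map_one' := ?_
            map_mul' := ?_
            map_add_le_max' := ?_ }, ?_⟩
  · rw [map_zero, map_zero, Real.toNNReal_zero]
  · rw [map_one, map_one, Real.toNNReal_one]
  · intro x y
    apply NNReal.eq
    rw [NNReal.coe_mul, hN, hN, hN, map_mul, map_mul]
  · intro x y
    have h := isNonarchimedean_spectralNorm (K := C) (L := AlgebraicClosure C) (g x) (g y)
    apply NNReal.coe_le_coe.mp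
    rw [NNReal.coe_max, hN, hN, hN, map_add]
    exact h
  · intro a
    apply NNReal.eq
    have h := spectralNorm_extends (K := C) (L := AlgebraicClosure C) (i a)
    change ((Real.toNNReal (N (g (algebraMap K L a))) : ℝ≥0) : ℝ) = _
    rw [hN, hg a]
    change spectralNorm C (AlgebraicClosure C) _ = _
    rw [RingHom.comp_apply, h, hi]

theorem ext_real {K L : Type*} [Field K] [Field L] [Algebra K L] [Algebra.IsAlgebraic K L]
    (v : Valuation K ℝ≥0) : ∃ V : Valuation L ℝ≥0, ∀ a, V (algebraMap K L a) = v a := by
  classical
  by_cases hv : ∃ a : K, v a ≠ 0 ∧ v a ≠ 1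
  · obtain ⟨a, ha0, ha1⟩ := hv
    let w := T1_abs v
    let C := w.Completion
    have hnorm : ∀ x : K, ‖((WithAbs.toAbs w x : WithAbs w) : C)‖ = (v x : ℝ) := by
      intro x
      rw [UniformSpace.Completion.norm_coe]
      rfl
    have hult : IsUltrametricDist C := by
      apply IsUltrametricDist.isUltrametricDist_of_forall_norm_add_le_max_norm
      intro x y
      induction x, y using UniformSpace.Completion.induction_on₂ with
      | hp => exact isClosed_le (by fun_prop) (by fun_prop)
      | ih x y =>
        rw [← UniformSpace.Completion.coe_add, UniformSpace.Completion.norm_coe,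
          UniformSpace.Completion.norm_coe, UniformSpace.Completion.norm_coe]
        have h := v.map_add (WithAbs.ofAbs x) (WithAbs.ofAbs y)
        have h2 : ((v (WithAbs.ofAbs x + WithAbs.ofAbs y) : ℝ≥0) : ℝ)
            ≤ max (v (WithAbs.ofAbs x) : ℝ) (v (WithAbs.ofAbs y) : ℝ) := by
          rw [← NNReal.coe_max]; exact_mod_cast h
        exact h2
    have hne : ∃ x : C, x ≠ 0 ∧ ‖x‖ ≠ 1 := by
      refine ⟨((WithAbs.toAbs w a : WithAbs w) : C), ?_, ?_⟩
      · intro h
        apply ha0
        have h3 := hnorm a
        rw [h, norm_zero] at h3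
        exact_mod_cast h3.symm
      · rw [hnorm a]; exact_mod_cast ha1
    let _ : NontriviallyNormedField C := NontriviallyNormedField.ofNormNeOne hne
    exact T1_complete (C := C) v
      ((UniformSpace.Completion.coeRingHom (α := WithAbs w)).comp (WithAbs.equiv w).symm.toRingHom)
      (fun x => hnorm x)
  · push Not at hv
    refine ⟨{ toFun := fun x => if x = 0 then 0 else 1
              map_zero' := by simp
              map_one' := by simp
              map_mul' := ?_
              map_add_le_max' := ?_ }, ?_⟩
    · intro x y
      by_cases hx : x = 0 <;> by_cases hy : y = 0 <;> simp [hx, hy]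
    · intro x y
      by_cases hx : x = 0
      · simp [hx]
      · by_cases hxy : x + y = 0 <;> simp [hx, hxy]
    · intro a
      change (if algebraMap K L a = 0 then (0 : ℝ≥0) else 1) = v a
      by_cases ha : a = 0
      · simp [ha]
      · have h0 : v a ≠ 0 := by simpa using ha
        rw [hv a h0]
        simp [ha]

end MP2619.N
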