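import Pool.Agent.Lib.MP_2619d0_ag.N.Defs
import Pool.Agent.Lib.MP_2619d0_ag.N.T1

/-!
Row 2619n-T2: existence of weighted Gauss valuations.
-/

set_option autoImplicit false

namespace MP2619.N

open scoped NNReal
open IntermediateField

private noncomputable def T2_w {J : Type*} (r : J → ℝ≥0) (m : J →₀ ℕ) : ℝ≥0 :=
  m.prod fun j e => r j ^ e

private theorem T2_w_add {J : Type*} (r : J → ℝ≥0) (m n : J →₀ ℕ) :
    T2_w r (m + n) = T2_w r m * T2_w r n := by
  classical
  unfold T2_w
  exact Finsupp.prod_add_index' (fun j => pow_zero _) (fun j a b => pow_add _ _ _)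

private theorem T2_w_zero {J : Type*} (r : J → ℝ≥0) : T2_w r 0 = 1 := by
  simp [T2_w]

private theorem T2_w_pos {J : Type*} (r : J → ℝ≥0) (hr : ∀ j, 0 < r j) (m : J →₀ ℕ) :
    0 < T2_w r m := by
  unfold T2_w Finsupp.prod
  exact Finset.prod_pos fun j _ => pow_pos (hr j) _

private noncomputable def T2_N {k : Type*} [Field k] {J : Type*} (v : Valuation k ℝ≥0)
    (r : J → ℝ≥0) (P : MvPolynomial J k) : ℝ≥0 :=
  P.support.sup fun m => v (P.coeff m) * T2_w r m

section
variable {k : Type*} [Field k] {J : Type*} (v : Valuation k ℝ≥0) (r : J → ℝ≥0)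

private theorem T2_le (P : MvPolynomial J k) (m : J →₀ ℕ) :
    v (P.coeff m) * T2_w r m ≤ T2_N v r P := by
  by_cases h : m ∈ P.support
  · exact Finset.le_sup (f := fun m => v (P.coeff m) * T2_w r m) h
  · rw [MvPolynomial.notMem_support_iff.mp h]
    simp

private theorem T2_le_iff (P : MvPolynomial J k) (c : ℝ≥0) :
    T2_N v r P ≤ c ↔ ∀ m, v (P.coeff m) * T2_w r m ≤ c := by
  constructor
  · intro h m
    exact (T2_le v r P m).trans h
  · intro h
    exact Finset.sup_le fun m _ => h m

private theorem T2_zero : T2_N v r (0 : MvPolynomial J k) = 0 := by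
  simp [T2_N]

private theorem T2_one : T2_N v r (1 : MvPolynomial J k) = 1 := by
  classical
  apply le_antisymm
  · rw [T2_le_iff]
    intro m
    rw [MvPolynomial.coeff_one]
    split_ifs with h
    · subst h
      simp [T2_w_zero]
    · simp
  · have := T2_le v r (1 : MvPolynomial J k) 0
    simpa [T2_w_zero] using this

private theorem T2_add (P Q : MvPolynomial J k) :
    T2_N v r (P + Q) ≤ max (T2_N v r P) (T2_N v r Q) := by
  rw [T2_le_iff]
  intro m
  rw [MvPolynomial.coeff_add]
  have h := v.map_add (P.coeff m) (Q.coeff m)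
  rcases le_max_iff.mp h with h | h
  · exact le_max_of_le_left ((mul_le_mul_left h _).trans (T2_le v r P m))
  · exact le_max_of_le_right ((mul_le_mul_left h _).trans (T2_le v r Q m))

private theorem T2_pos (hr : ∀ j, 0 < r j) {P : MvPolynomial J k} (hP : P ≠ 0) :
    0 < T2_N v r P := by
  obtain ⟨m, hm⟩ := MvPolynomial.ne_zero_iff.mp hP
  refine lt_of_lt_of_le ?_ (T2_le v r P m)
  have h1 : 0 < v (P.coeff m) := by
    rw [pos_iff_ne_zero]
    exact (v.ne_zero_iff).mpr hm
  exact mul_pos h1 (T2_w_pos r hr m)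

private theorem T2_mul_le (P Q : MvPolynomial J k) :
    T2_N v r (P * Q) ≤ T2_N v r P * T2_N v r Q := by
  classical
  rw [T2_le_iff]
  intro m
  rw [MvPolynomial.coeff_mul]
  by_cases hw : T2_w r m = 0
  · rw [hw, mul_zero]
    exact bot_le
  have key : v (∑ x ∈ Finset.HasAntidiagonal.antidiagonal m, P.coeff x.1 * Q.coeff x.2) ≤
      T2_N v r P * T2_N v r Q / T2_w r m := by
    apply v.map_sum_le
    intro x hx
    rw [le_div_iff₀ (pos_iff_ne_zero.mpr hw), v.map_mul]
    have hx' : x.1 + x.2 = m := Finset.HasAntidiagonal.mem_antidiagonal.mp hx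
    rw [← hx', T2_w_add]
    calc v (P.coeff x.1) * v (Q.coeff x.2) * (T2_w r x.1 * T2_w r x.2)
        = (v (P.coeff x.1) * T2_w r x.1) * (v (Q.coeff x.2) * T2_w r x.2) := by ring
      _ ≤ T2_N v r P * T2_N v r Q := mul_le_mul' (T2_le v r P _) (T2_le v r Q _)
  calc _ ≤ T2_N v r P * T2_N v r Q / T2_w r m * T2_w r m := mul_le_mul_left key _
    _ = _ := div_mul_cancel₀ _ hw

private theorem T2_exists_max [LinearOrder J] {P : MvPolynomial J k} (hP : P ≠ 0) :
    ∃ m, v (P.coeff m) * T2_w r m = T2_N v r P ∧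
      ∀ n, toLex m < toLex n → v (P.coeff n) * T2_w r n < T2_N v r P ∨ n ∉ P.support := by
  classical
  have hne : P.support.Nonempty := by
    rwa [Finset.nonempty_iff_ne_empty, Ne, MvPolynomial.support_eq_empty]
  obtain ⟨m0, hm0, hm0'⟩ := Finset.exists_mem_eq_sup P.support hne
    (fun m => v (P.coeff m) * T2_w r m)
  let S := P.support.filter fun m => v (P.coeff m) * T2_w r m = T2_N v r P
  have hS : S.Nonempty := ⟨m0, Finset.mem_filter.mpr ⟨hm0, hm0'.symm⟩⟩
  obtain ⟨m, hmS, hm⟩ := Finset.exists_max_image S (fun m => toLex m) hS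
  refine ⟨m, (Finset.mem_filter.mp hmS).2, fun n hn => ?_⟩
  by_cases hns : n ∈ P.support
  · left
    refine lt_of_le_of_ne (T2_le v r P n) fun h => ?_
    exact absurd (hm n (Finset.mem_filter.mpr ⟨hns, h⟩)) (not_le.mpr hn)
  · exact Or.inr hns

private theorem T2_mul (hr : ∀ j, 0 < r j) (P Q : MvPolynomial J k) :
    T2_N v r (P * Q) = T2_N v r P * T2_N v r Q := by
  classical
  by_cases hP : P = 0
  · rw [hP, zero_mul, T2_zero, zero_mul]
  by_cases hQ : Q = 0
  · rw [hQ, mul_zero, T2_zero, mul_zero]
  refine le_antisymm (T2_mul_le v r P Q) ?_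
  let _ : LinearOrder J := linearOrderOfSTO (WellOrderingRel : J → J → Prop)
  obtain ⟨m0, hm0, hm⟩ := T2_exists_max v r hP
  obtain ⟨n0, hn0, hn⟩ := T2_exists_max v r hQ
  have hPp := T2_pos v r hr hP
  have hQp := T2_pos v r hr hQ
  have hm' : ∀ n, toLex m0 < toLex n → v (P.coeff n) * T2_w r n < T2_N v r P := by
    intro n h
    rcases hm n h with h | h
    · exact h
    · rw [MvPolynomial.notMem_support_iff.mp h]
      simpa using hPp
  have hn' : ∀ n, toLex n0 < toLex n → v (Q.coeff n) * T2_w r n < T2_N v r Q := by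
    intro n h
    rcases hn n h with h | h
    · exact h
    · rw [MvPolynomial.notMem_support_iff.mp h]
      simpa using hQp
  have hmem : (m0, n0) ∈ Finset.HasAntidiagonal.antidiagonal (m0 + n0) := Finset.HasAntidiagonal.mem_antidiagonal.mpr rfl
  have hwpos := T2_w_pos r hr (m0 + n0)
  have hcoef : (P * Q).coeff (m0 + n0) = P.coeff m0 * Q.coeff n0 +
      ∑ x ∈ (Finset.HasAntidiagonal.antidiagonal (m0 + n0)).erase (m0, n0), P.coeff x.1 * Q.coeff x.2 := by
    rw [MvPolynomial.coeff_mul, ← Finset.add_sum_erase _ _ hmem]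
  have hlead : v (P.coeff m0 * Q.coeff n0) * T2_w r (m0 + n0) = T2_N v r P * T2_N v r Q := by
    rw [v.map_mul, T2_w_add, ← hm0, ← hn0]
    ring
  have hrest : v (∑ x ∈ (Finset.HasAntidiagonal.antidiagonal (m0 + n0)).erase (m0, n0),
      P.coeff x.1 * Q.coeff x.2) < v (P.coeff m0 * Q.coeff n0) := by
    apply v.map_sum_lt
    · rw [v.ne_zero_iff]
      have h1 : v (P.coeff m0) * T2_w r m0 ≠ 0 := by rw [hm0]; exact hPp.ne'
      have h2 : v (Q.coeff n0) * T2_w r n0 ≠ 0 := by rw [hn0]; exact hQp.ne'
      exact mul_ne_zero (v.ne_zero_iff.mp (left_ne_zero_of_mul h1))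
        (v.ne_zero_iff.mp (left_ne_zero_of_mul h2))
    · intro x hx
      have hx1 := Finset.mem_erase.mp hx
      have hxs : x.1 + x.2 = m0 + n0 := Finset.HasAntidiagonal.mem_antidiagonal.mp hx1.2
      have hval : v (P.coeff x.1 * Q.coeff x.2) * T2_w r (m0 + n0) <
          v (P.coeff m0 * Q.coeff n0) * T2_w r (m0 + n0) := by
        rw [hlead, v.map_mul, ← hxs, T2_w_add]
        have e : v (P.coeff x.1) * v (Q.coeff x.2) * (T2_w r x.1 * T2_w r x.2)
          = (v (P.coeff x.1) * T2_w r x.1) * (v (Q.coeff x.2) * T2_w r x.2) := by ring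
        rw [e]
        rcases lt_trichotomy (toLex m0) (toLex x.1) with h | h | h
        · calc _ ≤ (v (P.coeff x.1) * T2_w r x.1) * T2_N v r Q :=
                mul_le_mul_right (T2_le v r Q _) _
            _ < _ := mul_lt_mul_of_pos_right (hm' _ h) hQp
        · exfalso
          have h1 : m0 = x.1 := toLex.injective h
          have h2 : n0 = x.2 := by
            rw [← h1] at hxs
            exact (add_left_cancel hxs).symm
          exact hx1.1 (Prod.ext h1.symm h2.symm)
        · have h2 : toLex n0 < toLex x.2 := by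
            by_contra hcon
            have h3 : toLex x.2 ≤ toLex n0 := not_lt.mp hcon
            have h4 : toLex x.1 + toLex x.2 < toLex m0 + toLex n0 := add_lt_add_of_lt_of_le h h3
            have h5 : toLex x.1 + toLex x.2 = toLex m0 + toLex n0 := by
              rw [← toLex_add, ← toLex_add, hxs]
            exact absurd h5 h4.ne
          calc _ ≤ T2_N v r P * (v (Q.coeff x.2) * T2_w r x.2) :=
                mul_le_mul_left (T2_le v r P _) _
            _ < _ := mul_lt_mul_of_pos_left (hn' _ h2) hPp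
      exact lt_of_mul_lt_mul_right hval bot_le
  have hfin : v ((P * Q).coeff (m0 + n0)) = v (P.coeff m0 * Q.coeff n0) := by
    rw [hcoef]
    exact v.map_add_eq_of_lt_left hrest
  calc T2_N v r P * T2_N v r Q = v ((P * Q).coeff (m0 + n0)) * T2_w r (m0 + n0) := by
        rw [hfin, hlead]
    _ ≤ _ := T2_le v r _ _

private noncomputable def T2_val (hr : ∀ j, 0 < r j) : Valuation (MvPolynomial J k) ℝ≥0 where
  toFun := T2_N v r
  map_zero' := T2_zero v r
  map_one' := T2_one v r
  map_mul' := T2_mul v r hr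
  map_add_le_max' := T2_add v r

end

/-- The weighted Gauss norm on `MvPolynomial J k` is multiplicative (for infinitely many variables: two
polynomials only involve finitely many; a linear order / generic perturbation of the weights or the usual
argument with the lexicographically smallest monomial of maximal norm; or induction on the variables with
`Polynomial.gaussNorm`), so it gives a valuation of the field `k(z)`; extend it to `A` by `ext_real`. -/
theorem exists_wt {k A : Type*} [Field k] [Field A] [Algebra k A] {J : Type*} (z : J → A)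
    (hz : AlgebraicIndependent k z) (halg : Algebra.IsAlgebraic (adjoin k (Set.range z)) A)
    (v : Valuation k ℝ≥0) (r : J → ℝ≥0) (hr : ∀ j, 0 < r j) :
    ∃ V : Valuation A ℝ≥0, IsWt v V z r := by
  have hS : nonZeroDivisors (MvPolynomial J k) ≤ (T2_val v r hr).supp.primeCompl := by
    intro x hx hx'
    have h1 : (T2_val v r hr) x = 0 := hx'
    exact (T2_pos v r hr (nonZeroDivisors.ne_zero hx)).ne' h1
  let vL : Valuation (FractionRing (MvPolynomial J k)) ℝ≥0 :=
    (T2_val v r hr).extendToLocalization hS (FractionRing (MvPolynomial J k))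
  let e := hz.aevalEquivField
  let vF : Valuation (adjoin k (Set.range z)) ℝ≥0 := vL.comap (e.symm : _ →+* _)
  obtain ⟨V, hV⟩ := ext_real (L := A) vF
  refine ⟨V, fun P => ?_⟩
  have h1 : MvPolynomial.aeval z P = algebraMap (adjoin k (Set.range z)) A
      (e (algebraMap _ (FractionRing (MvPolynomial J k)) P)) :=
    (hz.aevalEquivField_algebraMap_apply_coe P).symm
  rw [h1, hV]
  change vL (e.symm (e (algebraMap _ (FractionRing (MvPolynomial J k)) P))) = _
  rw [AlgEquiv.symm_apply_apply]
  exact Valuation.extendToLocalization_apply_map_apply _ hS _ P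

end MP2619.N
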