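import Pool.Agent.Lib.MP_2619d0_ag.N.T3a

/-!
Row 2619n-T3c: the dominant coefficient of `∏_σ (Y1 a_σ - Y0 b_σ)`.
-/

set_option autoImplicit false

namespace MP2619.N

open scoped NNReal
open Polynomial

variable {A : Type*} [Field A] (V : Valuation A ℝ≥0) (R : ℝ≥0)

private theorem T3c_gn_one : gn V R 1 = 1 := by
  rw [← C_1, gn_C, map_one]

private theorem T3c_gn_prod {I : Type*} (hR : 0 < R) (s : Finset I) (f : I → A[X]) :
    gn V R (∏ σ ∈ s, f σ) = ∏ σ ∈ s, gn V R (f σ) := by
  classical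
  induction s using Finset.induction_on with
  | empty => simp [T3c_gn_one]
  | insert x s hx ih =>
    rw [Finset.prod_insert hx, Finset.prod_insert hx, gn_mul V R hR, ih]

private theorem T3c_gn_sum_lt {I : Type*} (s : Finset I) (f : I → A[X]) (c : ℝ≥0) (hc : 0 < c)
    (h : ∀ x ∈ s, gn V R (f x) < c) : gn V R (∑ x ∈ s, f x) < c := by
  classical
  induction s using Finset.induction_on with
  | empty => simpa [gn_zero] using hc
  | insert x s hx ih =>
    rw [Finset.sum_insert hx]
    refine lt_of_le_of_lt (gn_add V R _ _) (max_lt (h x (Finset.mem_insert_self _ _)) ?_)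
    exact ih fun y hy => h y (Finset.mem_insert_of_mem hy)

/-- norm of the summand of `S` -/
private theorem T3c_gn_term {I : Type*} [Fintype I] [DecidableEq I] (a b : I → A[X]) (hR : 0 < R)
    (S : Finset I) :
    gn V R ((∏ σ ∈ S, a σ) * ∏ σ ∈ Finset.univ \ S, (- b σ)) =
      ∏ σ, if σ ∈ S then gn V R (a σ) else gn V R (b σ) := by
  rw [gn_mul V R hR, T3c_gn_prod V R hR, T3c_gn_prod V R hR]
  rw [← Finset.prod_sdiff (Finset.subset_univ S), mul_comm]
  congr 1
  · refine Finset.prod_congr rfl fun σ hσ => ?_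
    rw [gn_neg, if_neg (Finset.mem_sdiff.1 hσ).2]
  · refine Finset.prod_congr rfl fun σ hσ => ?_
    rw [if_pos hσ]

/-- The summand of the set `S` has norm `∏_{S} |a| ∏_{not S} |b|`, which is strictly maximal (among all
sets) for `S = {σ : |b σ| < |a σ|}`. (If some `a σ` or `b σ` is zero the other one has positive norm.) -/
theorem esy_max {I : Type*} [Fintype I] [DecidableEq I] (a b : I → A[X]) (hR : 0 < R)
    (hne : ∀ σ, gn V R (a σ) ≠ gn V R (b σ)) (i : ℕ)
    (hi : i ≠ (Finset.univ.filter fun σ => gn V R (b σ) < gn V R (a σ)).card) :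
    gn V R (esy a b i) <
      gn V R (esy a b (Finset.univ.filter fun σ => gn V R (b σ) < gn V R (a σ)).card) := by
  classical
  set T : Finset I := Finset.univ.filter fun σ => gn V R (b σ) < gn V R (a σ) with hT
  have hmem : ∀ σ, σ ∈ T ↔ gn V R (b σ) < gn V R (a σ) := fun σ => by simp [hT]
  set c : ℝ≥0 := ∏ σ, if σ ∈ T then gn V R (a σ) else gn V R (b σ) with hc
  have hpos : ∀ σ, 0 < if σ ∈ T then gn V R (a σ) else gn V R (b σ) := by
    intro σ
    by_cases h : σ ∈ T
    · rw [if_pos h]; exact lt_of_le_of_lt zero_le ((hmem σ).1 h)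
    · rw [if_neg h]
      have h1 : ¬ gn V R (b σ) < gn V R (a σ) := fun h2 => h ((hmem σ).2 h2)
      exact lt_of_le_of_lt zero_le (lt_of_le_of_ne (not_lt.1 h1) (hne σ))
  have hcpos : 0 < c := Finset.prod_pos fun σ _ => hpos σ
  have hle : ∀ (S : Finset I) σ, (if σ ∈ S then gn V R (a σ) else gn V R (b σ)) ≤
      if σ ∈ T then gn V R (a σ) else gn V R (b σ) := by
    intro S σ
    by_cases h : σ ∈ T
    · rw [if_pos h]
      by_cases h' : σ ∈ S
      · rw [if_pos h']
      · rw [if_neg h']; exact ((hmem σ).1 h).le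
    · rw [if_neg h]
      have h1 : ¬ gn V R (b σ) < gn V R (a σ) := fun h2 => h ((hmem σ).2 h2)
      by_cases h' : σ ∈ S
      · rw [if_pos h']; exact not_lt.1 h1
      · rw [if_neg h']
  have hlt : ∀ S : Finset I, S ≠ T →
      gn V R ((∏ σ ∈ S, a σ) * ∏ σ ∈ Finset.univ \ S, (- b σ)) < c := by
    intro S hS
    rw [T3c_gn_term V R a b hR S]
    obtain ⟨τ, hτ⟩ : ∃ τ, ¬ (τ ∈ S ↔ τ ∈ T) := by
      by_contra hcon
      push Not at hcon
      exact hS (Finset.ext hcon)
    rw [hc, ← Finset.mul_prod_erase _ _ (Finset.mem_univ τ),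
      ← Finset.mul_prod_erase Finset.univ
        (fun σ => if σ ∈ T then gn V R (a σ) else gn V R (b σ)) (Finset.mem_univ τ)]
    have h1 : (if τ ∈ S then gn V R (a τ) else gn V R (b τ)) <
        if τ ∈ T then gn V R (a τ) else gn V R (b τ) := by
      by_cases h : τ ∈ T
      · rw [if_pos h]
        have h' : τ ∉ S := fun h' => hτ ⟨fun _ => h, fun _ => h'⟩
        rw [if_neg h']; exact (hmem τ).1 h
      · rw [if_neg h]
        have h' : τ ∈ S := by
          by_contra h'
          exact hτ ⟨fun q => absurd q h', fun q => absurd q h⟩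
        rw [if_pos h']
        have h1 : ¬ gn V R (b τ) < gn V R (a τ) := fun h2 => h ((hmem τ).2 h2)
        exact lt_of_le_of_ne (not_lt.1 h1) (hne τ)
    have h2 : (∏ σ ∈ Finset.univ.erase τ, if σ ∈ S then gn V R (a σ) else gn V R (b σ)) ≤
        ∏ σ ∈ Finset.univ.erase τ, if σ ∈ T then gn V R (a σ) else gn V R (b σ) :=
      Finset.prod_le_prod' fun σ _ => hle S σ
    have h3 : 0 < ∏ σ ∈ Finset.univ.erase τ, if σ ∈ T then gn V R (a σ) else gn V R (b σ) :=
      Finset.prod_pos fun σ _ => hpos σ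
    exact mul_lt_mul_of_lt_of_le_of_nonneg_of_pos h1 h2 zero_le h3
  have hmain : gn V R (esy a b T.card) = c := by
    have hTm : T ∈ Finset.univ.powersetCard T.card := by
      rw [Finset.mem_powersetCard]; exact ⟨Finset.subset_univ _, rfl⟩
    unfold esy
    rw [← Finset.add_sum_erase _ _ hTm]
    have hT0 : gn V R ((∏ σ ∈ T, a σ) * ∏ σ ∈ Finset.univ \ T, (- b σ)) = c :=
      T3c_gn_term V R a b hR T
    rw [gn_add_lt V R, hT0]
    rw [hT0]
    refine T3c_gn_sum_lt V R _ _ c hcpos fun S hS => hlt S (Finset.ne_of_mem_erase hS)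
  rw [hmain]
  unfold esy
  refine T3c_gn_sum_lt V R _ _ c hcpos fun S hS => hlt S ?_
  rintro rfl
  exact hi (Finset.mem_powersetCard.1 hS).2.symm

end MP2619.N
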