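import Pool.Agent.Lib.MP_2619d0_ag.N.T3

/-!
Row 2619n-T4a: the symmetric expressions have coefficients in `B(g)`.

Proof. `A` is an algebraic closure of the perfect field `B(g)`. Let `E` be generated over `B(g)` by the `ρ j`
(finite over `B(g)`), `σ` a system of automorphisms of `A` over `B(g)` extending the `d = [E : B(g)]` embeddings
`E → A` (for `σ i0` take the identity). An automorphism `τ` of `A` over `B(g)` permutes the restrictions
`σ s | E`, so it permutes the polynomials `∏ (X - σ_s (ρ j))`, hence fixes `esy ..`. So the coefficients are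
in the fixed field `B(g)`. Multiply by a common denominator in `B[g]` (finitely many `i ≤ d`; `esy .. i = 0` for
`i > d`).
-/

set_option autoImplicit false

namespace MP2619.N

open scoped NNReal
open Polynomial

private theorem T4a_evp_coeff {A : Type*} [Field A] (p : A[X]) (n : ℕ) :
    (evp p).coeff n = if Even n then p.coeff n else 0 := by
  unfold evp
  rw [finsetSum_coeff]
  simp only [coeff_monomial]
  rw [Finset.sum_ite_eq']
  by_cases he : Even n
  · by_cases hn : n ∈ p.support
    · simp [he, hn]
    · have h0 : p.coeff n = 0 := by simpa using hn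
      simp [he, h0]
  · simp [he]

private theorem T4a_odp_coeff {A : Type*} [Field A] (p : A[X]) (n : ℕ) :
    (odp p).coeff n = if ¬ Even n then p.coeff n else 0 := by
  unfold odp
  rw [finsetSum_coeff]
  simp only [coeff_monomial]
  rw [Finset.sum_ite_eq']
  by_cases he : Even n
  · simp [he]
  · by_cases hn : n ∈ p.support
    · simp [he, hn]
    · have h0 : p.coeff n = 0 := by simpa using hn
      simp [he, h0]

private theorem T4a_evp_map {A : Type*} [Field A] (τ : A →+* A) (p : A[X]) :
    (evp p).map τ = evp (p.map τ) := by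
  ext n
  rw [coeff_map, T4a_evp_coeff, T4a_evp_coeff, coeff_map]
  split_ifs <;> simp

private theorem T4a_odp_map {A : Type*} [Field A] (τ : A →+* A) (p : A[X]) :
    (odp p).map τ = odp (p.map τ) := by
  ext n
  rw [coeff_map, T4a_odp_coeff, T4a_odp_coeff, coeff_map]
  split_ifs <;> simp

private theorem T4a_esy_map {A : Type*} [Field A] {I : Type*} [Fintype I] [DecidableEq I]
    (τ : A →+* A) (a b : I → A[X]) (i : ℕ) :
    (esy a b i).map τ = esy (fun s => (a s).map τ) (fun s => (b s).map τ) i := by
  unfold esy
  rw [Polynomial.map_sum]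
  refine Finset.sum_congr rfl (fun S _ => ?_)
  rw [Polynomial.map_mul, Polynomial.map_prod, Polynomial.map_prod]
  congr 1
  refine Finset.prod_congr rfl (fun s _ => ?_)
  rw [Polynomial.map_neg]

private theorem T4a_esy_perm {A : Type*} [Field A] {I : Type*} [Fintype I] [DecidableEq I]
    (π : Equiv.Perm I) (a b : I → A[X]) (i : ℕ) :
    esy (fun s => a (π s)) (fun s => b (π s)) i = esy a b i := by
  unfold esy
  refine Finset.sum_bij (fun S _ => S.map π.toEmbedding) ?_ ?_ ?_ ?_
  · intro S hS
    rw [Finset.mem_powersetCard] at hS ⊢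
    exact ⟨Finset.subset_univ _, by rw [Finset.card_map, hS.2]⟩
  · intro S _ S' _ h
    exact Finset.map_injective _ h
  · intro S hS
    rw [Finset.mem_powersetCard] at hS
    refine ⟨S.map π.symm.toEmbedding, ?_, ?_⟩
    · rw [Finset.mem_powersetCard]
      exact ⟨Finset.subset_univ _, by rw [Finset.card_map, hS.2]⟩
    · ext x
      simp
  · intro S _
    rw [Finset.prod_map]
    congr 1
    have h : Finset.univ \ (S.map π.toEmbedding) = (Finset.univ \ S).map π.toEmbedding := by
      ext x
      simp only [Finset.mem_sdiff, Finset.mem_univ, true_and, Finset.mem_map_equiv]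
    rw [h, Finset.prod_map]
    rfl

open IntermediateField in
private theorem T4a_denom {B A : Type*} [Field B] [Field A] [Algebra B A]
    (g : A) (hg : Transcendental B g) (T : Finset A) :
    (∀ z ∈ T, z ∈ adjoin B {g}) →
      ∃ q : B[X], q ≠ 0 ∧ ∀ z ∈ T, ∃ p : B[X], aeval g q * z = aeval g p := by
  classical
  induction T using Finset.induction_on with
  | empty => exact fun _ => ⟨1, one_ne_zero, fun z hz => absurd hz (Finset.notMem_empty z)⟩
  | insert a T _ ih =>
    intro h
    obtain ⟨q, hq, hT⟩ := ih (fun z hz => h z (Finset.mem_insert_of_mem hz))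
    obtain ⟨r, s, hrs⟩ := (mem_adjoin_simple_iff B a).1 (h a (Finset.mem_insert_self a T))
    have hinj : Function.Injective (aeval g : B[X] →ₐ[B] A) :=
      transcendental_iff_injective.1 hg
    by_cases hs : s = 0
    · refine ⟨q, hq, fun z hz => ?_⟩
      rcases Finset.mem_insert.1 hz with rfl | hz
      · refine ⟨0, ?_⟩
        rw [hrs, hs]
        simp
      · exact hT z hz
    · have hs' : aeval g s ≠ 0 := by
        intro h0
        exact hs (hinj (by rw [h0, map_zero]))
      refine ⟨q * s, mul_ne_zero hq hs, fun z hz => ?_⟩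
      rcases Finset.mem_insert.1 hz with rfl | hz
      · refine ⟨q * r, ?_⟩
        rw [hrs, map_mul, map_mul, mul_assoc, mul_div_cancel₀ _ hs']
      · obtain ⟨p, hp⟩ := hT z hz
        refine ⟨p * s, ?_⟩
        rw [map_mul, map_mul, ← hp]
        ring

open IntermediateField in
theorem sym_coeff {B A : Type*} [Field B] [Field A] [Algebra B A] [IsAlgClosed A] [CharZero A]
    (g : A) (hg : Transcendental B g) (halg : Algebra.IsAlgebraic (adjoin B {g}) A)
    {N : ℕ} (ρ : Fin N → A) :
    ∃ (d : ℕ) (σ : Fin d → (A ≃ₐ[B] A)) (i0 : Fin d), (∀ s, σ s g = g) ∧ (∀ j, σ i0 (ρ j) = ρ j) ∧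
      ∃ (q : B[X]) (P : ℕ → B[X][X]), q ≠ 0 ∧ ∀ i,
        C (aeval g q) * esy (fun s => evp (∏ j, (X - C (σ s (ρ j)))))
            (fun s => odp (∏ j, (X - C (σ s (ρ j))))) i =
          (P i).map (aeval g : B[X] →ₐ[B] A).toRingHom := by
  classical
  set F0 : IntermediateField B A := adjoin B {g} with hF0
  haveI hclos : IsAlgClosure F0 A := ⟨inferInstance, halg⟩
  haveI hnorm : Normal F0 A := IsAlgClosure.normal F0 A
  haveI hchar : CharZero F0 := (algebraMap F0 A).charZero
  haveI hgal : IsGalois F0 A := ⟨⟩
  -- the finite extension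
  set E : IntermediateField F0 A := adjoin F0 (Set.range ρ) with hE
  haveI hfin : FiniteDimensional F0 E := by
    refine finiteDimensional_adjoin (fun x _ => ?_)
    exact (Algebra.IsAlgebraic.isAlgebraic x).isIntegral
  have hρ : ∀ j, ρ j ∈ E := fun j => subset_adjoin F0 _ ⟨j, rfl⟩
  let I := E →ₐ[F0] A
  haveI : Fintype I := minpoly.AlgHom.fintype F0 E A
  -- extensions
  let ex : I → Gal(A/F0) := fun φ => AlgEquiv.ofBijective (φ.liftNormal A)
    (AlgHom.normal_bijective F0 A A _)
  have hex : ∀ (φ : I) (x : E), ex φ (x : A) = φ x := by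
    intro φ x
    exact AlgHom.liftNormal_commutes φ A x
  let e : Fin (Fintype.card I) ≃ I := (Fintype.equivFin I).symm
  let σ0 : Fin (Fintype.card I) → Gal(A/F0) := fun s => ex (e s)
  have hσ0 : ∀ s j, σ0 s (ρ j) = e s ⟨ρ j, hρ j⟩ := fun s j => hex (e s) ⟨ρ j, hρ j⟩
  have hg0 : g ∈ F0 := mem_adjoin_simple_self B g
  refine ⟨Fintype.card I, fun s => (σ0 s).restrictScalars B, e.symm E.val, ?_, ?_, ?_⟩
  · intro s
    have := (σ0 s).commutes ⟨g, hg0⟩
    exact this
  · intro j
    change σ0 (e.symm E.val) (ρ j) = ρ j
    rw [hσ0, Equiv.apply_symm_apply]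
    rfl
  · -- the polynomials
    have hval : ∀ s j, ((σ0 s).restrictScalars B : A ≃ₐ[B] A) (ρ j) = e s ⟨ρ j, hρ j⟩ :=
      fun s j => hσ0 s j
    simp only [hval]
    set f : Fin (Fintype.card I) → A[X] := fun s => ∏ j, (X - C (e s ⟨ρ j, hρ j⟩)) with hf
    set Q : ℕ → A[X] := fun i => esy (fun s => evp (f s)) (fun s => odp (f s)) i with hQ
    -- invariance
    have hinv : ∀ (τ : Gal(A/F0)) i, (Q i).map (τ : A →+* A) = Q i := by
      intro τ i
      let πf : I → I := fun φ => (τ : A →ₐ[F0] A).comp φ
      have hπinj : Function.Injective πf := by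
        intro φ ψ h
        ext x
        have := DFunLike.congr_fun h x
        exact τ.injective this
      have hπb : Function.Bijective πf := Finite.injective_iff_bijective.1 hπinj
      let π : Equiv.Perm (Fin (Fintype.card I)) := (e.trans (Equiv.ofBijective πf hπb)).trans e.symm
      have hπ : ∀ s, e (π s) = πf (e s) := by
        intro s
        change e (e.symm (πf (e s))) = πf (e s)
        rw [Equiv.apply_symm_apply]
      have hfm : ∀ s, (f s).map (τ : A →+* A) = f (π s) := by
        intro s
        rw [hf]
        simp only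
        rw [Polynomial.map_prod]
        refine Finset.prod_congr rfl (fun j _ => ?_)
        rw [Polynomial.map_sub, Polynomial.map_X, Polynomial.map_C, hπ]
        rfl
      rw [hQ]
      simp only
      rw [T4a_esy_map]
      simp only [T4a_evp_map, T4a_odp_map, hfm]
      exact T4a_esy_perm π (fun s => evp (f s)) (fun s => odp (f s)) i
    have hmem : ∀ i n, (Q i).coeff n ∈ F0 := by
      intro i n
      have h1 : ∀ τ : Gal(A/F0), τ ((Q i).coeff n) = (Q i).coeff n := by
        intro τ
        have := congrArg (fun p => p.coeff n) (hinv τ i)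
        simp only [coeff_map] at this
        exact this
      have h2 := (InfiniteGalois.mem_bot_iff_fixed (k := F0) ((Q i).coeff n)).2 h1
      rw [mem_bot] at h2
      obtain ⟨y, hy⟩ := h2
      rw [← hy]
      exact y.2
    -- common denominator
    set T : Finset A := (Finset.range (Fintype.card I + 1)).biUnion (fun i => (Q i).support.image
      (fun n => (Q i).coeff n)) with hT
    obtain ⟨q, hq, hqT⟩ := T4a_denom g hg T (by
      intro z hz
      rw [hT, Finset.mem_biUnion] at hz
      obtain ⟨i, -, hz⟩ := hz
      rw [Finset.mem_image] at hz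
      obtain ⟨n, -, rfl⟩ := hz
      exact hmem i n)
    have hlift : ∀ i, ∃ P : B[X][X], C (aeval g q) * Q i
        = P.map (aeval g : B[X] →ₐ[B] A).toRingHom := by
      intro i
      have h1 : C (aeval g q) * Q i ∈ Polynomial.lifts (aeval g : B[X] →ₐ[B] A).toRingHom := by
        rw [Polynomial.lifts_iff_coeff_lifts]
        intro n
        rw [coeff_C_mul]
        by_cases hn : (Q i).coeff n = 0
        · rw [hn, mul_zero]
          exact ⟨0, map_zero _⟩
        · have hi : i < Fintype.card I + 1 := by
            by_contra hi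
            push Not at hi
            have : Q i = 0 := by
              rw [hQ]
              simp only
              unfold esy
              rw [Finset.powersetCard_eq_empty.2 (by
                rw [Finset.card_univ, Fintype.card_fin]; omega), Finset.sum_empty]
            rw [this] at hn
            exact hn (coeff_zero n)
          obtain ⟨p, hp⟩ := hqT ((Q i).coeff n) (by
            rw [hT, Finset.mem_biUnion]
            refine ⟨i, Finset.mem_range.2 hi, Finset.mem_image.2 ⟨n, ?_, rfl⟩⟩
            exact mem_support_iff.2 hn)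
          exact ⟨p, hp.symm⟩
      rw [Polynomial.mem_lifts] at h1
      obtain ⟨P, hP⟩ := h1
      exact ⟨P, hP.symm⟩
    choose P hP using hlift
    exact ⟨q, P, hq, hP⟩

end MP2619.N
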