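import Pool.Agent.Lib.MP_2619d0_ag.N.T3b
import Pool.Agent.Lib.MP_2619d0_ag.N.T3c
import Pool.Agent.Lib.MP_2619d0_ag.N.T4a

/-!
Row 2619n-T4: THEOREM T, transport of a parity along a path of real valuations (section 1 of the paper
/team-store/2619NP_paper_helper9.md). Uses `sym_coeff`, `gn_even`, `gn_odd`, `esy_max`, `gn_mul`.

For `V` with `Ov v g t V` one has `gn V R (P.map (aeval g)) = max_{jl} v(c_jl) t^j R^l` for `P` in `B[X][X]` with
coefficients `c_jl`: a continuous function of `(t, R)` which does not depend on `V`. If `V` is such a valuation,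
so is `V ∘ σ s`.
-/

set_option autoImplicit false

namespace MP2619.N

open scoped NNReal Topology
open Polynomial

private theorem T4_gn_sup {A : Type*} [Field A] (V : Valuation A ℝ≥0) (R : ℝ≥0) (p : A[X])
    (s : Finset ℕ) (hs : p.support ⊆ s) : gn V R p = s.sup fun i => V (p.coeff i) * R ^ i := by
  unfold gn
  apply le_antisymm
  · exact Finset.sup_mono hs
  · refine Finset.sup_le fun i hi => ?_
    by_cases h : i ∈ p.support
    · exact Finset.le_sup (f := fun i => V (p.coeff i) * R ^ i) h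
    · rw [Polynomial.notMem_support_iff.1 h, map_zero, zero_mul]
      exact zero_le

private noncomputable def T4_n {B : Type*} [Field B] (v : Valuation B ℝ≥0) (P : B[X][X])
    (t R : ℝ≥0) : ℝ≥0 :=
  P.support.sup fun l => ((P.coeff l).support.sup fun j => v ((P.coeff l).coeff j) * t ^ j) * R ^ l

private theorem T4_n_cont {B : Type*} [Field B] (v : Valuation B ℝ≥0) (P : B[X][X]) :
    Continuous fun x : ℝ≥0 × ℝ≥0 => T4_n v P x.1 x.2 := by
  unfold T4_n
  refine Continuous.finset_sup_apply fun l _ => ?_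
  refine Continuous.mul ?_ (continuous_snd.pow l)
  refine Continuous.finset_sup_apply fun j _ => ?_
  exact continuous_const.mul (continuous_fst.pow j)

private theorem T4_gn_map {B A : Type*} [Field B] [Field A] [Algebra B A] (g : A)
    (v : Valuation B ℝ≥0) (t R : ℝ≥0) (V : Valuation A ℝ≥0) (hV : Ov v g t V) (P : B[X][X]) :
    gn V R (P.map (aeval g : B[X] →ₐ[B] A).toRingHom) = T4_n v P t R := by
  rw [T4_gn_sup V R _ P.support (Polynomial.support_map_subset _ _)]
  unfold T4_n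
  refine Finset.sup_congr rfl fun l _ => ?_
  rw [Polynomial.coeff_map]
  congr 1
  exact hV (P.coeff l)

private theorem T4_comap {B A : Type*} [Field B] [Field A] [Algebra B A] (g : A)
    (v : Valuation B ℝ≥0) (t : ℝ≥0) (V : Valuation A ℝ≥0) (hV : Ov v g t V) (s : A ≃ₐ[B] A)
    (hs : s g = g) : Ov v g t (V.comap (s : A →+* A)) := by
  intro p
  rw [← hV p]
  show V (s (aeval g p)) = V (aeval g p)
  congr 1
  have h : aeval (s g) p = s (aeval g p) := Polynomial.aeval_algHom_apply s.toAlgHom g p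
  rw [← h, hs]

private theorem T4_par {N : ℕ} (f : Fin N → ℝ≥0) (R : ℝ≥0) (hR : 1 < R)
    (h : ∀ r, 1 < r → r < R → Even (Finset.univ.filter fun i => f i = r).card) :
    Even (Finset.univ.filter fun i => f i < R).card ↔
      Even (Finset.univ.filter fun i => f i ≤ 1).card := by
  have h1 : (Finset.univ.filter fun i => f i < R).card =
      (Finset.univ.filter fun i => f i ≤ 1).card +
        (Finset.univ.filter fun i => 1 < f i ∧ f i < R).card := by
    rw [← Finset.card_union_of_disjoint]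
    · congr 1
      ext i
      simp only [Finset.mem_filter, Finset.mem_univ, true_and, Finset.mem_union]
      constructor
      · intro hi
        by_cases h2 : f i ≤ 1
        · exact Or.inl h2
        · exact Or.inr ⟨not_le.1 h2, hi⟩
      · rintro (hi | hi)
        · exact lt_of_le_of_lt hi hR
        · exact hi.2
    · rw [Finset.disjoint_left]
      intro i hi hi'
      simp only [Finset.mem_filter, Finset.mem_univ, true_and] at hi hi'
      exact absurd hi'.1 (not_lt.2 hi)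
  have h2 : Even (Finset.univ.filter fun i => 1 < f i ∧ f i < R).card := by
    rw [Finset.card_eq_sum_card_image f]
    refine Finset.even_sum _ fun b hb => ?_
    obtain ⟨i, hi, rfl⟩ := Finset.mem_image.1 hb
    simp only [Finset.mem_filter, Finset.mem_univ, true_and] at hi
    have := h (f i) hi.1 hi.2
    have he : ((Finset.univ.filter fun i => 1 < f i ∧ f i < R).filter fun a => f a = f i) =
        Finset.univ.filter fun j => f j = f i := by
      ext j
      simp only [Finset.mem_filter, Finset.mem_univ, true_and]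
      constructor
      · exact fun hj => hj.2
      · exact fun hj => ⟨by rw [hj]; exact hi, hj⟩
    rw [he]
    exact this
  rw [h1, Nat.even_add]
  constructor
  · intro h3; exact h3.2 h2
  · intro h3; exact ⟨fun _ => h2, fun _ => h3⟩

/-- number of conjugates with an even number of roots of norm `< R` -/
private noncomputable def T4_I {B A : Type*} [Field B] [Field A] [Algebra B A]
    {N d : ℕ} (ρ : Fin N → A) (σ : Fin d → (A ≃ₐ[B] A)) (V : Valuation A ℝ≥0) (R : ℝ≥0) : ℕ :=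
  (Finset.univ.filter fun s => Even (Finset.univ.filter fun i => V (σ s (ρ i)) < R).card).card

/-- number of conjugates with an even number of roots of norm `≤ 1` -/
private noncomputable def T4_J {B A : Type*} [Field B] [Field A] [Algebra B A]
    {N d : ℕ} (ρ : Fin N → A) (σ : Fin d → (A ≃ₐ[B] A)) (V : Valuation A ℝ≥0) : ℕ :=
  (Finset.univ.filter fun s => Even (Finset.univ.filter fun i => V (σ s (ρ i)) ≤ 1).card).card

private theorem T4_dom {B A : Type*} [Field B] [Field A] [Algebra B A]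
    (g : A) (hg : Transcendental B g)
    (v : Valuation B ℝ≥0) (t R : ℝ≥0) (hR : 0 < R) (V : Valuation A ℝ≥0) (hV : Ov v g t V)
    {N d : ℕ} (ρ : Fin N → A) (σ : Fin d → (A ≃ₐ[B] A)) (q : B[X]) (P : ℕ → B[X][X])
    (hq : q ≠ 0)
    (hP : ∀ i, C (aeval g q) * esy (fun s => evp (∏ j, (X - C (σ s (ρ j)))))
            (fun s => odp (∏ j, (X - C (σ s (ρ j))))) i =
          (P i).map (aeval g : B[X] →ₐ[B] A).toRingHom)
    (hgen : ∀ s i, V (σ s (ρ i)) ≠ R) (i : ℕ) (hi : i ≠ T4_I ρ σ V R) :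
    T4_n v (P i) t R < T4_n v (P (T4_I ρ σ V R)) t R := by
  rw [← T4_gn_map g v t R V hV, ← T4_gn_map g v t R V hV, ← hP, ← hP, gn_mul V R hR,
    gn_mul V R hR, gn_C]
  have hq' : 0 < V (aeval g q) := by
    rw [zero_lt_iff, V.ne_zero_iff]
    intro h
    exact hq (transcendental_iff.1 hg q h)
  have hne : ∀ s, gn V R (evp (∏ j, (X - C (σ s (ρ j))))) ≠ gn V R (odp (∏ j, (X - C (σ s (ρ j))))) := by
    intro s
    by_cases h : Even (Finset.univ.filter fun i => V (σ s (ρ i)) < R).card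
    · exact (gn_even V R (fun j => σ s (ρ j)) hR (hgen s) h).ne'
    · exact (gn_odd V R (fun j => σ s (ρ j)) hR (hgen s) h).ne
  have hcard : (Finset.univ.filter fun s => gn V R (odp (∏ j, (X - C (σ s (ρ j))))) <
      gn V R (evp (∏ j, (X - C (σ s (ρ j)))))).card = T4_I ρ σ V R := by
    unfold T4_I
    congr 1
    ext s
    simp only [Finset.mem_filter, Finset.mem_univ, true_and]
    constructor
    · intro h
      by_contra h'
      exact absurd h (not_lt.2 (gn_odd V R (fun j => σ s (ρ j)) hR (hgen s) h').le)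
    · intro h
      exact gn_even V R (fun j => σ s (ρ j)) hR (hgen s) h
  have key := esy_max V R (fun s => evp (∏ j, (X - C (σ s (ρ j)))))
    (fun s => odp (∏ j, (X - C (σ s (ρ j))))) hR hne i (by rw [hcard]; exact hi)
  rw [hcard] at key
  exact mul_lt_mul_of_pos_left key hq'

private theorem T4_J_le {B A : Type*} [Field B] [Field A] [Algebra B A]
    {N d : ℕ} (ρ : Fin N → A) (σ : Fin d → (A ≃ₐ[B] A)) (V : Valuation A ℝ≥0) :
    T4_J ρ σ V < d + 1 := by
  unfold T4_J
  have := Finset.card_filter_le (Finset.univ : Finset (Fin d))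
    (fun s => Even (Finset.univ.filter fun i => V (σ s (ρ i)) ≤ 1).card)
  rw [Finset.card_univ, Fintype.card_fin] at this
  omega

private theorem T4_IJ {B A : Type*} [Field B] [Field A] [Algebra B A]
    (g : A) (v : Valuation B ℝ≥0) (t0 t R : ℝ≥0) (hR1 : 1 < R) (hR2 : R < t0⁻¹)
    (V : Valuation A ℝ≥0) (hV : Ov v g t V) (h0t : t0 ≤ t) (ht1 : t < 1)
    {N d : ℕ} (ρ : Fin N → A) (σ : Fin d → (A ≃ₐ[B] A)) (hσ : ∀ s, σ s g = g)
    (hG : ∀ t, t0 ≤ t → t < 1 → ∀ V : Valuation A ℝ≥0, Ov v g t V → ∀ R : ℝ≥0, 1 < R → R < t0⁻¹ →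
      Even (Finset.univ.filter fun i => V (ρ i) = R).card) :
    T4_I ρ σ V R = T4_J ρ σ V := by
  unfold T4_I T4_J
  congr 1
  ext s
  simp only [Finset.mem_filter, Finset.mem_univ, true_and]
  refine T4_par (fun i => V (σ s (ρ i))) R hR1 fun r hr1 hr2 => ?_
  exact hG t h0t ht1 (V.comap ((σ s : A ≃ₐ[B] A) : A →+* A)) (T4_comap g v t V hV (σ s) (hσ s)) r
    hr1 (hr2.trans hR2)

private theorem T4_loc {B A : Type*} [Field B] [Field A] [Algebra B A]
    (g : A) (hg : Transcendental B g)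
    (v : Valuation B ℝ≥0) (t0 t1 : ℝ≥0) (h0 : 0 < t0) (ht01 : t0 < 1)
    (V1 : Valuation A ℝ≥0) (hV1 : Ov v g t1 V1)
    {N d : ℕ} (ρ : Fin N → A) (σ : Fin d → (A ≃ₐ[B] A)) (hσ : ∀ s, σ s g = g)
    (q : B[X]) (P : ℕ → B[X][X])
    (hq : q ≠ 0)
    (hP : ∀ i, C (aeval g q) * esy (fun s => evp (∏ j, (X - C (σ s (ρ j)))))
            (fun s => odp (∏ j, (X - C (σ s (ρ j))))) i =
          (P i).map (aeval g : B[X] →ₐ[B] A).toRingHom)
    (hG : ∀ t, t0 ≤ t → t < 1 → ∀ V : Valuation A ℝ≥0, Ov v g t V → ∀ R : ℝ≥0, 1 < R → R < t0⁻¹ →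
      Even (Finset.univ.filter fun i => V (ρ i) = R).card) :
    ∀ᶠ t in 𝓝 t1, ∀ V : Valuation A ℝ≥0, Ov v g t V → t0 ≤ t → t < 1 →
      T4_J ρ σ V = T4_J ρ σ V1 := by
  have hinv : (1 : ℝ≥0) < t0⁻¹ := (one_lt_inv₀ h0).2 ht01
  -- choice of `R1`
  have hR : ∀ᶠ R in 𝓝[>] (1 : ℝ≥0), R < t0⁻¹ ∧ ∀ s i, V1 (σ s (ρ i)) ≤ 1 ∨ R < V1 (σ s (ρ i)) := by
    refine Filter.Eventually.and ?_ ?_
    · exact (eventually_lt_nhds hinv).filter_mono nhdsWithin_le_nhds
    · rw [Filter.eventually_all]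
      intro s
      rw [Filter.eventually_all]
      intro i
      by_cases h : V1 (σ s (ρ i)) ≤ 1
      · exact Filter.Eventually.of_forall fun _ => Or.inl h
      · exact ((eventually_lt_nhds (not_le.1 h)).filter_mono nhdsWithin_le_nhds).mono
          fun _ hx => Or.inr hx
  obtain ⟨R1, ⟨hR1a, hR1b⟩, hR1⟩ := (hR.and self_mem_nhdsWithin).exists
  have hR1' : 1 < R1 := hR1
  have hgen : ∀ s i, V1 (σ s (ρ i)) ≠ R1 := by
    intro s i
    rcases hR1b s i with h | h
    · exact (lt_of_le_of_lt h hR1').ne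
    · exact h.ne'
  have hIJ : T4_I ρ σ V1 R1 = T4_J ρ σ V1 := by
    unfold T4_I T4_J
    congr 1
    ext s
    simp only [Finset.mem_filter, Finset.mem_univ, true_and]
    have : (Finset.univ.filter fun i => V1 (σ s (ρ i)) < R1) =
        (Finset.univ.filter fun i => V1 (σ s (ρ i)) ≤ 1) := by
      ext i
      simp only [Finset.mem_filter, Finset.mem_univ, true_and]
      constructor
      · intro h
        rcases hR1b s i with h' | h'
        · exact h'
        · exact absurd h (not_lt.2 h'.le)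
      · intro h
        exact lt_of_le_of_lt h hR1'
    rw [this]
  have hdom := T4_dom g hg v t1 R1 (zero_lt_one.trans hR1') V1 hV1 ρ σ q P hq hP hgen
  rw [hIJ] at hdom
  have hev : ∀ᶠ x in 𝓝 (t1, R1), (∀ i ∈ Finset.range (d + 1), i ≠ T4_J ρ σ V1 →
      T4_n v (P i) x.1 x.2 < T4_n v (P (T4_J ρ σ V1)) x.1 x.2) ∧ 1 < x.2 ∧ x.2 < t0⁻¹ := by
    refine Filter.Eventually.and ?_ (Filter.Eventually.and ?_ ?_)
    · rw [Filter.eventually_all_finset]
      intro i _
      by_cases h : i = T4_J ρ σ V1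
      · exact Filter.Eventually.of_forall fun x h' => absurd h h'
      · have := (T4_n_cont v (P i)).continuousAt.eventually_lt
          (T4_n_cont v (P (T4_J ρ σ V1))).continuousAt (x₀ := (t1, R1)) (hdom i h)
        exact this.mono fun x hx _ => hx
    · exact continuous_snd.continuousAt.eventually_const_lt hR1'
    · exact continuous_snd.continuousAt.eventually_lt_const hR1a
  refine hev.curry_nhds.mono fun t ht V hV h0t h1t => ?_
  have hfin : (Set.range fun x : Fin d × Fin N => V (σ x.1 (ρ x.2))).Finite := Set.finite_range _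
  have : (𝓝[≠] R1).NeBot := (nhdsGT_neBot R1).mono (nhdsWithin_mono _ fun x hx => ne_of_gt hx)
  obtain ⟨R, hRm, hRn⟩ := ((infinite_of_mem_nhds R1 ht).sdiff hfin).nonempty
  obtain ⟨hRa, hRb, hRc⟩ := hRm
  have hgen' : ∀ s i, V (σ s (ρ i)) ≠ R := fun s i h => hRn ⟨(s, i), h⟩
  have hdom' := T4_dom g hg v t R (zero_lt_one.trans hRb) V hV ρ σ q P hq hP hgen'
  rw [T4_IJ g v t0 t R hRb hRc V hV h0t h1t ρ σ hσ hG] at hdom'
  by_contra hne
  have e1 := hdom' (T4_J ρ σ V1) (fun h => hne h.symm)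
  have e2 := hRa (T4_J ρ σ V) (Finset.mem_range.2 (T4_J_le ρ σ V)) hne
  exact absurd e1 (not_lt.2 e2.le)

open IntermediateField in
theorem transport {B A : Type*} [Field B] [Field A] [Algebra B A] [IsAlgClosed A] [CharZero A]
    (g : A) (hg : Transcendental B g) (halg : Algebra.IsAlgebraic (adjoin B {g}) A)
    (v : Valuation B ℝ≥0) (t0 : ℝ≥0) (ht0 : 0 < t0) (ht1 : t0 < 1)
    (hex : ∀ t, t0 ≤ t → t ≤ 1 → ∃ V : Valuation A ℝ≥0, Ov v g t V)
    {N : ℕ} (ρ : Fin N → A)
    (hG : ∀ t, t0 ≤ t → t < 1 → ∀ V : Valuation A ℝ≥0, Ov v g t V → ∀ R : ℝ≥0, 1 < R → R < t0⁻¹ →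
      Even (Finset.univ.filter fun i => V (ρ i) = R).card)
    (h1 : ∀ V : Valuation A ℝ≥0, Ov v g 1 V → Even (Finset.univ.filter fun i => V (ρ i) ≤ 1).card)
    (V : Valuation A ℝ≥0) (hV : Ov v g t0 V) :
    Even (Finset.univ.filter fun i => V (ρ i) ≤ 1).card := by
  obtain ⟨d, σ, i0, hσ, hi0, q, P, hq, hP⟩ := sym_coeff g hg halg ρ
  have : Nonempty (Valuation A ℝ≥0) := ⟨V⟩
  choose! W hW using hex
  have hloc := fun (t1 : ℝ≥0) (V1 : Valuation A ℝ≥0) (hV1 : Ov v g t1 V1) =>
    T4_loc g hg v t0 t1 ht0 ht1 V1 hV1 ρ σ hσ q P hq hP hG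
  have : PreconnectedSpace (Set.Icc t0 (1 : ℝ≥0)) := Subtype.preconnectedSpace isPreconnected_Icc
  have hlc : IsLocallyConstant fun t : Set.Icc t0 (1 : ℝ≥0) => T4_J ρ σ (W t) := by
    rw [IsLocallyConstant.iff_eventually_eq]
    intro t1
    have h := hloc t1 (W t1) (hW t1 t1.2.1 t1.2.2)
    have h' : ∀ᶠ t : Set.Icc t0 (1 : ℝ≥0) in 𝓝 t1, ∀ V : Valuation A ℝ≥0, Ov v g t V →
        t0 ≤ (t : ℝ≥0) → (t : ℝ≥0) < 1 → T4_J ρ σ V = T4_J ρ σ (W t1) :=
      (continuous_subtype_val.tendsto t1).eventually h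
    by_cases h2 : (t1 : ℝ≥0) < 1
    · have h3 : ∀ᶠ t : Set.Icc t0 (1 : ℝ≥0) in 𝓝 t1, (t : ℝ≥0) < 1 :=
        continuous_subtype_val.continuousAt.eventually_lt_const h2
      filter_upwards [h', h3] with t ha hb
      exact ha (W t) (hW t t.2.1 t.2.2) t.2.1 hb
    · have h4 : (t1 : ℝ≥0) = 1 := le_antisymm t1.2.2 (not_lt.1 h2)
      filter_upwards [h'] with t ha
      by_cases h5 : (t : ℝ≥0) < 1
      · exact ha (W t) (hW t t.2.1 t.2.2) t.2.1 h5
      · have h6 : (t : ℝ≥0) = 1 := le_antisymm t.2.2 (not_lt.1 h5)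
        rw [h4, h6]
  have hJ : T4_J ρ σ (W t0) = T4_J ρ σ (W 1) :=
    hlc.apply_eq_of_preconnectedSpace ⟨t0, le_rfl, ht1.le⟩ ⟨1, ht1.le, le_rfl⟩
  have hd : T4_J ρ σ (W 1) = d := by
    unfold T4_J
    rw [Finset.filter_true_of_mem, Finset.card_univ, Fintype.card_fin]
    intro s _
    exact h1 ((W 1).comap ((σ s : A ≃ₐ[B] A) : A →+* A))
      (T4_comap g v 1 (W 1) (hW 1 ht1.le le_rfl) (σ s) (hσ s))
  have hV' : T4_J ρ σ V = d := by
    have := (hloc t0 (W t0) (hW t0 le_rfl ht1.le)).self_of_nhds V hV le_rfl ht1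
    rw [this, hJ, hd]
  have hall : (Finset.univ.filter fun s =>
      Even (Finset.univ.filter fun i => V (σ s (ρ i)) ≤ 1).card) = Finset.univ := by
    apply Finset.eq_univ_of_card
    rw [Fintype.card_fin]
    exact hV'
  have hm : i0 ∈ Finset.univ.filter fun s =>
      Even (Finset.univ.filter fun i => V (σ s (ρ i)) ≤ 1).card := by
    rw [hall]; exact Finset.mem_univ _
  have hm2 := (Finset.mem_filter.1 hm).2
  simpa only [hi0] using hm2

end MP2619.N
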