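import Pool.Agent.Lib.MP_2619d0_ag.N.A1
import Pool.Agent.Lib.MP_2619d0_ag.N.A2
import Pool.Agent.Lib.MP_2619d0_ag.N.A8
import Pool.Agent.Lib.MP_2619d0_ag.N.A9
import Pool.Agent.Lib.MP_2619d0_ag.N.T2
import Pool.Agent.Lib.MP_2619d0_ag.N.T4

/-!
Row 2619n-A10: the star relation for the Gauss valuation `V` (weights one), by the transport theorem.

`transport` with `B = ℚ(ζ_s : s ≠ i0)`, `i0 = inl (inl d0)`, `g = 2 ζ_{i0}`, `v` = restriction of `V`, `t0 = 1/2`,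
`ρ` = the family of all `∑ l_i τ(γ' x)_i`, `τ` in the disjoint union of the finite sets `Tg w u x y γ'`, `γ'` = the three
twists of `γ` (an enumeration by `Fin N`). Its norm is the norm of the vector `τ(x)` (`nm_comb`). Hypotheses: `hex` from
`exists_wt` and `ov_iff`; `hG` from `ov_iff` and `gap_star`; `h1` from `ov_iff` (`t = 1`) and `end_star`;
`hV` from `ov_iff` (`t = 1/2`, `wts i0 1` is the constant `1`).
-/

set_option autoImplicit false

namespace MP2619.N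

open scoped NNReal
open IntermediateField MP2619.R Pool.Agent.Lib.MP_2619d0_ag Pool.Agent.Lib.MP_2619d0_ag.T

private theorem A10_count {ι : Type} [Fintype ι] {T : ι → Type} [∀ j, Finite (T j)] {N : ℕ}
    (e : (Σ j, T j) ≃ Fin N) (f : Fin N → ℝ≥0) (q : ℝ≥0 → Prop) [DecidablePred q] :
    (Finset.univ.filter fun k => q (f k)).card =
      ∑ j : ι, Nat.card {τ : T j // q (f (e ⟨j, τ⟩))} := by
  classical
  have h1 : (Finset.univ.filter fun k => q (f k)).card = Nat.card {k : Fin N // q (f k)} := by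
    rw [Nat.card_eq_fintype_card, Fintype.card_subtype]
  rw [h1, ← Nat.card_sigma]
  symm
  refine Nat.card_congr (Equiv.ofBijective
    (fun s : (Σ j : ι, {τ : T j // q (f (e ⟨j, τ⟩))}) =>
      (⟨e ⟨s.1, s.2.1⟩, s.2.2⟩ : {k : Fin N // q (f k)})) ⟨?_, ?_⟩)
  · rintro ⟨j, τ, hτ⟩ ⟨j', τ', hτ'⟩ hh
    have h2 := e.injective (Subtype.ext_iff.1 hh)
    cases h2
    rfl
  · rintro ⟨k, hk⟩
    obtain ⟨⟨j, τ⟩, rfl⟩ := e.surjective k
    exact ⟨⟨j, τ, hk⟩, rfl⟩

private theorem A10_gc {n : ℕ} {A : Type} [Field A] {u : Fin n → A} {k1 M1 : Type} [Field k1]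
    [Field M1] [Algebra k1 M1] [Algebra k1 A]
    (V : Valuation A ℝ≥0) (w : k1) (x y : Fin n → M1) (γ : Fin n → ZMod 3) :
    Nat.card {τ : Tg (A := A) w u x y γ // nm V (fun i => τ.1 (x i)) ≤ 1} = gc V w u x y γ := by
  unfold gc
  refine Nat.card_congr ?_
  refine (Equiv.subtypeSubtypeEquivSubtypeInter
    (fun τ : M1 →ₐ[k1] A => ∀ i, τ (zg w x y γ i) = u i)
    (fun τ : M1 →ₐ[k1] A => nm V (fun i => τ (x i)) ≤ 1)).trans ?_
  refine Equiv.subtypeEquivRight fun τ => ?_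
  unfold nm
  rw [Finset.sup_le_iff]
  simp only [Finset.mem_univ, true_implies]

private theorem A10_cong {T : Type} {p q : T → Prop} (h : ∀ τ, p τ ↔ q τ) :
    Nat.card {τ // p τ} = Nat.card {τ // q τ} :=
  Nat.card_congr (Equiv.subtypeEquivRight h)

variable {n : ℕ} {F : MvPolynomial (Fin n) ℂ} {J : Type} {z : Exp3 n ⊕ J → ℂ} {A : Type}
  [Field A] [CharZero A] [Algebra ℂ A] {u l : Fin n → A}

private theorem A10_main (h : Ctx F z u l) (v2 : Valuation ℚ ℝ≥0) (h2 : IsTwo v2)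
    (V : Valuation A ℝ≥0) (hV : IsWt v2 V (zeta z u l) (fun _ => 1))
    (a b c : Fin n) (hab : a ≠ b) (hac : a ≠ c) (hbc : b ≠ c)
    (k1 : IntermediateField (Qz z) ℂ) (w : k1) {M1 : Type} [Field M1] [Algebra k1 M1]
    (x y : Fin n → M1) (hD : Dat F z k1 w x y) (d0 : Exp3 n) (hd0 : d0.1 = e3 a b c)
    {ι : Type} [Fintype ι]
    (γ : ι → Fin n → ZMod 3) (hγb : ∀ j, γ j a = γ j b) (hγc : ∀ j, γ j a = γ j c)
    (hend : ∀ V' : Valuation A ℝ≥0, IsWt v2 V' (zeta z u l) (wts (Sum.inl (Sum.inl d0)) 2) →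
      Even (∑ j, gc V' w u x y (γ j))) :
    Even (∑ j, gc V w u x y (γ j)) := by
  classical
  have hcl : IsAlgClosed A := h.closed
  have hζ := zeta_ind h
  have hζa := zeta_alg h
  obtain ⟨htr, halg⟩ := ov_trans (zeta z u l) hζ (Sum.inl (Sum.inl d0)) hζa
  have hov := fun (V' : Valuation A ℝ≥0) (t : ℝ≥0) (ht : 0 < t) =>
    ov_iff (zeta z u l) hζ (Sum.inl (Sum.inl d0)) v2 h2 V hV V' t ht
  have hu : AlgebraicIndependent k1 u := by
    have h1 : AlgebraicIndependent k1 (Sum.elim u l) :=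
      h.ind.restrictScalars (algebraMap k1 ℂ).injective
    exact h1.comp Sum.inl Sum.inl_injective
  have hfin : ∀ j, Finite (Tg (A := A) w u x y (γ j)) := fun j => finite_emb u hu hD.fg _
  have hft := Fintype.ofFinite (Σ j, Tg (A := A) w u x y (γ j))
  obtain ⟨N, ⟨e⟩⟩ : ∃ N, Nonempty ((Σ j, Tg (A := A) w u x y (γ j)) ≃ Fin N) :=
    ⟨_, ⟨Fintype.equivFin _⟩⟩
  -- the norms
  have hnm : ∀ (t : ℝ≥0), 0 < t → ∀ V' : Valuation A ℝ≥0,
      IsWt v2 V' (zeta z u l) (wts (Sum.inl (Sum.inl d0)) (2 * t)) →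
      ∀ (j : ι) (τ : Tg (A := A) w u x y (γ j)),
        V' (∑ i, l i * τ.1 (x i)) = nm V' (fun i => τ.1 (x i)) := by
    intro t ht V' hV' j τ
    have hG := gauss_C h v2 V' (Sum.inl d0) (2 * t) (by positivity) hV'
    have hG' : IsGauss k1 V' (Sum.elim u l) := gauss_restrict V' _ hG
    exact nm_comb V' u l hG' _ fun i => alg_emb u hu hD.fg _ τ.1 τ.2 (x i)
  obtain ⟨ρ, hρ⟩ : ∃ ρ : Fin N → A, ∀ (j : ι) (τ : Tg (A := A) w u x y (γ j)),
      ρ (e ⟨j, τ⟩) = ∑ i, l i * τ.1 (x i) := by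
    refine ⟨fun k => ∑ i, l i * (e.symm k).2.1 (x i), fun j τ => ?_⟩
    show ∑ i, l i * (e.symm (e ⟨j, τ⟩)).2.1 (x i) = _
    rw [Equiv.symm_apply_apply]
  have hwt : IsWt v2 V (zeta z u l) (wts (Sum.inl (Sum.inl d0)) (2 * 2⁻¹)) := by
    have h1 : (wts (Sum.inl (Sum.inl d0)) (2 * 2⁻¹) :
        (Exp3 n ⊕ J) ⊕ (Fin n ⊕ Fin n) → ℝ≥0) = fun _ => 1 := by
      funext s
      unfold wts
      rw [mul_inv_cancel₀ (two_ne_zero), ite_self]
    rw [h1]
    exact hV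
  have hin : (2 : ℝ≥0)⁻¹ < 1 := by
    rw [inv_lt_one₀ (by norm_num)]; norm_num
  have hcount := fun (V' : Valuation A ℝ≥0) (q : ℝ≥0 → Prop) [DecidablePred q] =>
    A10_count e (fun k => V' (ρ k)) q
  have hex : ∀ t : ℝ≥0, 2⁻¹ ≤ t → t ≤ 1 → ∃ V' : Valuation A ℝ≥0,
      Ov (V.comap (algebraMap (adjoin ℚ (zeta z u l '' {s | s ≠ Sum.inl (Sum.inl d0)})) A))
        (2 * zeta z u l (Sum.inl (Sum.inl d0))) t V' := by
    intro t ht0 ht1
    have ht : 0 < t := lt_of_lt_of_le (by norm_num) ht0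
    obtain ⟨V', hV'⟩ := exists_wt (zeta z u l) hζ hζa v2
      (wts (Sum.inl (Sum.inl d0)) (2 * t)) (by
        intro s
        unfold wts
        split_ifs
        · positivity
        · exact zero_lt_one)
    exact ⟨V', (hov V' t ht).2 hV'⟩
  have hG : ∀ t : ℝ≥0, 2⁻¹ ≤ t → t < 1 → ∀ V' : Valuation A ℝ≥0,
      Ov (V.comap (algebraMap (adjoin ℚ (zeta z u l '' {s | s ≠ Sum.inl (Sum.inl d0)})) A))
        (2 * zeta z u l (Sum.inl (Sum.inl d0))) t V' → ∀ R : ℝ≥0, 1 < R → R < (2⁻¹)⁻¹ →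
      Even (Finset.univ.filter fun k => V' (ρ k) = R).card := by
    intro t ht0 ht1 V' hV' R hR1 hR2
    have ht : 0 < t := lt_of_lt_of_le (by norm_num) ht0
    have hW := (hov V' t ht).1 hV'
    rw [hcount V' (fun r => r = R)]
    refine Finset.even_sum _ fun j _ => ?_
    have hg := gap_star h v2 h2 V' a b c hab hac hbc d0 hd0 t ht ht1 hW k1 w x y hD
      (γ j) (hγb j) (hγc j) R hR1 (by rwa [inv_inv] at hR2)
    rw [A10_cong (fun τ => ?_)]
    · exact hg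
    · show V' (ρ (e ⟨j, τ⟩)) = R ↔ nm V' (fun i => τ.1 (x i)) = R
      rw [hρ j τ, hnm t ht V' hW j τ]
  have h1 : ∀ V' : Valuation A ℝ≥0,
      Ov (V.comap (algebraMap (adjoin ℚ (zeta z u l '' {s | s ≠ Sum.inl (Sum.inl d0)})) A))
        (2 * zeta z u l (Sum.inl (Sum.inl d0))) 1 V' →
      Even (Finset.univ.filter fun k => V' (ρ k) ≤ 1).card := by
    intro V' hV'
    have hW := (hov V' 1 zero_lt_one).1 hV'
    have hW2 : IsWt v2 V' (zeta z u l) (wts (Sum.inl (Sum.inl d0)) 2) := by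
      rwa [mul_one] at hW
    have hE := hend V' hW2
    rw [hcount V' (fun r => r ≤ 1)]
    have hs : ∀ j, Nat.card {τ : Tg (A := A) w u x y (γ j) // V' (ρ (e ⟨j, τ⟩)) ≤ 1} =
        gc V' w u x y (γ j) := by
      intro j
      rw [← A10_gc V' w x y]
      refine A10_cong fun τ => ?_
      rw [hρ j τ, hnm 1 zero_lt_one V' hW j τ]
    rw [Finset.sum_congr rfl fun j _ => hs j]
    exact hE
  have main := transport (2 * zeta z u l (Sum.inl (Sum.inl d0))) htr halg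
    (V.comap (algebraMap (adjoin ℚ (zeta z u l '' {s | s ≠ Sum.inl (Sum.inl d0)})) A)) 2⁻¹
    (by norm_num) hin hex ρ hG h1 V ((hov V 2⁻¹ (by norm_num)).2 hwt)
  rw [hcount V (fun r => r ≤ 1)] at main
  have hs : ∀ j, Nat.card {τ : Tg (A := A) w u x y (γ j) // V (ρ (e ⟨j, τ⟩)) ≤ 1} =
      gc V w u x y (γ j) := by
    intro j
    rw [← A10_gc V w x y]
    refine A10_cong fun τ => ?_
    rw [hρ j τ, hnm 2⁻¹ (by norm_num) V hwt j τ]
  rw [Finset.sum_congr rfl fun j _ => hs j] at main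
  exact main

theorem star_rel (hstar : StarC n) (h : Ctx F z u l) (v2 : Valuation ℚ ℝ≥0) (h2 : IsTwo v2)
    (V : Valuation A ℝ≥0) (hV : IsWt v2 V (zeta z u l) (fun _ => 1))
    (a b c : Fin n) (hab : a ≠ b) (hac : a ≠ c) (hbc : b ≠ c)
    (k1 : IntermediateField (Qz z) ℂ) (w : k1) {M1 : Type} [Field M1] [Algebra k1 M1]
    (x y : Fin n → M1) (hD : Dat F z k1 w x y) (γ : Fin n → ZMod 3) (hγa : γ a = 0) (hγb : γ b = 0)
    (hγc : γ c = 0) :
    Even (∑ j : ZMod 3, gc V w u x y (γ + Pi.single a j + Pi.single b j + Pi.single c j)) := by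
  have hdeg : (e3 a b c).degree = 3 := by
    unfold e3
    rw [map_add, map_add, Finsupp.degree_single, Finsupp.degree_single, Finsupp.degree_single]
  obtain ⟨d0, hd0⟩ : ∃ d0 : Exp3 n, d0.1 = e3 a b c := ⟨⟨e3 a b c, hdeg⟩, rfl⟩
  have ha : ∀ j : ZMod 3, (γ + Pi.single a j + Pi.single b j + Pi.single c j : Fin n → ZMod 3) a = j := by
    intro j
    rw [Pi.add_apply, Pi.add_apply, Pi.add_apply, hγa, Pi.single_eq_same,
      Pi.single_eq_of_ne hab, Pi.single_eq_of_ne hac, zero_add, add_zero, add_zero]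
  have hb : ∀ j : ZMod 3, (γ + Pi.single a j + Pi.single b j + Pi.single c j : Fin n → ZMod 3) b = j := by
    intro j
    rw [Pi.add_apply, Pi.add_apply, Pi.add_apply, hγb, Pi.single_eq_same,
      Pi.single_eq_of_ne hab.symm, Pi.single_eq_of_ne hbc, zero_add, zero_add, add_zero]
  have hc : ∀ j : ZMod 3, (γ + Pi.single a j + Pi.single b j + Pi.single c j : Fin n → ZMod 3) c = j := by
    intro j
    rw [Pi.add_apply, Pi.add_apply, Pi.add_apply, hγc, Pi.single_eq_same,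
      Pi.single_eq_of_ne hac.symm, Pi.single_eq_of_ne hbc.symm, zero_add, zero_add, zero_add]
  have hend : ∀ V' : Valuation A ℝ≥0, IsWt v2 V' (zeta z u l) (wts (Sum.inl (Sum.inl d0)) 2) →
      Even (∑ j : ZMod 3, gc V' w u x y (γ + Pi.single a j + Pi.single b j + Pi.single c j)) := by
    intro V' hV'
    exact end_star hstar h v2 h2 V' a b c hab hac hbc d0 hd0 hV' k1 w x y hD γ hγa hγb hγc
  obtain ⟨G, hG⟩ : ∃ G : ZMod 3 → Fin n → ZMod 3,
      ∀ j, G j = γ + Pi.single a j + Pi.single b j + Pi.single c j := ⟨_, fun j => rfl⟩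
  simp only [← hG] at hend ha hb hc ⊢
  exact A10_main h v2 h2 V hV a b c hab hac hbc k1 w x y hD d0 hd0 G
    (fun j => (ha j).trans (hb j).symm) (fun j => (ha j).trans (hc j).symm) hend

end MP2619.N
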