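import Mathlib

/-!
Row 2619n-F1: the combinatorial lemma (section 6 of /team-store/2619NP_paper_helper9.md; checked by computer for
`n = 5, 6`, false for `n = 4`).

`γ : Fin n → ZMod 3` stands for the vector `(w^{γ_i})` of cube roots of unity. Proof. Work over a field `K`
with four elements (or any field of characteristic two with a primitive cube root of unity `w`; the group has odd
order `3^n`). Fourier expansion `f = ∑_χ c_χ χ`; (R1) kills the `χ` with a zero exponent; so
`f = ∑_S c_S χ_S`, exponent `1` on `S` and `-1` outside `S`; `c_{Sᶜ} = (c_S)²` because `f² = f`; (Sc): `c_S = 0`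
unless `2 |S| = n` in `ZMod 3`; (Star) for `γ = 0` on `C`: `c_{T ∪ C} = c_T` for all `T` disjoint from `C`
(independence of characters of the coordinates outside `C`). For `n ≥ 5` all `S` with `2 |S| = n` in `ZMod 3` are connected
by these moves, so all these `c_S` are equal, `= c`, `c² = c`, and their number is even (`S ↔ Sᶜ`), so
`f(0) = ∑ c_S = 0`. (One can avoid the expansion and argue with sums of values of `f` directly.)
-/

set_option autoImplicit false

namespace MP2619.N

/-- character -/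
private def F1_chi {K : Type*} [Field K] (w : K) (t : ZMod 3) : K := w ^ t.val

private lemma F1_two : (1 + 1 : ZMod 2) = 0 := by decide

private lemma F1_cases (t : ZMod 3) : t = 0 ∨ t = 1 ∨ t = 2 := by
  revert t; decide

private lemma F1_chi0 {K : Type*} [Field K] (w : K) : F1_chi w 0 = 1 := by
  simp [F1_chi]

private lemma F1_chi1 {K : Type*} [Field K] (w : K) : F1_chi w 1 = w := by
  have : (1 : ZMod 3).val = 1 := by decide
  simp [F1_chi, this]

private lemma F1_chi2 {K : Type*} [Field K] (w : K) : F1_chi w 2 = w ^ 2 := by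
  have : (2 : ZMod 3).val = 2 := by decide
  simp [F1_chi, this]

private lemma F1_chi_add {K : Type*} [Field K] {w : K} (hw : w ^ 3 = 1) (s t : ZMod 3) :
    F1_chi w (s + t) = F1_chi w s * F1_chi w t := by
  have e3 : (1 : ZMod 3) + 2 = 0 := by decide
  have e4 : (2 : ZMod 3) + 1 = 0 := by decide
  have e5 : (2 : ZMod 3) + 2 = 1 := by decide
  have e6 : (1 : ZMod 3) + 1 = 2 := by decide
  rcases F1_cases s with h | h | h <;> rcases F1_cases t with h' | h' | h' <;> subst h <;> subst h' <;>
    simp only [zero_add, add_zero, e3, e4, e5, e6, F1_chi0, F1_chi1, F1_chi2, one_mul, mul_one] <;>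
    first
      | rfl
      | linear_combination hw
      | linear_combination (-1 : K) * hw
      | linear_combination w * hw
      | linear_combination (-w) * hw
      | ring

private lemma F1_sum3 {M : Type*} [AddCommMonoid M] (g : ZMod 3 → M) :
    ∑ t : ZMod 3, g t = g 0 + g 1 + g 2 := by
  exact Fin.sum_univ_three g

section main

variable {K : Type*} [Field K] (h2 : (2 : K) = 0) {n : ℕ}

include h2

private lemma F1_add_self (x : K) : x + x = 0 := by
  linear_combination x * h2

/-- sums against a weight not depending on the coordinate `a` -/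
private lemma F1_line (F : (Fin n → ZMod 3) → K) (a : Fin n)
    (hR : ∀ γ : Fin n → ZMod 3, F γ + F (γ + Pi.single a 1) + F (γ + Pi.single a 2) = 0)
    (v : (Fin n → ZMod 3) → K) (hv : ∀ γ t, v (γ + Pi.single a t) = v γ) :
    ∑ γ, F γ * v γ = 0 := by
  have h1 : ∀ t : ZMod 3, ∑ γ : Fin n → ZMod 3, F (γ + Pi.single a t) * v γ = ∑ γ, F γ * v γ := by
    intro t
    have := Equiv.sum_comp (Equiv.addRight (Pi.single a t : Fin n → ZMod 3)) (fun γ => F γ * v γ)
    rw [← this]
    apply Finset.sum_congr rfl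
    intro γ _
    simp only [Equiv.coe_addRight, hv]
  have h3 : ∑ t : ZMod 3, ∑ γ : Fin n → ZMod 3, F (γ + Pi.single a t) * v γ = 0 := by
    rw [Finset.sum_comm]
    apply Finset.sum_eq_zero
    intro γ _
    rw [F1_sum3]
    have := hR γ
    rw [Pi.single_zero, add_zero]
    linear_combination v γ * this
  rw [F1_sum3, h1, h1, h1] at h3
  linear_combination h3 - (∑ γ, F γ * v γ) * h2

private lemma F1_inner (T : ZMod 3 → ZMod 3 → ZMod 3 → K)
    (hx : ∀ y z, T 0 y z + T 1 y z + T 2 y z = 0)
    (hy : ∀ x z, T x 0 z + T x 1 z + T x 2 z = 0)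
    (hz : ∀ x y, T x y 0 + T x y 1 + T x y 2 = 0)
    (hd : T 0 0 0 + T 1 1 1 + T 2 2 2 = 0) :
    ∑ x, ∑ y, ∑ z, T x y z * (if x + y + z = 0 then 0 else 1) = 0 := by
  simp only [F1_sum3]
  have d : ∀ x y z : ZMod 3, (if x + y + z = 0 then (0:K) else 1) = (if x + y + z = 0 then (0:K) else 1) :=
    fun _ _ _ => rfl
  rw [if_pos (show (0:ZMod 3) + 0 + 0 = 0 by decide), if_neg (show ¬ (0:ZMod 3) + 0 + 1 = 0 by decide),
    if_neg (show ¬ (0:ZMod 3) + 0 + 2 = 0 by decide), if_neg (show ¬ (0:ZMod 3) + 1 + 0 = 0 by decide),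
    if_neg (show ¬ (0:ZMod 3) + 1 + 1 = 0 by decide), if_pos (show (0:ZMod 3) + 1 + 2 = 0 by decide),
    if_neg (show ¬ (0:ZMod 3) + 2 + 0 = 0 by decide), if_pos (show (0:ZMod 3) + 2 + 1 = 0 by decide),
    if_neg (show ¬ (0:ZMod 3) + 2 + 2 = 0 by decide), if_neg (show ¬ (1:ZMod 3) + 0 + 0 = 0 by decide),
    if_neg (show ¬ (1:ZMod 3) + 0 + 1 = 0 by decide), if_pos (show (1:ZMod 3) + 0 + 2 = 0 by decide),
    if_neg (show ¬ (1:ZMod 3) + 1 + 0 = 0 by decide), if_pos (show (1:ZMod 3) + 1 + 1 = 0 by decide),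
    if_neg (show ¬ (1:ZMod 3) + 1 + 2 = 0 by decide), if_pos (show (1:ZMod 3) + 2 + 0 = 0 by decide),
    if_neg (show ¬ (1:ZMod 3) + 2 + 1 = 0 by decide), if_neg (show ¬ (1:ZMod 3) + 2 + 2 = 0 by decide),
    if_neg (show ¬ (2:ZMod 3) + 0 + 0 = 0 by decide), if_pos (show (2:ZMod 3) + 0 + 1 = 0 by decide),
    if_neg (show ¬ (2:ZMod 3) + 0 + 2 = 0 by decide), if_pos (show (2:ZMod 3) + 1 + 0 = 0 by decide),
    if_neg (show ¬ (2:ZMod 3) + 1 + 1 = 0 by decide), if_neg (show ¬ (2:ZMod 3) + 1 + 2 = 0 by decide),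
    if_neg (show ¬ (2:ZMod 3) + 2 + 0 = 0 by decide), if_neg (show ¬ (2:ZMod 3) + 2 + 1 = 0 by decide),
    if_pos (show (2:ZMod 3) + 2 + 2 = 0 by decide)]
  linear_combination hx 0 0 + hx 0 1 + hx 0 2 + hx 1 0 + hx 1 1 + hx 1 2 + hx 2 0 + hx 2 1 + hx 2 2
    - hd - (hz 0 1 + hz 1 0 + hy 0 1 + hy 1 0 + hx 0 1 + hx 1 0)
    + (T 0 1 0 + T 0 1 1 + T 1 0 0 + T 1 0 1 + T 0 0 1 + T 1 1 0) * h2


omit h2 in
private lemma F1_shift (Φ : ZMod 3 → ZMod 3 → ZMod 3 → K) (p q r : ZMod 3) :
    ∑ x : ZMod 3, ∑ y : ZMod 3, ∑ z : ZMod 3, Φ (p + x) (q + y) (r + z) =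
      ∑ x : ZMod 3, ∑ y : ZMod 3, ∑ z : ZMod 3, Φ x y z := by
  have r1 : ∀ x y : ZMod 3, ∑ z : ZMod 3, Φ x y (r + z) = ∑ z : ZMod 3, Φ x y z := by
    intro x y
    exact Equiv.sum_comp (Equiv.addLeft r) (fun z => Φ x y z)
  simp only [r1]
  have r2 : ∀ x : ZMod 3, ∑ y : ZMod 3, ∑ z : ZMod 3, Φ x (q + y) z = ∑ y : ZMod 3, ∑ z : ZMod 3, Φ x y z := by
    intro x
    exact Equiv.sum_comp (Equiv.addLeft q) (fun y => ∑ z : ZMod 3, Φ x y z)
  simp only [r2]
  exact Equiv.sum_comp (Equiv.addLeft p) (fun x => ∑ y : ZMod 3, ∑ z : ZMod 3, Φ x y z)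

omit h2 in
private lemma F1_coord (γ : Fin n → ZMod 3) (a b c : Fin n) (hab : a ≠ b) (hac : a ≠ c) (hbc : b ≠ c)
    (x y z : ZMod 3) :
    (γ + Pi.single a x + Pi.single b y + Pi.single c z : Fin n → ZMod 3) a = γ a + x ∧
    (γ + Pi.single a x + Pi.single b y + Pi.single c z : Fin n → ZMod 3) b = γ b + y ∧
    (γ + Pi.single a x + Pi.single b y + Pi.single c z : Fin n → ZMod 3) c = γ c + z := by
  refine ⟨?_, ?_, ?_⟩
  · simp [hab, hac]
  · simp [hab.symm, hbc]
  · simp [hac.symm, hbc.symm]

private lemma F1_triple (F : (Fin n → ZMod 3) → K) (a b c : Fin n) (hab : a ≠ b) (hac : a ≠ c) (hbc : b ≠ c)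
    (hR : ∀ (a : Fin n) (γ : Fin n → ZMod 3), F γ + F (γ + Pi.single a 1) + F (γ + Pi.single a 2) = 0)
    (hC : ∀ γ : Fin n → ZMod 3, γ a = 0 → γ b = 0 → γ c = 0 →
      ∑ j : ZMod 3, F (γ + Pi.single a j + Pi.single b j + Pi.single c j) = 0)
    (P : (Fin n → ZMod 3) → K) (hPa : ∀ γ t, P (γ + Pi.single a t) = P γ)
    (hPb : ∀ γ t, P (γ + Pi.single b t) = P γ) (hPc : ∀ γ t, P (γ + Pi.single c t) = P γ) :
    ∑ γ, F γ * P γ * (if γ a + γ b + γ c = 0 then 0 else 1) = 0 := by
  obtain ⟨G, hG⟩ : ∃ G : (Fin n → ZMod 3) → K,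
      G = fun γ => F γ * P γ * (if γ a + γ b + γ c = 0 then 0 else 1) := ⟨_, rfl⟩
  have hgoal : ∑ γ, F γ * P γ * (if γ a + γ b + γ c = 0 then 0 else 1) = ∑ γ, G γ := by rw [hG]
  rw [hgoal]
  have h1 : ∀ x y z : ZMod 3, ∑ γ : Fin n → ZMod 3,
      G (γ + Pi.single a x + Pi.single b y + Pi.single c z) = ∑ γ, G γ := by
    intro x y z
    have e1 := Equiv.sum_comp (Equiv.addRight (Pi.single a x + Pi.single b y + Pi.single c z
      : Fin n → ZMod 3)) G
    rw [← e1]
    apply Finset.sum_congr rfl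
    intro γ _
    simp only [Equiv.coe_addRight, add_assoc]
  have h3 : ∑ γ : Fin n → ZMod 3, ∑ x : ZMod 3, ∑ y : ZMod 3, ∑ z : ZMod 3,
      G (γ + Pi.single a x + Pi.single b y + Pi.single c z) = 0 := by
    apply Finset.sum_eq_zero
    intro γ _
    obtain ⟨γ0, hγ0⟩ : ∃ γ0 : Fin n → ZMod 3,
      γ0 = γ + Pi.single a (- γ a) + Pi.single b (- γ b) + Pi.single c (- γ c) := ⟨_, rfl⟩
    obtain ⟨ga, gb, gc⟩ := F1_coord γ a b c hab hac hbc (- γ a) (- γ b) (- γ c)
    rw [← hγ0] at ga gb gc
    rw [add_neg_cancel] at ga gb gc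
    obtain ⟨T, hT⟩ : ∃ T : ZMod 3 → ZMod 3 → ZMod 3 → K,
      T = fun x y z => F (γ0 + Pi.single a x + Pi.single b y + Pi.single c z) := ⟨_, rfl⟩
    have key : ∀ x y z : ZMod 3, G (γ + Pi.single a x + Pi.single b y + Pi.single c z) =
        P γ * (T (γ a + x) (γ b + y) (γ c + z) *
          (if (γ a + x) + (γ b + y) + (γ c + z) = 0 then 0 else 1)) := by
      intro x y z
      have e1 : γ + Pi.single a x + Pi.single b y + Pi.single c z =
          γ0 + Pi.single a (γ a + x) + Pi.single b (γ b + y) + Pi.single c (γ c + z) := by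
        rw [hγ0, Pi.single_add, Pi.single_add, Pi.single_add, Pi.single_neg, Pi.single_neg, Pi.single_neg]
        abel
      obtain ⟨e2, e3, e4⟩ := F1_coord γ a b c hab hac hbc x y z
      have e5 : P (γ + Pi.single a x + Pi.single b y + Pi.single c z) = P γ := by
        rw [hPc, hPb, hPa]
      rw [hG, hT]
      simp only
      rw [e2, e3, e4, e5, ← e1]
      ring
    simp only [key, ← Finset.mul_sum]
    rw [F1_shift (fun x y z => T x y z * (if x + y + z = 0 then 0 else 1)) (γ a) (γ b) (γ c)]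
    have hI := F1_inner h2 T ?_ ?_ ?_ ?_
    · rw [hI, mul_zero]
    · intro y z
      have := hR a (γ0 + Pi.single b y + Pi.single c z)
      have q0 : γ0 + Pi.single a 0 + Pi.single b y + Pi.single c z =
        γ0 + Pi.single b y + Pi.single c z := by rw [Pi.single_zero, add_zero]
      have q1 : γ0 + Pi.single a 1 + Pi.single b y + Pi.single c z =
        γ0 + Pi.single b y + Pi.single c z + Pi.single a 1 := by abel
      have q2 : γ0 + Pi.single a 2 + Pi.single b y + Pi.single c z =
        γ0 + Pi.single b y + Pi.single c z + Pi.single a 2 := by abel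
      rw [hT]
      simp only
      rw [q0, q1, q2]
      exact this
    · intro x z
      have := hR b (γ0 + Pi.single a x + Pi.single c z)
      have q0 : γ0 + Pi.single a x + Pi.single b 0 + Pi.single c z =
        γ0 + Pi.single a x + Pi.single c z := by rw [Pi.single_zero, add_zero]
      have q1 : γ0 + Pi.single a x + Pi.single b 1 + Pi.single c z =
        γ0 + Pi.single a x + Pi.single c z + Pi.single b 1 := by abel
      have q2 : γ0 + Pi.single a x + Pi.single b 2 + Pi.single c z =
        γ0 + Pi.single a x + Pi.single c z + Pi.single b 2 := by abel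
      rw [hT]
      simp only
      rw [q0, q1, q2]
      exact this
    · intro x y
      have := hR c (γ0 + Pi.single a x + Pi.single b y)
      have q0 : γ0 + Pi.single a x + Pi.single b y + Pi.single c 0 =
        γ0 + Pi.single a x + Pi.single b y := by rw [Pi.single_zero, add_zero]
      rw [hT]
      simp only
      rw [q0]
      exact this
    · have := hC γ0 ga gb gc
      rw [F1_sum3] at this
      rw [hT]
      exact this
  have h4 : ∑ γ : Fin n → ZMod 3, ∑ x : ZMod 3, ∑ y : ZMod 3, ∑ z : ZMod 3,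
      G (γ + Pi.single a x + Pi.single b y + Pi.single c z) =
      ∑ x : ZMod 3, ∑ y : ZMod 3, ∑ z : ZMod 3, ∑ γ : Fin n → ZMod 3,
      G (γ + Pi.single a x + Pi.single b y + Pi.single c z) := by
    rw [Finset.sum_comm]
    apply Finset.sum_congr rfl
    intro x _
    rw [Finset.sum_comm]
    apply Finset.sum_congr rfl
    intro y _
    rw [Finset.sum_comm]
  rw [h4] at h3
  simp only [h1] at h3
  simp only [F1_sum3] at h3
  linear_combination h3 - 13 * (∑ γ, G γ) * h2


/-- value at zero as a sum over the points with no zero coordinate -/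
private lemma F1_zero (F : (Fin n → ZMod 3) → K)
    (hR : ∀ (a : Fin n) (γ : Fin n → ZMod 3), F γ + F (γ + Pi.single a 1) + F (γ + Pi.single a 2) = 0)
    (s : Finset (Fin n)) :
    ∑ γ : Fin n → ZMod 3, F γ * ∏ i, (if i ∈ s then (if γ i = 0 then (0:K) else 1)
      else (if γ i = 0 then 1 else 0)) = F 0 := by
  classical
  induction s using Finset.induction_on with
  | empty =>
    rw [Finset.sum_eq_single (0 : Fin n → ZMod 3)]
    · simp
    · intro γ _ hγ
      have : ∃ i, γ i ≠ 0 := by
        by_contra hh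
        push Not at hh
        exact hγ (funext hh)
      obtain ⟨i, hi⟩ := this
      rw [Finset.prod_eq_zero (Finset.mem_univ i), mul_zero]
      simp [hi]
    · intro h
      exact absurd (Finset.mem_univ _) h
  | insert a s ha ih =>
    rw [← ih]
    have e : ∀ (u : Finset (Fin n)) (γ : Fin n → ZMod 3),
        ∏ i, (if i ∈ u then (if γ i = 0 then (0:K) else 1) else (if γ i = 0 then 1 else 0)) =
        (if a ∈ u then (if γ a = 0 then (0:K) else 1) else (if γ a = 0 then 1 else 0)) *
        ∏ i ∈ Finset.univ.erase a, (if i ∈ u then (if γ i = 0 then (0:K) else 1)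
          else (if γ i = 0 then 1 else 0)) := by
      intro u γ
      rw [Finset.mul_prod_erase Finset.univ (fun i => (if i ∈ u then (if γ i = 0 then (0:K) else 1)
        else (if γ i = 0 then 1 else 0))) (Finset.mem_univ a)]
    have e2 : ∀ γ : Fin n → ZMod 3, ∏ i ∈ Finset.univ.erase a, (if i ∈ insert a s then (if γ i = 0 then (0:K) else 1)
          else (if γ i = 0 then 1 else 0)) = ∏ i ∈ Finset.univ.erase a, (if i ∈ s then (if γ i = 0 then (0:K) else 1)
          else (if γ i = 0 then 1 else 0)) := by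
      intro γ
      apply Finset.prod_congr rfl
      intro i hi
      have : i ≠ a := (Finset.mem_erase.1 hi).1
      simp [this]
    have hL := F1_line h2 F a (hR a) (fun γ => ∏ i ∈ Finset.univ.erase a,
      (if i ∈ s then (if γ i = 0 then (0:K) else 1) else (if γ i = 0 then 1 else 0))) (by
        intro γ t
        apply Finset.prod_congr rfl
        intro i hi
        have : i ≠ a := (Finset.mem_erase.1 hi).1
        simp [this])
    have hsum : ∑ γ : Fin n → ZMod 3, F γ * ∏ i, (if i ∈ insert a s then (if γ i = 0 then (0:K) else 1)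
      else (if γ i = 0 then 1 else 0)) + ∑ γ : Fin n → ZMod 3, F γ * ∏ i, (if i ∈ s then (if γ i = 0 then (0:K) else 1)
      else (if γ i = 0 then 1 else 0)) = 0 := by
      rw [← Finset.sum_add_distrib]
      refine Eq.trans ?_ hL
      apply Finset.sum_congr rfl
      intro γ _
      rw [e (insert a s) γ, e s γ, e2 γ, if_pos (Finset.mem_insert_self a s), if_neg ha]
      by_cases h0 : γ a = 0
      · simp [h0]
      · simp [h0]
    linear_combination hsum - (∑ γ : Fin n → ZMod 3, F γ * ∏ i, (if i ∈ s then (if γ i = 0 then (0:K) else 1)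
      else (if γ i = 0 then 1 else 0))) * h2

omit h2 in
/-- Fourier coefficient -/
private noncomputable def F1_g (w : K) (F : (Fin n → ZMod 3) → K) (S : Finset (Fin n)) : K :=
  ∑ γ : Fin n → ZMod 3, F γ * ((∏ i ∈ S, F1_chi w (γ i)) * ∏ i ∈ Sᶜ, F1_chi w (γ i) ^ 2)

private lemma F1_expand (w : K) (hw1 : w ^ 2 + w + 1 = 0) (F : (Fin n → ZMod 3) → K)
    (hR : ∀ (a : Fin n) (γ : Fin n → ZMod 3), F γ + F (γ + Pi.single a 1) + F (γ + Pi.single a 2) = 0) :
    ∑ S : Finset (Fin n), F1_g w F S = F 0 := by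
  classical
  rw [← F1_zero h2 F hR Finset.univ]
  unfold F1_g
  rw [Finset.sum_comm]
  apply Finset.sum_congr rfl
  intro γ _
  rw [← Finset.mul_sum]
  congr 1
  have h := Finset.prod_add (fun i => F1_chi w (γ i)) (fun i => F1_chi w (γ i) ^ 2) (Finset.univ : Finset (Fin n))
  rw [Finset.powerset_univ] at h
  have h' : ∑ S : Finset (Fin n), (∏ i ∈ S, F1_chi w (γ i)) * ∏ i ∈ Sᶜ, F1_chi w (γ i) ^ 2 =
      ∏ i, (F1_chi w (γ i) + F1_chi w (γ i) ^ 2) := by
    rw [h]
    apply Finset.sum_congr rfl
    intro S _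
    rw [Finset.compl_eq_univ_sdiff]
  rw [h']
  apply Finset.prod_congr rfl
  intro i _
  rw [if_pos (Finset.mem_univ i)]
  have hw3 : w ^ 3 = 1 := by linear_combination (w - 1) * hw1
  rcases F1_cases (γ i) with hh | hh | hh
  · rw [hh, F1_chi0, if_pos rfl]
    linear_combination h2
  · rw [hh, F1_chi1, if_neg (by decide)]
    linear_combination hw1 - h2
  · rw [hh, F1_chi2, if_neg (by decide)]
    linear_combination hw1 + w * hw3 - h2

private lemma F1_inv (w : K) (hw1 : w ^ 2 + w + 1 = 0) (F : (Fin n → ZMod 3) → K)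
    (hS : ∀ γ : Fin n → ZMod 3, F (fun i => γ i + 1) = F γ) (S : Finset (Fin n))
    (hne : ((S.card : ℕ) : ZMod 3) ≠ ((2 * n : ℕ) : ZMod 3)) : F1_g w F S = 0 := by
  classical
  have hw3 : w ^ 3 = 1 := by linear_combination (w - 1) * hw1
  have h1 : F1_g w F S = w ^ (S.card + 2 * (n - S.card)) * F1_g w F S := by
    conv_lhs => unfold F1_g
    have := Equiv.sum_comp (Equiv.addRight (fun _ => 1 : Fin n → ZMod 3))
      (fun γ => F γ * ((∏ i ∈ S, F1_chi w (γ i)) * ∏ i ∈ Sᶜ, F1_chi w (γ i) ^ 2))
    rw [← this]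
    unfold F1_g
    rw [Finset.mul_sum]
    apply Finset.sum_congr rfl
    intro γ _
    have e1 : (Equiv.addRight (fun _ => 1 : Fin n → ZMod 3)) γ = fun i => γ i + 1 := by
      funext i
      simp
    rw [e1, hS γ]
    have e2 : ∀ i, F1_chi w (γ i + 1) = w * F1_chi w (γ i) := by
      intro i
      rw [F1_chi_add hw3, F1_chi1, mul_comm]
    simp only [e2, mul_pow, Finset.prod_mul_distrib, Finset.prod_const, Finset.card_compl, Fintype.card_fin]
    rw [← pow_mul, pow_add]
    ring
  by_contra hg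
  have h3 : w ^ (S.card + 2 * (n - S.card)) = 1 := by
    have : (w ^ (S.card + 2 * (n - S.card)) - 1) * F1_g w F S = 0 := by linear_combination -h1
    rcases mul_eq_zero.1 this with h | h
    · linear_combination h
    · exact absurd h hg
  have hle : S.card ≤ n := by simpa using Finset.card_le_univ S
  have hw_ne : w ≠ 1 := by
    intro h
    rw [h] at hw1
    have : (1 : K) = 0 := by linear_combination hw1 - h2
    exact one_ne_zero this
  have hord : orderOf w = 3 := by
    have : Fact (Nat.Prime 3) := ⟨by norm_num⟩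
    exact orderOf_eq_prime hw3 hw_ne
  have hdvd : 3 ∣ S.card + 2 * (n - S.card) := by
    rw [← hord]
    exact orderOf_dvd_of_pow_eq_one h3
  apply hne
  rw [ZMod.natCast_eq_natCast_iff]
  unfold Nat.ModEq
  omega

private lemma F1_star (w : K) (hw1 : w ^ 2 + w + 1 = 0) (F : (Fin n → ZMod 3) → K)
    (hR : ∀ (a : Fin n) (γ : Fin n → ZMod 3), F γ + F (γ + Pi.single a 1) + F (γ + Pi.single a 2) = 0)
    (hC : ∀ a b c : Fin n, a ≠ b → a ≠ c → b ≠ c → ∀ γ : Fin n → ZMod 3,
      γ a = 0 → γ b = 0 → γ c = 0 →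
      ∑ j : ZMod 3, F (γ + Pi.single a j + Pi.single b j + Pi.single c j) = 0)
    (S : Finset (Fin n)) (a b c : Fin n) (hab : a ≠ b) (hac : a ≠ c) (hbc : b ≠ c)
    (ha : a ∉ S) (hb : b ∉ S) (hc : c ∉ S) :
    F1_g w F (insert a (insert b (insert c S))) = F1_g w F S := by
  classical
  have hw3 : w ^ 3 = 1 := by linear_combination (w - 1) * hw1
  obtain ⟨R, hRdef⟩ : ∃ R : Finset (Fin n), R = (insert a (insert b (insert c S)))ᶜ := ⟨_, rfl⟩
  have hSc : Sᶜ = insert a (insert b (insert c R)) := by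
    rw [hRdef]
    ext i
    simp only [Finset.mem_compl, Finset.mem_insert, not_or]
    constructor
    · intro h
      by_cases h1 : i = a
      · exact Or.inl h1
      · by_cases h2 : i = b
        · exact Or.inr (Or.inl h2)
        · by_cases h3 : i = c
          · exact Or.inr (Or.inr (Or.inl h3))
          · exact Or.inr (Or.inr (Or.inr ⟨h1, h2, h3, h⟩))
    · rintro (h | h | h | h)
      · rw [h]; exact ha
      · rw [h]; exact hb
      · rw [h]; exact hc
      · exact h.2.2.2
  have haR : a ∉ R := by rw [hRdef]; simp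
  have hbR : b ∉ R := by rw [hRdef]; simp
  have hcR : c ∉ R := by rw [hRdef]; simp
  have hT := F1_triple h2 F a b c hab hac hbc hR (hC a b c hab hac hbc)
    (fun γ => (∏ i ∈ S, F1_chi w (γ i)) * ∏ i ∈ R, F1_chi w (γ i) ^ 2)
    (by
      intro γ t
      have e1 : ∏ i ∈ S, F1_chi w ((γ + Pi.single a t : Fin n → ZMod 3) i) = ∏ i ∈ S, F1_chi w (γ i) := by
        apply Finset.prod_congr rfl
        intro i hi
        have : i ≠ a := fun h => ha (h ▸ hi)
        simp [this]
      have e2 : ∏ i ∈ R, F1_chi w ((γ + Pi.single a t : Fin n → ZMod 3) i) ^ 2 = ∏ i ∈ R, F1_chi w (γ i) ^ 2 := by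
        apply Finset.prod_congr rfl
        intro i hi
        have : i ≠ a := fun h => haR (h ▸ hi)
        simp [this]
      rw [e1, e2])
    (by
      intro γ t
      have e1 : ∏ i ∈ S, F1_chi w ((γ + Pi.single b t : Fin n → ZMod 3) i) = ∏ i ∈ S, F1_chi w (γ i) := by
        apply Finset.prod_congr rfl
        intro i hi
        have : i ≠ b := fun h => hb (h ▸ hi)
        simp [this]
      have e2 : ∏ i ∈ R, F1_chi w ((γ + Pi.single b t : Fin n → ZMod 3) i) ^ 2 = ∏ i ∈ R, F1_chi w (γ i) ^ 2 := by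
        apply Finset.prod_congr rfl
        intro i hi
        have : i ≠ b := fun h => hbR (h ▸ hi)
        simp [this]
      rw [e1, e2])
    (by
      intro γ t
      have e1 : ∏ i ∈ S, F1_chi w ((γ + Pi.single c t : Fin n → ZMod 3) i) = ∏ i ∈ S, F1_chi w (γ i) := by
        apply Finset.prod_congr rfl
        intro i hi
        have : i ≠ c := fun h => hc (h ▸ hi)
        simp [this]
      have e2 : ∏ i ∈ R, F1_chi w ((γ + Pi.single c t : Fin n → ZMod 3) i) ^ 2 = ∏ i ∈ R, F1_chi w (γ i) ^ 2 := by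
        apply Finset.prod_congr rfl
        intro i hi
        have : i ≠ c := fun h => hcR (h ▸ hi)
        simp [this]
      rw [e1, e2])
  have hsum : F1_g w F (insert a (insert b (insert c S))) + F1_g w F S = 0 := by
    unfold F1_g
    rw [← Finset.sum_add_distrib, ← hT]
    apply Finset.sum_congr rfl
    intro γ _
    rw [← hRdef, hSc]
    rw [Finset.prod_insert (show a ∉ insert b (insert c S) by simp [hab, hac, ha]),
      Finset.prod_insert (show b ∉ insert c S by simp [hbc, hb]), Finset.prod_insert hc,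
      Finset.prod_insert (show a ∉ insert b (insert c R) by simp [hab, hac, haR]),
      Finset.prod_insert (show b ∉ insert c R by simp [hbc, hbR]), Finset.prod_insert hcR]
    have e : F1_chi w (γ a) * F1_chi w (γ b) * F1_chi w (γ c) = F1_chi w (γ a + γ b + γ c) := by
      rw [F1_chi_add hw3, F1_chi_add hw3]
    have e' : F1_chi w (γ a + γ b + γ c) + F1_chi w (γ a + γ b + γ c) ^ 2 =
        (if γ a + γ b + γ c = 0 then (0:K) else 1) := by
      rcases F1_cases (γ a + γ b + γ c) with hh | hh | hh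
      · rw [hh, F1_chi0, if_pos rfl]
        linear_combination h2
      · rw [hh, F1_chi1, if_neg (by decide)]
        linear_combination hw1 - h2
      · rw [hh, F1_chi2, if_neg (by decide)]
        linear_combination hw1 + w * hw3 - h2
    rw [← e', ← e]
    ring
  have hself := F1_add_self h2 (F1_g w F S)
  linear_combination hsum - hself

omit h2 in
private lemma F1_swap {g : Finset (Fin n) → K} (hn : 5 ≤ n)
    (hg : ∀ (S : Finset (Fin n)) (a b c : Fin n), a ≠ b → a ≠ c → b ≠ c → a ∉ S → b ∉ S → c ∉ S →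
      g (insert a (insert b (insert c S))) = g S)
    (A : Finset (Fin n)) (i j : Fin n) (hi : i ∉ A) (hj : j ∉ A) (hij : i ≠ j) :
    g (insert i A) = g (insert j A) := by
  classical
  by_cases hA : 2 ≤ (insert i (insert j A))ᶜ.card
  · obtain ⟨p, hp, q, hq, hpq⟩ := Finset.one_lt_card.1 (show 1 < (insert i (insert j A))ᶜ.card by omega)
    simp only [Finset.mem_compl, Finset.mem_insert, not_or] at hp hq
    have e1 : g (insert i A) = g (insert j (insert p (insert q (insert i A)))) := by
      rw [hg (insert i A) j p q (Ne.symm hp.2.1) (Ne.symm hq.2.1) hpq]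
      · simp [hij.symm, hj]
      · simp [hp.1, hp.2.2]
      · simp [hq.1, hq.2.2]
    have e2 : g (insert j A) = g (insert i (insert p (insert q (insert j A)))) := by
      rw [hg (insert j A) i p q (Ne.symm hp.1) (Ne.symm hq.1) hpq]
      · simp [hij, hi]
      · simp [hp.2.1, hp.2.2]
      · simp [hq.2.1, hq.2.2]
    rw [e1, e2]
    congr 1
    ext x
    simp only [Finset.mem_insert]
    tauto
  · have hc : (insert i (insert j A))ᶜ.card = n - (A.card + 2) := by
      rw [Finset.card_compl, Fintype.card_fin, Finset.card_insert_of_notMem, Finset.card_insert_of_notMem hj]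
      simp [hij, hi]
    have hA2 : 1 < A.card := by omega
    obtain ⟨p, hp, q, hq, hpq⟩ := Finset.one_lt_card.1 hA2
    have hAe : A = insert p (insert q ((A.erase p).erase q)) := by
      rw [Finset.insert_erase, Finset.insert_erase hp]
      simp [hq, hpq.symm]
    have hip : i ≠ p := fun h => hi (h ▸ hp)
    have hiq : i ≠ q := fun h => hi (h ▸ hq)
    have hjp : j ≠ p := fun h => hj (h ▸ hp)
    have hjq : j ≠ q := fun h => hj (h ▸ hq)
    have e1 : g (insert i (insert p (insert q ((A.erase p).erase q)))) = g ((A.erase p).erase q) := by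
      apply hg _ i p q hip hiq hpq
      · simp [hi]
      · simp
      · simp
    have e2 : g (insert j (insert p (insert q ((A.erase p).erase q)))) = g ((A.erase p).erase q) := by
      apply hg _ j p q hjp hjq hpq
      · simp [hj]
      · simp
      · simp
    rw [← hAe] at e1 e2
    rw [e1, e2]

omit h2 in
private lemma F1_card {g : Finset (Fin n) → K} (hn : 5 ≤ n)
    (hg : ∀ (S : Finset (Fin n)) (a b c : Fin n), a ≠ b → a ≠ c → b ≠ c → a ∉ S → b ∉ S → c ∉ S →
      g (insert a (insert b (insert c S))) = g S) :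
    ∀ (m : ℕ) (S T : Finset (Fin n)), S.card = T.card → (S \ T).card = m → g S = g T := by
  classical
  intro m
  induction m with
  | zero =>
    intro S T hST hm
    have h1 : S ⊆ T := Finset.sdiff_eq_empty_iff_subset.1 (Finset.card_eq_zero.1 hm)
    rw [Finset.eq_of_subset_of_card_le h1 (le_of_eq hST.symm)]
  | succ m ih =>
    intro S T hST hm
    obtain ⟨i, hi⟩ : (S \ T).Nonempty := Finset.card_pos.1 (by omega)
    have hcard : (T \ S).card = m + 1 := by
      have a1 := Finset.card_sdiff_add_card_inter S T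
      have a2 := Finset.card_sdiff_add_card_inter T S
      rw [Finset.inter_comm] at a2
      omega
    obtain ⟨j, hj⟩ : (T \ S).Nonempty := Finset.card_pos.1 (by omega)
    rw [Finset.mem_sdiff] at hi hj
    have hij : i ≠ j := fun h => hj.2 (h ▸ hi.1)
    have e1 : g S = g (insert j (S.erase i)) := by
      have := F1_swap hn hg (S.erase i) i j (by simp) (by simp [hj.2]) hij
      rwa [Finset.insert_erase hi.1] at this
    rw [e1]
    apply ih
    · rw [Finset.card_insert_of_notMem (by simp [hj.2]), Finset.card_erase_of_mem hi.1]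
      have : 0 < S.card := Finset.card_pos.2 ⟨i, hi.1⟩
      omega
    · have : insert j (S.erase i) \ T = (S \ T).erase i := by
        ext x
        simp only [Finset.mem_sdiff, Finset.mem_insert, Finset.mem_erase]
        constructor
        · rintro ⟨h1 | h1, h2⟩
          · exact absurd (h1 ▸ hj.1) h2
          · exact ⟨h1.1, h1.2, h2⟩
        · rintro ⟨h1, h2, h3⟩
          exact ⟨Or.inr ⟨h1, h2⟩, h3⟩
      rw [this, Finset.card_erase_of_mem (by rw [Finset.mem_sdiff]; exact hi), hm]
      rfl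

omit h2 in
private lemma F1_mod {g : Finset (Fin n) → K} (hn : 5 ≤ n)
    (hg : ∀ (S : Finset (Fin n)) (a b c : Fin n), a ≠ b → a ≠ c → b ≠ c → a ∉ S → b ∉ S → c ∉ S →
      g (insert a (insert b (insert c S))) = g S) :
    ∀ (t : ℕ) (S T : Finset (Fin n)), S.card = T.card + 3 * t → g S = g T := by
  classical
  intro t
  induction t with
  | zero =>
    intro S T h
    exact F1_card hn hg _ S T (by simpa using h) rfl
  | succ t ih =>
    intro S T h
    obtain ⟨C, hCS, hCc⟩ := Finset.exists_subset_card_eq (show 3 ≤ S.card by omega)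
    obtain ⟨a, b, c, hab, hac, hbc, hCe⟩ := Finset.card_eq_three.1 hCc
    have hSe : S = insert a (insert b (insert c (S \ C))) := by
      rw [hCe] at hCS ⊢
      ext x
      simp only [Finset.mem_insert, Finset.mem_sdiff, Finset.mem_singleton]
      constructor
      · intro hx
        by_cases h1 : x = a
        · exact Or.inl h1
        · by_cases h2 : x = b
          · exact Or.inr (Or.inl h2)
          · by_cases h3 : x = c
            · exact Or.inr (Or.inr (Or.inl h3))
            · exact Or.inr (Or.inr (Or.inr ⟨hx, by tauto⟩))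
      · rintro (h1 | h1 | h1 | h1)
        · exact hCS (by simp [h1])
        · exact hCS (by simp [h1])
        · exact hCS (by simp [h1])
        · exact h1.1
    have e1 : g S = g (S \ C) := by
      conv_lhs => rw [hSe]
      apply hg _ a b c hab hac hbc <;> simp [hCe]
    rw [e1]
    apply ih
    have := Finset.card_sdiff_of_subset hCS
    rw [this, hCc]
    omega

end main

theorem comb {n : ℕ} (hn : 5 ≤ n) (f : (Fin n → ZMod 3) → ZMod 2)
    (hR : ∀ (a : Fin n) (γ : Fin n → ZMod 3),
      f γ + f (γ + Pi.single a 1) + f (γ + Pi.single a 2) = 0)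
    (hS : ∀ γ : Fin n → ZMod 3, f (fun i => γ i + 1) = f γ)
    (hC : ∀ a b c : Fin n, a ≠ b → a ≠ c → b ≠ c → ∀ γ : Fin n → ZMod 3,
      γ a = 0 → γ b = 0 → γ c = 0 →
      ∑ j : ZMod 3, f (γ + Pi.single a j + Pi.single b j + Pi.single c j) = 0) :
    f 0 = 0 := by
  classical
  have : Fact (Nat.Prime 2) := ⟨Nat.prime_two⟩
  obtain ⟨K, hKf, hKa, hKc⟩ : ∃ (K : Type) (_ : Field K) (_ : Algebra (ZMod 2) K), IsAlgClosed K :=
    ⟨AlgebraicClosure (ZMod 2), inferInstance, inferInstance, inferInstance⟩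
  have h2 : (2 : K) = 0 := by
    have h : algebraMap (ZMod 2) K (1 + 1) = 1 + 1 := by rw [map_add, map_one]
    rw [F1_two, map_zero] at h
    linear_combination -h
  obtain ⟨w, hw1⟩ : ∃ w : K, w ^ 2 + w + 1 = 0 := by
    have hd : (Polynomial.X ^ 2 + Polynomial.X + 1 : Polynomial K).degree = 2 := by
      compute_degree!
    obtain ⟨w, hw⟩ := IsAlgClosed.exists_root (Polynomial.X ^ 2 + Polynomial.X + 1 : Polynomial K)
      (by rw [hd]; decide)
    refine ⟨w, ?_⟩
    simpa [Polynomial.IsRoot] using hw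
  obtain ⟨F, hF⟩ : ∃ F : (Fin n → ZMod 3) → K, F = fun γ => algebraMap (ZMod 2) K (f γ) := ⟨_, rfl⟩
  have hR' : ∀ (a : Fin n) (γ : Fin n → ZMod 3), F γ + F (γ + Pi.single a 1) + F (γ + Pi.single a 2) = 0 := by
    intro a γ
    rw [hF]
    simp only
    rw [← map_add, ← map_add, hR, map_zero]
  have hS' : ∀ γ : Fin n → ZMod 3, F (fun i => γ i + 1) = F γ := by
    intro γ
    rw [hF]
    simp only
    rw [hS]
  have hC' : ∀ a b c : Fin n, a ≠ b → a ≠ c → b ≠ c → ∀ γ : Fin n → ZMod 3,
      γ a = 0 → γ b = 0 → γ c = 0 →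
      ∑ j : ZMod 3, F (γ + Pi.single a j + Pi.single b j + Pi.single c j) = 0 := by
    intro a b c hab hac hbc γ ha hb hc
    rw [hF]
    simp only
    rw [← map_sum, hC a b c hab hac hbc γ ha hb hc, map_zero]
  have hg : ∀ (S : Finset (Fin n)) (a b c : Fin n), a ≠ b → a ≠ c → b ≠ c → a ∉ S → b ∉ S → c ∉ S →
      F1_g w F (insert a (insert b (insert c S))) = F1_g w F S :=
    fun S a b c hab hac hbc ha hb hc => F1_star h2 w hw1 F hR' hC' S a b c hab hac hbc ha hb hc
  have hF0 : F 0 = 0 := by
    rw [← F1_expand h2 w hw1 F hR']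
    apply Finset.sum_involution (fun S _ => Sᶜ)
    · intro S _
      have hle : S.card ≤ n := by simpa using Finset.card_le_univ S
      have hcc : Sᶜ.card = n - S.card := by rw [Finset.card_compl, Fintype.card_fin]
      by_cases hv : ((S.card : ℕ) : ZMod 3) = ((2 * n : ℕ) : ZMod 3)
      · rw [ZMod.natCast_eq_natCast_iff] at hv
        unfold Nat.ModEq at hv
        have heq : F1_g w F S = F1_g w F Sᶜ := by
          rcases le_total S.card Sᶜ.card with hl | hl
          · obtain ⟨t, ht⟩ : ∃ t, Sᶜ.card = S.card + 3 * t := ⟨(Sᶜ.card - S.card) / 3, by omega⟩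
            exact (F1_mod hn hg t Sᶜ S ht).symm
          · obtain ⟨t, ht⟩ : ∃ t, S.card = Sᶜ.card + 3 * t := ⟨(S.card - Sᶜ.card) / 3, by omega⟩
            exact F1_mod hn hg t S Sᶜ ht
        rw [← heq]
        exact F1_add_self h2 _
      · have hv' : ((Sᶜ.card : ℕ) : ZMod 3) ≠ ((2 * n : ℕ) : ZMod 3) := by
          intro h
          apply hv
          rw [ZMod.natCast_eq_natCast_iff] at h ⊢
          unfold Nat.ModEq at h ⊢
          omega
        rw [F1_inv h2 w hw1 F hS' S hv, F1_inv h2 w hw1 F hS' Sᶜ hv', add_zero]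
    · intro S _ _ h
      have h0 : (⟨0, by omega⟩ : Fin n) ∈ S ↔ (⟨0, by omega⟩ : Fin n) ∈ Sᶜ := by rw [h]
      rw [Finset.mem_compl] at h0
      tauto
    · intro S _
      exact compl_compl S
    · intro S _
      exact Finset.mem_univ _
  have : algebraMap (ZMod 2) K (f 0) = algebraMap (ZMod 2) K 0 := by
    rw [map_zero, ← hF0, hF]
  exact (algebraMap (ZMod 2) K).injective this

end MP2619.N
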