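import Pool.Agent.Lib.MP_2619d0_ag.N.A4
import Pool.Agent.Lib.MP_2619d0_ag.N.A10
import Pool.Agent.Lib.MP_2619d0_ag.N.F1

/-!
Row 2619n-A11: THEOREM N from all other rows (section 7 of /team-store/2619NP_paper_helper9.md).
-/

set_option autoImplicit false

namespace MP2619.N

open scoped NNReal
open IntermediateField MP2619.R Pool.Agent.Lib.MP_2619d0_ag Pool.Agent.Lib.MP_2619d0_ag.T

universe v

private theorem A11_count {T : Type} [Finite T] (f : T → ℝ≥0)
    (h1 : ∀ R : ℝ≥0, 1 < R → Even (Nat.card {t : T // f t = R}))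
    (h0 : Even (Nat.card {t : T // f t ≤ 1})) : Even (Nat.card T) := by
  classical
  haveI := Fintype.ofFinite T
  have key : Nat.card T = ∑ R ∈ (Finset.univ : Finset T).image (fun t => max (f t) 1),
      ((Finset.univ : Finset T).filter (fun t => max (f t) 1 = R)).card := by
    rw [Nat.card_eq_fintype_card, ← Finset.card_univ]
    exact Finset.card_eq_sum_card_image _ _
  rw [key]
  refine Finset.even_sum _ (fun R hR => ?_)
  obtain ⟨t0, -, ht0⟩ := Finset.mem_image.1 hR
  have hR1 : 1 ≤ R := by rw [← ht0]; exact le_max_right _ _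
  rcases hR1.eq_or_lt with h | h
  · have e : (Finset.univ.filter (fun t : T => max (f t) 1 = R)).card =
        Nat.card {t : T // f t ≤ 1} := by
      rw [Nat.card_eq_fintype_card, Fintype.card_subtype]
      congr 1
      ext t
      simp only [Finset.mem_filter, Finset.mem_univ, true_and]
      rw [← h]
      exact max_eq_right_iff
    rw [e]
    exact h0
  · have e : (Finset.univ.filter (fun t : T => max (f t) 1 = R)).card =
        Nat.card {t : T // f t = R} := by
      rw [Nat.card_eq_fintype_card, Fintype.card_subtype]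
      congr 1
      ext t
      simp only [Finset.mem_filter, Finset.mem_univ, true_and]
      constructor
      · intro hm
        rcases max_cases (f t) 1 with ⟨h3, -⟩ | ⟨h3, -⟩
        · rw [← h3]; exact hm
        · rw [h3] at hm
          exact absurd hm h.ne
      · intro hm
        rw [hm]
        exact max_eq_left h.le
    rw [e]
    exact h1 R h

private theorem A11_coeff {n : ℕ} {F : MvPolynomial (Fin n) ℂ} {J : Type} {z : Exp3 n ⊕ J → ℂ}
    {A : Type} [Field A] [Algebra ℂ A] {u l : Fin n → A} (h : Ctx F z u l) (d : Fin n →₀ ℕ) :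
    MvPolynomial.coeff d F ∈ Qz z := by
  classical
  by_cases hd : d.degree = 3
  · rw [h.cf ⟨d, hd⟩]
    refine add_mem ?_ (mul_mem ?_ (subset_adjoin _ _ (Set.mem_range_self _)))
    · split_ifs
      · exact one_mem _
      · exact zero_mem _
    · exact ofNat_mem _ 2
  · have : MvPolynomial.coeff d F = 0 := by
      by_contra hne
      exact hd (by
        rw [Finsupp.degree_eq_weight_one]
        exact h.hom hne)
    rw [this]
    exact zero_mem _

private theorem A11_parity {a : ℕ} (h : Even a) : (a : ZMod 2) = 0 :=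
  (ZMod.natCast_eq_zero_iff_even).2 h

private theorem A11_two {n : ℕ} (hstar : StarC n) (hr1 : R1C n) (hsc : ScC n) (hn : 5 ≤ n)
    {F : MvPolynomial (Fin n) ℂ} {J : Type} {z : Exp3 n ⊕ J → ℂ} {A : Type}
    [Field A] [CharZero A] [Algebra ℂ A] {u l : Fin n → A} (h : Ctx F z u l)
    (k1 : IntermediateField (Qz z) ℂ) (w : k1) {M1 : Type} [Field M1] [Algebra k1 M1]
    (x y : Fin n → M1) (hD : Dat F z k1 w x y) (hP : Pr k1 (fun i => x i + y i)) : False := by
  classical
  haveI := h.closed
  obtain ⟨v2, h2⟩ := exists_two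
  obtain ⟨V, hV⟩ := exists_wt (k := ℚ) (zeta z u l) (zeta_ind h) (zeta_alg h) v2 (fun _ => 1)
    (fun _ => one_pos)
  have hu : AlgebraicIndependent k1 u := by
    have h1 : AlgebraicIndependent ℂ u := h.ind.comp Sum.inl Sum.inl_injective
    exact h1.restrictScalars (algebraMap k1 ℂ).injective
  have hz0 : zg w x y 0 = fun i => x i + y i := by
    funext i
    simp [zg]
  have hind : AlgebraicIndependent k1 (zg w x y 0) := by rw [hz0]; exact hP.1
  have hodd : Odd (Module.finrank (adjoin k1 (Set.range (zg w x y 0))) M1) := by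
    rw [hz0]; exact hP.2
  have hcard : Nat.card (Tg (A := A) w u x y 0) =
      Module.finrank (adjoin k1 (Set.range (zg w x y 0))) M1 :=
    card_emb u hu (zg w x y 0) hind hodd.pos.ne'
  haveI hfinT : Finite (Tg (A := A) w u x y 0) := finite_emb u hu hD.fg (zg w x y 0)
  have hf0 : ((gc V w u x y 0 : ℕ) : ZMod 2) = 0 := by
    refine comb hn (fun γ => ((gc V w u x y γ : ℕ) : ZMod 2)) ?_ ?_ ?_
    · intro a γ
      have h3 := A11_parity (end_r1 hr1 h v2 h2 V hV k1 w x y hD a γ)
      simpa only [Nat.cast_add] using h3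
    · intro γ
      have h3 := A11_parity (end_sc hsc h v2 h2 V hV k1 w x y hD γ)
      rw [Nat.cast_add] at h3
      exact CharTwo.add_eq_zero.1 h3
    · intro a b c hab hac hbc γ ha hb hc
      have h3 := A11_parity (star_rel hstar h v2 h2 V hV a b c hab hac hbc k1 w x y hD γ ha hb hc)
      simpa only [Nat.cast_sum] using h3
  have hg0 : Even (gc V w u x y 0) := (ZMod.natCast_eq_zero_iff_even).1 hf0
  have heven : Even (Nat.card (Tg (A := A) w u x y 0)) := by
    refine A11_count (fun τ => nm V (fun i => τ.1 (x i)))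
      (fun R hR => gap_one (by omega) h v2 h2 V hV k1 w x y hD R hR) ?_
    have e : Nat.card {τ : Tg (A := A) w u x y 0 // nm V (fun i => τ.1 (x i)) ≤ 1} =
        gc V w u x y 0 := by
      refine Nat.card_congr ((Equiv.subtypeEquivRight (fun τ => ?_)).trans
        (Equiv.subtypeSubtypeEquivSubtypeInter _ (fun τ : M1 →ₐ[k1] A => ∀ i, V (τ (x i)) ≤ 1)))
      simp [nm, Finset.sup_le_iff]
    rw [e]
    exact hg0
  rw [hcard] at heven
  exact (Nat.not_even_iff_odd.2 hodd) heven

/-- Every embedding is good (`nm V (τ x) ≤ 1`) or has norm `R > 1`; the numbers of the latter are even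
for each `R` (`gap_one`); the number of good ones for `γ = 0` is even by `comb` for
`f γ = (gc V w u x y γ : ZMod 2)`, `end_r1`, `end_sc`, `star_rel`. The number of all embeddings is the odd degree
`[M1 : k1(x + y)]` (`card_emb`). -/
theorem secant_parity {n : ℕ} (hn : 5 ≤ n) (hstar : StarC n) (hr1 : R1C n) (hsc : ScC n)
    {F : MvPolynomial (Fin n) ℂ} (hF : VG F) {M : Type v} [Field M] [Algebra ℂ M]
    (x y : Fin n → M) (hx : MvPolynomial.aeval x F = 0) (hy : MvPolynomial.aeval y F = 0) :
    ¬ Pr ℂ (fun i => x i + y i) := by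
  intro hP
  obtain ⟨J, z, A, iF, iC, iA, u, l, hC⟩ := exists_ctx hF
  obtain ⟨k1, w, M1, iM, iA1, x1, y1, hD, hP1⟩ :=
    descend_k1 z hC.tb (A11_coeff hC) x y hx hy hP
  exact A11_two hstar hr1 hsc hn hC k1 w x1 y1 hD hP1

end MP2619.N
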