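import Pool.Agent.Lib.MP_2619d0_ag.N.Defs

/-!
Row 2619n-G1: Gauss valuations and algebraic extensions.
-/

set_option autoImplicit false

namespace MP2619.N

open scoped NNReal
open IntermediateField

section G1aux

/-- Gauss valuation: two sided description -/
private theorem G1_iff {k A : Type*} [Field k] [Field A] [Algebra k A] (V : Valuation A ℝ≥0)
    {J : Type*} (z : J → A) :
    IsGauss k V z ↔ (∀ j, V (z j) ≤ 1) ∧
      ∀ (P : MvPolynomial J k) (m : J →₀ ℕ), V (algebraMap k A (P.coeff m)) ≤ V (MvPolynomial.aeval z P) := by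
  classical
  constructor
  · intro h
    refine ⟨fun j => ?_, fun P m => ?_⟩
    · have := h (MvPolynomial.X j)
      rw [MvPolynomial.aeval_X] at this
      rw [this]
      refine Finset.sup_le fun m _ => ?_
      rw [MvPolynomial.coeff_X]
      split_ifs <;> simp
    · rw [h P]
      by_cases hm : m ∈ P.support
      · exact Finset.le_sup (f := fun m => V (algebraMap k A (P.coeff m))) hm
      · rw [MvPolynomial.notMem_support_iff] at hm
        simp [hm]
  · rintro ⟨h1, h2⟩ P
    refine le_antisymm ?_ (Finset.sup_le fun m _ => h2 P m)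
    rw [MvPolynomial.aeval_def, MvPolynomial.eval₂_eq]
    refine Valuation.map_sum_le V fun m hm => ?_
    rw [map_mul]
    refine le_trans (mul_le_of_le_one_right' ?_) (Finset.le_sup (f := fun m => V (algebraMap k A (P.coeff m))) hm)
    rw [map_prod]
    refine Finset.prod_le_one' fun i _ => ?_
    rw [map_pow]
    exact pow_le_one₀ zero_le (h1 i)

variable {k A : Type*} [Field k] [Field A] [Algebra k A]

private instance G1_ext (V : Valuation A ℝ≥0) : (V.comap (algebraMap k A)).HasExtension V :=
  ⟨Valuation.IsEquiv.refl⟩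

private theorem G1_res0 {F : Type*} [Field F] (V : Valuation F ℝ≥0) (x : V.valuationSubring) :
    IsLocalRing.residue V.valuationSubring x = 0 ↔ V (x : F) < 1 := by
  rw [IsLocalRing.residue_eq_zero_iff, IsLocalRing.mem_maximalIdeal, mem_nonunits_iff]
  have h := (Valuation.integer.integers V).isUnit_iff_valuation_eq_one (x := x)
  have h1 : V (x : F) ≤ 1 := x.2
  constructor
  · intro hx
    refine lt_of_le_of_ne h1 fun h2 => hx (h.2 h2)
  · intro hx hu
    exact hx.ne (h.1 hu)

/-- the vector inside the valuation ring -/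
private def G1_in {J : Type*} (V : Valuation A ℝ≥0) (z : J → A) (hz : ∀ j, V (z j) ≤ 1) :
    J → V.valuationSubring := fun j => ⟨z j, hz j⟩

private theorem G1_aeval {J : Type*} (V : Valuation A ℝ≥0) (z : J → A) (hz : ∀ j, V (z j) ≤ 1)
    (Q : MvPolynomial J (V.comap (algebraMap k A)).valuationSubring) :
    ((MvPolynomial.aeval (G1_in V z hz) Q : V.valuationSubring) : A) =
      MvPolynomial.aeval z (MvPolynomial.map
        ((V.comap (algebraMap k A)).valuationSubring.subtype) Q) := by
  rw [MvPolynomial.aeval_def, MvPolynomial.aeval_def, MvPolynomial.eval₂_map]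
  change V.valuationSubring.subtype _ = _
  rw [MvPolynomial.hom_eval₂]
  rfl

private theorem G1_resaeval {J : Type*} (V : Valuation A ℝ≥0) (z : J → A) (hz : ∀ j, V (z j) ≤ 1)
    (Q : MvPolynomial J (V.comap (algebraMap k A)).valuationSubring) :
    MvPolynomial.aeval (fun j => IsLocalRing.residue V.valuationSubring (G1_in V z hz j))
      (MvPolynomial.map (IsLocalRing.residue (V.comap (algebraMap k A)).valuationSubring) Q) =
    IsLocalRing.residue V.valuationSubring (MvPolynomial.aeval (G1_in V z hz) Q) := by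
  rw [MvPolynomial.aeval_def, MvPolynomial.aeval_def, MvPolynomial.eval₂_map, MvPolynomial.hom_eval₂]
  rfl

private theorem G1_ind {J : Type*} (V : Valuation A ℝ≥0) (z : J → A) (hz : ∀ j, V (z j) ≤ 1) :
    (∀ (P : MvPolynomial J k) (m : J →₀ ℕ),
      V (algebraMap k A (P.coeff m)) ≤ V (MvPolynomial.aeval z P)) ↔
    AlgebraicIndependent (IsLocalRing.ResidueField (V.comap (algebraMap k A)).valuationSubring)
      (fun j => IsLocalRing.residue V.valuationSubring (G1_in V z hz j)) := by
  classical
  constructor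
  · intro h
    rw [algebraicIndependent_iff]
    intro p hp
    obtain ⟨Q, rfl⟩ := MvPolynomial.map_surjective
      (IsLocalRing.residue (V.comap (algebraMap k A)).valuationSubring)
      IsLocalRing.residue_surjective p
    rw [G1_resaeval, G1_res0, G1_aeval] at hp
    ext m
    rw [MvPolynomial.coeff_map, MvPolynomial.coeff_zero, G1_res0]
    refine lt_of_le_of_lt ?_ hp
    have := h (MvPolynomial.map ((V.comap (algebraMap k A)).valuationSubring.subtype) Q) m
    rw [MvPolynomial.coeff_map] at this
    exact this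
  · intro h P m
    by_cases hP : P = 0
    · simp [hP]
    obtain ⟨m₀, hm₀, hmax⟩ := Finset.exists_max_image P.support
      (fun m => V (algebraMap k A (P.coeff m))) (MvPolynomial.support_nonempty.2 hP)
    have hc : P.coeff m₀ ≠ 0 := MvPolynomial.mem_support_iff.1 hm₀
    have hm : V (algebraMap k A (P.coeff m)) ≤ V (algebraMap k A (P.coeff m₀)) := by
      by_cases hm : m ∈ P.support
      · exact hmax m hm
      · rw [MvPolynomial.notMem_support_iff] at hm
        simp [hm]
    refine hm.trans ?_
    have hVc : V (algebraMap k A (P.coeff m₀)) ≠ 0 := by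
      rw [Valuation.ne_zero_iff]
      simpa using hc
    have hco : ∀ m, (V.comap (algebraMap k A)) ((P.coeff m₀)⁻¹ * P.coeff m) ≤ 1 := by
      intro m
      rw [Valuation.comap_apply, map_mul, map_mul, map_inv₀, map_inv₀]
      have hm : V (algebraMap k A (P.coeff m)) ≤ V (algebraMap k A (P.coeff m₀)) := by
        by_cases hm : m ∈ P.support
        · exact hmax m hm
        · rw [MvPolynomial.notMem_support_iff] at hm
          simp [hm]
      calc (V (algebraMap k A (P.coeff m₀)))⁻¹ * V (algebraMap k A (P.coeff m))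
          ≤ (V (algebraMap k A (P.coeff m₀)))⁻¹ * V (algebraMap k A (P.coeff m₀)) := by gcongr
        _ = 1 := inv_mul_cancel₀ hVc
    have hrange : MvPolynomial.C (P.coeff m₀)⁻¹ * P ∈
        Set.range (MvPolynomial.map (σ := J) ((V.comap (algebraMap k A)).valuationSubring.subtype)) := by
      rw [MvPolynomial.mem_range_map_iff_coeffs_subset]
      intro x hx
      rw [Finset.mem_coe, MvPolynomial.mem_coeffs_iff] at hx
      obtain ⟨m, hm, rfl⟩ := hx
      rw [MvPolynomial.coeff_C_mul]
      exact ⟨⟨_, hco m⟩, rfl⟩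
    obtain ⟨Q, hQ⟩ := hrange
    by_contra hlt
    rw [not_le] at hlt
    have h1 : V (MvPolynomial.aeval z (MvPolynomial.C (P.coeff m₀)⁻¹ * P)) < 1 := by
      rw [map_mul, MvPolynomial.aeval_C, map_mul, map_inv₀, map_inv₀]
      calc (V (algebraMap k A (P.coeff m₀)))⁻¹ * V (MvPolynomial.aeval z P)
          < (V (algebraMap k A (P.coeff m₀)))⁻¹ * V (algebraMap k A (P.coeff m₀)) := by
            apply mul_lt_mul_of_pos_left hlt
            exact pos_iff_ne_zero.2 (inv_ne_zero hVc)
        _ = 1 := inv_mul_cancel₀ hVc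
    rw [← hQ, ← G1_aeval V z hz, ← G1_res0, ← G1_resaeval] at h1
    have h2 := (algebraicIndependent_iff.1 h) _ h1
    have h3 : MvPolynomial.coeff m₀ (MvPolynomial.map
        (IsLocalRing.residue (V.comap (algebraMap k A)).valuationSubring) Q) = 0 := by
      rw [h2]; simp
    rw [MvPolynomial.coeff_map, G1_res0] at h3
    have h4 : ((MvPolynomial.coeff m₀ Q : (V.comap (algebraMap k A)).valuationSubring) : k) = 1 := by
      have := congrArg (MvPolynomial.coeff m₀) hQ
      rw [MvPolynomial.coeff_map, MvPolynomial.coeff_C_mul, inv_mul_cancel₀ hc] at this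
      exact this
    rw [h4] at h3
    simp at h3

private theorem G1_resalg {K : Type*} [Field K] [Algebra k K] [Algebra.IsAlgebraic k K]
    (v : Valuation k ℝ≥0) (w : Valuation K ℝ≥0) [v.HasExtension w] :
    Algebra.IsAlgebraic (IsLocalRing.ResidueField v.valuationSubring)
      (IsLocalRing.ResidueField w.valuationSubring) := by
  classical
  refine ⟨fun y => ?_⟩
  obtain ⟨x, rfl⟩ := IsLocalRing.residue_surjective y
  obtain ⟨p, hp0, hp⟩ := Algebra.IsAlgebraic.isAlgebraic (R := k) (x : K)
  obtain ⟨m₀, hm₀, hmax⟩ := Finset.exists_max_image p.support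
      (fun m => v (p.coeff m)) (Polynomial.support_nonempty.2 hp0)
  have hc : p.coeff m₀ ≠ 0 := Polynomial.mem_support_iff.1 hm₀
  have hVc : v (p.coeff m₀) ≠ 0 := by
    rwa [Valuation.ne_zero_iff]
  have hco : ∀ m, v ((p.coeff m₀)⁻¹ * p.coeff m) ≤ 1 := by
    intro m
    rw [map_mul, map_inv₀]
    have hm : v (p.coeff m) ≤ v (p.coeff m₀) := by
      by_cases hm : m ∈ p.support
      · exact hmax m hm
      · rw [Polynomial.notMem_support_iff] at hm
        simp [hm]
    calc (v (p.coeff m₀))⁻¹ * v (p.coeff m) ≤ (v (p.coeff m₀))⁻¹ * v (p.coeff m₀) := by gcongr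
      _ = 1 := inv_mul_cancel₀ hVc
  have hq : Polynomial.C (p.coeff m₀)⁻¹ * p ∈ Polynomial.lifts v.valuationSubring.subtype := by
    rw [Polynomial.lifts_iff_coeff_lifts]
    intro m
    rw [Polynomial.coeff_C_mul]
    exact ⟨⟨_, hco m⟩, rfl⟩
  obtain ⟨Q, hQ⟩ := hq
  refine ⟨Q.map (IsLocalRing.residue v.valuationSubring), ?_, ?_⟩
  · intro h0
    have h3 : (Q.map (IsLocalRing.residue v.valuationSubring)).coeff m₀ = 0 := by
      rw [h0]; simp
    rw [Polynomial.coeff_map, G1_res0] at h3
    have h4 : ((Q.coeff m₀ : v.valuationSubring) : k) = 1 := by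
      have := congrArg (fun q => Polynomial.coeff q m₀) hQ
      simp only [Polynomial.coe_mapRingHom, Polynomial.coeff_map, Polynomial.coeff_C_mul,
        inv_mul_cancel₀ hc] at this
      exact this
    rw [h4] at h3
    simp at h3
  · have h5 : Polynomial.aeval x Q = 0 := by
      apply Subtype.ext
      change w.valuationSubring.subtype _ = 0
      rw [Polynomial.aeval_def, Polynomial.hom_eval₂]
      have h6 : Polynomial.aeval (x : K) (Q.map v.valuationSubring.subtype) = 0 := by
        change Polynomial.aeval (x : K) (Polynomial.mapRingHom v.valuationSubring.subtype Q) = 0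
        rw [hQ, map_mul, hp, mul_zero]
      rw [Polynomial.aeval_def, Polynomial.eval₂_map] at h6
      exact h6
    have h7 : Polynomial.aeval (IsLocalRing.residue w.valuationSubring x)
        (Q.map (IsLocalRing.residue v.valuationSubring)) =
        IsLocalRing.residue w.valuationSubring (Polynomial.aeval x Q) := by
      rw [Polynomial.aeval_def, Polynomial.aeval_def, Polynomial.eval₂_map, Polynomial.hom_eval₂]
      rfl
    rw [h7, h5, map_zero]

end G1aux

/-- The residues of `z` stay algebraically independent over the residue field of an algebraic extension `K` of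
`k`. (Divide the polynomial by a coefficient of maximal norm: then the residue polynomial over the residue field of
`K` is not zero, and the residue field of `K` is algebraic over that of `k`.) -/
theorem gauss_alg {k K A : Type*} [Field k] [Field K] [Field A] [Algebra k K] [Algebra K A]
    [Algebra k A] [IsScalarTower k K A] [Algebra.IsAlgebraic k K] (V : Valuation A ℝ≥0) {J : Type*}
    (z : J → A) (h : IsGauss k V z) : IsGauss K V z := by
  rw [G1_iff] at h ⊢
  obtain ⟨hz, h⟩ := h
  refine ⟨hz, ?_⟩
  rw [G1_ind V z hz] at h ⊢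
  have : (V.comap (algebraMap k A)).HasExtension (V.comap (algebraMap K A)) := by
    constructor
    rw [← Valuation.comap_comp, ← IsScalarTower.algebraMap_eq]
    exact Valuation.IsEquiv.refl
  have := G1_resalg (V.comap (algebraMap k A)) (V.comap (algebraMap K A))
  have : IsScalarTower (IsLocalRing.ResidueField (V.comap (algebraMap k A)).valuationSubring)
      (IsLocalRing.ResidueField (V.comap (algebraMap K A)).valuationSubring)
      (IsLocalRing.ResidueField V.valuationSubring) := by
    refine IsScalarTower.of_algebraMap_eq fun y => ?_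
    obtain ⟨x, rfl⟩ := IsLocalRing.residue_surjective y
    rw [Valuation.HasExtension.algebraMap_residue_eq_residue_algebraMap,
      Valuation.HasExtension.algebraMap_residue_eq_residue_algebraMap,
      Valuation.HasExtension.algebraMap_residue_eq_residue_algebraMap]
    congr 1
    apply Subtype.ext
    exact IsScalarTower.algebraMap_apply k K A x
  exact h.extendScalars _

private theorem G1_coeff {k : Type*} [Field k] {J₁ J₂ : Type*} (s : Finset (J₂ →₀ ℕ))
    (N : (J₂ →₀ ℕ) → MvPolynomial J₁ k) (m : J₂ →₀ ℕ) (hm : m ∈ s) (m₁ : J₁ →₀ ℕ) :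
    MvPolynomial.coeff (m₁.mapDomain Sum.inl + m.mapDomain Sum.inr)
      (∑ m' ∈ s, MvPolynomial.rename Sum.inl (N m') *
        MvPolynomial.monomial ((m'.mapDomain Sum.inr : J₁ ⊕ J₂ →₀ ℕ)) (1 : k)) =
      MvPolynomial.coeff m₁ (N m) := by
  classical
  rw [MvPolynomial.coeff_sum, Finset.sum_eq_single m]
  · rw [MvPolynomial.coeff_mul_monomial', if_pos (by exact le_add_self), add_tsub_cancel_right,
      MvPolynomial.coeff_rename_mapDomain _ Sum.inl_injective, mul_one]
  · intro m' _ hne
    rw [MvPolynomial.coeff_mul_monomial']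
    split_ifs with hle
    · rw [MvPolynomial.coeff_rename_eq_zero, zero_mul]
      intro w hw
      exfalso
      apply hne
      ext j
      have h1 := hle (Sum.inr j)
      have h2 := DFunLike.congr_fun hw (Sum.inr j)
      have h3 : ∀ x : J₁ →₀ ℕ, (x.mapDomain (Sum.inl : J₁ → J₁ ⊕ J₂)) (Sum.inr j) = 0 := by
        intro x
        exact Finsupp.mapDomain_of_notMem_range x _ (by simp)
      have h4 : ∀ x : J₂ →₀ ℕ, (x.mapDomain (Sum.inr : J₂ → J₁ ⊕ J₂)) (Sum.inr j) = x j := by
        intro x
        exact Finsupp.mapDomain_apply Sum.inr_injective x j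
      rw [h3, Finsupp.tsub_apply, Finsupp.add_apply, h3, h4, h4] at h2
      rw [Finsupp.add_apply, h3, h4, h4] at h1
      omega
    · rfl
  · intro h
    exact absurd hm h

private theorem G1_frac {k A : Type*} [Field k] [Field A] [Algebra k A] {J₁ : Type*} (u : J₁ → A)
    (c : adjoin k (Set.range u)) : ∃ N D : MvPolynomial J₁ k, MvPolynomial.aeval u D ≠ 0 ∧
      MvPolynomial.aeval u N = (c : A) * MvPolynomial.aeval u D := by
  obtain ⟨r, s, h⟩ := (mem_adjoin_range_iff k u (c : A)).1 c.2
  by_cases hs : MvPolynomial.aeval u s = 0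
  · refine ⟨0, 1, by simp, ?_⟩
    rw [h, hs]
    simp
  · exact ⟨r, s, hs, by rw [h, div_mul_cancel₀ _ hs]⟩

private theorem G1_denom {k A : Type*} [Field k] [Field A] [Algebra k A] {J₁ I : Type*} (u : J₁ → A)
    (c : I → adjoin k (Set.range u)) (s : Finset I) :
    ∃ D : MvPolynomial J₁ k, MvPolynomial.aeval u D ≠ 0 ∧
      ∀ i ∈ s, ∃ N : MvPolynomial J₁ k, MvPolynomial.aeval u N = (c i : A) * MvPolynomial.aeval u D := by
  classical
  induction s using Finset.induction_on with
  | empty => exact ⟨1, by simp, by simp⟩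
  | insert a s ha ih =>
    obtain ⟨D, hD, h⟩ := ih
    obtain ⟨N', D', hD', h'⟩ := G1_frac u (c a)
    refine ⟨D * D', by rw [map_mul]; exact mul_ne_zero hD hD', fun i hi => ?_⟩
    rw [Finset.mem_insert] at hi
    rcases hi with rfl | hi
    · exact ⟨N' * D, by rw [map_mul, map_mul, h']; ring⟩
    · obtain ⟨N, hN⟩ := h i hi
      exact ⟨N * D', by rw [map_mul, map_mul, hN]; ring⟩

/-- Gauss valuation for a subfamily. -/
theorem gauss_left {k A : Type*} [Field k] [Field A] [Algebra k A] (V : Valuation A ℝ≥0)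
    {J₁ J₂ : Type*} (u : J₁ → A) (l : J₂ → A) (h : IsGauss k V (Sum.elim u l)) :
    IsGauss k V u := by
  rw [G1_iff] at h ⊢
  refine ⟨fun j => h.1 (Sum.inl j), fun P m => ?_⟩
  have := h.2 (MvPolynomial.rename Sum.inl P) (m.mapDomain Sum.inl)
  rw [MvPolynomial.coeff_rename_mapDomain _ Sum.inl_injective, MvPolynomial.aeval_rename,
    Sum.elim_comp_inl] at this
  exact this

/-- Gauss over `k` for the family `(u, l)` implies Gauss over `k(u)` for the family `l`. -/
theorem gauss_adjoin {k A : Type*} [Field k] [Field A] [Algebra k A] (V : Valuation A ℝ≥0)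
    {J₁ J₂ : Type*} (u : J₁ → A) (l : J₂ → A) (h : IsGauss k V (Sum.elim u l)) :
    IsGauss (adjoin k (Set.range u)) V l := by
  classical
  have hu := gauss_left V u l h
  rw [G1_iff] at h ⊢
  refine ⟨fun j => h.1 (Sum.inr j), fun P m => ?_⟩
  by_cases hm : m ∈ P.support
  swap
  · rw [MvPolynomial.notMem_support_iff] at hm
    simp [hm]
  obtain ⟨D, hD, hN⟩ := G1_denom u (fun m => P.coeff m) P.support
  choose! N hN using hN
  have hVD : V (MvPolynomial.aeval u D) ≠ 0 := by
    rwa [Valuation.ne_zero_iff]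
  set R : MvPolynomial (J₁ ⊕ J₂) k := ∑ m' ∈ P.support, MvPolynomial.rename Sum.inl (N m') *
        MvPolynomial.monomial ((m'.mapDomain Sum.inr : J₁ ⊕ J₂ →₀ ℕ)) (1 : k) with hR
  have hRv : MvPolynomial.aeval (Sum.elim u l) R =
      MvPolynomial.aeval u D * MvPolynomial.aeval l P := by
    rw [hR, map_sum, MvPolynomial.aeval_def (p := P), MvPolynomial.eval₂_eq, Finset.mul_sum]
    refine Finset.sum_congr rfl fun m' hm' => ?_
    rw [map_mul, MvPolynomial.aeval_rename, Sum.elim_comp_inl, hN m' hm']
    have : MvPolynomial.aeval (Sum.elim u l)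
        (MvPolynomial.monomial ((m'.mapDomain Sum.inr : J₁ ⊕ J₂ →₀ ℕ)) (1 : k)) =
        ∏ i ∈ m'.support, l i ^ m' i := by
      rw [MvPolynomial.aeval_monomial, map_one, one_mul, Finsupp.prod_mapDomain_index_inj
        Sum.inr_injective]
      rfl
    rw [this]
    change _ = _ * (((P.coeff m' : adjoin k (Set.range u)) : A) * _)
    ring
  have h1 : V (MvPolynomial.aeval u (N m)) ≤ V (MvPolynomial.aeval (Sum.elim u l) R) := by
    rw [hu (N m)]
    refine Finset.sup_le fun m₁ _ => ?_
    have := h.2 R (m₁.mapDomain Sum.inl + m.mapDomain Sum.inr)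
    rw [hR, G1_coeff _ _ m hm] at this
    exact this
  rw [hN m hm, hRv, map_mul, map_mul, mul_comm] at h1
  exact le_of_mul_le_mul_left h1 (pos_iff_ne_zero.2 hVD)

/-- A linear combination with generic coefficients has the norm of the vector. -/
theorem nm_comb {k A : Type*} [Field k] [Field A] [Algebra k A] (V : Valuation A ℝ≥0)
    {n : ℕ} (u l : Fin n → A) (h : IsGauss k V (Sum.elim u l)) (X : Fin n → A)
    (hX : ∀ i, IsAlgebraic (adjoin k (Set.range u)) (X i)) :
    V (∑ i, l i * X i) = nm V X := by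
  classical
  have h1 := gauss_alg (K := algebraicClosure (adjoin k (Set.range u)) A) V l (gauss_adjoin V u l h)
  rw [G1_iff] at h1
  obtain ⟨h0, h1⟩ := h1
  unfold nm
  apply le_antisymm
  · refine Valuation.map_sum_le V fun i _ => ?_
    rw [map_mul]
    exact (mul_le_of_le_one_left' (h0 i)).trans (Finset.le_sup (f := fun i => V (X i)) (Finset.mem_univ i))
  · refine Finset.sup_le fun i _ => ?_
    have hx : ∀ i, X i ∈ algebraicClosure (adjoin k (Set.range u)) A := fun i =>
      mem_algebraicClosure_iff.2 (hX i)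
    have := h1 (∑ j, MvPolynomial.C (⟨X j, hx j⟩ : algebraicClosure (adjoin k (Set.range u)) A) *
      MvPolynomial.X j) (Finsupp.single i 1)
    rw [MvPolynomial.coeff_sum, Finset.sum_eq_single i, MvPolynomial.coeff_C_mul,
      MvPolynomial.coeff_X, if_pos rfl, mul_one, map_sum] at this
    · refine this.trans (le_of_eq ?_)
      congr 1
      refine Finset.sum_congr rfl fun j _ => ?_
      rw [map_mul, MvPolynomial.aeval_C, MvPolynomial.aeval_X, mul_comm]
      rfl
    · intro j _ hj
      rw [MvPolynomial.coeff_C_mul, MvPolynomial.coeff_X, if_neg, mul_zero]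
      intro h
      exact hj (Finsupp.single_left_injective one_ne_zero h)
    · intro h
      exact absurd (Finset.mem_univ i) h

private theorem G1_valadj {Ω A : Type*} [Field Ω] [Field A] [Algebra Ω A]
    (V : Valuation A ℝ≥0) {J : Type*} (u : J → A) (h : IsGauss Ω V u) (N : MvPolynomial J Ω)
    (hN : MvPolynomial.aeval u N ≠ 0) :
    ∃ c : Ω, c ≠ 0 ∧ V (algebraMap Ω A c) = V (MvPolynomial.aeval u N) := by
  have hN0 : N ≠ 0 := by
    rintro rfl
    simp at hN
  obtain ⟨m, hm, h1⟩ := Finset.exists_mem_eq_sup N.support (MvPolynomial.support_nonempty.2 hN0)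
    (fun m => V (algebraMap Ω A (N.coeff m)))
  exact ⟨N.coeff m, MvPolynomial.mem_support_iff.1 hm, by rw [h N, h1]⟩

/-- The value group of an algebraic extension of `Ω(u)`, `Ω` algebraically closed, is that of `Ω`. -/
theorem val_closed {Ω A : Type*} [Field Ω] [IsAlgClosed Ω] [Field A] [Algebra Ω A]
    (V : Valuation A ℝ≥0) {n : ℕ} (u : Fin n → A) (h : IsGauss Ω V u) (a : A) (ha : a ≠ 0)
    (halg : IsAlgebraic (adjoin Ω (Set.range u)) a) :
    ∃ c : Ω, c ≠ 0 ∧ V (algebraMap Ω A c) = V a := by
  classical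
  have hval : ∀ c : adjoin Ω (Set.range u), c ≠ 0 →
      ∃ w : Ω, w ≠ 0 ∧ V (algebraMap Ω A w) = V (c : A) := by
    intro c hc
    obtain ⟨N, D, hD, hN⟩ := G1_frac u c
    have hc' : (c : A) ≠ 0 := by
      intro h
      exact hc (Subtype.ext h)
    have hN0 : MvPolynomial.aeval u N ≠ 0 := by
      rw [hN]
      exact mul_ne_zero hc' hD
    obtain ⟨w₁, hw₁, h₁⟩ := G1_valadj V u h N hN0
    obtain ⟨w₂, hw₂, h₂⟩ := G1_valadj V u h D hD
    refine ⟨w₁ / w₂, div_ne_zero hw₁ hw₂, ?_⟩
    rw [map_div₀, map_div₀, h₁, h₂, hN, map_mul, mul_div_cancel_right₀]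
    rwa [Valuation.ne_zero_iff]
  obtain ⟨p, hp0, hp⟩ := halg
  rw [Polynomial.aeval_def, Polynomial.eval₂_eq_sum, Polynomial.sum_def] at hp
  obtain ⟨i₀, hi₀, hmax⟩ := Finset.exists_max_image p.support
      (fun i => V (algebraMap (adjoin Ω (Set.range u)) A (p.coeff i) * a ^ i))
      (Polynomial.support_nonempty.2 hp0)
  have hVa : V a ≠ 0 := by rwa [Valuation.ne_zero_iff]
  have hne : ∀ i ∈ p.support, V (algebraMap (adjoin Ω (Set.range u)) A (p.coeff i)) ≠ 0 := by
    intro i hi
    rw [Valuation.ne_zero_iff]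
    simpa using Polynomial.mem_support_iff.1 hi
  obtain ⟨i₁, hi₁, hne₁, heq⟩ : ∃ i₁ ∈ p.support, i₁ ≠ i₀ ∧
      V (algebraMap (adjoin Ω (Set.range u)) A (p.coeff i₁) * a ^ i₁) =
        V (algebraMap (adjoin Ω (Set.range u)) A (p.coeff i₀) * a ^ i₀) := by
    by_contra hcon
    push Not at hcon
    have := V.map_sum_eq_of_lt (s := p.support)
      (f := fun i => algebraMap (adjoin Ω (Set.range u)) A (p.coeff i) * a ^ i) hi₀ (by
        intro i hi
        rw [Finset.mem_sdiff, Finset.mem_singleton] at hi
        exact lt_of_le_of_ne (hmax i hi.1) (hcon i hi.1 hi.2))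
    rw [hp, map_zero, map_mul, map_pow] at this
    exact mul_ne_zero (hne i₀ hi₀) (pow_ne_zero _ hVa) this.symm
  have key : ∀ i j : ℕ, i ∈ p.support → j ∈ p.support → i < j →
      V (algebraMap (adjoin Ω (Set.range u)) A (p.coeff i) * a ^ i) =
        V (algebraMap (adjoin Ω (Set.range u)) A (p.coeff j) * a ^ j) →
      ∃ c : Ω, c ≠ 0 ∧ V (algebraMap Ω A c) = V a := by
    intro i j hi hj hij he
    obtain ⟨w₁, hw₁, h₁⟩ := hval (p.coeff i) (Polynomial.mem_support_iff.1 hi)
    obtain ⟨w₂, hw₂, h₂⟩ := hval (p.coeff j) (Polynomial.mem_support_iff.1 hj)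
    obtain ⟨z, hz⟩ := IsAlgClosed.exists_pow_nat_eq (w₁ / w₂) (n := j - i) (by omega)
    refine ⟨z, ?_, ?_⟩
    · rintro rfl
      rw [zero_pow (by omega)] at hz
      exact div_ne_zero hw₁ hw₂ hz.symm
    · have h3 : V (algebraMap Ω A z) ^ (j - i) = V a ^ (j - i) := by
        rw [← map_pow, ← map_pow, hz, map_div₀, map_div₀, h₁, h₂]
        change V (algebraMap (adjoin Ω (Set.range u)) A (p.coeff i)) /
          V (algebraMap (adjoin Ω (Set.range u)) A (p.coeff j)) = _
        rw [div_eq_iff (hne j hj)]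
        have h4 : V a ^ j = V a ^ (j - i) * V a ^ i := by
          rw [← pow_add]; congr 1; omega
        rw [map_mul, map_mul, map_pow, map_pow, h4] at he
        have h5 : V (algebraMap (adjoin Ω (Set.range u)) A (p.coeff i)) * V a ^ i =
            (V a ^ (j - i) * V (algebraMap (adjoin Ω (Set.range u)) A (p.coeff j))) * V a ^ i := by
          rw [he]; ring
        exact mul_right_cancel₀ (pow_ne_zero _ hVa) h5
      exact (pow_left_inj₀ zero_le zero_le (by omega)).1 h3
  rcases lt_or_gt_of_ne hne₁ with hlt | hlt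
  · exact key i₁ i₀ hi₁ hi₀ hlt heq
  · exact key i₀ i₁ hi₀ hi₁ hlt heq.symm

end MP2619.N
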