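import Pool.Agent.Lib.MP_2619d0_ag.N.A0
import Pool.Agent.Lib.MP_2619d0_ag.N.G1

/-!
Row 2619n-A3: the indeterminates `u`, `l` have residues which are algebraically independent over the residue
field of `ℂ` (and of every subfield), for every valuation with weights one at `u`, `l`. (First over `ℚ(z)`, from the
formula for `IsWt`; then `gauss_alg`, as `ℂ` is algebraic over `ℚ(z)`.)
-/

set_option autoImplicit false

namespace MP2619.N

open scoped NNReal
open IntermediateField Pool.Agent.Lib.MP_2619d0_ag Pool.Agent.Lib.MP_2619d0_ag.T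

/-- values of the members of the family -/
private theorem A3_wt_X {k A : Type*} [Field k] [Field A] [Algebra k A] (v : Valuation k ℝ≥0)
    (V : Valuation A ℝ≥0) {J : Type*} (z : J → A) (r : J → ℝ≥0) (h : IsWt v V z r) (s : J) :
    V (z s) = r s := by
  classical
  have h1 := h (MvPolynomial.X s)
  rw [MvPolynomial.aeval_X, MvPolynomial.support_X, Finset.sup_singleton, MvPolynomial.coeff_X,
    if_pos rfl, map_one, one_mul] at h1
  rw [h1]
  simp

private theorem A3_wt_C {k A : Type*} [Field k] [Field A] [Algebra k A] (v : Valuation k ℝ≥0)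
    (V : Valuation A ℝ≥0) {J : Type*} (z : J → A) (r : J → ℝ≥0) (h : IsWt v V z r) (c : k)
    (hc : c ≠ 0) : V (algebraMap k A c) = v c := by
  classical
  have h1 := h (MvPolynomial.C c)
  rw [MvPolynomial.aeval_C, MvPolynomial.C_apply, MvPolynomial.support_monomial, if_neg hc,
    Finset.sup_singleton, MvPolynomial.coeff_monomial, if_pos rfl] at h1
  rw [h1]
  simp

private theorem A3_coeff {k I S : Type*} [Field k] (p : MvPolynomial I k) (m m' : S →₀ ℕ)
    (μ : I →₀ ℕ) [Decidable (m = m')] :
    MvPolynomial.coeff (Finsupp.sumElim μ m')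
      (MvPolynomial.rename Sum.inl p * MvPolynomial.monomial (Finsupp.sumElim 0 m) 1) =
      if m = m' then MvPolynomial.coeff μ p else 0 := by
  classical
  induction p using MvPolynomial.induction_on' with
  | monomial u r =>
    have h1 : Finsupp.mapDomain Sum.inl u + Finsupp.sumElim (0 : I →₀ ℕ) m = Finsupp.sumElim u m := by
      rw [Finsupp.sumElim_eq_add, Finsupp.sumElim_eq_add]
      simp
    rw [MvPolynomial.rename_monomial, MvPolynomial.monomial_mul, mul_one, h1,
      MvPolynomial.coeff_monomial, MvPolynomial.coeff_monomial]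
    have h2 : (Finsupp.sumElim u m = Finsupp.sumElim μ m') ↔ (u = μ ∧ m = m') := by
      constructor
      · intro h
        constructor
        · rw [← Finsupp.comapDomain_inl_sumElim u m, h, Finsupp.comapDomain_inl_sumElim]
        · rw [← Finsupp.comapDomain_inr_sumElim u m, h, Finsupp.comapDomain_inr_sumElim]
      · rintro ⟨rfl, rfl⟩
        rfl
    by_cases ha : m = m'
    · by_cases hb : u = μ
      · rw [if_pos (h2.mpr ⟨hb, ha⟩), if_pos ha, if_pos hb]
      · rw [if_neg (fun hc => hb (h2.mp hc).1), if_pos ha, if_neg hb]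
    · rw [if_neg (fun hc => ha (h2.mp hc).2), if_neg ha]
  | add p q hp hq =>
    rw [map_add, add_mul, MvPolynomial.coeff_add, hp, hq, MvPolynomial.coeff_add]
    split_ifs <;> simp

private theorem A3_den {k K I : Type*} [Field k] [Field K] [Algebra k K] (z : I → K) {ι : Type*}
    (s : Finset ι) (c : ι → K) (hc : ∀ i ∈ s, c i ∈ adjoin k (Set.range z)) :
    ∃ (q : MvPolynomial I k) (p : ι → MvPolynomial I k), MvPolynomial.aeval z q ≠ 0 ∧
      ∀ i ∈ s, MvPolynomial.aeval z (p i) = MvPolynomial.aeval z q * c i := by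
  classical
  have h1 : ∀ i, ∃ a b : MvPolynomial I k, MvPolynomial.aeval z b ≠ 0 ∧
      (i ∈ s → MvPolynomial.aeval z a = MvPolynomial.aeval z b * c i) := by
    intro i
    by_cases hi : i ∈ s
    · obtain ⟨a, b, hab⟩ := (mem_adjoin_range_iff k z (c i)).mp (hc i hi)
      by_cases hb : MvPolynomial.aeval z b = 0
      · refine ⟨0, 1, by simp, fun _ => ?_⟩
        rw [hab, hb]
        simp
      · refine ⟨a, b, hb, fun _ => ?_⟩
        rw [hab]
        field_simp
    · exact ⟨0, 1, by simp, fun h => absurd h hi⟩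
  choose a b hb hab using h1
  refine ⟨∏ i ∈ s, b i, fun i => a i * ∏ j ∈ s.erase i, b j, ?_, ?_⟩
  · rw [map_prod]
    exact Finset.prod_ne_zero_iff.mpr (fun i _ => hb i)
  · intro i hi
    rw [map_mul, hab i hi, ← Finset.mul_prod_erase s b hi, map_mul]
    ring

/-- weights: from `k` to the field generated by the left variables -/
private theorem A3_main {k K A : Type*} [Field k] [Field K] [Field A] [Algebra k K] [Algebra K A]
    [Algebra k A] [IsScalarTower k K A] (v : Valuation k ℝ≥0) (V : Valuation A ℝ≥0) {I S : Type*}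
    (z : I → K) (y : S → A) (r : I → ℝ≥0)
    (h : IsWt v V (Sum.elim (fun i => algebraMap K A (z i)) y) (Sum.elim r (fun _ => 1)))
    (hl : IsWt v V (fun i => algebraMap K A (z i)) r)
    (P : MvPolynomial S K) (hP : ∀ m, P.coeff m ∈ adjoin k (Set.range z)) :
    V (MvPolynomial.aeval y P) = P.support.sup fun m => V (algebraMap K A (P.coeff m)) := by
  classical
  obtain ⟨q, p, hq, hp⟩ := A3_den z P.support (fun m => P.coeff m) (fun m _ => hP m)
  set D : K := MvPolynomial.aeval z q with hD
  have hDA : algebraMap K A D ≠ 0 := by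
    rw [Ne, map_eq_zero]
    exact hq
  have hVD : V (algebraMap K A D) ≠ 0 := (Valuation.ne_zero_iff V).mpr hDA
  set R : MvPolynomial (I ⊕ S) k := ∑ m ∈ P.support,
    MvPolynomial.rename Sum.inl (p m) * MvPolynomial.monomial (Finsupp.sumElim 0 m) 1 with hR
  have hzz : ∀ a : MvPolynomial I k, MvPolynomial.aeval (fun i => algebraMap K A (z i)) a =
      algebraMap K A (MvPolynomial.aeval z a) := by
    intro a
    exact MvPolynomial.aeval_algebraMap_apply A z a
  have hev : MvPolynomial.aeval (Sum.elim (fun i => algebraMap K A (z i)) y) R =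
      algebraMap K A D * MvPolynomial.aeval y P := by
    rw [hR, map_sum]
    conv_rhs => rw [P.as_sum, map_sum, Finset.mul_sum]
    refine Finset.sum_congr rfl (fun m hm => ?_)
    rw [map_mul, MvPolynomial.aeval_rename, Sum.elim_comp_inl, hzz, hp m hm, map_mul,
      MvPolynomial.aeval_monomial, MvPolynomial.aeval_monomial, map_one, one_mul,
      Finsupp.prod_sumElim]
    simp only [Finsupp.prod_zero_index, one_mul, mul_assoc]
    rfl
  have hcR : ∀ (μ : I →₀ ℕ) (m : S →₀ ℕ), R.coeff (Finsupp.sumElim μ m) =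
      if m ∈ P.support then (p m).coeff μ else 0 := by
    intro μ m
    rw [hR, MvPolynomial.coeff_sum]
    simp only [A3_coeff]
    rw [Finset.sum_ite_eq']
  have hVR := h R
  rw [hev, map_mul] at hVR
  have hwt : ∀ (μ : I →₀ ℕ) (m : S →₀ ℕ), (Finsupp.sumElim μ m).prod
      (fun j e => (Sum.elim r (fun _ => (1 : ℝ≥0)) j) ^ e) = μ.prod fun j e => r j ^ e := by
    intro μ m
    rw [Finsupp.prod_sumElim]
    have : m.prod ((fun j e => (Sum.elim r (fun _ => (1 : ℝ≥0)) j) ^ e) ∘ Sum.inr) = 1 := by
      simp [Finsupp.prod]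
    rw [this, mul_one]
    rfl
  have hsup : (R.support.sup fun m => v (R.coeff m) *
      m.prod fun j e => (Sum.elim r (fun _ => (1 : ℝ≥0)) j) ^ e) =
      P.support.sup fun m => V (algebraMap K A D) * V (algebraMap K A (P.coeff m)) := by
    apply le_antisymm
    · refine Finset.sup_le (fun M hM => ?_)
      obtain ⟨μ, m, rfl⟩ : ∃ (μ : I →₀ ℕ) (m : S →₀ ℕ), Finsupp.sumElim μ m = M :=
        ⟨_, _, Finsupp.comapDomain_sumElim_comapDomain M⟩
      rw [MvPolynomial.mem_support_iff, hcR] at hM
      have hm : m ∈ P.support := by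
        by_contra hcon
        rw [if_neg hcon] at hM
        exact hM rfl
      rw [if_pos hm] at hM
      rw [hcR, if_pos hm, hwt]
      refine le_trans ?_ (Finset.le_sup (f := fun m => V (algebraMap K A D) *
        V (algebraMap K A (P.coeff m))) hm)
      have h1 : V (algebraMap K A D) * V (algebraMap K A (P.coeff m)) =
          V (MvPolynomial.aeval (fun i => algebraMap K A (z i)) (p m)) := by
        rw [hzz, hp m hm, map_mul, map_mul]
      rw [h1, hl (p m)]
      exact Finset.le_sup (f := fun μ => v ((p m).coeff μ) * μ.prod fun j e => r j ^ e)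
        (MvPolynomial.mem_support_iff.mpr hM)
    · refine Finset.sup_le (fun m hm => ?_)
      have h1 : V (algebraMap K A D) * V (algebraMap K A (P.coeff m)) =
          V (MvPolynomial.aeval (fun i => algebraMap K A (z i)) (p m)) := by
        rw [hzz, hp m hm, map_mul, map_mul]
      rw [h1, hl (p m)]
      refine Finset.sup_le (fun μ hμ => ?_)
      have h2 : Finsupp.sumElim μ m ∈ R.support := by
        rw [MvPolynomial.mem_support_iff, hcR, if_pos hm]
        exact MvPolynomial.mem_support_iff.mp hμ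
      refine le_trans (le_of_eq ?_) (Finset.le_sup (f := fun m => v (R.coeff m) *
        m.prod fun j e => (Sum.elim r (fun _ => (1 : ℝ≥0)) j) ^ e) h2)
      rw [hcR, if_pos hm, hwt]
  rw [hsup, ← NNReal.mul_finset_sup] at hVR
  exact mul_left_cancel₀ hVD hVR

/-- restriction of the family -/
theorem wt_left {n : ℕ} {I : Type} (z : I → ℂ) {A : Type}
    [Field A] [CharZero A] [Algebra ℂ A] (u l : Fin n → A) (v2 : Valuation ℚ ℝ≥0)
    (V : Valuation A ℝ≥0) (i0 : I) (r : ℝ≥0)
    (hV : IsWt v2 V (zeta z u l) (wts (Sum.inl i0) r)) :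
    IsWt v2 V (fun s => algebraMap ℂ A (z s)) (wts i0 r) := by
  classical
  intro P
  have h1 := hV (MvPolynomial.rename Sum.inl P)
  rw [MvPolynomial.aeval_rename] at h1
  have h2 : zeta z u l ∘ Sum.inl = fun s => algebraMap ℂ A (z s) := rfl
  rw [h2] at h1
  rw [h1, MvPolynomial.support_rename_of_injective Sum.inl_injective, Finset.sup_image]
  refine Finset.sup_congr rfl (fun m _ => ?_)
  simp only [Function.comp]
  rw [MvPolynomial.coeff_rename_mapDomain _ Sum.inl_injective,
    Finsupp.prod_mapDomain_index_inj Sum.inl_injective]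
  congr 1
  refine Finsupp.prod_congr (fun j _ => ?_)
  unfold wts
  by_cases hj : j = i0
  · rw [if_pos hj, if_pos (by rw [hj])]
  · rw [if_neg hj, if_neg (by simpa using hj)]

theorem gauss_C {n : ℕ} {F : MvPolynomial (Fin n) ℂ} {J : Type} {z : Exp3 n ⊕ J → ℂ} {A : Type}
    [Field A] [CharZero A] [Algebra ℂ A] {u l : Fin n → A} (h : Ctx F z u l) (v2 : Valuation ℚ ℝ≥0)
    (V : Valuation A ℝ≥0) (i0 : Exp3 n ⊕ J) (r : ℝ≥0) (hr : 0 < r)
    (hV : IsWt v2 V (zeta z u l) (wts (Sum.inl i0) r)) : IsGauss ℂ V (Sum.elim u l) := by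
  classical
  have : Algebra.IsAlgebraic (Qz z) ℂ := h.tb.isAlgebraic_field
  refine gauss_alg (k := Qz z) (K := ℂ) V (Sum.elim u l) ?_
  intro P
  have hw : (wts (Sum.inl i0) r : (Exp3 n ⊕ J) ⊕ (Fin n ⊕ Fin n) → ℝ≥0) =
      Sum.elim (wts i0 r) (fun _ => 1) := by
    funext s
    unfold wts
    rcases s with s | s
    · by_cases hs : s = i0
      · rw [if_pos (by rw [hs]), Sum.elim_inl, if_pos hs]
      · rw [if_neg (by simpa using hs), Sum.elim_inl, if_neg hs]
    · rw [if_neg (by simp), Sum.elim_inr]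
  have h1 := A3_main (k := ℚ) (K := ℂ) v2 V z (Sum.elim u l) (wts i0 r)
    (by rw [← hw]; exact hV) (wt_left z u l v2 V i0 r hV)
    (MvPolynomial.map (algebraMap (Qz z) ℂ) P) (by
      intro m
      rw [MvPolynomial.coeff_map]
      exact (P.coeff m).2)
  rw [MvPolynomial.aeval_map_algebraMap] at h1
  rw [h1, MvPolynomial.support_map_of_injective P (algebraMap (Qz z) ℂ).injective]
  refine Finset.sup_congr rfl (fun m _ => ?_)
  rw [MvPolynomial.coeff_map]
  rfl

/-- restriction of the constants -/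
theorem gauss_restrict {k K A J : Type} [Field k] [Field K] [Field A] [Algebra k K] [Algebra K A]
    [Algebra k A] [IsScalarTower k K A] (V : Valuation A ℝ≥0) (y : J → A) (h : IsGauss K V y) :
    IsGauss k V y := by
  intro P
  have h1 := h (MvPolynomial.map (algebraMap k K) P)
  rw [MvPolynomial.aeval_map_algebraMap] at h1
  rw [h1, MvPolynomial.support_map_of_injective P (algebraMap k K).injective]
  refine Finset.sup_congr rfl (fun m _ => ?_)
  rw [MvPolynomial.coeff_map, ← IsScalarTower.algebraMap_apply]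

/-- norms of the coefficients of the cubic form and of `u` -/
theorem norm_coeff {n : ℕ} {F : MvPolynomial (Fin n) ℂ} {J : Type} {z : Exp3 n ⊕ J → ℂ} {A : Type}
    [Field A] [CharZero A] [Algebra ℂ A] {u l : Fin n → A} (h : Ctx F z u l) (v2 : Valuation ℚ ℝ≥0)
    (h2 : IsTwo v2) (V : Valuation A ℝ≥0) (d0 : Exp3 n) (t : ℝ≥0) (ht : 0 < t)
    (hV : IsWt v2 V (zeta z u l) (wts (Sum.inl (Sum.inl d0)) (2 * t))) :
    V 2 = 2⁻¹ ∧ (∀ i, V (u i) = 1) ∧
      (∀ d : Exp3 n, d ≠ d0 → V (algebraMap ℂ A (MvPolynomial.coeff d.1 F -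
        if ∃ i, d.1 = Finsupp.single i 3 then 1 else 0)) = 2⁻¹) ∧
      V (algebraMap ℂ A (MvPolynomial.coeff d0.1 F -
        if ∃ i, d0.1 = Finsupp.single i 3 then 1 else 0)) = t := by
  classical
  have hV2 : V 2 = 2⁻¹ := by
    have h3 := A3_wt_C v2 V _ _ hV 2 (by norm_num)
    rw [h2.two] at h3
    rw [← h3]
    congr 1
    norm_num
  have hX : ∀ s, V (zeta z u l s) = wts (Sum.inl (Sum.inl d0)) (2 * t) s := A3_wt_X v2 V _ _ hV
  have hcf : ∀ d : Exp3 n, V (algebraMap ℂ A (MvPolynomial.coeff d.1 F -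
        if ∃ i, d.1 = Finsupp.single i 3 then 1 else 0)) =
        2⁻¹ * wts (Sum.inl (Sum.inl d0)) (2 * t) ((Sum.inl (Sum.inl d) :
          (Exp3 n ⊕ J) ⊕ (Fin n ⊕ Fin n))) := by
    intro d
    rw [h.cf d, add_sub_cancel_left, map_mul, map_mul, ← hX, ← hV2]
    congr 2
    exact map_ofNat (algebraMap ℂ A) 2
  refine ⟨hV2, ?_, ?_, ?_⟩
  · intro i
    have := hX (Sum.inr (Sum.inl i))
    rw [wts, if_neg (by simp)] at this
    exact this
  · intro d hd
    rw [hcf d, wts, if_neg (by simpa using hd), mul_one]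
  · rw [hcf d0, wts, if_pos rfl, ← mul_assoc, inv_mul_cancel₀ (by norm_num), one_mul]

end MP2619.N
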