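import Pool.Agent.Lib.MP_2619d0_ag.N.A0
import Pool.Agent.Lib.MP_2619d0_ag.T.SG3

/-!
Row 2619n-A4: descent of the constants from `ℂ` to a finite extension `k1` of `ℚ(z)`.

Use `descend` (T/SG3.lean) with `ψ : MvPolynomial (Fin n) ℂ → M`, `X i ↦ x i + y i`, `p = (x, y)`,
`R0 = MvPolynomial (Fin n) k1`, where `k1` is generated over `ℚ(z)` by the (finitely many, algebraic over
`ℚ(z)`) coefficients of the elements of `T` and a primitive cube root of unity (see R/TF2.lean for the same
argument with a discrete valuation ring instead of `k1`). The field `M2` obtained is a finite extension of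
`k1(x + y)`; it is generated by finitely many elements, so it is isomorphic to a field in `Type` (for
instance a subfield of an algebraic closure of `FractionRing (MvPolynomial (Fin n) k1)`).
-/

set_option autoImplicit false

namespace MP2619.N

open scoped NNReal
open IntermediateField MP2619.R Pool.Agent.Lib.MP_2619d0_ag Pool.Agent.Lib.MP_2619d0_ag.T

universe v

private theorem A4_alg {I : Type} (z : I → ℂ) (hz : IsTranscendenceBasis ℚ z) (c : ℂ) :
    IsIntegral (Qz z) c := by
  have h1 : Algebra.IsAlgebraic (adjoin ℚ (Set.range z)) ℂ :=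
    isAlgebraic_adjoin_iff_top.mpr (hz.1.isTranscendenceBasis_iff_isAlgebraic.mp hz)
  exact (h1.isAlgebraic c).isIntegral

private theorem A4_rank {k : Type} {M : Type v} [Field k] [Field M] [Algebra k M] {n : ℕ}
    (u : Fin n → M) (ψ : MvPolynomial (Fin n) k →+* M) (hψ : ∀ P, ψ P = MvPolynomial.aeval u P) :
    Module.finrank (Subfield.closure (Set.range ψ)) M =
      Module.finrank (adjoin k (Set.range u)) M := by
  have h : Subfield.closure (Set.range ψ) = (adjoin k (Set.range u)).toSubfield := by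
    apply le_antisymm
    · rw [Subfield.closure_le]
      rintro _ ⟨P, rfl⟩
      rw [hψ]
      induction P using MvPolynomial.induction_on with
      | C a =>
        rw [MvPolynomial.aeval_C]
        exact (adjoin k (Set.range u)).algebraMap_mem a
      | add p q hp hq =>
        rw [map_add]
        exact (adjoin k (Set.range u)).add_mem hp hq
      | mul_X p i hp =>
        rw [map_mul, MvPolynomial.aeval_X]
        exact (adjoin k (Set.range u)).mul_mem hp (subset_adjoin k _ ⟨i, rfl⟩)
    · rw [adjoin_toSubfield, Subfield.closure_le]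
      rintro _ (⟨a, rfl⟩ | ⟨i, rfl⟩)
      · refine Subfield.subset_closure ⟨MvPolynomial.C a, ?_⟩
        rw [hψ, MvPolynomial.aeval_C]
      · refine Subfield.subset_closure ⟨MvPolynomial.X i, ?_⟩
        rw [hψ, MvPolynomial.aeval_X]
  rw [h]
  rfl

private theorem A4_transfer {k : Type} {M1 : Type} {M2 : Type v} [Field k] [Field M1] [Field M2]
    [Algebra k M1] [Algebra k M2] (e : M2 ≃ₐ[k] M1) {n : ℕ} (u : Fin n → M2) (h : Pr k u) :
    Pr k (fun i => e (u i)) := by
  refine ⟨?_, ?_⟩
  · exact AlgebraicIndependent.map' h.1 (f := (e : M2 →ₐ[k] M1)) e.injective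
  · have h1 : (adjoin k (Set.range u)).map (e : M2 →ₐ[k] M1) =
        adjoin k (Set.range (fun i => e (u i))) := by
      rw [adjoin_map]
      congr 1
      ext y
      simp
    have h2 : Module.finrank (adjoin k (Set.range u)) M2 =
        Module.finrank ((adjoin k (Set.range u)).map (e : M2 →ₐ[k] M1)) M1 := by
      refine Algebra.finrank_eq_of_equiv_equiv
        (((adjoin k (Set.range u)).equivMap (e : M2 →ₐ[k] M1)) : _ ≃+* _) (e : M2 ≃+* M1) ?_
      ext x
      rfl
    rw [← h1, ← h2]
    exact h.2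

private theorem A4_small {R : Type} {M : Type v} [CommRing R] [Field M] (ψ : R →+* M)
    (hfin : Module.finrank (Subfield.closure (Set.range ψ)) M ≠ 0) : Small.{0} M := by
  have hfd : FiniteDimensional (Subfield.closure (Set.range ψ)) M :=
    Module.finite_of_finrank_pos (Nat.pos_of_ne_zero hfin)
  have h1 : Small.{0} (Subfield.closure (Set.range ψ)) := by
    have hmem : ∀ a : R, ψ a ∈ Subfield.closure (Set.range ψ) := fun a =>
      Subfield.subset_closure ⟨a, rfl⟩
    refine small_of_surjective (α := R × R)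
      (f := fun ab => (⟨ψ ab.1, hmem ab.1⟩ : Subfield.closure (Set.range ψ)) / ⟨ψ ab.2, hmem ab.2⟩) ?_
    rintro ⟨x, hx⟩
    obtain ⟨a, b, hb, hab⟩ := SG3_quot ψ hx
    refine ⟨(a, b), ?_⟩
    apply Subtype.ext
    change ψ a / ψ b = x
    rw [← hab]
    field_simp
  exact small_of_injective (Module.finBasis (Subfield.closure (Set.range ψ)) M).equivFun.injective

theorem descend_k1 {n : ℕ} {F : MvPolynomial (Fin n) ℂ} {I : Type} (z : I → ℂ)
    (hz : IsTranscendenceBasis ℚ z) (hF : ∀ d, MvPolynomial.coeff d F ∈ Qz z)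
    {M : Type v} [Field M] [Algebra ℂ M] (x y : Fin n → M) (hx : MvPolynomial.aeval x F = 0)
    (hy : MvPolynomial.aeval y F = 0) (h : Pr ℂ (fun i => x i + y i)) :
    ∃ (k1 : IntermediateField (Qz z) ℂ) (w : k1) (M1 : Type) (_ : Field M1) (_ : Algebra k1 M1)
      (x1 y1 : Fin n → M1), Dat F z k1 w x1 y1 ∧ Pr k1 (fun i => x1 i + y1 i) := by
  classical
  let ψ : MvPolynomial (Fin n) ℂ →+* M :=
    (MvPolynomial.aeval (fun i => x i + y i) : MvPolynomial (Fin n) ℂ →ₐ[ℂ] M).toRingHom
  have hψ : Function.Injective ψ := h.1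
  have hψr := A4_rank (fun i => x i + y i) ψ (fun P => rfl)
  have hchar : CharZero M := charZero_of_injective_algebraMap (algebraMap ℂ M).injective
  have hfin : Module.finrank (Subfield.closure (Set.range ψ)) M ≠ 0 := by
    rw [hψr]
    exact h.2.pos.ne'
  obtain ⟨T, hT⟩ := descend ψ hfin (Sum.elim x y)
  obtain ⟨ω, hω⟩ : ∃ ω : ℂ, ω ^ 2 + ω + 1 = 0 := by
    obtain ⟨z, hz⟩ := IsAlgClosed.exists_root (Polynomial.X ^ 2 + Polynomial.X + 1 : Polynomial ℂ)
      (by
        have : (Polynomial.X ^ 2 + Polynomial.X + 1 : Polynomial ℂ).degree = 2 := by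
          compute_degree!
        rw [this]
        norm_num)
    refine ⟨z, ?_⟩
    have h1 : (Polynomial.X ^ 2 + Polynomial.X + 1 : Polynomial ℂ).eval z = 0 := hz
    simpa using h1
  let C : Finset ℂ := insert ω (T.biUnion fun c => c.coeffs)
  let k1 : IntermediateField (Qz z) ℂ := adjoin (Qz z) (C : Set ℂ)
  have hfd : FiniteDimensional (Qz z) k1 := finiteDimensional_adjoin (fun c _ => A4_alg z hz c)
  have hCk : ∀ c ∈ C, c ∈ k1 := fun c hc => subset_adjoin (Qz z) (C : Set ℂ) hc
  let β : MvPolynomial (Fin n) k1 →+* MvPolynomial (Fin n) ℂ := MvPolynomial.map (algebraMap k1 ℂ)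
  have hβ : Function.Injective β := MvPolynomial.map_injective _ (algebraMap k1 ℂ).injective
  obtain ⟨M2, hM2, hp, hfr⟩ := hT (MvPolynomial (Fin n) k1) β (by
    intro c hc
    have h1 : c ∈ Set.range (MvPolynomial.map (σ := Fin n) (algebraMap k1 ℂ)) := by
      rw [MvPolynomial.mem_range_map_iff_coeffs_subset]
      intro a ha
      exact ⟨⟨a, hCk a (Finset.mem_insert_of_mem (Finset.mem_biUnion.mpr ⟨c, hc, ha⟩))⟩, rfl⟩
    obtain ⟨a, ha⟩ := h1
    refine ⟨a, 1, ?_, ?_⟩
    · rw [map_one, map_one]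
      exact one_ne_zero
    · rw [map_one, map_one, mul_one, ← ha])
  have hk1M2 : ∀ c : k1, ((algebraMap ℂ M).comp (algebraMap k1 ℂ)) c ∈ M2 := by
    intro c
    have h1 := hM2 (MvPolynomial.C c)
    have h2 : (ψ.comp β) (MvPolynomial.C c) = ((algebraMap ℂ M).comp (algebraMap k1 ℂ)) c := by
      change MvPolynomial.aeval (fun i => x i + y i) (MvPolynomial.map (algebraMap k1 ℂ)
        (MvPolynomial.C c)) = _
      rw [MvPolynomial.map_C, MvPolynomial.aeval_C]
      rfl
    rw [← h2]
    exact h1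
  let alg2 : Algebra k1 M2 :=
    (((algebraMap ℂ M).comp (algebraMap k1 ℂ)).codRestrict M2 hk1M2).toAlgebra
  have halg2 : ∀ c : k1, ((algebraMap k1 M2 c : M2) : M) = algebraMap ℂ M (c : ℂ) := fun c => rfl
  let x2 : Fin n → M2 := fun i => ⟨x i, hp (Sum.inl i)⟩
  let y2 : Fin n → M2 := fun i => ⟨y i, hp (Sum.inr i)⟩
  obtain ⟨ψ', hψ'⟩ : ∃ ψ' : MvPolynomial (Fin n) k1 →+* M2,
    ψ' = (ψ.comp β).codRestrict M2 hM2 := ⟨_, rfl⟩
  have hψ'v : ∀ G, (ψ' G : M) = ψ (β G) := fun G => by rw [hψ']; rfl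
  have hψ'inj : Function.Injective ψ' := by
    intro a b hab
    have h1 : ψ (β a) = ψ (β b) := by
      rw [← hψ'v, ← hψ'v, hab]
    exact hβ (hψ h1)
  have hψ'a : ∀ P, ψ' P = MvPolynomial.aeval (fun i => x2 i + y2 i) P := by
    have h1 : ψ' = (MvPolynomial.aeval (fun i => x2 i + y2 i) :
        MvPolynomial (Fin n) k1 →ₐ[k1] M2).toRingHom := by
      apply MvPolynomial.ringHom_ext
      · intro a
        apply Subtype.ext
        rw [hψ'v]
        change MvPolynomial.aeval (fun i => x i + y i) (MvPolynomial.map (algebraMap k1 ℂ)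
          (MvPolynomial.C a)) = ((MvPolynomial.aeval (fun i => x2 i + y2 i) (MvPolynomial.C a) : M2) : M)
        rw [MvPolynomial.map_C, MvPolynomial.aeval_C, MvPolynomial.aeval_C]
        rfl
      · intro i
        apply Subtype.ext
        rw [hψ'v]
        change MvPolynomial.aeval (fun i => x i + y i) (MvPolynomial.map (algebraMap k1 ℂ)
          (MvPolynomial.X i)) = ((MvPolynomial.aeval (fun i => x2 i + y2 i) (MvPolynomial.X i) : M2) : M)
        rw [MvPolynomial.map_X, MvPolynomial.aeval_X, MvPolynomial.aeval_X]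
        rfl
    intro P
    exact RingHom.congr_fun h1 P
  rw [← hψ'] at hfr
  have hPr2 : Pr k1 (fun i => x2 i + y2 i) := by
    refine ⟨?_, ?_⟩
    · intro a b hab
      apply hψ'inj
      rw [hψ'a, hψ'a]
      exact hab
    · rw [← A4_rank (fun i => x2 i + y2 i) ψ' hψ'a, hfr, hψr]
      exact h.2
  have hsm : Small.{0} M2 := A4_small ψ' (by rw [hfr]; exact hfin)
  let e : M2 ≃ₐ[k1] Shrink.{0} M2 := (Shrink.algEquiv k1 M2).symm
  have hFk : ∃ Fk : MvPolynomial (Fin n) k1, MvPolynomial.map (algebraMap k1 ℂ) Fk = F := by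
    have h1 : F ∈ Set.range (MvPolynomial.map (σ := Fin n) (algebraMap k1 ℂ)) := by
      rw [MvPolynomial.mem_range_map_iff_coeffs_subset]
      intro a ha
      rw [Finset.mem_coe, MvPolynomial.mem_coeffs_iff] at ha
      obtain ⟨d, hd, rfl⟩ := ha
      exact ⟨algebraMap (Qz z) k1 ⟨_, hF d⟩, rfl⟩
    exact h1
  obtain ⟨Fk, hFk⟩ := hFk
  have hev : ∀ t : Fin n → M, ∀ t2 : Fin n → M2, (∀ i, (t2 i : M) = t i) →
      MvPolynomial.aeval t F = 0 → MvPolynomial.aeval (fun i => e (t2 i)) Fk = 0 := by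
    intro t t2 ht h0
    have h1 : ∀ P : MvPolynomial (Fin n) k1, ((MvPolynomial.aeval t2 P : M2) : M) =
        MvPolynomial.aeval t (MvPolynomial.map (algebraMap k1 ℂ) P) := by
      intro P
      induction P using MvPolynomial.induction_on with
      | C a =>
        rw [MvPolynomial.map_C, MvPolynomial.aeval_C, MvPolynomial.aeval_C]
        rfl
      | add p q hp hq =>
        rw [map_add, map_add, map_add, ← hp, ← hq]
        rfl
      | mul_X p i hp =>
        rw [map_mul, map_mul, map_mul, ← hp, MvPolynomial.map_X, MvPolynomial.aeval_X,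
          MvPolynomial.aeval_X, ← ht]
        rfl
    have h2 : MvPolynomial.aeval t2 Fk = 0 := by
      apply Subtype.ext
      rw [h1, hFk, h0]
      rfl
    have h3 : MvPolynomial.aeval (fun i => e (t2 i)) Fk = e (MvPolynomial.aeval t2 Fk) :=
      (MvPolynomial.comp_aeval_apply t2 (e : M2 →ₐ[k1] Shrink.{0} M2) Fk).symm
    rw [h3, h2, map_zero]
  have hPr1 := A4_transfer e (fun i => x2 i + y2 i) hPr2
  have hPr1' : Pr k1 (fun i => e (x2 i) + e (y2 i)) := by
    have h1 : (fun i => e (x2 i) + e (y2 i)) = (fun i => e (x2 i + y2 i)) := by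
      funext i
      rw [map_add]
    rw [h1]
    exact hPr1
  refine ⟨k1, ⟨ω, hCk ω (Finset.mem_insert_self _ _)⟩, Shrink.{0} M2, inferInstance, inferInstance,
    fun i => e (x2 i), fun i => e (y2 i), ?_, hPr1'⟩
  exact
    { fin := hfd
      om := Subtype.ext hω
      eqs := ⟨Fk, hFk, hev x x2 (fun _ => rfl) hx, hev y y2 (fun _ => rfl) hy⟩
      fg := ⟨_, hPr1'.1, hPr1'.2.pos.ne'⟩ }

end MP2619.N
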