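import Pool.Agent.Lib.MP_2619d0_ag.N.Defs
import Pool.Agent.Lib.MP_2619d0_ag.T.SG8
import Pool.Agent.Lib.MP_2619d0_ag.R.TF4

/-!
Definitions for the corollaries (section 8).
-/

set_option autoImplicit false

namespace MP2619.N

open MP2619.R Pool.Agent.Lib.MP_2619d0_ag Pool.Agent.Lib.MP_2619d0_ag.T

universe u

/-- Theorem N for the form `F` and all fields `M` in the universe `u`: the statement of `secant_parity`
(N/A11.lean), here a hypothesis. -/
def SecPar {n : ℕ} (F : MvPolynomial (Fin n) ℂ) : Prop :=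
  ∀ (M : Type u) [Field M] [Algebra ℂ M] (x y : Fin n → M), MvPolynomial.aeval x F = 0 →
    MvPolynomial.aeval y F = 0 → ¬ Pr ℂ (fun i => x i + y i)

/-- `v` is a generic point of projective space -/
def IsGPP {n : ℕ} {M : Type*} [Field M] [Algebra ℂ M] (v : Fin n → M) : Prop :=
  ∀ (d : ℕ) (G : MvPolynomial (Fin n) ℂ), G.IsHomogeneous d → MvPolynomial.aeval v G = 0 → G = 0

end MP2619.N
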