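import Pool.Agent.Lib.MP_2619d0_ag.N.C0

/-!
Row 2619n-C1: the projective form of Theorem N. Apply `SecPar` in `M(r)`, `r` a new variable, to `r x`, `r y`:
`r (x + y)` is algebraically independent over `ℂ` (homogeneous components), `v 0 ≠ 0` because `X 0` is a form, and
`ℂ(r v_0, .., r v_N) = ℂ(v_i / v_0)(r v_0)`, so the degree of `M(r)` over it is `[M : ℂ(v_i / v_j)]`. See `TF4_ind`,
`TF4_odd` in R/TF4.lean (the same computation in the form of ring homomorphisms), `RF` in R/D1.lean.
-/

set_option autoImplicit false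

namespace MP2619.N

open MP2619.R Pool.Agent.Lib.MP_2619d0_ag Pool.Agent.Lib.MP_2619d0_ag.T

universe u

private theorem C1_smul {A : Type*} [CommRing A] [Algebra ℂ A] {n d : ℕ}
    {G : MvPolynomial (Fin n) ℂ} (hG : G.IsHomogeneous d) (c : A) (x : Fin n → A) :
    MvPolynomial.aeval (fun i => c * x i) G = c ^ d * MvPolynomial.aeval x G := by
  classical
  rw [MvPolynomial.as_sum G, map_sum, map_sum, Finset.mul_sum]
  refine Finset.sum_congr rfl fun γ hγ => ?_
  have hγs : ∑ l, γ l = d := by
    have h2 := hG (MvPolynomial.mem_support_iff.1 hγ)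
    rw [← h2, Finsupp.weight_apply, Finsupp.sum_fintype _ _ (by simp)]
    simp
  rw [MvPolynomial.aeval_monomial, MvPolynomial.aeval_monomial,
    Finsupp.prod_fintype _ _ (by simp), Finsupp.prod_fintype _ _ (by simp), ← hγs,
    ← Finset.prod_pow_eq_pow_sum]
  simp only [mul_pow, Finset.prod_mul_distrib]
  ring

private theorem C1_zero {N : ℕ} {F : MvPolynomial (Fin (N + 1)) ℂ} (hF : F.IsHomogeneous 3)
    {M : Type u} [Field M] [Algebra ℂ M] (w : M) (z : Fin (N + 1) → M)
    (hz : MvPolynomial.aeval z F = 0)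
    (halg : ∀ a : ℂ, algebraMap ℂ (MM M) a = cM M (algebraMap ℂ M a)) :
    MvPolynomial.aeval (fun i => sv M * cM M (z i / w)) F = 0 := by
  rw [C1_smul hF (sv M) (fun i => cM M (z i / w))]
  have h1 : MvPolynomial.aeval (fun i => cM M (z i / w)) F =
      cM M (MvPolynomial.aeval (fun i => z i / w) F) := by
    rw [MvPolynomial.map_aeval]
    have h2 : (cM M).comp (algebraMap ℂ M) = algebraMap ℂ (MM M) :=
      RingHom.ext fun a => (halg a).symm
    rw [h2]
    rfl
  have h3 : (fun i => z i / w) = fun i => w⁻¹ * z i := by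
    funext i
    rw [div_eq_mul_inv, mul_comm]
  rw [h1, h3, C1_smul hF w⁻¹ z, hz, mul_zero, map_zero, mul_zero]

theorem secant_proj {N : ℕ} {F : MvPolynomial (Fin (N + 1)) ℂ} (hF : F.IsHomogeneous 3)
    (h : SecPar.{u} F) {M : Type u} [Field M] [Algebra ℂ M] (x y : Fin (N + 1) → M)
    (hx : MvPolynomial.aeval x F = 0) (hy : MvPolynomial.aeval y F = 0)
    (hgen : IsGPP (fun i => x i + y i)) : ¬ Odd (Module.finrank (ratioF (fun i => x i + y i)) M) := by
  intro hodd
  obtain ⟨v, hv⟩ : ∃ v : Fin (N + 1) → M, v = fun i => x i + y i := ⟨_, rfl⟩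
  rw [← hv] at hgen hodd
  have hv0 : v 0 ≠ 0 := by
    intro h0
    have h1 := hgen 1 (MvPolynomial.X 0) (MvPolynomial.isHomogeneous_X _ _)
      (by rw [MvPolynomial.aeval_X, h0])
    exact MvPolynomial.X_ne_zero 0 h1
  obtain ⟨ρ, hρdef⟩ : ∃ ρ : MvPolynomial (Fin N) ℂ →+* M,
      ρ = (MvPolynomial.aeval (fun j : Fin N => v j.succ / v 0) :
        MvPolynomial (Fin N) ℂ →ₐ[ℂ] M).toRingHom := ⟨_, rfl⟩
  have hρ' : ∀ G, ρ G = MvPolynomial.aeval (fun j : Fin N => v j.succ / v 0) G := by
    intro G
    rw [hρdef]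
    rfl
  have hρC : ∀ c : ℂ, ρ (MvPolynomial.C c) = algebraMap ℂ M c := by
    intro c
    rw [hρ', MvPolynomial.aeval_C]
  have hρX : ∀ j : Fin N, ρ (MvPolynomial.X j) = v j.succ / v 0 := by
    intro j
    rw [hρ', MvPolynomial.aeval_X]
  have hρ : Function.Injective ρ := by
    rw [injective_iff_map_eq_zero]
    intro g hg
    have h1 : MvPolynomial.aeval v (homog g) = 0 := by
      rw [aeval_eq_dh v hv0 (homog_homogeneous g), dh_homog, ← hρ', hg, mul_zero]
    have h2 := hgen _ _ (homog_homogeneous g) h1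
    rw [← dh_homog g, h2, map_zero]
  have halg : ∀ a : ℂ, algebraMap ℂ (MM M) a = cM M (algebraMap ℂ M a) := by
    intro a
    rw [IsScalarTower.algebraMap_apply ℂ (Polynomial M) (MM M)]
    rfl
  have halg' : ∀ a : ℂ, algebraMap ℂ (MM M) a = cM M (ρ (MvPolynomial.C a)) := by
    intro a
    rw [hρC, halg]
  obtain ⟨w, hw⟩ : ∃ w : Fin (N + 1) → M, w = fun i => v i / v 0 := ⟨_, rfl⟩
  have hw0 : w 0 = 1 := by
    rw [hw]
    exact div_self hv0
  have hwS : ∀ i : Fin N, w i.succ = ρ (MvPolynomial.X i) := by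
    intro i
    rw [hρX, hw]
  have hfield : Subfield.closure (Set.range ρ) = (ratioF v).toSubfield := by
    apply le_antisymm
    · rw [Subfield.closure_le]
      rintro _ ⟨G, rfl⟩
      change ρ G ∈ ratioF v
      induction G using MvPolynomial.induction_on with
      | C a =>
        rw [hρC]
        exact (ratioF v).algebraMap_mem a
      | add p q hp hq =>
        rw [map_add]
        exact add_mem hp hq
      | mul_X p i hp =>
        rw [map_mul, hρX]
        exact mul_mem hp (IntermediateField.subset_adjoin _ _ ⟨_, _, rfl⟩)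
    · have hwm : ∀ i, w i ∈ Subfield.closure (Set.range ρ) := by
        intro i
        refine Fin.cases ?_ (fun j => ?_) i
        · rw [hw0]
          exact one_mem _
        · rw [hwS]
          exact Subfield.subset_closure ⟨_, rfl⟩
      have h1 : ratioF v ≤ (Subfield.closure (Set.range ρ)).toIntermediateField (K := ℂ)
          (fun c => Subfield.subset_closure ⟨MvPolynomial.C c, hρC c⟩) := by
        rw [ratioF, IntermediateField.adjoin_le_iff]
        rintro _ ⟨i, j, rfl⟩
        have h2 : v i / v j = w i / w j := by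
          rw [hw]
          exact (div_div_div_cancel_right₀ hv0 _ _).symm
        rw [h2]
        change w i / w j ∈ Subfield.closure (Set.range ρ)
        exact div_mem (hwm i) (hwm j)
      exact h1
  have hodd' : Odd (Module.finrank (Subfield.closure (Set.range ρ)) M) := by
    rw [hfield]
    exact hodd
  have hind := TF4_ind ρ hρ w hw0 hwS halg'
  have hdeg := TF4_odd ρ hodd' w hw0 hwS halg'
  have hfun : (fun i => sv M * cM M (w i)) =
      fun i => sv M * cM M (x i / v 0) + sv M * cM M (y i / v 0) := by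
    funext i
    rw [← mul_add, ← map_add, ← add_div, hw, hv]
  rw [hfun] at hind hdeg
  exact h (MM M) (fun i => sv M * cM M (x i / v 0)) (fun i => sv M * cM M (y i / v 0))
    (C1_zero hF (v 0) x hx halg) (C1_zero hF (v 0) y hy halg) ⟨hind, hdeg⟩

end MP2619.N
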