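import Pool.Agent.Lib.MP_2619d0_ag.R.A8

/-!
# Secant parity: definitions

Real valuations are valuations with values in `ℝ≥0`.
-/

set_option autoImplicit false

namespace MP2619.N

open scoped NNReal
open MP2619.R

universe u v

/-- The valuation `V` is given on polynomials in the family `z` with coefficients in `k` by the valuation
`v` of `k` and the weights (norms) `r j` of `z j`. -/
def IsWt {k A : Type*} [Field k] [Field A] [Algebra k A] (v : Valuation k ℝ≥0)
    (V : Valuation A ℝ≥0) {J : Type*} (z : J → A) (r : J → ℝ≥0) : Prop :=
  ∀ P : MvPolynomial J k, V (MvPolynomial.aeval z P) =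
    P.support.sup fun m => v (P.coeff m) * m.prod fun j e => r j ^ e

/-- Gauss valuation: the family `z` has norm one and residues which are algebraically independent over the
residue field of `k`. -/
def IsGauss (k : Type*) {A : Type*} [Field k] [Field A] [Algebra k A]
    (V : Valuation A ℝ≥0) {J : Type*} (z : J → A) : Prop :=
  ∀ P : MvPolynomial J k, V (MvPolynomial.aeval z P) =
    P.support.sup fun m => V (algebraMap k A (P.coeff m))

/-- One variable: `V` extends `v` and is given on `B[g]` by `max v(c_i) t^i`. -/
def Ov {B A : Type*} [Field B] [Field A] [Algebra B A] (v : Valuation B ℝ≥0) (g : A) (t : ℝ≥0)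
    (V : Valuation A ℝ≥0) : Prop :=
  ∀ p : Polynomial B, V (Polynomial.aeval g p) = p.support.sup fun i => v (p.coeff i) * t ^ i

/-- the norm of a vector -/
noncomputable def nm {A : Type*} [Field A] (V : Valuation A ℝ≥0) {n : ℕ} (x : Fin n → A) : ℝ≥0 :=
  Finset.univ.sup fun i => V (x i)

/-- `Pr` for a homomorphism of fields -/
def PrH {k M : Type*} [Field k] [Field M] (j : k →+* M) {n : ℕ} (z : Fin n → M) : Prop :=
  @Pr k M _ _ j.toAlgebra n z

end MP2619.N
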