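import Pool.Agent.Lib.MP_2619d0_ag.N.S8a
import Pool.Agent.Lib.MP_2619d0_ag.T.SG8
import Pool.Agent.Lib.MP_2619d0_ag.R.TF4
import Pool.Agent.Lib.MP_2619d0_ag.R.A8
import Pool.Agent.Lib.MP_2619d0_ag.N.C0

/-!
The addition law for odd generic points, from Theorem N (section 8, Corollary 1).
-/

set_option autoImplicit false

namespace MP2619.N

universe u

open MvPolynomial Pool.Agent.Lib.MP_2619d0_ag Pool.Agent.Lib.MP_2619d0_ag.T MP2619.R

/-- The conclusion of Theorem N for the cubic form `F`: the sum of two zeros of `F` with coordinates in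
`M` is not a transcendence basis of a field over which `M` has odd degree. -/
def NoSum {n : ℕ} (F : MvPolynomial (Fin n) ℂ) : Prop :=
  ∀ (M : Type u) [Field M] [Algebra ℂ M] (x y : Fin n → M), aeval x F = 0 → aeval y F = 0 →
    ¬ Pr ℂ (x + y)

variable {N : ℕ} {F : MvPolynomial (Fin (N + 1)) ℂ} {L : Type u} [Field L] [Algebra ℂ L]

theorem aeval_smul_zero {n : ℕ} {M : Type*} [Field M] [Algebra ℂ M]
    {F : MvPolynomial (Fin n) ℂ} (hF : F.IsHomogeneous 3) (c : M) (x : Fin n → M)
    (h : aeval x F = 0) : aeval (fun i => c * x i) F = 0 := by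
  rw [aeval_eq_Fc hF] at h ⊢
  have h1 : (fun i => c * x i) = c • x := rfl
  rw [h1, Fc_smul, h, mul_zero]

theorem aeval_cM_zero {n : ℕ} {F : MvPolynomial (Fin n) ℂ} (x : Fin n → L)
    (h : aeval x F = 0) : aeval (fun i => cM L (x i)) F = 0 := by
  have h1 := MvPolynomial.comp_aeval_apply (R := ℂ) (f := x)
    (IsScalarTower.toAlgHom ℂ L (MM L)) F
  rw [h, map_zero] at h1
  exact h1.symm

/-- The map to affine space given by the generic point of the line is never of odd degree. -/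
theorem psi_not_odd (hF : F.IsHomogeneous 3) (hNS : NoSum.{u} F) (y a : Fin (N + 1) → L) (hy0 : y 0 = 1)
    (hFy : aeval y F = 0) (hFa : aeval a F = 0) (hinj : Function.Injective (psi y a)) :
    ¬ Odd (fd (psi y a)) := by
  intro hodd
  have hu := uu_zero_ne y a hy0
  let κ := MM L
  have h0 : yh (psi y a) 0 = 1 := rfl
  have hs : ∀ i : Fin N, yh (psi y a) i.succ = (psi y a) (X i) := fun _ => rfl
  have halg : ∀ c : ℂ, algebraMap ℂ (MM κ) c = cM κ ((psi y a) (C c)) := by
    intro c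
    rw [psi, coe_eval₂Hom, eval₂_C]
    rfl
  have h1 := TF4_ind (psi y a) hinj (yh (psi y a)) h0 hs halg
  have h2 := TF4_odd (psi y a) hodd (yh (psi y a)) h0 hs halg
  have hsum : (fun i => sv κ * cM κ (yh (psi y a) i)) =
      (fun i => (sv κ * cM κ (uu y a 0)⁻¹) * cM κ (cM L (y i))) +
        (fun i => (sv κ * cM κ ((uu y a 0)⁻¹ * sv L)) * cM κ (cM L (a i))) := by
    funext i
    rw [yh_psi y a hu, Pi.smul_apply, smul_eq_mul, Pi.add_apply]
    simp only [uu, map_mul, map_add]
    ring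
  rw [hsum] at h1 h2
  refine hNS (MM κ) _ _ ?_ ?_ ⟨h1, h2⟩
  · exact aeval_smul_zero hF _ _ (aeval_cM_zero _ (aeval_cM_zero _ hFy))
  · exact aeval_smul_zero hF _ _ (aeval_cM_zero _ (aeval_cM_zero _ hFa))

/-- The addition law, in affine form. -/
theorem addition_aff (hN : 2 ≤ N) (hF : VG F) (hNS : NoSum.{u} F) (y x : Fin (N + 1) → L)
    (hy0 : y 0 = 1) (hy : Gp F (ev y)) (hodd : Odd (fd (ev y)))
    (hlin : LinearIndependent L ![y, x]) (hx : Fc (cL L F) x = 0) :
    Dc (cL L F) x y ≠ 0 ∧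
      ((x 0 ≠ 0 ∧ Gp F (ev x) ∧ Odd (fd (ev x))) ∨
        (third (cL L F) y x 0 ≠ 0 ∧ Gp F (ev (third (cL L F) y x)) ∧
            Odd (fd (ev (third (cL L F) y x))))) ∧
      (Dc (cL L F) y x ≠ 0 → ¬ ((x 0 ≠ 0 ∧ Gp F (ev x) ∧ Odd (fd (ev x))) ∧
        (third (cL L F) y x 0 ≠ 0 ∧ Gp F (ev (third (cL L F) y x)) ∧
            Odd (fd (ev (third (cL L F) y x)))))) := by
  have hFy : aeval y F = 0 := by
    rw [aeval_eq_Fc hF.1]
    exact Fc_of_Gp hF.1 y hy0 hy
  have hFx : aeval x F = 0 := by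
    rw [aeval_eq_Fc hF.1]
    exact hx
  obtain ⟨hinj, hpar⟩ := parity hN hF y x hy0 hy hodd hlin hx
  have hev := psi_not_odd hF.1 hNS y x hy0 hFy hFx hinj
  rcases hpar with h | ⟨h2, h3⟩
  · exact absurd h hev
  · refine ⟨h2, h3, ?_⟩
    rintro h1 ⟨⟨hx0, hGx, hox⟩, hz0, hGz, hoz⟩
    exact parity3 hN hF y x hy0 hy hodd hlin hx hev h1 h2 hx0 hGx hox hz0 hGz hoz

/-- `x` is a generic point of `X` and its field of definition has odd index. -/
def OddPt {n : ℕ} (F : MvPolynomial (Fin n) ℂ) (x : Fin n → L) : Prop :=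
  IsGP F x ∧ Odd (Module.finrank (ratioF x) L)

theorem oddPt_iff (hN : 2 ≤ N) (hF : VG F) (x : Fin (N + 1) → L) :
    OddPt F x ↔ (x 0 ≠ 0 ∧ Gp F (ev x) ∧ Odd (fd (ev x))) := by
  unfold OddPt
  rw [isGP_iff hN hF]
  constructor
  · rintro ⟨⟨h1, h2⟩, h3⟩
    rw [finrank_ratioF x h1] at h3
    exact ⟨h1, h2, h3⟩
  · rintro ⟨h1, h2, h3⟩
    refine ⟨⟨h1, h2⟩, ?_⟩
    rw [finrank_ratioF x h1]
    exact h3

theorem OddPt.smul {x : Fin (N + 1) → L} (h : OddPt F x) (c : L) (hc : c ≠ 0) :
    OddPt F (c • x) := by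
  refine ⟨IsGP.smul _ hc x h.1, ?_⟩
  rw [ratioF_smul _ hc]
  exact h.2

/-- The third point of `X` on the line through `y` and `x`, in homogeneous coordinates. -/
noncomputable def tp {n : ℕ} (F : MvPolynomial (Fin n) ℂ) (y x : Fin n → L) : Fin n → L :=
  fun i => (∑ j, y j * aeval x (pderiv j F)) * y i - (∑ j, x j * aeval y (pderiv j F)) * x i

/-- The addition law: for an odd generic point `y` and another point `x` of `X`, the tangent space of `X`
at `x` does not contain `y`, and exactly one of `x` and the third point on the line through `y` and `x` is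
an odd generic point. -/
theorem addition_law (hN : 2 ≤ N) (hF : VG F) (hNS : NoSum.{u} F) (y : Fin (N + 1) → L)
    (hy : OddPt F y) (x : Fin (N + 1) → L) (hx : aeval x F = 0) (hxy : ∀ c : L, x ≠ c • y) :
    (∑ j, y j * aeval x (pderiv j F)) ≠ 0 ∧ (OddPt F (tp F y x) ↔ ¬ OddPt F x) := by
  obtain ⟨hyG, hyo⟩ := hy
  have hx0 : x ≠ 0 := by
    rintro rfl
    apply hxy 0
    rw [zero_smul]
  have hy00 : y 0 ≠ 0 := ((isGP_iff hN hF y).mp hyG).1
  have hinv : (y 0)⁻¹ ≠ 0 := inv_ne_zero hy00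
  obtain ⟨y', hy'⟩ : ∃ y' : Fin (N + 1) → L, y' = (y 0)⁻¹ • y := ⟨_, rfl⟩
  have hy'0 : y' 0 = 1 := by
    rw [hy', Pi.smul_apply, smul_eq_mul, inv_mul_cancel₀ hy00]
  have hO' : OddPt F y' := by
    rw [hy']
    exact OddPt.smul ⟨hyG, hyo⟩ _ hinv
  obtain ⟨-, hGp', hodd'⟩ := (oddPt_iff hN hF y').mp hO'
  have hFx : Fc (cL L F) x = 0 := by
    rw [← hx]
    exact (aeval_eq_Fc hF.1 x).symm
  have hlin : LinearIndependent L ![y', x] := by
    rw [LinearIndependent.pair_iff]
    intro s t hst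
    by_cases ht : t = 0
    · subst ht
      rw [zero_smul, add_zero] at hst
      have h1 := congrFun hst 0
      rw [Pi.smul_apply, hy'0, Pi.zero_apply, smul_eq_mul, mul_one] at h1
      exact ⟨h1, rfl⟩
    · exfalso
      apply hxy (-(s / t) * (y 0)⁻¹)
      funext i
      have h2 := congrFun hst i
      simp only [hy', Pi.add_apply, Pi.smul_apply, Pi.zero_apply, smul_eq_mul] at h2
      rw [Pi.smul_apply, smul_eq_mul]
      field_simp
      field_simp at h2
      linear_combination h2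
  obtain ⟨hD, hor, hnand⟩ := addition_aff hN hF hNS y' x hy'0 hGp' hodd' hlin hFx
  have h3 : (∑ j, y j * aeval x (pderiv j F)) = Dc (cL L F) x y :=
    (Dc_eq_sum_pderiv hF.1 x y).symm
  have h4 : (∑ j, x j * aeval y (pderiv j F)) = Dc (cL L F) y x :=
    (Dc_eq_sum_pderiv hF.1 y x).symm
  have hk : (y 0) ^ 2 ≠ 0 := pow_ne_zero _ hy00
  have hDxy : Dc (cL L F) x y ≠ 0 := by
    rw [hy', Dc_smul_right] at hD
    exact right_ne_zero_of_mul hD
  have hthird : tp F y x = ((y 0) ^ 2) • third (cL L F) y' x := by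
    funext i
    rw [tp, h3, h4, Pi.smul_apply, smul_eq_mul, third, hy', Dc_smul_right, Dc_smul_left,
      Pi.smul_apply, smul_eq_mul]
    field_simp
  have hthird' : third (cL L F) y' x = ((y 0) ^ 2)⁻¹ • tp F y x := by
    rw [hthird, smul_smul, inv_mul_cancel₀ hk, one_smul]
  rw [← oddPt_iff hN hF, ← oddPt_iff hN hF] at hor hnand
  rw [h3]
  refine ⟨hDxy, ?_, ?_⟩
  · intro hz hox
    have hz' : OddPt F (third (cL L F) y' x) := by
      rw [hthird']
      exact hz.smul _ (inv_ne_zero hk)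
    refine hnand ?_ ⟨hox, hz'⟩
    -- `x` is an odd point: its tangent space does not contain `y`
    have h5 := (third_hom2 hN hF x hox.1 hox.2 y (by
      rw [aeval_eq_Fc hF.1]
      have h6 := Fc_of_Gp hF.1 y' hy'0 hGp'
      rw [hy', Fc_smul] at h6
      exact (mul_eq_zero.mp h6).resolve_left (pow_ne_zero _ hinv)) (by
      intro c hc
      have hc0 : c ≠ 0 := by
        rintro rfl
        rw [hc, zero_smul, Pi.zero_apply] at hy00
        exact hy00 rfl
      apply hxy c⁻¹
      rw [hc, smul_smul, inv_mul_cancel₀ hc0, one_smul])).1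
    rw [h4] at h5
    rw [hy', Dc_smul_left]
    exact mul_ne_zero (pow_ne_zero _ hinv) h5
  · intro hnx
    rcases hor with h | h
    · exact absurd h hnx
    · rw [hthird]
      exact h.smul _ hk

theorem OddPt.ne_zero {x : Fin (N + 1) → L} (hN : 2 ≤ N) (hF : VG F) (h : OddPt F x) : x ≠ 0 := by
  intro h0
  have h1 := ((isGP_iff hN hF x).mp h.1).1
  rw [h0, Pi.zero_apply] at h1
  exact h1 rfl

theorem tp_eq (hF : VG F) (y x : Fin (N + 1) → L) :
    tp F y x = third (cL L F) y x := by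
  funext i
  have h3 : (∑ j, y j * aeval x (pderiv j F)) = Dc (cL L F) x y :=
    (Dc_eq_sum_pderiv hF.1 x y).symm
  have h4 : (∑ j, x j * aeval y (pderiv j F)) = Dc (cL L F) y x :=
    (Dc_eq_sum_pderiv hF.1 y x).symm
  rw [tp, h3, h4]
  rfl

theorem tp_symm (hF : VG F) (y x : Fin (N + 1) → L) : tp F x y = (-1 : L) • tp F y x := by
  rw [tp_eq hF, tp_eq hF]
  funext i
  simp only [third, Pi.smul_apply, smul_eq_mul]
  ring

theorem tp_tp (hF : VG F) (y x : Fin (N + 1) → L) (hx : aeval x F = 0) :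
    tp F (tp F y x) x = ((Dc (cL L F) x y) ^ 3) • y := by
  have hx' : Fc (cL L F) x = 0 := by
    rw [← hx]
    exact (aeval_eq_Fc hF.1 x).symm
  have hz : third (cL L F) y x = (Dc (cL L F) x y) • y + (-(Dc (cL L F) y x)) • x := by
    funext i
    simp only [third, Pi.add_apply, Pi.smul_apply, smul_eq_mul]
    ring
  have h1 : Dc (cL L F) x (third (cL L F) y x) = (Dc (cL L F) x y) ^ 2 := by
    rw [hz, Dc_add_right, Dc_smul_right, Dc_smul_right, Dc_self, hx']
    ring
  have h2 : Dc (cL L F) (third (cL L F) y x) x =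
      -(Dc (cL L F) y x * (Dc (cL L F) x y) ^ 2) := by
    rw [hz, Dc_add_left, Dc_smul_left, Dc_smul_left, Dc_self, hx', Tc_smul_left, Tc_comm,
      Tc_smul_left, Tc_comm', Tc_self]
    ring
  rw [tp_eq hF, tp_eq hF]
  funext i
  have h3 : third (cL L F) (third (cL L F) y x) x i =
      Dc (cL L F) x (third (cL L F) y x) * third (cL L F) y x i -
        Dc (cL L F) (third (cL L F) y x) x * x i := rfl
  rw [h3, h1, h2, Pi.smul_apply, smul_eq_mul]
  simp only [third]
  ring

/-- The addition law for arbitrary pairs of points: the number of odd generic points among the three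
points of `X` on a line through two points of `X` is even. -/
theorem collinear_law (hN : 2 ≤ N) (hF : VG F) (hNS : NoSum.{u} F) (y x : Fin (N + 1) → L)
    (hlin : LinearIndependent L ![x, y]) (hx : aeval x F = 0) (hy : aeval y F = 0) :
    OddPt F (tp F y x) ↔ ¬ (OddPt F x ↔ OddPt F y) := by
  have hx0 : x ≠ 0 := hlin.ne_zero 0
  have hy0 : y ≠ 0 := hlin.ne_zero 1
  have hpair := LinearIndependent.pair_iff.mp hlin
  have hxy : ∀ c : L, x ≠ c • y := by
    intro c hc
    have h := (hpair 1 (-c) (by rw [hc]; module)).1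
    exact one_ne_zero h
  have hyx : ∀ c : L, y ≠ c • x := by
    intro c hc
    have h := (hpair (-c) 1 (by rw [hc]; module)).2
    exact one_ne_zero h
  by_cases h1 : OddPt F y
  · rw [(addition_law hN hF hNS y h1 x hx hxy).2]
    tauto
  by_cases h2 : OddPt F x
  · have h3 : OddPt F (tp F x y) := ((addition_law hN hF hNS x h2 y hy hyx).2).mpr h1
    rw [tp_symm hF] at h3
    have h4 := h3.smul (-1) (neg_ne_zero.mpr one_ne_zero)
    rw [smul_smul, neg_one_mul, neg_neg, one_smul] at h4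
    tauto
  · refine ⟨fun hz => ?_, fun h => absurd (iff_of_false h2 h1) h⟩
    exfalso
    have hz0 := hz.ne_zero hN hF
    have hDxy : Dc (cL L F) x y ≠ 0 := by
      intro h0
      have h3 : tp F y x = (-(Dc (cL L F) y x)) • x := by
        rw [tp_eq hF]
        funext i
        simp only [third, h0, Pi.smul_apply, smul_eq_mul]
        ring
      have h4 : -(Dc (cL L F) y x) ≠ 0 := by
        intro h5
        rw [h5, zero_smul] at h3
        exact hz0 h3
      apply h2
      have h5 := hz.smul _ (inv_ne_zero h4)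
      rw [h3, smul_smul, inv_mul_cancel₀ h4, one_smul] at h5
      exact h5
    have h3 := (addition_law hN hF hNS (tp F y x) hz x hx (by
      intro c hc
      have hc0 : c ≠ 0 := by
        rintro rfl
        exact hx0 (by rw [hc, zero_smul])
      apply h2
      rw [hc]
      exact hz.smul _ hc0)).2.mpr h2
    rw [tp_tp hF y x hx] at h3
    apply h1
    have h4 := h3.smul _ (inv_ne_zero (pow_ne_zero 3 hDxy))
    rw [smul_smul, inv_mul_cancel₀ (pow_ne_zero 3 hDxy), one_smul] at h4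
    exact h4

end MP2619.N
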