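import Pool.Agent.Lib.MP_2619d0_ag.N.A11
import Pool.Agent.Lib.MP_2619d0_ag.N.S8b
import Pool.Agent.Lib.MP_2619d0_ag.NP.Z

/-!
Theorem N for very general cubic forms in at least five variables.
-/

set_option autoImplicit false

namespace MP2619.N

universe u

open Pool.Agent.Lib.MP_2619d0_ag.T

theorem noSum {n : ℕ} (hn : 5 ≤ n) {F : MvPolynomial (Fin n) ℂ} (hF : VG F) : NoSum.{u} F :=
  fun M _ _ x y hx hy => secant_parity hn (MP2619.NP.starC n (by omega))
    (MP2619.NP.r1C n (by omega)) (MP2619.NP.scC n (by omega)) hF (x : Fin n → M) y hx hy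

end MP2619.N
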