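import Pool.Agent.Lib.MP_2619d0_ag.N.Defs
import Pool.Agent.Lib.MP_2619d0_ag.R.A3

/-!
Definitions for the end formula (section 3): the valuation ring which `V` induces on a subfield.
-/

set_option autoImplicit false

namespace MP2619.N

open scoped NNReal
open IntermediateField MP2619.R

/-- the valuation ring induced by `V` on `k` -/
noncomputable def O1 (k : Type*) {A : Type*} [Field k] [Field A] [Algebra k A]
    (V : Valuation A ℝ≥0) : ValuationSubring k := (V.comap (algebraMap k A)).valuationSubring

theorem mem_O1 {k A : Type*} [Field k] [Field A] [Algebra k A] (V : Valuation A ℝ≥0) (a : k) :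
    a ∈ O1 k V ↔ V (algebraMap k A a) ≤ 1 := Iff.rfl

/-- The valuation subring `P` of `M` lies over the valuation ring of `V` on `k`, and `j` is the embedding of the
residue fields. -/
structure Lies {k M A : Type*} [Field k] [Field M] [Field A] [Algebra k M] [Algebra k A]
    (V : Valuation A ℝ≥0) (P : ValuationSubring M)
    (j : IsLocalRing.ResidueField (O1 k V) →+* IsLocalRing.ResidueField P) : Prop where
  mem : ∀ a : k, algebraMap k M a ∈ P ↔ a ∈ O1 k V
  res : ∀ a : O1 k V, j (IsLocalRing.residue (O1 k V) a) =
    IsLocalRing.residue P ⟨algebraMap k M a, (mem a).2 a.2⟩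

end MP2619.N
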