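import Pool.Agent.Lib.MP_2619d0_ag.N.P0

/-!
Row 2619n-P1: counting embeddings by places (Lemma E1 of section 3 of /team-store/2619NP_paper_helper9.md).
`IsUf`, `DV`, `ord` are in R/A1; see R/A2 (`A2_core`, `fi_sep`) for `∑ e f`.

Proof. `B` = integral closure of `O` in `M`: Dedekind, finite free over `O`, semilocal, hence a principal ideal
domain; `P` is the localization of `B` at a maximal ideal `𝔭 = z B`. The norm of `z` is a unit times `ϖ ^ f`
(Smith normal form of `z B`). It is also `∏_τ τ z` over all `τ : M →ₐ[K] A`; `V (τ z) ^ e = V ϖ` if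
`τ⁻¹ V = P`, and `V (τ z) = 1` otherwise. So `V ϖ ^ (e f) = V ϖ ^ #`.
-/

set_option autoImplicit false

namespace MP2619.N

open scoped NNReal
open IntermediateField MP2619.R
open Pool.Agent.Lib.MP_2619d0_ag.T

/-- the norm of a generator of a prime ideal -/
private theorem P1_norm {R S : Type*} [CommRing R] [IsDomain R] [IsDiscreteValuationRing R]
    [CommRing S] [IsDomain S] [Algebra R S] [Module.Free R S] [Module.Finite R S]
    (z : S) (hz : z ≠ 0) (P : Ideal S) (hP : P = Ideal.span {z})
    [P.LiesOver (IsLocalRing.maximalIdeal R)] (ϖ : R) (hϖ : Irreducible ϖ) :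
    Associated (Algebra.norm R z)
      (ϖ ^ Module.finrank (R ⧸ IsLocalRing.maximalIdeal R) (S ⧸ P)) := by
  classical
  set m := IsLocalRing.maximalIdeal R with hm
  let : Field (R ⧸ m) := Ideal.Quotient.field m
  have hϖm : ϖ ∈ m := (IsLocalRing.mem_maximalIdeal ϖ).mpr hϖ.not_isUnit
  have hmP : ∀ a ∈ m, algebraMap R S a ∈ P := by
    intro a ha
    have h := ‹P.LiesOver m›.over
    rw [h] at ha
    exact ha
  subst hP
  let b := Module.Free.chooseBasis R S
  have hI : Ideal.span {z} ≠ ⊥ := Ideal.span_singleton_eq_bot.not.2 hz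
  refine (_root_.associated_norm_prod_smith (R := R) b hz).trans ?_
  set a := Ideal.smithCoeffs b (Ideal.span {z}) hI with ha
  let e := Ideal.quotientEquivPiSpan (Ideal.span {z}) b hI
  have hdvd : ∀ i, a i ∣ ϖ := by
    intro i
    have h1 : ϖ • (e.symm (Pi.single i 1)) = 0 := by
      obtain ⟨s, hs⟩ := Ideal.Quotient.mk_surjective (e.symm (Pi.single i 1))
      rw [← hs]
      change Ideal.Quotient.mk _ (ϖ • s) = 0
      rw [Ideal.Quotient.eq_zero_iff_mem, Algebra.smul_def]
      exact Ideal.mul_mem_right _ _ (hmP ϖ hϖm)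
    have h2 : ϖ • (Pi.single i 1 : ∀ i, R ⧸ Ideal.span ({Ideal.smithCoeffs b (Ideal.span {z}) hI i} : Set R)) = 0 := by
      have := congrArg e h1
      rwa [map_smul, map_zero, LinearEquiv.apply_symm_apply] at this
    have h3 := congrFun h2 i
    rw [Pi.smul_apply, Pi.single_eq_same, Pi.zero_apply] at h3
    have h4 : ϖ • (1 : R ⧸ Ideal.span ({Ideal.smithCoeffs b (Ideal.span {z}) hI i} : Set R)) =
        Ideal.Quotient.mk _ ϖ := by
      rw [Algebra.smul_def, mul_one]
      rfl
    rw [h4, Ideal.Quotient.eq_zero_iff_mem, Ideal.mem_span_singleton] at h3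
    exact h3
  have hcase : ∀ i, IsUnit (a i) ∨ Associated (a i) ϖ := by
    intro i
    obtain ⟨c, hc⟩ := hdvd i
    rcases hϖ.isUnit_or_isUnit hc with h | h
    · exact Or.inl h
    · right
      obtain ⟨u, rfl⟩ := h
      exact ⟨u, hc.symm⟩
  have hprod : Associated (∏ i, a i) (∏ i, if IsUnit (a i) then 1 else ϖ) := by
    refine Associated.prod _ _ _ fun i _ => ?_
    split_ifs with h
    · exact associated_one_iff_isUnit.mpr h
    · exact (hcase i).resolve_left h
  refine hprod.trans ?_
  have h4 : Module.length R (S ⧸ Ideal.span {z}) =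
      (Module.finrank (R ⧸ m) (S ⧸ Ideal.span {z}) : ℕ∞) := by
    rw [Module.length_eq_of_surjective (R := R ⧸ m) (S := R) Ideal.Quotient.mk_surjective,
      Module.length_eq_finrank]
  have h5 : Module.length R (S ⧸ Ideal.span {z}) =
      ((Finset.univ.filter fun i => ¬ IsUnit (a i)).card : ℕ∞) := by
    rw [e.length_eq, Module.length_pi_of_fintype, Finset.card_filter, Nat.cast_sum]
    refine Finset.sum_congr rfl fun i _ => ?_
    by_cases h : IsUnit (a i)
    · rw [if_neg (not_not.mpr h), Nat.cast_zero]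
      have h6 : Ideal.span ({Ideal.smithCoeffs b (Ideal.span {z}) hI i} : Set R) = ⊤ :=
        Ideal.span_singleton_eq_top.mpr h
      rw [h6]
      have : Subsingleton (R ⧸ (⊤ : Ideal R)) := Ideal.Quotient.subsingleton_iff.mpr rfl
      exact Module.length_eq_zero
    · rw [if_pos h, Nat.cast_one]
      have h6 : Ideal.span ({Ideal.smithCoeffs b (Ideal.span {z}) hI i} : Set R) = m := by
        have h7 := (hcase i).resolve_left h
        rw [Ideal.span_singleton_eq_span_singleton.mpr h7, hm]
        exact hϖ.maximalIdeal_eq.symm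
      rw [h6, Module.length_eq_one_iff]
      exact isSimpleModule_iff_isCoatom.mpr (Ideal.isMaximal_def.mp inferInstance)
  have h6 : Module.finrank (R ⧸ m) (S ⧸ Ideal.span {z}) =
      (Finset.univ.filter fun i => ¬ IsUnit (a i)).card := by
    have := h4.symm.trans h5
    exact_mod_cast this
  rw [h6, Finset.prod_ite, Finset.prod_const_one, one_mul, Finset.prod_const]

private theorem P1_core {R K M A S : Type*} [CommRing R] [IsDomain R] [IsDiscreteValuationRing R]
    [Field K] [Field M] [Field A] [Algebra R K] [IsFractionRing R K] [Algebra K M] [Algebra R M]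
    [IsScalarTower R K M] [CommRing S] [IsDedekindDomain S] [Algebra R S] [Algebra S M]
    [IsFractionRing S M] [IsScalarTower R S M] [Module.Finite R S] [Algebra K A]
    [FiniteDimensional K M] [Algebra.IsSeparable K M] [IsAlgClosed A]
    (V : Valuation A ℝ≥0) (hV : ∀ a : R, V (algebraMap K A (algebraMap R K a)) ≤ 1)
    (hV1 : ∀ a : R, V (algebraMap K A (algebraMap R K a)) < 1 ↔ a ∈ IsLocalRing.maximalIdeal R)
    (P : ValuationSubring M) (hP : ∀ a : R, algebraMap R M a ∈ P)
    (hP1 : ∀ a : R, P.valuation (algebraMap R M a) < 1 ↔ a ∈ IsLocalRing.maximalIdeal R)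
    (ϖ : R) (hϖ : Irreducible ϖ) :
    DV P ∧ Nat.card {τ : M →ₐ[K] A // ∀ z : M, V (τ z) ≤ 1 ↔ z ∈ P} =
      (ord P (algebraMap R M ϖ)).toNat *
        Module.finrank (Subfield.closure (Set.range ((IsLocalRing.residue P).comp
          ((algebraMap R M).codRestrict P hP)))) (IsLocalRing.ResidueField P) := by
  classical
  set m := IsLocalRing.maximalIdeal R with hm
  have hm0 : m ≠ ⊥ := IsDiscreteValuationRing.not_a_field R
  have hfs : FaithfulSMul R S := FaithfulSMul.of_field_isFractionRing R S K M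
  have hinj : Function.Injective (algebraMap R S) := FaithfulSMul.algebraMap_injective R S
  have hAM : ∀ a, algebraMap R M a = algebraMap S M (algebraMap R S a) :=
    fun a => IsScalarTower.algebraMap_apply R S M a
  have hAK : ∀ a, algebraMap R M a = algebraMap K M (algebraMap R K a) :=
    fun a => IsScalarTower.algebraMap_apply R K M a
  have hS : ∀ a, algebraMap S M a ∈ P := by
    intro a
    refine LT2_integral P hP _ ?_
    exact (Algebra.IsIntegral.isIntegral (R := R) a).map (IsScalarTower.toAlgHom R S M)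
  set Q : Ideal S := (IsLocalRing.maximalIdeal P).comap ((algebraMap S M).codRestrict P hS)
    with hQdef
  have hmem : ∀ a, a ∈ Q ↔ P.valuation (algebraMap S M a) < 1 := by
    intro a
    rw [hQdef, Ideal.mem_comap]
    exact (ValuationSubring.valuation_lt_one_iff P _)
  have hQp : Q.IsPrime := Ideal.comap_isPrime _ _
  have hQo : Q.LiesOver m := by
    refine ⟨?_⟩
    ext a
    rw [Ideal.mem_comap, hmem, ← hAM, hP1]
  have hQ0 : Q ≠ ⊥ := Ideal.ne_bot_of_liesOver_of_ne_bot hm0 Q
  obtain ⟨O, h1, h2, h3, hdv, h4, h5⟩ := A2_place (M := M) Q hQp hQ0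
  have hPO : P = O := h5 P hS fun a ha => (hmem a).mp ha
  subst hPO
  -- `S` is a principal ideal domain
  have hfinmax : {I : Ideal S | I.IsMaximal}.Finite := by
    refine (IsDedekindDomain.primesOver_finite (p := m) (B := S)).subset ?_
    intro I hI
    have hI' : I.IsMaximal := hI
    have hc : (I.comap (algebraMap R S)).IsMaximal :=
      Ideal.isMaximal_comap_of_isIntegral_of_isMaximal I
    exact ⟨hI'.isPrime, ⟨((IsLocalRing.eq_maximalIdeal hc).symm)⟩⟩
  have hpid : IsPrincipalIdealRing S := IsPrincipalIdealRing.of_finite_maximals hfinmax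
  obtain ⟨z, hz⟩ := hpid.principal Q
  have hz' : Q = Ideal.span {z} := hz
  have hz0 : z ≠ 0 := by
    rintro rfl
    exact hQ0 (by rw [hz', Ideal.span_singleton_eq_bot])
  have hzM : algebraMap S M z ≠ 0 := by
    rwa [Ne, IsFractionRing.to_map_eq_zero_iff]
  have hzQ : z ∈ Q := by
    rw [hz']
    exact Ideal.mem_span_singleton_self z
  have hord : ord P (algebraMap S M z) = 1 := by
    have := h4 z 1 (by rwa [pow_one]) ?_
    · exact_mod_cast this
    · intro h
      rw [hz', Ideal.span_singleton_pow, Ideal.mem_span_singleton] at h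
      obtain ⟨c, hc⟩ := h
      have h6 : z * (1 - z * c) = 0 := by
        linear_combination hc
      rcases mul_eq_zero.mp h6 with h7 | h7
      · exact hz0 h7
      · apply hQp.ne_top
        rw [hz', Ideal.span_singleton_eq_top]
        exact .of_mul_eq_one c (by linear_combination - h7)
  have hϖ0 : algebraMap R M ϖ ≠ 0 := by
    rw [hAM, Ne, IsFractionRing.to_map_eq_zero_iff, ← map_zero (algebraMap R S)]
    exact fun h => hϖ.ne_zero (hinj h)
  have hϖm : ϖ ∈ m := (IsLocalRing.mem_maximalIdeal ϖ).mpr hϖ.not_isUnit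
  have hordϖ : 0 < ord P (algebraMap R M ϖ) := (lt_iff hdv hϖ0).mp ((hP1 ϖ).mpr hϖm)
  set e := (ord P (algebraMap R M ϖ)).toNat with he
  have he' : ord P (algebraMap R M ϖ) = (e : ℤ) := (Int.toNat_of_nonneg hordϖ.le).symm
  set f := Module.finrank (R ⧸ m) (S ⧸ Q) with hf
  have hdeg := LT2_deg m Q P h1 h2 h3 hP
  refine ⟨hdv, ?_⟩
  rw [hdeg, ← hf]
  -- the unit `ϖ / z ^ e`
  set η := algebraMap R M ϖ * (algebraMap S M z ^ e)⁻¹ with hη
  have hze : algebraMap S M z ^ e ≠ 0 := pow_ne_zero _ hzM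
  have hη0 : η ≠ 0 := mul_ne_zero hϖ0 (inv_ne_zero hze)
  have hηu : P.valuation η = 1 := by
    rw [unit_iff hdv hη0, hη, ord_mul hdv hϖ0 (inv_ne_zero hze), ord_inv hdv hze,
      ord_pow hdv hzM, hord, he']
    ring
  have hηz : algebraMap R M ϖ = η * algebraMap S M z ^ e := by
    rw [hη, mul_assoc, inv_mul_cancel₀ hze, mul_one]
  -- the valuation subrings of the embeddings
  let Pt : (M →ₐ[K] A) → ValuationSubring M := fun τ =>
    (V.comap (τ : M →+* A)).valuationSubring
  have hPt : ∀ τ x, x ∈ Pt τ ↔ V (τ x) ≤ 1 := fun τ x => Iff.rfl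
  have hPt1 : ∀ τ x, (Pt τ).valuation x < 1 ↔ V (τ x) < 1 := fun τ x =>
    (Valuation.isEquiv_iff_val_lt_one.mp
      (Valuation.isEquiv_valuation_valuationSubring (V.comap (τ : M →+* A)))).symm
  have hPt2 : ∀ τ x, (Pt τ).valuation x = 1 ↔ V (τ x) = 1 := fun τ x =>
    (Valuation.isEquiv_iff_val_eq_one.mp
      (Valuation.isEquiv_valuation_valuationSubring (V.comap (τ : M →+* A)))).symm
  have hτR : ∀ (τ : M →ₐ[K] A) (a : R), τ (algebraMap R M a) = algebraMap K A (algebraMap R K a) := by
    intro τ a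
    rw [hAK, AlgHom.commutes]
  have hPtS : ∀ τ a, algebraMap S M a ∈ Pt τ := by
    intro τ a
    refine LT2_integral (A := R) (Pt τ) (fun b => ?_) _ ?_
    · rw [hPt, hτR]
      exact hV b
    · exact (Algebra.IsIntegral.isIntegral (R := R) a).map (IsScalarTower.toAlgHom R S M)
  have hiff : ∀ τ : M →ₐ[K] A, (∀ x : M, V (τ x) ≤ 1 ↔ x ∈ P) ↔ V (τ (algebraMap S M z)) < 1 := by
    intro τ
    constructor
    · intro h
      have h6 : Pt τ = P := by
        ext x
        exact (hPt τ x).trans (h x)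
      rw [← hPt1, h6, h2]
      exact hzQ
    · intro h
      have h6 : Pt τ = P := by
        refine h5 (Pt τ) (hPtS τ) fun a ha => ?_
        rw [hz', Ideal.mem_span_singleton] at ha
        obtain ⟨c, rfl⟩ := ha
        rw [hPt1, map_mul, map_mul, map_mul]
        exact mul_lt_one_of_lt_of_le h ((hPt τ _).mp (hPtS τ c))
      intro x
      rw [← h6]
      exact (hPt τ x).symm
  have hval : ∀ τ : M →ₐ[K] A, V (τ (algebraMap S M z)) ^ e =
      if (∀ x : M, V (τ x) ≤ 1 ↔ x ∈ P) then V (algebraMap K A (algebraMap R K ϖ)) else 1 := by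
    intro τ
    split_ifs with h
    · have h6 : Pt τ = P := by
        ext x
        exact (hPt τ x).trans (h x)
      have h7 : V (τ η) = 1 := by
        rw [← hPt2, h6]
        exact hηu
      rw [← hτR τ, hηz, map_mul, map_mul, h7, one_mul, map_pow, map_pow]
    · have h6 : V (τ (algebraMap S M z)) = 1 := by
        refine le_antisymm ((hPt τ _).mp (hPtS τ z)) ?_
        rw [← not_lt]
        exact fun h7 => h ((hiff τ).mpr h7)
      rw [h6, one_pow]
  -- the norm
  have htf : Module.IsTorsionFree R S := inferInstance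
  have hfree : Module.Free R S := inferInstance
  have hnorm : Associated (Algebra.norm R z) (ϖ ^ f) := P1_norm z hz0 Q hz' ϖ hϖ
  have hic : IsIntegralClosure S R M := IsIntegralClosure.of_isIntegrallyClosed S R M
  have hN : algebraMap R K (Algebra.norm R z) = Algebra.norm K (algebraMap S M z) := by
    rw [← Algebra.intNorm_eq_norm, Algebra.algebraMap_intNorm (A := R) (K := K) (L := M) (B := S)]
  have hprod : V (algebraMap K A (algebraMap R K (Algebra.norm R z))) =
      ∏ τ : M →ₐ[K] A, V (τ (algebraMap S M z)) := by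
    rw [hN, Algebra.norm_eq_prod_embeddings, map_prod]
  have hVnorm : V (algebraMap K A (algebraMap R K (Algebra.norm R z))) =
      V (algebraMap K A (algebraMap R K ϖ)) ^ f := by
    obtain ⟨u, hu⟩ := hnorm
    rw [← map_pow, ← map_pow, ← map_pow, ← hu, map_mul, map_mul, map_mul]
    have h6 : V (algebraMap K A (algebraMap R K (u : R))) = 1 := by
      refine le_antisymm (hV _) ?_
      rw [← not_lt, hV1]
      exact fun h7 => ((IsLocalRing.mem_maximalIdeal _).mp h7) u.isUnit
    rw [h6, mul_one]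
  have hcard : V (algebraMap K A (algebraMap R K ϖ)) ^
      Nat.card {τ : M →ₐ[K] A // ∀ z : M, V (τ z) ≤ 1 ↔ z ∈ P} =
      V (algebraMap K A (algebraMap R K ϖ)) ^ (f * e) := by
    rw [pow_mul, ← hVnorm, hprod, ← Finset.prod_pow, Finset.prod_congr rfl fun τ _ => hval τ,
      Finset.prod_ite, Finset.prod_const_one, mul_one, Finset.prod_const, Nat.card_eq_fintype_card,
      Fintype.card_subtype]
  have hpos : 0 < V (algebraMap K A (algebraMap R K ϖ)) := by
    rw [pos_iff_ne_zero, Ne, Valuation.zero_iff, map_eq_zero, IsFractionRing.to_map_eq_zero_iff]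
    exact hϖ.ne_zero
  have hlt : V (algebraMap K A (algebraMap R K ϖ)) < 1 := (hV1 ϖ).mpr hϖm
  have := pow_right_injective₀ hpos hlt.ne hcard
  rw [this, mul_comm]

/-- the valuation ring of a uniformizer -/
private theorem P1_dvr {K : Type*} [Field K] (O : ValuationSubring K) (ϖ : K) (h : IsUf O ϖ) :
    ∃ (_ : IsDiscreteValuationRing O) (hm : ϖ ∈ O), Irreducible (⟨ϖ, hm⟩ : O) := by
  have hdv : DV O := ⟨ϖ, h⟩
  have hord : ord O ϖ = 1 :=
    ord_eq hdv h (η := 1) (e := 1) (map_one _) (by rw [zpow_one, one_mul])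
  have hm : ϖ ∈ O := (mem_iff hdv h.1).mpr (by rw [hord]; norm_num)
  have hu : ∀ x : O, (x : K) ≠ 0 → (IsUnit x ↔ ord O (x : K) = 0) := by
    intro x hx
    rw [← unit_iff hdv hx]
    exact ValuationSubring.valuation_eq_one_iff O x
  have hirr : Irreducible (⟨ϖ, hm⟩ : O) := by
    refine ⟨?_, ?_⟩
    · rw [hu _ h.1, hord]
      norm_num
    · intro a b hab
      have hab' : ϖ = (a : K) * (b : K) := congrArg Subtype.val hab
      have ha : (a : K) ≠ 0 := by
        rintro h0
        exact h.1 (by rw [hab', h0, zero_mul])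
      have hb : (b : K) ≠ 0 := by
        rintro h0
        exact h.1 (by rw [hab', h0, mul_zero])
      rw [hu a ha, hu b hb]
      have h1 := ord_mul hdv ha hb
      rw [← hab', hord] at h1
      have h2 := (mem_iff hdv ha).mp a.2
      have h3 := (mem_iff hdv hb).mp b.2
      omega
  refine ⟨IsDiscreteValuationRing.ofHasUnitMulPowIrreducibleFactorization
    ⟨⟨ϖ, hm⟩, hirr, fun {x} hx => ?_⟩, hm, hirr⟩
  have hx' : (x : K) ≠ 0 := fun h0 => hx (Subtype.ext h0)
  have h2 := (mem_iff hdv hx').mp x.2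
  refine ⟨(ord O (x : K)).toNat, ?_⟩
  have h3 : ((ord O (x : K)).toNat : ℤ) = ord O (x : K) := Int.toNat_of_nonneg h2
  set n := (ord O (x : K)).toNat with hn
  have hpow : ϖ ^ n ≠ 0 := pow_ne_zero _ h.1
  have hy : (x : K) * (ϖ ^ n)⁻¹ ≠ 0 := mul_ne_zero hx' (inv_ne_zero hpow)
  have h4 : ord O ((x : K) * (ϖ ^ n)⁻¹) = 0 := by
    rw [ord_mul hdv hx' (inv_ne_zero hpow), ord_inv hdv hpow, ord_pow hdv h.1, hord, h3]
    ring
  have hmem : (x : K) * (ϖ ^ n)⁻¹ ∈ O := (mem_iff hdv hy).mpr h4.ge
  have hunit : IsUnit (⟨(x : K) * (ϖ ^ n)⁻¹, hmem⟩ : O) := (hu _ hy).mpr h4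
  obtain ⟨u, hu'⟩ := hunit
  refine ⟨u, Subtype.ext ?_⟩
  change ϖ ^ n * ((u : O) : K) = x
  rw [hu']
  change ϖ ^ n * ((x : K) * (ϖ ^ n)⁻¹) = x
  field_simp

theorem place_count {K M A : Type*} [Field K] [Field M] [Field A] [Algebra K M] [Algebra K A]
    [FiniteDimensional K M] [Algebra.IsSeparable K M] [IsAlgClosed A]
    (V : Valuation A ℝ≥0) (ϖ : K) (hϖ : IsUf (O1 K V) ϖ) (P : ValuationSubring M)
    (j : IsLocalRing.ResidueField (O1 K V) →+* IsLocalRing.ResidueField P)
    (hP : Lies V P j) :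
    DV P ∧ Nat.card {τ : M →ₐ[K] A // ∀ z : M, V (τ z) ≤ 1 ↔ z ∈ P} =
      (ord P (algebraMap K M ϖ)).toNat * Module.finrank j.fieldRange (IsLocalRing.ResidueField P) := by
  classical
  obtain ⟨hdvr, hm, hirr⟩ := P1_dvr (O1 K V) ϖ hϖ
  let iM : Algebra (O1 K V) M := ((algebraMap K M).comp (O1 K V).subtype).toAlgebra
  have htow : @IsScalarTower (O1 K V) K M _ _ iM.toSMul :=
    @IsScalarTower.of_algebraMap_eq (O1 K V) K M _ _ _ _ _ iM fun a => rfl
  have hfinM : IsIntegralClosure (integralClosure (O1 K V) M) (O1 K V) M := inferInstance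
  have hded : IsDedekindDomain (integralClosure (O1 K V) M) :=
    integralClosure.isDedekindDomain (O1 K V) K M
  have hfinS : Module.Finite (O1 K V) (integralClosure (O1 K V) M) :=
    IsIntegralClosure.finite (O1 K V) K M (integralClosure (O1 K V) M)
  have hfracS : IsFractionRing (integralClosure (O1 K V) M) M :=
    integralClosure.isFractionRing_of_finite_extension K M
  have hmap : ∀ a : O1 K V, algebraMap (O1 K V) M a = algebraMap K M (a : K) := fun a => rfl
  have hmapK : ∀ a : O1 K V, algebraMap (O1 K V) K a = (a : K) := fun a => rfl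
  have hPm : ∀ a : O1 K V, algebraMap (O1 K V) M a ∈ P := fun a => (hP.mem a).mpr a.2
  have hV : ∀ a : O1 K V, V (algebraMap K A (algebraMap (O1 K V) K a)) ≤ 1 := fun a => a.2
  have hV1 : ∀ a : O1 K V, V (algebraMap K A (algebraMap (O1 K V) K a)) < 1 ↔
      a ∈ IsLocalRing.maximalIdeal (O1 K V) := by
    intro a
    rw [ValuationSubring.valuation_lt_one_iff]
    exact (Valuation.isEquiv_iff_val_lt_one.mp
      (Valuation.isEquiv_valuation_valuationSubring (V.comap (algebraMap K A))))
  have hres : ∀ a : O1 K V, IsLocalRing.residue P ⟨algebraMap (O1 K V) M a, hPm a⟩ =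
      j (IsLocalRing.residue (O1 K V) a) := fun a => (hP.res a).symm
  have hP1 : ∀ a : O1 K V, P.valuation (algebraMap (O1 K V) M a) < 1 ↔
      a ∈ IsLocalRing.maximalIdeal (O1 K V) := by
    intro a
    rw [← IsLocalRing.residue_eq_zero_iff, ← map_eq_zero j, ← hres, IsLocalRing.residue_eq_zero_iff]
    exact (ValuationSubring.valuation_lt_one_iff P ⟨algebraMap (O1 K V) M a, hPm a⟩).symm
  obtain ⟨h1, h2⟩ := P1_core (R := O1 K V) (K := K) (M := M) (A := A)
    (S := integralClosure (O1 K V) M) V hV hV1 P hPm hP1 ⟨ϖ, hm⟩ hirr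
  refine ⟨h1, ?_⟩
  have hF : Subfield.closure (Set.range ((IsLocalRing.residue P).comp
      ((algebraMap (O1 K V) M).codRestrict P hPm))) = j.fieldRange := by
    apply le_antisymm
    · rw [Subfield.closure_le]
      rintro _ ⟨a, rfl⟩
      exact ⟨IsLocalRing.residue (O1 K V) a, (hres a).symm⟩
    · rintro _ ⟨x, rfl⟩
      obtain ⟨a, rfl⟩ := IsLocalRing.residue_surjective x
      rw [← hres]
      exact Subfield.subset_closure ⟨a, rfl⟩
  rw [hF] at h2
  exact h2

end MP2619.N
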