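import Pool.Agent.Lib.MP_2619d0_ag.T.P9

/-!
The parity lemma for lines: the three odd places cannot all be odd.
-/

set_option autoImplicit false

namespace Pool.Agent.Lib.MP_2619d0_ag.T

open MvPolynomial

variable {N : ℕ} {F : MvPolynomial (Fin (N + 1)) ℂ} {L : Type*} [Field L] [Algebra ℂ L]

/-- The place `s = ∞` in the case `δ2 ≠ 0`: with `τ = s⁻¹`, `u_0 = s (x_0 + τ)` and
`ψ f = τ * ((τ δ1 + δ2) / (x_0 + τ) ^ 3)`. -/
theorem ord_infty1 (hF : F.IsHomogeneous 3) (y x : Fin (N + 1) → L) (hy0 : y 0 = 1)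
    (hy : Fc (cL L F) y = 0) (hx : Fc (cL L F) x = 0)
    (hd2 : Dc (cL L F) x y ≠ 0) (hx0 : x 0 ≠ 0)
    (O : ValuationSubring (MM L)) (hL : ∀ a, cM L a ∈ O) (h1 : O.valuation (sv L)⁻¹ < 1)
    (h2 : ∀ b, O.valuation b < 1 → ∃ c ∈ O, b = c * (sv L)⁻¹) :
    HasOrd O (psi y x (dh ℂ N F)) 1 := by
  have hu := uu_zero_ne y x hy0
  have hs : sv L ≠ 0 := P7b_sv_ne
  have hv : O.valuation (cM L (x 0) + (sv L)⁻¹) = 1 := by
    rw [Valuation.map_add_eq_of_lt_left]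
    · exact P7b_unit O hL hx0
    · rw [P7b_unit O hL hx0]
      exact h1
  have hne : cM L (x 0) + (sv L)⁻¹ ≠ 0 := by
    intro h0
    rw [h0, map_zero] at hv
    exact zero_ne_one hv
  have hue : uu y x 0 = sv L * (cM L (x 0) + (sv L)⁻¹) := by
    rw [P7b_uu y x hy0]
    field_simp
    ring
  have hnum : O.valuation (cM L (Dc (cL L F) x y) + (sv L)⁻¹ * cM L (Dc (cL L F) y x)) = 1 := by
    rw [Valuation.map_add_eq_of_lt_left]
    · exact P7b_unit O hL hd2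
    · rw [P7b_unit O hL hd2, map_mul]
      exact mul_lt_of_lt_of_le_one h1 ((O.valuation_le_one_iff _).mpr (hL _))
  refine ⟨(sv L)⁻¹, inv_ne_zero hs, h1, h2,
    (cM L (Dc (cL L F) x y) + (sv L)⁻¹ * cM L (Dc (cL L F) y x)) /
    (cM L (x 0) + (sv L)⁻¹) ^ 3, ?_, ?_⟩
  · rw [map_div₀, map_pow, hnum, hv, one_pow, div_one]
  · have h3 := psi_dh hF y x hu
    rw [Fc_uu y x hy hx, hue] at h3
    have h4 : (sv L * (cM L (x 0) + (sv L)⁻¹)) ^ 3 ≠ 0 := pow_ne_zero 3 (mul_ne_zero hs hne)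
    rw [← mul_left_inj' h4, h3]
    generalize cM L (x 0) + (sv L)⁻¹ = w at hne
    generalize cM L (Dc (cL L F) y x) = δ
    generalize cM L (Dc (cL L F) x y) = δ'
    generalize sv L = s at hs
    field_simp
    ring

/-- The third place, `τ = s + δ1 / δ2`. -/
theorem ord_third (hF : F.IsHomogeneous 3) (y x : Fin (N + 1) → L) (hy0 : y 0 = 1)
    (hy : Fc (cL L F) y = 0) (hx : Fc (cL L F) x = 0) (hd1 : Dc (cL L F) y x ≠ 0)
    (hd2 : Dc (cL L F) x y ≠ 0) (hz0 : third (cL L F) y x 0 ≠ 0)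
    (O : ValuationSubring (MM L)) (hL : ∀ a, cM L a ∈ O)
    (h1 : O.valuation (sv L - cM L (-(Dc (cL L F) y x) / Dc (cL L F) x y)) < 1)
    (h2 : ∀ b, O.valuation b < 1 → ∃ c ∈ O,
      b = c * (sv L - cM L (-(Dc (cL L F) y x) / Dc (cL L F) x y)))
    (hne : sv L - cM L (-(Dc (cL L F) y x) / Dc (cL L F) x y) ≠ 0) :
    HasOrd O (psi y x (dh ℂ N F)) 1 := by
  have hu := uu_zero_ne y x hy0
  obtain ⟨c, hc⟩ : ∃ c, c = -(Dc (cL L F) y x) / Dc (cL L F) x y := ⟨_, rfl⟩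
  rw [← hc] at h1 h2 hne
  have hc0 : c ≠ 0 := by
    rw [hc]
    exact div_ne_zero (neg_ne_zero.mpr hd1) hd2
  have hcD : c * Dc (cL L F) x y = -(Dc (cL L F) y x) := by
    rw [hc, div_mul_cancel₀ _ hd2]
  have hvs : O.valuation (sv L) = 1 := by
    have h3 : sv L = cM L c + (sv L - cM L c) := by ring
    rw [h3, Valuation.map_add_eq_of_lt_left]
    · exact P7b_unit O hL hc0
    · rw [P7b_unit O hL hc0]
      exact h1
  have hz : 1 + c * x 0 ≠ 0 := by
    intro h0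
    apply hz0
    simp only [third, hy0]
    linear_combination (Dc (cL L F) x y) * h0 - x 0 * hcD
  have hvu : O.valuation (uu y x 0) = 1 := by
    have h3 : uu y x 0 = cM L (1 + c * x 0) + (sv L - cM L c) * cM L (x 0) := by
      rw [P7b_uu y x hy0, map_add, map_one, map_mul]
      ring
    rw [h3, Valuation.map_add_eq_of_lt_left]
    · exact P7b_unit O hL hz
    · rw [P7b_unit O hL hz, map_mul]
      exact mul_lt_of_lt_of_le_one h1 ((O.valuation_le_one_iff _).mpr (hL _))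
  refine ⟨sv L - cM L c, hne, h1, h2, sv L * cM L (Dc (cL L F) x y) / uu y x 0 ^ 3, ?_, ?_⟩
  · rw [map_div₀, map_pow, map_mul, hvs, P7b_unit O hL hd2, hvu, one_pow, div_one, one_mul]
  · have h3 := psi_dh hF y x hu
    rw [Fc_uu y x hy hx] at h3
    have h5 : cM L c * cM L (Dc (cL L F) x y) = -cM L (Dc (cL L F) y x) := by
      rw [← map_mul, hcD, map_neg]
    rw [pow_one, div_mul_eq_mul_div, eq_div_iff (pow_ne_zero 3 hu), h3]
    linear_combination (sv L) * h5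

theorem odd_sum3 {ι : Type*} [DecidableEq ι] (s : Finset ι) (g : ι → ℕ) (a b c : ι) (ha : a ∈ s)
    (hb : b ∈ s) (hc : c ∈ s) (hab : a ≠ b) (hac : a ≠ c) (hbc : b ≠ c)
    (h1 : Odd (g a)) (h2 : Odd (g b)) (h3 : Odd (g c))
    (h4 : ∀ d ∈ s, d ≠ a → d ≠ b → d ≠ c → ¬ Odd (g d)) : Odd (∑ d ∈ s, g d) := by
  have hb' : b ∈ s.erase a := Finset.mem_erase.mpr ⟨hab.symm, hb⟩
  have hc' : c ∈ (s.erase a).erase b :=
    Finset.mem_erase.mpr ⟨hbc.symm, Finset.mem_erase.mpr ⟨hac.symm, hc⟩⟩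
  rw [← Finset.add_sum_erase s g ha, ← Finset.add_sum_erase _ g hb',
    ← Finset.add_sum_erase _ g hc']
  refine h1.add_even (h2.add_odd (h3.add_even (Finset.even_sum _ fun d hd => ?_)))
  rw [Finset.mem_erase, Finset.mem_erase, Finset.mem_erase] at hd
  exact Nat.not_odd_iff_even.mp (h4 d hd.2.2.2 hd.2.2.1 hd.2.1 hd.1)

/-- Three odd points on a line contradict an even generic degree. -/
theorem parity3 (hN : 2 ≤ N) (hF : VG F) (y x : Fin (N + 1) → L) (hy0 : y 0 = 1)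
    (hy : Gp F (ev y)) (hodd : Odd (fd (ev y))) (hlin : LinearIndependent L ![y, x])
    (hx : Fc (cL L F) x = 0) (hev : ¬ Odd (fd (psi y x)))
    (hδ1 : Dc (cL L F) y x ≠ 0) (hδ2 : Dc (cL L F) x y ≠ 0)
    (hx0 : x 0 ≠ 0) (hGx : Gp F (ev x)) (hox : Odd (fd (ev x)))
    (hz0 : third (cL L F) y x 0 ≠ 0) (hGz : Gp F (ev (third (cL L F) y x)))
    (hoz : Odd (fd (ev (third (cL L F) y x)))) : False := by
  classical
  have hF3 := hF.1
  have hFy : Fc (cL L F) y = 0 := Fc_of_Gp hF3 y hy0 hy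
  have hfd : fd (ev y) ≠ 0 := by
    intro h
    rw [h] at hodd
    exact absurd hodd (by decide)
  have hy_ne : y ≠ 0 := hlin.ne_zero 0
  have hx_ne : x ≠ 0 := hlin.ne_zero 1
  have hd : Dc (cL L F) y x ≠ 0 ∨ Dc (cL L F) x y ≠ 0 := Or.inl hδ1
  have hinj := psi_injective hN hF y x hy0 hy hx hd
  have hprime := prime_dh hN hF
  have hfdpsi : fd (psi y x) ≠ 0 :=
    psi_finite y x ⟨dh ℂ N F, hprime.ne_zero, (hy _).mpr dvd_rfl⟩ hfd hinj
  obtain ⟨s, e, d, hs, he, hdd, hsum⟩ := places (psi y x) hinj hfdpsi (dh ℂ N F) hprime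
  have hu := uu_zero_ne y x hy0
  -- the place `s = 0`
  obtain ⟨hs0, O0, hL0, hv0, hgen0, hres0, huniq0⟩ :=
    place_at (sv L) (Or.inl ⟨0, by rw [map_zero, sub_zero]⟩)
  have hpo0 := place_over (F := F) O0 hL0 hres0 y x hu 1 y hy_ne (fun i => by
    have : 1 * uu y x i - cM L (y i) = sv L * cM L (x i) := by
      simp only [uu]
      ring
    rw [this]
    exact P9_mul_lt O0 hv0 (hL0 _))
  have hy0' : y 0 ≠ 0 := by rw [hy0]; exact one_ne_zero
  have hOver0 : Over (dh ℂ N F) (psi y x) O0 := hpo0.1.mpr ⟨hy0', hy⟩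
  have hO0s : O0 ∈ s := (hs O0).mpr hOver0
  have hd0 : Odd (d O0) := by
    rw [← hdd O0 hO0s hOver0.1, hpo0.2 hOver0.1 hy0']
    exact hodd
  have he0 : e O0 = 1 :=
    hasOrd_unique (he O0 hO0s) (ord_zero hF3 y x hy0 hFy hx hδ1 O0 hL0 hv0 hgen0)
  -- the place `s = ∞`
  obtain ⟨-, O1, hL1, hv1, hgen1, hres1, huniq1⟩ := place_at (sv L)⁻¹ (Or.inr rfl)
  have hpo1 := place_over (F := F) O1 hL1 hres1 y x hu (sv L)⁻¹ x hx_ne (fun i => by
    have : (sv L)⁻¹ * uu y x i - cM L (x i) = (sv L)⁻¹ * cM L (y i) := by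
      simp only [uu]
      rw [mul_add, ← mul_assoc, inv_mul_cancel₀ hs0]
      ring
    rw [this]
    exact P9_mul_lt O1 hv1 (hL1 _))
  have hOver1 : Over (dh ℂ N F) (psi y x) O1 := hpo1.1.mpr ⟨hx0, hGx⟩
  have hO1s : O1 ∈ s := (hs O1).mpr hOver1
  have hd1 : Odd (d O1) := by
    rw [← hdd O1 hO1s hOver1.1, hpo1.2 hOver1.1 hx0]
    exact hox
  have he1 : e O1 = 1 :=
    hasOrd_unique (he O1 hO1s) (ord_infty1 hF3 y x hy0 hFy hx hδ2 hx0 O1 hL1 hv1 hgen1)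
  -- the third place
  obtain ⟨hne2, O2, hL2, hv2, hgen2, hres2, huniq2⟩ :=
    place_at (sv L - cM L (-(Dc (cL L F) y x) / Dc (cL L F) x y)) (Or.inl ⟨_, rfl⟩)
  have hth0 : third (cL L F) y x ≠ 0 := by
    intro h0
    apply hz0
    rw [h0, Pi.zero_apply]
  have hpo2 := place_over (F := F) O2 hL2 hres2 y x hu (cM L (Dc (cL L F) x y))
    (third (cL L F) y x) hth0 (fun i => by
    have h1 : cM L (-(Dc (cL L F) y x) / Dc (cL L F) x y) * cM L (Dc (cL L F) x y) =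
        -cM L (Dc (cL L F) y x) := by
      rw [← map_mul, div_mul_cancel₀ _ hδ2, map_neg]
    have : cM L (Dc (cL L F) x y) * uu y x i - cM L (third (cL L F) y x i) =
        (sv L - cM L (-(Dc (cL L F) y x) / Dc (cL L F) x y)) *
          cM L (Dc (cL L F) x y * x i) := by
      simp only [uu, third, map_sub, map_mul]
      linear_combination (cM L (x i)) * h1
    rw [this]
    exact P9_mul_lt O2 hv2 (hL2 _))
  have hOver2 : Over (dh ℂ N F) (psi y x) O2 := hpo2.1.mpr ⟨hz0, hGz⟩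
  have hO2s : O2 ∈ s := (hs O2).mpr hOver2
  have hd2 : Odd (d O2) := by
    rw [← hdd O2 hO2s hOver2.1, hpo2.2 hOver2.1 hz0]
    exact hoz
  have he2 : e O2 = 1 := hasOrd_unique (he O2 hO2s)
    (ord_third hF3 y x hy0 hFy hx hδ1 hδ2 hz0 O2 hL2 hv2 hgen2 hne2)
  -- the places are different
  have hc0 : -(Dc (cL L F) y x) / Dc (cL L F) x y ≠ 0 := div_ne_zero (neg_ne_zero.mpr hδ1) hδ2
  have h01 : O0 ≠ O1 := by
    rintro rfl
    have h3 : O0.valuation (sv L * (sv L)⁻¹) < 1 :=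
      P9_mul_lt O0 hv0 ((O0.valuation_le_one_iff _).mp hv1.le)
    rw [mul_inv_cancel₀ hs0, map_one] at h3
    exact lt_irrefl _ h3
  have h02 : O0 ≠ O2 := by
    rintro rfl
    have h3 : O0.valuation (sv L - (sv L - cM L (-(Dc (cL L F) y x) / Dc (cL L F) x y))) < 1 :=
      Valuation.map_sub_lt _ hv0 hv2
    rw [sub_sub_cancel, P7b_unit O0 hL0 hc0] at h3
    exact lt_irrefl _ h3
  have h12 : O1 ≠ O2 := by
    rintro rfl
    have h3 : sv L ∈ O1 := by
      have h4 : sv L = (sv L - cM L (-(Dc (cL L F) y x) / Dc (cL L F) x y)) +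
          cM L (-(Dc (cL L F) y x) / Dc (cL L F) x y) := by ring
      rw [h4]
      exact add_mem ((O1.valuation_le_one_iff _).mp hv2.le) (hL1 _)
    have h5 : O1.valuation ((sv L)⁻¹ * sv L) < 1 := P9_mul_lt O1 hv1 h3
    rw [inv_mul_cancel₀ hs0, map_one] at h5
    exact lt_irrefl _ h5
  apply hev
  rw [← hsum]
  refine odd_sum3 s (fun O => e O * d O) O0 O1 O2 hO0s hO1s hO2s h01 h02 h12 ?_ ?_ ?_ ?_
  · rw [he0, one_mul]; exact hd0
  · rw [he1, one_mul]; exact hd1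
  · rw [he2, one_mul]; exact hd2
  · intro O hOs hn0 hn1 hn2 hOodd
    have hdO : Odd (d O) := (Nat.odd_mul.mp hOodd).2
    have hOver : Over (dh ℂ N F) (psi y x) O := (hs O).mp hOs
    have hLO : ∀ a, cM L a ∈ O := by
      intro a
      by_contra ha
      apply typeB_even hN hF y x hy0 hy hfd hlin O hOver a ha
      rw [hdd O hOs hOver.1]
      exact hdO
    rcases trichotomy hF3 y x hy0 hFy hx hd O hOver hLO with h | h | ⟨-, h⟩
    · exact hn0 (huniq0 O hLO h)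
    · exact hn1 (huniq1 O hLO h)
    · exact hn2 (huniq2 O hLO h)

end Pool.Agent.Lib.MP_2619d0_ag.T
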