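import Pool.Agent.Lib.MP_2619d0_ag.N.S8b
import Pool.Agent.Lib.MP_2619d0_ag.Q3.StableN

/-!
From Theorem N to `ThirdOdd` and to Corollary 2.
-/

set_option autoImplicit false

namespace MP2619.N

universe u

open MvPolynomial Pool.Agent.Lib.MP_2619d0_ag Pool.Agent.Lib.MP_2619d0_ag.T MP2619.R

theorem thirdOdd_of_noSum {m : ℕ} (hm : 1 ≤ m) {F : MvPolynomial (Fin (m+1+1)) ℂ} (hF : VG F)
    (hNS : NoSum.{u} F) : MP2619.Q3.ThirdOdd.{u} F := by
  intro L _ _ y hy hodd x hx hxy hnx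
  exact (addition_law (N := m+1) (by omega) hF hNS y ⟨hy, hodd⟩ x hx hxy).2.mpr
    (fun h => hnx h.1)

end MP2619.N
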