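import Pool.Agent.Lib.MP_2619d0_ag.N.Defs

/-!
Definitions for the rows 2619n-T3a .. T3d, T4a, T4: Gauss norm of polynomials over a field with a real valuation,
even and odd part, elementary symmetric expressions.
-/

set_option autoImplicit false

namespace MP2619.N

open scoped NNReal
open Polynomial

/-- the Gauss norm `max V(p_i) R^i` -/
noncomputable def gn {A : Type*} [Field A] (V : Valuation A ℝ≥0) (R : ℝ≥0) (p : A[X]) : ℝ≥0 :=
  p.support.sup fun i => V (p.coeff i) * R ^ i

/-- the even part of a polynomial -/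
noncomputable def evp {A : Type*} [Field A] (p : A[X]) : A[X] :=
  ∑ i ∈ p.support.filter (fun i => Even i), monomial i (p.coeff i)

/-- the odd part of a polynomial -/
noncomputable def odp {A : Type*} [Field A] (p : A[X]) : A[X] :=
  ∑ i ∈ p.support.filter (fun i => ¬ Even i), monomial i (p.coeff i)

/-- The coefficient of `Y1^i Y0^(d-i)` in `∏_σ (Y1 a_σ - Y0 b_σ)`. -/
noncomputable def esy {A : Type*} [Field A] {I : Type*} [Fintype I] [DecidableEq I] (a b : I → A[X])
    (i : ℕ) : A[X] :=
  ∑ S ∈ Finset.univ.powersetCard i, (∏ σ ∈ S, a σ) * ∏ σ ∈ Finset.univ \ S, (- b σ)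

end MP2619.N
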