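import Pool.Agent.Lib.MP_2619d0_ag.N.T3

/-!
Row 2619n-T3a: elementary properties of the Gauss norm. (`gn_mul` is the Gauss lemma: take the smallest indices
where the maxima are attained; `Polynomial.gaussNorm` may help.)
-/

set_option autoImplicit false

namespace MP2619.N

open scoped NNReal
open Polynomial

variable {A : Type*} [Field A] (V : Valuation A ℝ≥0) (R : ℝ≥0)

private theorem T3a_le (p : A[X]) (i : ℕ) : V (p.coeff i) * R ^ i ≤ gn V R p := by
  unfold gn
  by_cases hi : p.coeff i = 0
  · rw [hi, map_zero, zero_mul]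
    exact zero_le
  · exact Finset.le_sup (f := fun i => V (p.coeff i) * R ^ i) (mem_support_iff.mpr hi)

private theorem T3a_le_of (p : A[X]) (c : ℝ≥0) (h : ∀ i, V (p.coeff i) * R ^ i ≤ c) :
    gn V R p ≤ c :=
  Finset.sup_le fun i _ => h i

private theorem T3a_attained (p : A[X]) : ∃ i, gn V R p = V (p.coeff i) * R ^ i := by
  by_cases hp : p.support.Nonempty
  · obtain ⟨i, _, hi⟩ := Finset.exists_mem_eq_sup p.support hp (fun i => V (p.coeff i) * R ^ i)
    exact ⟨i, hi⟩
  · rw [Finset.not_nonempty_iff_eq_empty, support_eq_empty] at hp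
    refine ⟨0, ?_⟩
    rw [hp]
    simp [gn]

theorem gn_zero : gn V R 0 = 0 := by
  simp [gn]

theorem gn_C (a : A) : gn V R (C a) = V a := by
  apply le_antisymm
  · apply T3a_le_of
    intro i
    rw [coeff_C]
    split_ifs with h
    · rw [h, pow_zero, mul_one]
    · rw [map_zero, zero_mul]
      exact zero_le
  · have h := T3a_le V R (C a) 0
    rwa [coeff_C_zero, pow_zero, mul_one] at h

theorem gn_neg (p : A[X]) : gn V R (-p) = gn V R p := by
  unfold gn
  rw [support_neg]
  refine Finset.sup_congr rfl fun i _ => ?_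
  rw [coeff_neg, Valuation.map_neg]

theorem gn_add (p q : A[X]) : gn V R (p + q) ≤ max (gn V R p) (gn V R q) := by
  apply T3a_le_of
  intro i
  rw [coeff_add]
  calc V (p.coeff i + q.coeff i) * R ^ i ≤ max (V (p.coeff i)) (V (q.coeff i)) * R ^ i :=
        mul_le_mul_left (V.map_add _ _) _
    _ = max (V (p.coeff i) * R ^ i) (V (q.coeff i) * R ^ i) := max_mul _ _ _
    _ ≤ max (gn V R p) (gn V R q) := max_le_max (T3a_le V R p i) (T3a_le V R q i)

theorem gn_add_lt (p q : A[X]) (h : gn V R q < gn V R p) : gn V R (p + q) = gn V R p := by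
  apply le_antisymm
  · have h1 := gn_add V R p q
    rwa [max_eq_left h.le] at h1
  · obtain ⟨i, hi⟩ := T3a_attained V R p
    have h1 : V (q.coeff i) < V (p.coeff i) := by
      by_contra hcon
      rw [not_lt] at hcon
      have h2 : V (p.coeff i) * R ^ i ≤ V (q.coeff i) * R ^ i := mul_le_mul_left hcon _
      have h3 := T3a_le V R q i
      rw [← hi] at h2
      exact absurd (h2.trans h3) (not_le.mpr h)
    have h2 : V ((p + q).coeff i) = V (p.coeff i) := by
      rw [coeff_add]
      exact Valuation.map_add_eq_of_lt_left _ h1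
    rw [hi, ← h2]
    exact T3a_le V R (p + q) i

/-- the valuation as a real absolute value -/
private noncomputable def T3a_abs : AbsoluteValue A ℝ where
  toFun x := (V x : ℝ)
  map_mul' x y := by
    rw [map_mul, NNReal.coe_mul]
  nonneg' x := NNReal.coe_nonneg _
  eq_zero' x := by
    rw [NNReal.coe_eq_zero, Valuation.zero_iff]
  add_le' x y := by
    rw [← NNReal.coe_add, NNReal.coe_le_coe]
    refine (V.map_add x y).trans (max_le ?_ ?_)
    · exact le_self_add
    · exact le_add_self

private theorem T3a_coe (p : A[X]) : ((gn V R p : ℝ≥0) : ℝ) = p.gaussNorm (T3a_abs V) (R : ℝ) := by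
  apply le_antisymm
  · obtain ⟨i, hi⟩ := T3a_attained V R p
    have h := le_gaussNorm (T3a_abs V) p (c := (R : ℝ)) (NNReal.coe_nonneg R) i
    rw [hi, NNReal.coe_mul, NNReal.coe_pow]
    exact h
  · obtain ⟨i, hi⟩ := exists_eq_gaussNorm (T3a_abs V) (R : ℝ) p
    have h := T3a_le V R p i
    rw [← NNReal.coe_le_coe, NNReal.coe_mul, NNReal.coe_pow] at h
    rw [hi]
    exact h

theorem gn_mul (hR : 0 < R) (p q : A[X]) : gn V R (p * q) = gn V R p * gn V R q := by
  have hna : IsNonarchimedean (T3a_abs V) := by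
    intro x y
    change (V (x + y) : ℝ) ≤ max (V x : ℝ) (V y : ℝ)
    rw [← NNReal.coe_max, NNReal.coe_le_coe]
    exact V.map_add x y
  have h := gaussNorm_mul hna (c := (R : ℝ)) (by exact_mod_cast hR) p q
  rw [← T3a_coe, ← T3a_coe, ← T3a_coe, ← NNReal.coe_mul, NNReal.coe_inj] at h
  exact h

theorem gn_pos (hR : 0 < R) (p : A[X]) (hp : p ≠ 0) : 0 < gn V R p := by
  obtain ⟨i, hi⟩ : ∃ i, p.coeff i ≠ 0 := by
    by_contra hcon
    push Not at hcon
    exact hp (ext fun i => by rw [hcon i, coeff_zero])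
  refine lt_of_lt_of_le ?_ (T3a_le V R p i)
  exact mul_pos (zero_lt_iff.mpr ((Valuation.ne_zero_iff _).mpr hi)) (pow_pos hR i)

end MP2619.N
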