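import Pool.Agent.Lib.MP_2619d0_ag.N.T3a

/-!
Row 2619n-T3b: dominant parity. If no root `ρ i` has norm `R` then `∏ (X - ρ i)` has a unique term of maximal
norm, of degree `a = #{i : V (ρ i) < R}` (induction on `N`: multiply by `X - ρ`, `V ρ < R` or `V ρ > R`).
-/

set_option autoImplicit false

namespace MP2619.N

open scoped NNReal
open Polynomial

variable {A : Type*} [Field A] (V : Valuation A ℝ≥0) (R : ℝ≥0)

private theorem T3b_step_lt (p : A[X]) (r : A) (a : ℕ) (hR : 0 < R) (hr : V r < R)
    (h : ∀ j, j ≠ a → V (p.coeff j) * R ^ j < V (p.coeff a) * R ^ a) (j : ℕ) (hj : j ≠ a + 1) :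
    V (((X - C r) * p).coeff j) * R ^ j < V (((X - C r) * p).coeff (a + 1)) * R ^ (a + 1) := by
  have hpos : 0 < V (p.coeff a) * R ^ a := lt_of_le_of_lt zero_le (h (a + 1) (by omega))
  have hle : ∀ j, V (p.coeff j) * R ^ j ≤ V (p.coeff a) * R ^ a := by
    intro j
    rcases eq_or_ne j a with rfl | hj
    · exact le_rfl
    · exact (h j hj).le
  have hc : ∀ j, ((X - C r) * p).coeff (j + 1) = p.coeff j - r * p.coeff (j + 1) := by
    intro j
    rw [sub_mul, coeff_sub, coeff_X_mul, coeff_C_mul]
  have h0 : ((X - C r) * p).coeff 0 = - (r * p.coeff 0) := by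
    rw [sub_mul, coeff_sub, coeff_C_mul, mul_coeff_zero, coeff_X_zero]
    ring
  have hsmall : ∀ j, V (r * p.coeff j) * R ^ j < (V (p.coeff a) * R ^ a) * R := by
    intro j
    rw [map_mul, mul_assoc]
    calc V r * (V (p.coeff j) * R ^ j) ≤ V r * (V (p.coeff a) * R ^ a) :=
          mul_le_mul' le_rfl (hle j)
      _ < R * (V (p.coeff a) * R ^ a) := mul_lt_mul_of_pos_right hr hpos
      _ = (V (p.coeff a) * R ^ a) * R := mul_comm _ _
  have hmain : V (((X - C r) * p).coeff (a + 1)) * R ^ (a + 1) = (V (p.coeff a) * R ^ a) * R := by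
    have hlt : V (r * p.coeff (a + 1)) < V (p.coeff a) := by
      have h1 := hsmall (a + 1)
      have h2 : (V (p.coeff a) * R ^ a) * R = V (p.coeff a) * R ^ (a + 1) := by
        rw [pow_succ, mul_assoc]
      rw [h2] at h1
      exact lt_of_mul_lt_mul_right h1 zero_le
    rw [hc, Valuation.map_sub_eq_of_lt_left V hlt, pow_succ, mul_assoc]
  rw [hmain]
  rcases j with _ | j
  · rw [h0, Valuation.map_neg]
    exact hsmall 0
  · rw [hc]
    have hja : j ≠ a := by omega
    have h1 : V (p.coeff j - r * p.coeff (j + 1)) ≤ max (V (p.coeff j)) (V (r * p.coeff (j + 1))) :=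
      Valuation.map_sub V _ _
    refine lt_of_le_of_lt (mul_le_mul' h1 le_rfl) ?_
    rcases le_total (V (p.coeff j)) (V (r * p.coeff (j + 1))) with h2 | h2
    · rw [max_eq_right h2]
      exact hsmall (j + 1)
    · rw [max_eq_left h2, pow_succ, ← mul_assoc]
      exact mul_lt_mul_of_pos_right (h j hja) hR

private theorem T3b_step_gt (p : A[X]) (r : A) (a : ℕ) (hr : R < V r)
    (h : ∀ j, j ≠ a → V (p.coeff j) * R ^ j < V (p.coeff a) * R ^ a) (j : ℕ) (hj : j ≠ a) :
    V (((X - C r) * p).coeff j) * R ^ j < V (((X - C r) * p).coeff a) * R ^ a := by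
  have hpos : 0 < V (p.coeff a) * R ^ a := lt_of_le_of_lt zero_le (h (a + 1) (by omega))
  have hrpos : 0 < V r := lt_of_le_of_lt zero_le hr
  have hle : ∀ j, V (p.coeff j) * R ^ j ≤ V (p.coeff a) * R ^ a := by
    intro j
    rcases eq_or_ne j a with rfl | hj
    · exact le_rfl
    · exact (h j hj).le
  have hc : ∀ j, ((X - C r) * p).coeff (j + 1) = p.coeff j - r * p.coeff (j + 1) := by
    intro j
    rw [sub_mul, coeff_sub, coeff_X_mul, coeff_C_mul]
  have h0 : ((X - C r) * p).coeff 0 = - (r * p.coeff 0) := by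
    rw [sub_mul, coeff_sub, coeff_C_mul, mul_coeff_zero, coeff_X_zero]
    ring
  -- terms coming from `X * p`
  have hX : ∀ j, V (p.coeff j) * R ^ (j + 1) < V r * (V (p.coeff a) * R ^ a) := by
    intro j
    calc V (p.coeff j) * R ^ (j + 1) = R * (V (p.coeff j) * R ^ j) := by rw [pow_succ]; ring
      _ ≤ R * (V (p.coeff a) * R ^ a) := mul_le_mul' le_rfl (hle j)
      _ < V r * (V (p.coeff a) * R ^ a) := mul_lt_mul_of_pos_right hr hpos
  have hmain : V (((X - C r) * p).coeff a) * R ^ a = V r * (V (p.coeff a) * R ^ a) := by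
    rcases a with _ | a
    · rw [h0, Valuation.map_neg, map_mul, mul_assoc]
    · have hlt : V (p.coeff a) < V (r * p.coeff (a + 1)) := by
        have h1 := hX a
        rw [← mul_assoc, ← map_mul] at h1
        exact lt_of_mul_lt_mul_right h1 zero_le
      rw [hc, Valuation.map_sub_eq_of_lt_right V hlt, map_mul, mul_assoc]
  rw [hmain]
  have hown : V (r * p.coeff j) * R ^ j < V r * (V (p.coeff a) * R ^ a) := by
    rw [map_mul, mul_assoc]
    exact mul_lt_mul_of_pos_left (h j hj) hrpos
  rcases j with _ | j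
  · rw [h0, Valuation.map_neg]
    exact hown
  · rw [hc]
    have h1 : V (p.coeff j - r * p.coeff (j + 1)) ≤ max (V (p.coeff j)) (V (r * p.coeff (j + 1))) :=
      Valuation.map_sub V _ _
    refine lt_of_le_of_lt (mul_le_mul' h1 le_rfl) ?_
    rcases le_total (V (p.coeff j)) (V (r * p.coeff (j + 1))) with h2 | h2
    · rw [max_eq_right h2]
      exact hown
    · rw [max_eq_left h2]
      exact hX j

private theorem T3b_dom {ι : Type*} [DecidableEq ι] (s : Finset ι) (ρ : ι → A) (hR : 0 < R)
    (hne : ∀ i ∈ s, V (ρ i) ≠ R) : ∀ j, j ≠ (s.filter fun i => V (ρ i) < R).card →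
    V ((∏ i ∈ s, (X - C (ρ i))).coeff j) * R ^ j <
      V ((∏ i ∈ s, (X - C (ρ i))).coeff (s.filter fun i => V (ρ i) < R).card) *
        R ^ (s.filter fun i => V (ρ i) < R).card := by
  induction s using Finset.induction_on with
  | empty =>
    intro j hj
    simp only [Finset.filter_empty, Finset.card_empty, ne_eq] at hj
    simp [coeff_one, hj]
  | insert i s hi ih =>
    have ih' := ih (fun k hk => hne k (Finset.mem_insert_of_mem hk))
    have hnei : V (ρ i) ≠ R := hne i (Finset.mem_insert_self i s)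
    rw [Finset.prod_insert hi]
    rcases lt_or_gt_of_ne hnei with h | h
    · have hcard : ((insert i s).filter fun i => V (ρ i) < R).card =
          (s.filter fun i => V (ρ i) < R).card + 1 := by
        rw [Finset.filter_insert, if_pos h, Finset.card_insert_of_notMem]
        intro hmem
        exact hi (Finset.mem_filter.mp hmem).1
      rw [hcard]
      exact T3b_step_lt V R _ (ρ i) _ hR h ih'
    · have hcard : ((insert i s).filter fun i => V (ρ i) < R).card =
          (s.filter fun i => V (ρ i) < R).card := by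
        rw [Finset.filter_insert, if_neg (not_lt.mpr h.le)]
      rw [hcard]
      exact T3b_step_gt V R _ (ρ i) _ h ih'

/-- unique dominant term -/
theorem gn_dom {N : ℕ} (ρ : Fin N → A) (hR : 0 < R) (hne : ∀ i, V (ρ i) ≠ R) (j : ℕ)
    (hj : j ≠ (Finset.univ.filter fun i => V (ρ i) < R).card) :
    V ((∏ i, (X - C (ρ i))).coeff j) * R ^ j <
      V ((∏ i, (X - C (ρ i))).coeff (Finset.univ.filter fun i => V (ρ i) < R).card) *
        R ^ (Finset.univ.filter fun i => V (ρ i) < R).card :=
  T3b_dom V R Finset.univ ρ hR (fun i _ => hne i) j hj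

private theorem T3b_coeff_evp (p : A[X]) (j : ℕ) :
    (evp p).coeff j = if Even j then p.coeff j else 0 := by
  unfold evp
  rw [finsetSum_coeff]
  simp only [coeff_monomial]
  by_cases hj : j ∈ p.support.filter (fun i => Even i)
  · rw [Finset.sum_eq_single_of_mem j hj (fun b _ hb => by simp [hb])]
    simp [(Finset.mem_filter.mp hj).2]
  · rw [Finset.sum_eq_zero]
    · by_cases he : Even j
      · have : j ∉ p.support := fun hm => hj (Finset.mem_filter.mpr ⟨hm, he⟩)
        simp [he, notMem_support_iff.mp this]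
      · simp [he]
    · intro b hb
      have : b ≠ j := fun h => hj (h ▸ hb)
      simp [this]

private theorem T3b_coeff_odp (p : A[X]) (j : ℕ) :
    (odp p).coeff j = if Even j then 0 else p.coeff j := by
  unfold odp
  rw [finsetSum_coeff]
  simp only [coeff_monomial]
  by_cases hj : j ∈ p.support.filter (fun i => ¬ Even i)
  · rw [Finset.sum_eq_single_of_mem j hj (fun b _ hb => by simp [hb])]
    simp [(Finset.mem_filter.mp hj).2]
  · rw [Finset.sum_eq_zero]
    · by_cases he : Even j
      · simp [he]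
      · have : j ∉ p.support := fun hm => hj (Finset.mem_filter.mpr ⟨hm, he⟩)
        simp [he, notMem_support_iff.mp this]
    · intro b hb
      have : b ≠ j := fun h => hj (h ▸ hb)
      simp [this]

private theorem T3b_le_gn (p : A[X]) (j : ℕ) : V (p.coeff j) * R ^ j ≤ gn V R p := by
  by_cases hj : j ∈ p.support
  · exact Finset.le_sup (f := fun i => V (p.coeff i) * R ^ i) hj
  · rw [notMem_support_iff.mp hj]
    simp

theorem gn_even {N : ℕ} (ρ : Fin N → A) (hR : 0 < R) (hne : ∀ i, V (ρ i) ≠ R)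
    (h : Even (Finset.univ.filter fun i => V (ρ i) < R).card) :
    gn V R (odp (∏ i, (X - C (ρ i)))) < gn V R (evp (∏ i, (X - C (ρ i)))) := by
  have hd := gn_dom V R ρ hR hne
  set a := (Finset.univ.filter fun i => V (ρ i) < R).card with ha
  set p := ∏ i, (X - C (ρ i)) with hp
  have hpos : 0 < V (p.coeff a) * R ^ a := lt_of_le_of_lt zero_le (hd (a + 1) (by omega))
  have h1 : V (p.coeff a) * R ^ a ≤ gn V R (evp p) := by
    have h2 := T3b_le_gn V R (evp p) a
    rwa [T3b_coeff_evp, if_pos h] at h2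
  refine lt_of_lt_of_le ?_ h1
  unfold gn
  rw [Finset.sup_lt_iff (by simpa using hpos)]
  intro j _
  rw [T3b_coeff_odp]
  by_cases he : Even j
  · simpa [he] using hpos
  · rw [if_neg he]
    exact hd j (fun h' => he (h' ▸ h))

theorem gn_odd {N : ℕ} (ρ : Fin N → A) (hR : 0 < R) (hne : ∀ i, V (ρ i) ≠ R)
    (h : ¬ Even (Finset.univ.filter fun i => V (ρ i) < R).card) :
    gn V R (evp (∏ i, (X - C (ρ i)))) < gn V R (odp (∏ i, (X - C (ρ i)))) := by
  have hd := gn_dom V R ρ hR hne
  set a := (Finset.univ.filter fun i => V (ρ i) < R).card with ha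
  set p := ∏ i, (X - C (ρ i)) with hp
  have hpos : 0 < V (p.coeff a) * R ^ a := lt_of_le_of_lt zero_le (hd (a + 1) (by omega))
  have h1 : V (p.coeff a) * R ^ a ≤ gn V R (odp p) := by
    have h2 := T3b_le_gn V R (odp p) a
    rwa [T3b_coeff_odp, if_neg h] at h2
  refine lt_of_lt_of_le ?_ h1
  unfold gn
  rw [Finset.sup_lt_iff (by simpa using hpos)]
  intro j _
  rw [T3b_coeff_evp]
  by_cases he : Even j
  · rw [if_pos he]
    exact hd j (fun h' => h (h' ▸ he))
  · simpa [he] using hpos

end MP2619.N
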